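import Pool.Agent.Lib.MP_30aac3_nt.Defs

/-!
Absolute heights on `ℙⁿ(ℚ̄)` and their expression as finite sums of local terms given by
absolute values on `ℚ̄`.
-/

open NumberField Height

namespace Pool.Agent.VCH

section ext

variable {K L : Type*} [Field K] [NumberField K] [Field L] [NumberField L] [Algebra K L]

lemma prod_mult_eq_prod_embeddings {M : Type*} [CommMonoid M] (g : InfinitePlace K → M) :
    ∏ w : InfinitePlace K, g w ^ w.mult = ∏ φ : K →+* ℂ, g (InfinitePlace.mk φ) := by
  classical
  rw [← Finset.prod_fiberwise (s := Finset.univ) (g := InfinitePlace.mk)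
    (f := fun φ : K →+* ℂ => g (InfinitePlace.mk φ))]
  refine Finset.prod_congr rfl fun w _ => ?_
  rw [← InfinitePlace.card_filter_mk_eq w, ← Finset.prod_const]
  refine Finset.prod_congr rfl fun φ hφ => ?_
  rw [(Finset.mem_filter.mp hφ).2]

lemma prod_embeddings_ext {M : Type*} [CommMonoid M] (f : (K →+* ℂ) → M) :
    ∏ φ : L →+* ℂ, f (φ.comp (algebraMap K L)) =
      (∏ ψ : K →+* ℂ, f ψ) ^ (Module.finrank K L) := by
  classical
  rw [← Finset.prod_fiberwise (s := Finset.univ)
    (g := fun φ : L →+* ℂ => φ.comp (algebraMap K L))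
    (f := fun φ : L →+* ℂ => f (φ.comp (algebraMap K L))), ← Finset.prod_pow]
  refine Finset.prod_congr rfl fun ψ _ => ?_
  have hcard : Finset.card {φ : L →+* ℂ | φ.comp (algebraMap K L) = ψ} = Module.finrank K L := by
    letI : Algebra K ℂ := ψ.toAlgebra
    rw [← AlgHom.card K L ℂ]
    symm
    refine Finset.card_bij (s := Finset.univ) (t := Finset.univ.filter _)
      (fun (φ : L →ₐ[K] ℂ) _ => (φ : L →+* ℂ)) ?_ ?_ ?_
    · intro φ _
      rw [Finset.mem_filter]
      refine ⟨Finset.mem_univ _, ?_⟩
      ext x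
      exact φ.commutes x
    · intro φ _ φ' _ h
      exact AlgHom.coe_ringHom_injective h
    · intro φ hφ
      rw [Finset.mem_filter] at hφ
      refine ⟨⟨φ, fun x => ?_⟩, Finset.mem_univ _, ?_⟩
      · exact RingHom.congr_fun hφ.2 x
      · rfl
  rw [← hcard, ← Finset.prod_const]
  refine Finset.prod_congr rfl fun φ hφ => ?_
  rw [(Finset.mem_filter.mp hφ).2]

lemma prod_infinite_ext {ι : Type*} (x : ι → K) :
    ∏ w : InfinitePlace L, (⨆ i, w (algebraMap K L (x i))) ^ w.mult =
      (∏ v : InfinitePlace K, (⨆ i, v (x i)) ^ v.mult) ^ (Module.finrank K L) := by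
  rw [prod_mult_eq_prod_embeddings (K := L) (g := fun w => ⨆ i, w (algebraMap K L (x i))),
    prod_mult_eq_prod_embeddings (K := K) (g := fun v => ⨆ i, v (x i)),
    ← prod_embeddings_ext (L := L)]
  rfl

variable {ι : Type*} [Finite ι]

lemma mulHeight_mul_absNorm {x : ι → 𝓞 K} (hx : x ≠ 0) :
    mulHeight (fun i => (x i : K)) * (Ideal.span (Set.range x)).absNorm =
      ∏ v : InfinitePlace K, (⨆ i, v (x i)) ^ v.mult := by
  have hx' : (fun i => (x i : K)) ≠ 0 := by
    obtain ⟨i, hi⟩ := Function.ne_iff.mp hx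
    exact Function.ne_iff.mpr ⟨i, by simpa using hi⟩
  rw [NumberField.mulHeight_eq hx', mul_assoc, mul_comm (∏ᶠ _, _),
    NumberField.absNorm_mul_finprod_finitePlace_eq_one hx, mul_one]

lemma mulHeight_ext_int {x : ι → 𝓞 K} (hx : x ≠ 0) :
    mulHeight (fun i => algebraMap K L (x i)) =
      mulHeight (fun i => (x i : K)) ^ (Module.finrank K L) := by
  have h1 := mulHeight_mul_absNorm (K := K) hx
  let y : ι → 𝓞 L := fun i => algebraMap (𝓞 K) (𝓞 L) (x i)
  have hy : y ≠ 0 := by
    obtain ⟨i, hi⟩ := Function.ne_iff.mp hx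
    refine Function.ne_iff.mpr ⟨i, ?_⟩
    intro h
    apply hi
    have := FaithfulSMul.algebraMap_injective (𝓞 K) (𝓞 L)
    apply this
    rw [Pi.zero_apply, map_zero]
    exact h
  have h2 := mulHeight_mul_absNorm (K := L) hy
  have hyx : (fun i => (y i : L)) = fun i => algebraMap K L (x i) := by
    funext i
    exact (IsScalarTower.algebraMap_apply (𝓞 K) (𝓞 L) L (x i)).symm.trans
      (IsScalarTower.algebraMap_apply (𝓞 K) K L (x i))
  have h3 : Ideal.span (Set.range y) = (Ideal.span (Set.range x)).map (algebraMap (𝓞 K) (𝓞 L)) := by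
    rw [Ideal.map_span]
    congr 1
    ext z
    simp [y]
  rw [h3, Ideal.absNorm_algebraMap, hyx] at h2
  have h4 : ∏ v : InfinitePlace L, (⨆ i, v (y i : L)) ^ v.mult =
      ∏ v : InfinitePlace L, (⨆ i, v (algebraMap K L (x i))) ^ v.mult := by
    refine Finset.prod_congr rfl fun v _ => ?_
    congr 2
  rw [h4, prod_infinite_ext, ← h1, mul_pow] at h2
  have hfr : Module.finrank (𝓞 K) (𝓞 L) = Module.finrank K L :=
    (IsFractionRing.finrank_eq (𝓞 K) K (𝓞 L) L).symm
  rw [hfr] at h2
  push_cast at h2
  have h5 : ((Ideal.span (Set.range x)).absNorm : ℝ) ^ Module.finrank K L ≠ 0 := by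
    have : (Ideal.span (Set.range x)).absNorm ≠ 0 := by
      rw [Ne, Ideal.absNorm_eq_zero_iff, Ideal.span_eq_bot]
      intro h
      apply hx
      funext i
      exact h _ ⟨i, rfl⟩
    positivity
  exact mul_right_cancel₀ h5 h2

lemma mulHeight_ext (x : ι → K) :
    mulHeight (fun i => algebraMap K L (x i)) = mulHeight x ^ (Module.finrank K L) := by
  by_cases hx : x = 0
  · subst hx
    have : (fun i : ι => algebraMap K L ((0 : ι → K) i)) = 0 := by funext i; simp
    rw [this]; simp
  · haveI := Fintype.ofFinite ι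
    obtain ⟨b, hb⟩ := IsLocalization.exist_integer_multiples_of_finite (nonZeroDivisors (𝓞 K)) x
    choose y hy using hb
    have hb0 : ((b : 𝓞 K) : K) ≠ 0 := by
      have := nonZeroDivisors.coe_ne_zero b
      simpa using this
    have hyx : (fun i => (y i : K)) = ((b : 𝓞 K) : K) • x := by
      funext i
      have := hy i
      rw [Algebra.smul_def] at this
      exact this
    have hy0 : y ≠ 0 := by
      intro h
      apply hx
      have h2 : ((b : 𝓞 K) : K) • x = 0 := by
        rw [← hyx, h]; funext i; simp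
      exact (smul_eq_zero.mp h2).resolve_left hb0
    have h1 := mulHeight_ext_int (K := K) (L := L) hy0
    rw [hyx, mulHeight_smul_eq_mulHeight x hb0] at h1
    have h2 : (fun i => algebraMap K L (y i)) = algebraMap K L ((b : 𝓞 K) : K) •
        fun i => algebraMap K L (x i) := by
      funext i
      have := congrFun hyx i
      rw [Pi.smul_apply, smul_eq_mul, ← map_mul]
      congr 1
    rw [h2, mulHeight_smul_eq_mulHeight] at h1
    · exact h1
    · simpa using hb0

lemma logHeight_ext (x : ι → K) :
    logHeight (fun i => algebraMap K L (x i)) = Module.finrank K L * logHeight x := by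
  rw [logHeight_eq_log_mulHeight, logHeight_eq_log_mulHeight, mulHeight_ext, Real.log_pow]

end ext

section absolute

variable {ι : Type*} [Finite ι]

lemma absHt_eq (K : IntermediateField ℚ Qb) [NumberField K] (x : ι → K) :
    absHt (fun i => (x i : Qb)) = logHeight x / Module.finrank ℚ K := by
  have hle : IntermediateField.adjoin ℚ (Set.range fun i => (x i : Qb)) ≤ K := by
    rw [IntermediateField.adjoin_le_iff]
    rintro _ ⟨i, rfl⟩
    exact (x i).2
  letI : Algebra (IntermediateField.adjoin ℚ (Set.range fun i => (x i : Qb))) K :=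
    (IntermediateField.inclusion hle).toRingHom.toAlgebra
  haveI : IsScalarTower ℚ (IntermediateField.adjoin ℚ (Set.range fun i => (x i : Qb))) K :=
    IsScalarTower.of_algebraMap_eq fun q => rfl
  have h1 := logHeight_ext (L := K) (fun i => (⟨x i, IntermediateField.subset_adjoin ℚ _ ⟨i, rfl⟩⟩ :
    IntermediateField.adjoin ℚ (Set.range fun i => (x i : Qb))))
  have h2 : (fun i => algebraMap (IntermediateField.adjoin ℚ (Set.range fun i => (x i : Qb))) K
    (⟨x i, IntermediateField.subset_adjoin ℚ _ ⟨i, rfl⟩⟩ :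
    IntermediateField.adjoin ℚ (Set.range fun i => (x i : Qb)))) = x := by
    funext i
    rfl
  rw [h2] at h1
  unfold absHt
  have hfd : FiniteDimensional (IntermediateField.adjoin ℚ (Set.range fun i => (x i : Qb))) K :=
    FiniteDimensional.right ℚ _ _
  have hfr : Module.Free (IntermediateField.adjoin ℚ (Set.range fun i => (x i : Qb))) K :=
    Module.Free.of_divisionRing _ _
  have hmm : Module.finrank ℚ (IntermediateField.adjoin ℚ (Set.range fun i => (x i : Qb))) *
      Module.finrank (IntermediateField.adjoin ℚ (Set.range fun i => (x i : Qb))) K =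
      Module.finrank ℚ K := Module.finrank_mul_finrank ℚ
    (IntermediateField.adjoin ℚ (Set.range fun i => (x i : Qb))) K
  rw [h1, ← hmm]
  have h3 : (Module.finrank ℚ (IntermediateField.adjoin ℚ (Set.range fun i => (x i : Qb))) : ℝ) ≠ 0
    := by exact_mod_cast Module.finrank_pos.ne'
  have h4 : (Module.finrank (IntermediateField.adjoin ℚ (Set.range fun i => (x i : Qb))) K : ℝ) ≠ 0
    := by
    haveI : FiniteDimensional (IntermediateField.adjoin ℚ (Set.range fun i => (x i : Qb))) K :=
      FiniteDimensional.right ℚ _ _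
    exact_mod_cast Module.finrank_pos.ne'
  push_cast
  field_simp

lemma absHt_nonneg (x : ι → Qb) : 0 ≤ absHt x := by
  unfold absHt
  exact div_nonneg (logHeight_nonneg _) (Nat.cast_nonneg _)

lemma absHt_subsingleton [Subsingleton ι] (x : ι → Qb) : absHt x = 0 := by
  unfold absHt
  rw [logHeight_eq_zero_of_subsingleton, zero_div]

lemma absHt_smul {c : Qb} (hc : c ≠ 0) (x : ι → Qb) : absHt (c • x) = absHt x := by
  let K : IntermediateField ℚ Qb := IntermediateField.adjoin ℚ (Set.range x ∪ {c})
  have hfin : (Set.range x ∪ {c}).Finite := (Set.finite_range x).union (Set.finite_singleton c)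
  have : Finite ↑(Set.range x ∪ {c}) := hfin
  have hfd : FiniteDimensional ℚ K := IntermediateField.finiteDimensional_adjoin fun y _ =>
    instAlgQb.isIntegral.isIntegral y
  have hnf : NumberField K := {}
  let y : ι → K := fun i => ⟨x i, IntermediateField.subset_adjoin ℚ _ (Or.inl ⟨i, rfl⟩)⟩
  let c' : K := ⟨c, IntermediateField.subset_adjoin ℚ _ (Or.inr rfl)⟩
  have hc' : c' ≠ 0 := fun h => hc (congrArg Subtype.val h)
  have h1 : absHt x = logHeight y / Module.finrank ℚ K := absHt_eq K y
  have h2 : absHt (c • x) = logHeight (c' • y) / Module.finrank ℚ K := absHt_eq K (c' • y)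
  rw [h1, h2, logHeight_smul_eq_logHeight y hc']

end absolute

section extend

lemma exists_ext_nonarch {K C Ω : Type*} [Field K] [NontriviallyNormedField C]
    [IsUltrametricDist C] [CompleteSpace C] (e : K →+* C) [Field Ω] [Algebra K Ω]
    [Algebra.IsAlgebraic K Ω] :
    ∃ μ : AbsoluteValue Ω ℝ, IsNonarchimedean μ ∧ ∀ x : K, μ (algebraMap K Ω x) = ‖e x‖ := by
  letI : Algebra K (AlgebraicClosure C) := ((algebraMap C (AlgebraicClosure C)).comp e).toAlgebra
  let g : Ω →ₐ[K] AlgebraicClosure C := IsAlgClosed.lift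
  refine ⟨{ toFun := fun y => spectralMulAlgNorm C (AlgebraicClosure C) (g y)
            map_mul' := fun x y => by rw [map_mul, map_mul]
            nonneg' := fun x => apply_nonneg _ _
            eq_zero' := fun x => ?_
            add_le' := fun x y => by rw [map_add]; exact map_add_le_add _ _ _ }, ?_, ?_⟩
  · rw [map_eq_zero_iff_eq_zero, map_eq_zero]
  · intro x y
    show spectralMulAlgNorm C (AlgebraicClosure C) (g (x + y)) ≤ _
    rw [map_add]
    exact isNonarchimedean_spectralNorm (g x) (g y)
  · intro x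
    show spectralMulAlgNorm C (AlgebraicClosure C) (g (algebraMap K Ω x)) = _
    rw [AlgHom.commutes]
    exact spectralNorm_extends (e x)

lemma exists_ext_arch {K Ω : Type*} [Field K] (e : K →+* ℂ) [Field Ω] [Algebra K Ω]
    [Algebra.IsAlgebraic K Ω] :
    ∃ μ : AbsoluteValue Ω ℝ, ∀ x : K, μ (algebraMap K Ω x) = ‖e x‖ := by
  letI : Algebra K ℂ := e.toAlgebra
  let g : Ω →ₐ[K] ℂ := IsAlgClosed.lift
  refine ⟨{ toFun := fun y => ‖g y‖
            map_mul' := fun x y => by rw [map_mul, norm_mul]
            nonneg' := fun x => norm_nonneg _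
            eq_zero' := fun x => by rw [norm_eq_zero, map_eq_zero]
            add_le' := fun x y => by rw [map_add]; exact norm_add_le _ _ }, ?_⟩
  intro x
  show ‖g (algebraMap K Ω x)‖ = _
  rw [AlgHom.commutes]
  rfl

lemma exists_ext_infinitePlace (K : IntermediateField ℚ Qb) [NumberField K] (v : InfinitePlace K) :
    ∃ μ : AbsoluteValue Qb ℝ, ∀ x : K, μ x = v x := by
  haveI : Algebra.IsAlgebraic K Qb := Algebra.IsAlgebraic.tower_top (K := ℚ) K
  obtain ⟨μ, hμ⟩ := exists_ext_arch (Ω := Qb) v.embedding
  refine ⟨μ, fun x => ?_⟩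
  have := hμ x
  rw [InfinitePlace.norm_embedding_eq] at this
  exact this

lemma exists_ext_finitePlace (K : IntermediateField ℚ Qb) [NumberField K] (v : FinitePlace K) :
    ∃ μ : AbsoluteValue Qb ℝ, IsNonarchimedean μ ∧ ∀ x : K, μ x = v x := by
  haveI : Algebra.IsAlgebraic K Qb := Algebra.IsAlgebraic.tower_top (K := ℚ) K
  letI : NontriviallyNormedField (v.maximalIdeal.adicCompletion K) :=
    Valued.toNontriviallyNormedField _ _
  obtain ⟨μ, hμ1, hμ⟩ := exists_ext_nonarch (Ω := Qb) (FinitePlace.embedding v.maximalIdeal)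
    (K := K)
  refine ⟨μ, hμ1, fun x => ?_⟩
  have := hμ x
  rw [← FinitePlace.norm_embedding_eq]
  exact this

end extend

section adelic

/-- Heights of finitely many points are computed by a finite weighted sum over absolute values
of `ℚ̄`, archimedean ones having total weight `1`. -/
theorem exists_adelic (Z : Finset Qb) :
    ∃ (I : Type) (_ : Fintype I) (ω : I → ℝ) (μ : I → AbsoluteValue Qb ℝ) (arch : I → Bool),
      (∀ i, 0 < ω i) ∧ (∑ i, (if arch i then ω i else 0) = 1) ∧
      (∀ i, arch i = false → IsNonarchimedean (μ i)) ∧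
      ∀ (ι : Type) [Finite ι] (x : ι → Qb), x ≠ 0 → (∀ j, x j ∈ Z) →
        absHt x = ∑ i, ω i * Real.log (⨆ j, μ i (x j)) := by
  classical
  let K : IntermediateField ℚ Qb := IntermediateField.adjoin ℚ (Z : Set Qb)
  haveI : FiniteDimensional ℚ K := IntermediateField.finiteDimensional_adjoin fun y _ =>
    instAlgQb.isIntegral.isIntegral y
  haveI : NumberField K := {}
  have hZK : ∀ z ∈ Z, z ∈ K := fun z hz => IntermediateField.subset_adjoin ℚ _ hz
  -- bad finite places
  let bad : Set (FinitePlace K) := ⋃ z ∈ (Finset.univ : Finset {z : Z // (z : Qb) ≠ 0}),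
    {v | v (⟨z.1.1, hZK _ z.1.2⟩ : K) ≠ 1}
  have hbad : bad.Finite := by
    refine Set.Finite.biUnion (Finset.finite_toSet _) fun z _ => ?_
    have : (⟨z.1.1, hZK _ z.1.2⟩ : K) ≠ 0 := by
      intro h
      exact z.2 (congrArg Subtype.val h)
    exact FinitePlace.hasFiniteMulSupport this
  haveI : Fintype bad := hbad.fintype
  choose μa hμa using exists_ext_infinitePlace K
  choose μf hμf1 hμf using exists_ext_finitePlace K
  have hdeg : (0:ℝ) < Module.finrank ℚ K := by exact_mod_cast Module.finrank_pos
  refine ⟨InfinitePlace K ⊕ bad, inferInstance,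
    Sum.elim (fun v => v.mult / Module.finrank ℚ K) (fun _ => 1 / Module.finrank ℚ K),
    Sum.elim μa (fun v => μf v), Sum.elim (fun _ => true) (fun _ => false), ?_, ?_, ?_, ?_⟩
  · rintro (v | v)
    · have : (0:ℝ) < v.mult := by exact_mod_cast InfinitePlace.mult_pos
      simp only [Sum.elim_inl]
      positivity
    · simp only [Sum.elim_inr]
      positivity
  · rw [Fintype.sum_sum_type]
    simp only [Sum.elim_inl, Sum.elim_inr, if_true]
    have h1 : ∑ v : InfinitePlace K, (v.mult : ℝ) = Module.finrank ℚ K := by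
      exact_mod_cast InfinitePlace.sum_mult_eq (K := K)
    rw [← Finset.sum_div, h1, div_self hdeg.ne']
    simp
  · rintro (v | v) h
    · simp at h
    · exact hμf1 v
  · intro ι _ x hx hxZ
    let y : ι → K := fun j => ⟨x j, hZK _ (hxZ j)⟩
    have hxy : x = fun j => (y j : Qb) := rfl
    have hy : y ≠ 0 := by
      intro h
      apply hx
      rw [hxy, h]
      rfl
    rw [hxy, absHt_eq K y, logHeight_eq_log_mulHeight, NumberField.mulHeight_eq hy,
      Fintype.sum_sum_type]
    obtain ⟨j0, hj0⟩ := Function.ne_iff.mp hy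
    have hposa : ∀ v : InfinitePlace K, 0 < ⨆ j, v (y j) := by
      intro v
      have h1 : v (y j0) ≤ ⨆ j, v (y j) :=
        le_ciSup (f := fun j => v (y j)) (Set.finite_range _).bddAbove j0
      exact (InfinitePlace.pos_iff.mpr hj0).trans_le h1
    have hposf : ∀ v : FinitePlace K, 0 < ⨆ j, v (y j) := by
      intro v
      have h1 : v (y j0) ≤ ⨆ j, v (y j) :=
        le_ciSup (f := fun j => v (y j)) (Set.finite_range _).bddAbove j0
      exact (FinitePlace.pos_iff.mpr hj0).trans_le h1
    have hfin : ∏ᶠ v : FinitePlace K, ⨆ j, v (y j) = ∏ v ∈ hbad.toFinset, ⨆ j, v (y j) := by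
      refine finprod_eq_prod_of_mulSupport_subset _ ?_
      intro v hv
      rw [Set.Finite.coe_toFinset]
      by_contra hvb
      apply hv
      -- all nonzero coordinates have absolute value one
      have h1 : ∀ j, y j ≠ 0 → v (y j) = 1 := by
        intro j hj
        by_contra hcon
        apply hvb
        have hxj : (x j) ≠ 0 := fun h => hj (Subtype.ext h)
        exact Set.mem_biUnion (x := (⟨⟨x j, hxZ j⟩, hxj⟩ : {z : Z // (z : Qb) ≠ 0}))
          (Finset.mem_univ _) hcon
      haveI : Nonempty ι := ⟨j0⟩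
      refine le_antisymm (ciSup_le fun j => ?_) ?_
      · by_cases hj : y j = 0
        · rw [hj, map_zero]; exact zero_le_one
        · exact (h1 j hj).le
      · rw [← h1 j0 hj0]
        exact le_ciSup (f := fun j => v (y j)) (Set.finite_range _).bddAbove j0
    rw [hfin, Real.log_mul, Real.log_prod, Real.log_prod, add_div, Finset.sum_div,
      Finset.sum_div]
    · congr 1
      · refine Finset.sum_congr rfl fun v _ => ?_
        rw [Real.log_pow]
        simp only [Sum.elim_inl]
        have : (⨆ j, (μa v) (y j : Qb)) = ⨆ j, v (y j) := by simp only [hμa]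
        rw [this]
        ring
      · rw [← Finset.sum_coe_sort]
        refine Finset.sum_bij' (fun v _ => ⟨v.1, hbad.mem_toFinset.mp v.2⟩)
          (fun v _ => ⟨v.1, hbad.mem_toFinset.mpr v.2⟩) ?_ ?_ ?_ ?_ ?_
        · intro v _; exact Finset.mem_univ _
        · intro v _; exact Finset.mem_univ _
        · intro v _; rfl
        · intro v _; rfl
        · intro v _
          simp only [Sum.elim_inr]
          have : (⨆ j, (μf v.1) (y j : Qb)) = ⨆ j, v.1 (y j) := by simp only [hμf]
          rw [this]
          ring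
    · intro v _; exact (hposf v).ne'
    · intro v _; exact (pow_pos (hposa v) _).ne'
    · exact (Finset.prod_pos fun v _ => pow_pos (hposa v) _).ne'
    · exact (Finset.prod_pos fun v _ => hposf v).ne'

end adelic

end Pool.Agent.VCH
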