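import Pool.Agent.Lib.MP_30aac3_nt.Ctl

/-!
Packaging of the local inequalities, and removal of absolute constants at non-archimedean
absolute values.
-/

set_option linter.unusedSectionVars false

open Filter

namespace Pool.Agent.VCH

section powAbs

variable {k : Type*} [Field k]

/-- The power of a non-archimedean absolute value. -/
noncomputable def powAbs (μ : AbsoluteValue k ℝ) (hμ : IsNonarchimedean μ) (p : ℕ) :
    AbsoluteValue k ℝ where
  toFun x := μ x ^ (p + 1)
  map_mul' x y := by rw [map_mul, mul_pow]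
  nonneg' x := pow_nonneg (μ.nonneg x) _
  eq_zero' x := by
    rw [pow_eq_zero_iff (Nat.succ_ne_zero p)]
    exact μ.eq_zero
  add_le' x y := by
    have h1 := hμ x y
    have hx := μ.nonneg x
    have hy := μ.nonneg y
    have hxy := μ.nonneg (x + y)
    rcases le_total (μ x) (μ y) with h | h
    · rw [max_eq_right h] at h1
      calc μ (x + y) ^ (p + 1) ≤ μ y ^ (p + 1) := by gcongr
        _ ≤ _ := le_add_of_nonneg_left (by positivity)
    · rw [max_eq_left h] at h1
      calc μ (x + y) ^ (p + 1) ≤ μ x ^ (p + 1) := by gcongr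
        _ ≤ _ := le_add_of_nonneg_right (by positivity)

lemma powAbs_apply (μ : AbsoluteValue k ℝ) (hμ : IsNonarchimedean μ) (p : ℕ) (x : k) :
    powAbs μ hμ p x = μ x ^ (p + 1) := rfl

lemma vn_powAbs {ι : Type*} [Finite ι] (μ : AbsoluteValue k ℝ) (hμ : IsNonarchimedean μ)
    (p : ℕ) (x : ι → k) : vn (powAbs μ hμ p) x = vn μ x ^ (p + 1) := by
  have h0 := vn_nonneg (μ := μ) x
  apply le_antisymm
  · refine vn_le (by positivity) fun i => ?_
    rw [powAbs_apply]
    have h1 := le_vn (μ := μ) x i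
    have h2 := μ.nonneg (x i)
    gcongr
  · by_cases hι : Nonempty ι
    · obtain ⟨i, hi⟩ := exists_eq_vn (μ := μ) x
      rw [← hi, ← powAbs_apply μ hμ]
      exact le_vn x i
    · rw [not_nonempty_iff] at hι
      have : vn μ x = 0 := by unfold vn; exact Real.iSup_of_isEmpty _
      rw [this, zero_pow (Nat.succ_ne_zero p)]
      exact vn_nonneg _

lemma pow_zpow_comm (α : ℝ) (p : ℕ) (z : ℤ) : (α ^ (p + 1)) ^ z = (α ^ z) ^ (p + 1) := by
  rw [← zpow_natCast, ← zpow_natCast, ← zpow_mul, ← zpow_mul, mul_comm]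

/-- Removing absolute constants. -/
lemma le_of_frequently_pow_le {A B K W : ℝ} (hA : 0 ≤ A) (hB : 0 ≤ B) (_hK : 0 < K)
    (hW : 0 < W) (h : ∃ᶠ p : ℕ in atTop, A ^ (p + 1) ≤ K * W ^ (p + 1) * B ^ (p + 1)) :
    A ≤ W * B := by
  by_contra hcon
  push Not at hcon
  rcases hB.lt_or_eq with hB | hB
  · have hWB : 0 < W * B := mul_pos hW hB
    have h1 : 1 < A / (W * B) := by rw [one_lt_div hWB]; exact hcon
    have h2 := tendsto_pow_atTop_atTop_of_one_lt h1
    have h3 : ∀ᶠ p : ℕ in atTop, K < (A / (W * B)) ^ (p + 1) :=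
      (h2.comp (tendsto_add_atTop_nat 1)).eventually_gt_atTop K
    obtain ⟨p, hp1, hp2⟩ := (h.and_eventually h3).exists
    rw [div_pow, lt_div_iff₀ (by positivity), mul_pow] at hp2
    nlinarith
  · obtain ⟨p, hp⟩ := h.exists
    rw [← hB, zero_pow (Nat.succ_ne_zero p), mul_zero] at hp
    have : A ^ (p + 1) = 0 := le_antisymm hp (by positivity)
    have hA0 := pow_eq_zero_iff (Nat.succ_ne_zero p) |>.mp this
    rw [hA0, ← hB, mul_zero] at hcon
    exact lt_irrefl _ hcon

/-- the vector `(1, z)` for `z` in a finite set. -/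
noncomputable def zvec (Z : Finset k) : Fin (Z.card + 1) → k :=
  Fin.cons 1 fun i => (Z.equivFin.symm i : k)

lemma one_le_vn_zvec (Z : Finset k) (μ : AbsoluteValue k ℝ) : 1 ≤ vn μ (zvec Z) := by
  have := le_vn (μ := μ) (zvec Z) 0
  rwa [zvec, Fin.cons_zero, map_one] at this

lemma zvec_ne_zero (Z : Finset k) : zvec Z ≠ 0 := by
  intro h
  have := congrFun h 0
  rw [zvec, Fin.cons_zero] at this
  exact one_ne_zero this

lemma sz_le_vn (Z : Finset k) (μ : AbsoluteValue k ℝ) :
    sz Z μ ≤ (2 + Z.card) * vn μ (zvec Z) := by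
  have h1 := one_le_vn_zvec Z μ
  have h2 : ∀ c ∈ Z, μ c ≤ vn μ (zvec Z) := by
    intro c hc
    have h3 := le_vn (μ := μ) (zvec Z) (Fin.succ (Z.equivFin ⟨c, hc⟩))
    rw [zvec, Fin.cons_succ, Equiv.symm_apply_apply] at h3
    exact h3
  have h3 : ∑ c ∈ Z, μ c ≤ Z.card * vn μ (zvec Z) := by
    have := Finset.sum_le_card_nsmul Z (fun c => μ c) _ h2
    rwa [nsmul_eq_mul] at this
  unfold sz
  linarith

end powAbs

/-- Data at a point entering the local inequalities. -/
structure LD (k : Type*) [Field k] (ι S J : Type*) (κ : J → Type*) where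
  d : ℕ
  V : ℕ → ι → k
  ψ : ∀ j, κ j → k
  xt : k
  par : S → k
  qv : S → ℕ → ι → k
  E : S → ℕ → ℤ
  e : S → J → ℤ
  C1 : S → ℕ
  C2 : S → ℕ

namespace LD

variable {k : Type*} [Field k] {ι S J : Type*} {κ : J → Type*} (D : LD k ι S J κ)

/-- The local inequalities in the two alternatives. -/
def Loc (Γ : ℝ) (μ : AbsoluteValue k ℝ) (m : ℕ) : Option S → Prop
  | none =>
      vn μ (D.V m) ≤ Γ ^ (D.d ^ m) ∧ 1 ≤ Γ ^ (D.d ^ m) * vn μ (D.V m) ∧
      ∀ j, vn μ (D.ψ j) ≤ Γ ∧ 1 ≤ Γ * vn μ (D.ψ j)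
  | some s =>
      D.par s ≠ 0 ∧ μ (D.par s) ≤ 1 ∧ 1 ≤ Γ * (μ (D.par s) * μ D.xt) ∧
      vn μ (D.V m) ≤ Γ ^ (D.d ^ m) * μ (D.par s) ^ (D.E s m) ∧
      vn μ (D.qv s m) ^ D.C1 s * μ (D.par s) ^ D.C2 s * μ (D.par s) ^ (D.E s m) ≤
        Γ ^ (D.d ^ m) * vn μ (D.V m) ∧
      ∀ j, vn μ (D.ψ j) ≤ Γ * μ (D.par s) ^ (D.e s j) ∧
        μ (D.par s) ^ (D.e s j) ≤ Γ * vn μ (D.ψ j)

/-- bounds valid everywhere. -/
def Glob (Γ : ℝ) (μ : AbsoluteValue k ℝ) (m : ℕ) : Prop :=
  ∀ s, vn μ (D.qv s m) ≤ Γ ^ (D.d ^ m)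

variable [Finite ι] [Finite S] [∀ j, Finite (κ j)]

omit [Finite S] in
/-- passing to the limit in the power of the absolute value. -/
lemma loc_of_frequently {μ : AbsoluteValue k ℝ} (hμ : IsNonarchimedean μ) {C W : ℝ}
    (hC : 0 < C) (hW : 0 < W) {m : ℕ} {α : Option S}
    (h : ∃ᶠ p : ℕ in atTop, D.Loc (C * W ^ (p + 1)) (powAbs μ hμ p) m α) :
    D.Loc W μ m α := by
  have key : ∀ {A B : ℝ} (r : ℕ), 0 ≤ A → 0 ≤ B →
      (∃ᶠ p : ℕ in atTop, A ^ (p + 1) ≤ (C * W ^ (p + 1)) ^ r * B ^ (p + 1)) →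
      A ≤ W ^ r * B := by
    intro A B r hA hB hf
    refine le_of_frequently_pow_le (K := C ^ r) hA hB (by positivity) (by positivity) ?_
    refine hf.mono fun p hp => ?_
    rw [mul_pow, ← pow_mul] at hp
    rw [← pow_mul, mul_comm r]
    exact hp
  cases α with
  | none =>
    have hV := vn_nonneg (μ := μ) (D.V m)
    refine ⟨?_, ?_, fun j => ?_⟩
    · have := key (A := vn μ (D.V m)) (B := 1) (D.d ^ m) hV zero_le_one
        (h.mono fun p hp => by
          have h1 := hp.1
          rw [vn_powAbs] at h1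
          simpa using h1)
      simpa using this
    · refine key (A := 1) (B := vn μ (D.V m)) (D.d ^ m) zero_le_one hV
        (h.mono fun p hp => ?_)
      have h1 := hp.2.1
      rw [vn_powAbs] at h1
      simpa using h1
    · have hψ := vn_nonneg (μ := μ) (D.ψ j)
      constructor
      · have := key (A := vn μ (D.ψ j)) (B := 1) 1 hψ zero_le_one
          (h.mono fun p hp => by
            have h1 := (hp.2.2 j).1
            rw [vn_powAbs] at h1
            simpa using h1)
        simpa using this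
      · have := key (A := 1) (B := vn μ (D.ψ j)) 1 zero_le_one hψ
          (h.mono fun p hp => by
            have h1 := (hp.2.2 j).2
            rw [vn_powAbs] at h1
            simpa using h1)
        simpa using this
  | some s =>
    obtain ⟨p0, hp0⟩ := h.exists
    have hpar := hp0.1
    have hα := μ.pos hpar
    have hV := vn_nonneg (μ := μ) (D.V m)
    have hq := vn_nonneg (μ := μ) (D.qv s m)
    have hx := μ.nonneg D.xt
    refine ⟨hpar, ?_, ?_, ?_, ?_, fun j => ?_⟩
    · have h1 := hp0.2.1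
      rw [powAbs_apply] at h1
      exact (pow_le_one_iff_of_nonneg hα.le (Nat.succ_ne_zero p0)).mp h1
    · have := key (A := 1) (B := μ (D.par s) * μ D.xt) 1 zero_le_one (by positivity)
        (h.mono fun p hp => by
          have h1 := hp.2.2.1
          rw [powAbs_apply, powAbs_apply] at h1
          rw [one_pow, pow_one, mul_pow (μ (D.par s))]
          exact h1)
      simpa using this
    · refine key (A := vn μ (D.V m)) (B := μ (D.par s) ^ (D.E s m)) (D.d ^ m) hV
        (by positivity) (h.mono fun p hp => ?_)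
      have h1 := hp.2.2.2.1
      rw [vn_powAbs, powAbs_apply, pow_zpow_comm] at h1
      exact h1
    · refine key (A := vn μ (D.qv s m) ^ D.C1 s * μ (D.par s) ^ D.C2 s *
        μ (D.par s) ^ (D.E s m)) (B := vn μ (D.V m)) (D.d ^ m) (by positivity) hV
        (h.mono fun p hp => ?_)
      have h1 := hp.2.2.2.2.1
      rw [vn_powAbs, vn_powAbs, powAbs_apply, pow_zpow_comm] at h1
      refine le_trans (le_of_eq ?_) h1
      rw [mul_pow, mul_pow, ← pow_mul, ← pow_mul, ← pow_mul, ← pow_mul, mul_comm (D.C1 s),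
        mul_comm (D.C2 s)]
    · have hψ := vn_nonneg (μ := μ) (D.ψ j)
      constructor
      · have := key (A := vn μ (D.ψ j)) (B := μ (D.par s) ^ (D.e s j)) 1 hψ (by positivity)
          (h.mono fun p hp => by
            have h1 := (hp.2.2.2.2.2 j).1
            rw [vn_powAbs, powAbs_apply, pow_zpow_comm] at h1
            rw [pow_one]
            exact h1)
        simpa using this
      · have := key (A := μ (D.par s) ^ (D.e s j)) (B := vn μ (D.ψ j)) 1 (by positivity) hψ
          (h.mono fun p hp => by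
            have h1 := (hp.2.2.2.2.2 j).2
            rw [vn_powAbs, powAbs_apply, pow_zpow_comm] at h1
            rw [pow_one]
            exact h1)
        simpa using this

omit [Finite S] [∀ j, Finite (κ j)] in
lemma glob_of_forall {μ : AbsoluteValue k ℝ} (hμ : IsNonarchimedean μ) {C W : ℝ}
    (hC : 0 < C) (hW : 0 < W) {m : ℕ}
    (h : ∀ p : ℕ, D.Glob (C * W ^ (p + 1)) (powAbs μ hμ p) m) :
    D.Glob W μ m := by
  intro s
  have := le_of_frequently_pow_le (A := vn μ (D.qv s m)) (B := 1) (K := C ^ (D.d ^ m))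
    (W := W ^ (D.d ^ m)) (vn_nonneg _) zero_le_one (by positivity) (by positivity)
    (Filter.Frequently.of_forall fun p => by
      have h1 := h p s
      rw [vn_powAbs, mul_pow, ← pow_mul] at h1
      rw [one_pow, mul_one, ← pow_mul, mul_comm (D.d ^ m)]
      exact h1)
  simpa using this

/-- The alternatives at a non-archimedean absolute value, without absolute constants. -/
theorem nonarch_of_forall {Z : Finset k} {n : ℕ}
    (h : ∀ μ : AbsoluteValue k ℝ, ∃ α, ∀ m, 1 ≤ m →
      D.Loc (((2 + Z.card) * vn μ (zvec Z)) ^ n) μ m α)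
    {μ : AbsoluteValue k ℝ} (hμ : IsNonarchimedean μ) :
    ∃ α, ∀ m, 1 ≤ m → D.Loc ((vn μ (zvec Z)) ^ n) μ m α := by
  have hW := one_le_vn_zvec Z μ
  choose α hα using fun p : ℕ => h (powAbs μ hμ p)
  have hfreq : ∃ a : Option S, ∃ᶠ p : ℕ in atTop, α p = a := by
    by_contra hcon
    push Not at hcon
    have h2 : ∀ᶠ p : ℕ in atTop, ∀ a : Option S, α p ≠ a := by
      rw [Filter.eventually_all]
      intro a
      have := hcon a
      exact this
    obtain ⟨p, hp⟩ := h2.exists
    exact hp (α p) rfl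
  obtain ⟨a, ha⟩ := hfreq
  refine ⟨a, fun m hm => ?_⟩
  refine D.loc_of_frequently hμ (C := ((2 + Z.card : ℝ)) ^ n) (by positivity)
    (by positivity) (ha.mono fun p hp => ?_)
  have h1 := hα p m hm
  rw [hp, vn_powAbs, mul_pow, ← pow_mul] at h1
  rw [← pow_mul, mul_comm n]
  exact h1

end LD

end Pool.Agent.VCH
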