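import Pool.Agent.Lib.MP_30aac3_nt.Adelic
import Pool.Agent.Lib.MP_30aac3_nt.Loc

/-!
Summation of the local inequalities.
-/

set_option linter.unusedSectionVars false

open Filter

namespace Pool.Agent.VCH

namespace LD

variable {ι S J : Type} {κ : J → Type} (D : LD Qb ι S J κ)

/-- the constant of the global estimates. -/
noncomputable def C0 (Z : Finset Qb) (n : ℕ) : ℝ :=
  n * (Real.log (2 + Z.card) + absHt (zvec Z))

lemma C0_nonneg (Z : Finset Qb) (n : ℕ) : 0 ≤ C0 Z n := by
  have h1 : 0 ≤ Real.log (2 + Z.card) := Real.log_nonneg (by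
    have : (0:ℝ) ≤ Z.card := Nat.cast_nonneg _
    linarith)
  have h2 := absHt_nonneg (zvec Z)
  unfold C0
  positivity

variable [Fintype ι] [Fintype S] [Fintype J] [∀ j, Fintype (κ j)]

/-- The logarithmic form of the local inequalities. -/
lemma Loc.log_form {Γ : ℝ} (hΓ : 1 ≤ Γ) {μ : AbsoluteValue Qb ℝ} {m : ℕ} {α : Option S}
    (h : D.Loc Γ μ m α) (hV : D.V m ≠ 0) (hψ : ∀ j, D.ψ j ≠ 0) (hq : ∀ s, D.qv s m ≠ 0) :
    ∃ lam : ℝ, 0 ≤ lam ∧ lam ≤ Real.log Γ + Real.log (vn μ ![1, D.xt]) ∧
      (α = none → lam = 0) ∧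
      Real.log (vn μ (D.V m)) ≤ (D.d : ℝ) ^ m * Real.log Γ - α.elim 0 (fun s => (D.E s m : ℝ)) * lam ∧
      -((D.d : ℝ) ^ m * Real.log Γ) - α.elim 0 (fun s => (D.E s m : ℝ)) * lam
        - α.elim 0 (fun s => (D.C2 s : ℝ)) * lam
        + α.elim 0 (fun s => (D.C1 s : ℝ) * Real.log (vn μ (D.qv s m))) ≤
        Real.log (vn μ (D.V m)) ∧
      ∀ j, |Real.log (vn μ (D.ψ j)) + α.elim 0 (fun s => (D.e s j : ℝ)) * lam| ≤ Real.log Γ := by
  have hVp := vn_pos (μ := μ) hV
  have hG0 : 0 ≤ Real.log Γ := Real.log_nonneg hΓ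
  have hΓ0 : 0 < Γ := by linarith
  have h1x : 1 ≤ vn μ ![1, D.xt] := by
    have := le_vn (μ := μ) ![1, D.xt] 0
    simpa using this
  have hlx : 0 ≤ Real.log (vn μ ![1, D.xt]) := Real.log_nonneg h1x
  cases α with
  | none =>
    obtain ⟨h1, h2, h3⟩ := h
    refine ⟨0, le_rfl, by positivity, fun _ => rfl, ?_, ?_, fun j => ?_⟩
    · simp only [Option.elim_none, zero_mul, sub_zero]
      have := Real.log_le_log hVp h1
      rw [Real.log_pow] at this
      push_cast at this
      exact this
    · simp only [Option.elim_none, zero_mul, sub_zero, add_zero]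
      have := Real.log_le_log one_pos h2
      rw [Real.log_mul (by positivity) hVp.ne', Real.log_pow, Real.log_one] at this
      push_cast at this
      linarith
    · simp only [Option.elim_none, zero_mul, add_zero]
      obtain ⟨h4, h5⟩ := h3 j
      have hψp := vn_pos (μ := μ) (hψ j)
      rw [abs_le]
      constructor
      · have := Real.log_le_log one_pos h5
        rw [Real.log_mul hΓ0.ne' hψp.ne', Real.log_one] at this
        linarith
      · exact Real.log_le_log hψp h4
  | some s =>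
    obtain ⟨hp, h1, h2, h3, h4, h5⟩ := h
    have hα := μ.pos hp
    have hqp := vn_pos (μ := μ) (hq s)
    have hlα : Real.log (μ (D.par s)) ≤ 0 := Real.log_nonpos hα.le h1
    have hxt : 0 < μ D.xt := by
      by_contra hcon
      have h6 : μ D.xt = 0 := le_antisymm (not_lt.mp hcon) (μ.nonneg _)
      rw [h6, mul_zero, mul_zero] at h2
      linarith
    refine ⟨-Real.log (μ (D.par s)), by linarith, ?_, fun h => absurd h (Option.some_ne_none s),
      ?_, ?_, fun j => ?_⟩
    · have h6 := Real.log_le_log one_pos h2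
      rw [Real.log_one, Real.log_mul hΓ0.ne' (by positivity), Real.log_mul hα.ne' hxt.ne'] at h6
      have h7 : Real.log (μ D.xt) ≤ Real.log (vn μ ![1, D.xt]) := by
        refine Real.log_le_log hxt ?_
        have := le_vn (μ := μ) ![1, D.xt] 1
        simpa using this
      linarith
    · simp only [Option.elim_some]
      have h6 := Real.log_le_log hVp h3
      rw [Real.log_mul (by positivity) (by positivity), Real.log_pow, Real.log_zpow] at h6
      push_cast at h6
      linarith
    · simp only [Option.elim_some]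
      have h6 := Real.log_le_log (by positivity) h4
      rw [Real.log_mul (by positivity) (by positivity), Real.log_mul (by positivity)
        (by positivity), Real.log_mul (by positivity) (by positivity), Real.log_pow,
        Real.log_pow, Real.log_zpow, Real.log_pow] at h6
      push_cast at h6
      linarith
    · simp only [Option.elim_some]
      obtain ⟨h6, h7⟩ := h5 j
      have hψp := vn_pos (μ := μ) (hψ j)
      have h8 := Real.log_le_log hψp h6
      rw [Real.log_mul hΓ0.ne' (by positivity), Real.log_zpow] at h8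
      have h9 := Real.log_le_log (by positivity) h7
      rw [Real.log_mul hΓ0.ne' hψp.ne', Real.log_zpow] at h9
      rw [abs_le]
      constructor <;> linarith

/-- Summation of the local inequalities at a point. -/
theorem global {Z : Finset Qb} {n : ℕ} (hV : ∀ m, D.V m ≠ 0) (hψ : ∀ j, D.ψ j ≠ 0)
    (hq : ∀ s m, D.qv s m ≠ 0)
    (hloc : ∀ μ : AbsoluteValue Qb ℝ, ∃ α, ∀ m, 1 ≤ m →
      D.Loc (((2 + Z.card) * vn μ (zvec Z)) ^ n) μ m α)
    (hglob : ∀ (μ : AbsoluteValue Qb ℝ) (m : ℕ),
      D.Glob (((2 + Z.card) * vn μ (zvec Z)) ^ n) μ m) (m : ℕ) (hm : 1 ≤ m) :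
    ∃ Λ : S → ℝ, (∀ s, 0 ≤ Λ s) ∧ (∑ s, Λ s ≤ C0 Z n + absHt ![1, D.xt]) ∧
      absHt (D.V m) ≤ (D.d : ℝ) ^ m * C0 Z n - ∑ s, (D.E s m : ℝ) * Λ s ∧
      -((D.d : ℝ) ^ m * C0 Z n * (1 + ∑ s, (D.C1 s : ℝ))) - ∑ s, (D.E s m : ℝ) * Λ s
        - ∑ s, (D.C2 s : ℝ) * Λ s ≤ absHt (D.V m) ∧
      ∀ j, |absHt (D.ψ j) + ∑ s, (D.e s j : ℝ) * Λ s| ≤ C0 Z n := by
  classical
  -- the finite set of all numbers involved
  let Zs : Set Qb := Set.range (zvec Z) ∪ Set.range (D.V m) ∪ (⋃ j, Set.range (D.ψ j)) ∪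
    Set.range ![1, D.xt] ∪ ⋃ s, Set.range (D.qv s m)
  have hZs : Zs.Finite := by
    refine Set.Finite.union (Set.Finite.union (Set.Finite.union (Set.Finite.union
      (Set.finite_range _) (Set.finite_range _)) ?_) (Set.finite_range _)) ?_
    · exact Set.finite_iUnion fun j => Set.finite_range _
    · exact Set.finite_iUnion fun s => Set.finite_range _
  obtain ⟨I, hI, ω, μ, arch, hω, hsum, hna, hht⟩ := exists_adelic hZs.toFinset
  have hmem : ∀ {z : Qb}, z ∈ Zs → z ∈ hZs.toFinset := fun h => hZs.mem_toFinset.mpr h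
  -- heights as sums
  have htz : absHt (zvec Z) = ∑ i, ω i * Real.log (vn (μ i) (zvec Z)) :=
    hht _ _ (zvec_ne_zero Z) fun j => hmem (Or.inl (Or.inl (Or.inl (Or.inl ⟨j, rfl⟩))))
  have htV : absHt (D.V m) = ∑ i, ω i * Real.log (vn (μ i) (D.V m)) :=
    hht _ _ (hV m) fun j => hmem (Or.inl (Or.inl (Or.inl (Or.inr ⟨j, rfl⟩))))
  have htψ : ∀ j, absHt (D.ψ j) = ∑ i, ω i * Real.log (vn (μ i) (D.ψ j)) := fun j =>
    hht _ _ (hψ j) fun l => hmem (Or.inl (Or.inl (Or.inr (Set.mem_iUnion.mpr ⟨j, ⟨l, rfl⟩⟩))))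
  have htx : absHt ![1, D.xt] = ∑ i, ω i * Real.log (vn (μ i) ![1, D.xt]) :=
    hht _ _ (fun h => one_ne_zero (congrFun h 0)) fun j => hmem (Or.inl (Or.inr ⟨j, rfl⟩))
  have htq : ∀ s, absHt (D.qv s m) = ∑ i, ω i * Real.log (vn (μ i) (D.qv s m)) := fun s =>
    hht _ _ (hq s m) fun j => hmem (Or.inr (Set.mem_iUnion.mpr ⟨s, ⟨j, rfl⟩⟩))
  -- the local constants
  let Γ : I → ℝ := fun i => if arch i then ((2 + Z.card) * vn (μ i) (zvec Z)) ^ n
    else (vn (μ i) (zvec Z)) ^ n
  have hcard : (1:ℝ) ≤ 2 + Z.card := by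
    have : (0:ℝ) ≤ Z.card := Nat.cast_nonneg _
    linarith
  have hvz : ∀ i, 1 ≤ vn (μ i) (zvec Z) := fun i => one_le_vn_zvec Z (μ i)
  have hΓ1 : ∀ i, 1 ≤ Γ i := by
    intro i
    simp only [Γ]
    split_ifs
    · exact one_le_pow₀ (one_le_mul_of_one_le_of_one_le hcard (hvz i))
    · exact one_le_pow₀ (hvz i)
  have hΓloc : ∀ i, ∃ α, ∀ m, 1 ≤ m → D.Loc (Γ i) (μ i) m α := by
    intro i
    cases ha : arch i with
    | true =>
      simp only [Γ, ha, if_true]
      exact hloc (μ i)
    | false =>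
      have e : Γ i = (vn (μ i) (zvec Z)) ^ n := by simp [Γ, ha]
      rw [e]
      exact D.nonarch_of_forall hloc (hna i ha)
  have hΓglob : ∀ i, D.Glob (Γ i) (μ i) m := by
    intro i
    cases ha : arch i with
    | true =>
      simp only [Γ, ha, if_true]
      exact hglob (μ i) m
    | false =>
      have e : Γ i = (vn (μ i) (zvec Z)) ^ n := by simp [Γ, ha]
      rw [e]
      refine D.glob_of_forall (hna i ha) (C := ((2 + Z.card : ℝ)) ^ n) (by positivity)
        (lt_of_lt_of_le one_pos (one_le_pow₀ (hvz i))) fun p => ?_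
      have h1 := hglob (powAbs (μ i) (hna i ha) p) m
      rw [vn_powAbs, mul_pow, ← pow_mul] at h1
      rw [← pow_mul, mul_comm n]
      exact h1
  have hlogΓ : ∀ i, Real.log (Γ i) = n * ((if arch i then Real.log (2 + Z.card) else 0) +
      Real.log (vn (μ i) (zvec Z))) := by
    intro i
    have h1 : vn (μ i) (zvec Z) ≠ 0 := by have := hvz i; linarith
    simp only [Γ]
    split_ifs
    · rw [Real.log_pow, Real.log_mul (by linarith) h1]
    · rw [Real.log_pow]; ring
  have hG0 : ∀ i, 0 ≤ Real.log (Γ i) := fun i => Real.log_nonneg (hΓ1 i)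
  have hsumG : ∑ i, ω i * Real.log (Γ i) = C0 Z n := by
    simp only [hlogΓ]
    unfold C0
    rw [htz]
    have e1 : ∀ i, ω i * (n * ((if arch i then Real.log (2 + Z.card) else 0) +
        Real.log (vn (μ i) (zvec Z)))) =
        n * (Real.log (2 + Z.card) * (if arch i then ω i else 0)) +
          n * (ω i * Real.log (vn (μ i) (zvec Z))) := by
      intro i
      split_ifs <;> ring
    simp only [e1]
    rw [Finset.sum_add_distrib, ← Finset.mul_sum, ← Finset.mul_sum, ← Finset.mul_sum, hsum]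
    ring
  choose α hα using hΓloc
  choose lam hl0 hlx hlnone hlU hlL hlψ using fun i =>
    Loc.log_form D (hΓ1 i) (hα i m hm) (hV m) hψ (fun s => hq s m)
  -- the quantities `Λ`
  let Λ : S → ℝ := fun s => ∑ i, if α i = some s then ω i * lam i else 0
  have hΛsum : ∀ c : S → ℝ, ∑ s, c s * Λ s = ∑ i, ω i * ((α i).elim 0 c * lam i) := by
    intro c
    simp only [Λ, Finset.mul_sum]
    rw [Finset.sum_comm]
    refine Finset.sum_congr rfl fun i _ => ?_
    cases hai : α i with
    | none => simp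
    | some s0 =>
      simp only [Option.elim_some, Option.some.injEq]
      rw [Finset.sum_eq_single s0]
      · simp; ring
      · intro b _ hb
        rw [if_neg (fun h => hb h.symm), mul_zero]
      · intro h; exact absurd (Finset.mem_univ _) h
  refine ⟨Λ, ?_, ?_, ?_, ?_, ?_⟩
  · intro s
    refine Finset.sum_nonneg fun i _ => ?_
    split_ifs
    · exact mul_nonneg (hω i).le (hl0 i)
    · exact le_rfl
  · have h1 := hΛsum (fun _ => 1)
    simp only [one_mul] at h1
    rw [h1, ← hsumG, htx, ← Finset.sum_add_distrib]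
    refine Finset.sum_le_sum fun i _ => ?_
    rw [← mul_add]
    refine mul_le_mul_of_nonneg_left ?_ (hω i).le
    refine le_trans ?_ (hlx i)
    cases hai : α i with
    | none => simp [hl0 i]
    | some s0 => simp
  · rw [htV, hΛsum, ← hsumG, Finset.mul_sum, ← Finset.sum_sub_distrib]
    refine Finset.sum_le_sum fun i _ => ?_
    have := mul_le_mul_of_nonneg_left (hlU i) (hω i).le
    refine this.trans (le_of_eq ?_)
    ring
  · -- the contribution of the arithmetic input
    have hqs : ∀ s, -((D.d : ℝ) ^ m * C0 Z n) ≤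
        ∑ i, if α i = some s then ω i * Real.log (vn (μ i) (D.qv s m)) else 0 := by
      intro s
      have h1 := absHt_nonneg (D.qv s m)
      rw [htq s] at h1
      have h2 : ∑ i, ω i * Real.log (vn (μ i) (D.qv s m)) =
          (∑ i, if α i = some s then ω i * Real.log (vn (μ i) (D.qv s m)) else 0) +
          ∑ i, if α i = some s then 0 else ω i * Real.log (vn (μ i) (D.qv s m)) := by
        rw [← Finset.sum_add_distrib]
        refine Finset.sum_congr rfl fun i _ => ?_
        split_ifs <;> simp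
      have h3 : (∑ i, if α i = some s then 0 else ω i * Real.log (vn (μ i) (D.qv s m))) ≤
          (D.d : ℝ) ^ m * C0 Z n := by
        rw [← hsumG, Finset.mul_sum]
        refine Finset.sum_le_sum fun i _ => ?_
        have h4 : Real.log (vn (μ i) (D.qv s m)) ≤ (D.d : ℝ) ^ m * Real.log (Γ i) := by
          have h5 := Real.log_le_log (vn_pos (hq s m)) (hΓglob i s)
          rw [Real.log_pow] at h5
          push_cast at h5
          exact h5
        have h6 : 0 ≤ (D.d : ℝ) ^ m * (ω i * Real.log (Γ i)) :=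
          mul_nonneg (by positivity) (mul_nonneg (hω i).le (hG0 i))
        split_ifs
        · exact h6
        · have := mul_le_mul_of_nonneg_left h4 (hω i).le
          refine this.trans (le_of_eq ?_)
          ring
      rw [h2] at h1
      linarith
    have hqsum : -((D.d : ℝ) ^ m * C0 Z n) * (∑ s, (D.C1 s : ℝ)) ≤
        ∑ i, ω i * (α i).elim 0 (fun s => (D.C1 s : ℝ) * Real.log (vn (μ i) (D.qv s m))) := by
      have e1 : ∑ i, ω i * (α i).elim 0 (fun s => (D.C1 s : ℝ) *
          Real.log (vn (μ i) (D.qv s m))) =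
          ∑ s, (D.C1 s : ℝ) *
            ∑ i, if α i = some s then ω i * Real.log (vn (μ i) (D.qv s m)) else 0 := by
        simp only [Finset.mul_sum]
        rw [Finset.sum_comm]
        refine Finset.sum_congr rfl fun i _ => ?_
        cases hai : α i with
        | none => simp
        | some s0 =>
          simp only [Option.elim_some, Option.some.injEq]
          rw [Finset.sum_eq_single s0]
          · simp; ring
          · intro b _ hb
            rw [if_neg (fun h => hb h.symm), mul_zero]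
          · intro h; exact absurd (Finset.mem_univ _) h
      rw [e1, Finset.mul_sum]
      refine Finset.sum_le_sum fun s _ => ?_
      rw [mul_comm]
      exact mul_le_mul_of_nonneg_left (hqs s) (Nat.cast_nonneg _)
    have hmain : ∑ i, ω i * (-((D.d : ℝ) ^ m * Real.log (Γ i)) -
        (α i).elim 0 (fun s => (D.E s m : ℝ)) * lam i
        - (α i).elim 0 (fun s => (D.C2 s : ℝ)) * lam i
        + (α i).elim 0 (fun s => (D.C1 s : ℝ) * Real.log (vn (μ i) (D.qv s m)))) ≤
        absHt (D.V m) := by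
      rw [htV]
      exact Finset.sum_le_sum fun i _ => mul_le_mul_of_nonneg_left (hlL i) (hω i).le
    have hexp : ∑ i, ω i * (-((D.d : ℝ) ^ m * Real.log (Γ i)) -
        (α i).elim 0 (fun s => (D.E s m : ℝ)) * lam i
        - (α i).elim 0 (fun s => (D.C2 s : ℝ)) * lam i
        + (α i).elim 0 (fun s => (D.C1 s : ℝ) * Real.log (vn (μ i) (D.qv s m)))) =
        -((D.d : ℝ) ^ m * C0 Z n) - ∑ s, (D.E s m : ℝ) * Λ s - ∑ s, (D.C2 s : ℝ) * Λ s +
        ∑ i, ω i * (α i).elim 0 (fun s => (D.C1 s : ℝ) *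
          Real.log (vn (μ i) (D.qv s m))) := by
      rw [hΛsum, hΛsum, ← hsumG, Finset.mul_sum, ← Finset.sum_neg_distrib,
        ← Finset.sum_sub_distrib, ← Finset.sum_sub_distrib, ← Finset.sum_add_distrib]
      refine Finset.sum_congr rfl fun i _ => ?_
      ring
    rw [hexp] at hmain
    have : -((D.d : ℝ) ^ m * C0 Z n * (1 + ∑ s, (D.C1 s : ℝ))) =
        -((D.d : ℝ) ^ m * C0 Z n) + -((D.d : ℝ) ^ m * C0 Z n) * (∑ s, (D.C1 s : ℝ)) := by ring
    rw [this]
    linarith
  · intro j
    rw [htψ, hΛsum, ← Finset.sum_add_distrib, ← hsumG]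
    refine (Finset.abs_sum_le_sum_abs _ _).trans (Finset.sum_le_sum fun i _ => ?_)
    rw [← mul_add, abs_mul, abs_of_pos (hω i)]
    exact mul_le_mul_of_nonneg_left (hlψ i j) (hω i).le

end LD

end Pool.Agent.VCH
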