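import Pool.Agent.Lib.MP_30aac3_nt.Cover
import Pool.Agent.Lib.MP_30aac3_nt.Global

/-!
Assembly of the local inequalities for a family over a function field.
-/

set_option linter.unusedSectionVars false

open Filter WithZero

namespace Pool.Agent.VCH

/-- A family over `L` with its certificate, and a starting point. -/
structure FamL (L ι : Type*) [Field L] [Fintype ι] where
  F : ι → MvPolynomial ι L
  P : ι → L
  g : ι → ι → MvPolynomial ι L
  d : ℕ
  D : ℕ
  hd : 2 ≤ d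
  hdD : d ≤ D
  hF : ∀ i, (F i).IsHomogeneous d
  hg : ∀ i j, (g i j).IsHomogeneous (D - d)
  null : ∀ i, MvPolynomial.X i ^ D = ∑ j, g i j * F j
  hP : P ≠ 0

namespace FamL

variable {L ι : Type*} [Field L] [Fintype ι] (f : FamL L ι)

/-- iterates. -/
noncomputable def V (m : ℕ) : ι → L := (pmap f.F)^[m] f.P

lemma V_succ (m : ℕ) : f.V (m + 1) = pmap f.F (f.V m) := by
  unfold V
  rw [Function.iterate_succ_apply']

lemma null' : ∀ i, MvPolynomial.C (1 : L) * MvPolynomial.X i ^ f.D = ∑ j, f.g i j * f.F j := by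
  intro i
  rw [MvPolynomial.C_1, one_mul]
  exact f.null i

lemma V_ne (m : ℕ) : f.V m ≠ 0 := by
  induction m with
  | zero => exact f.hP
  | succ m ih =>
    rw [V_succ]
    exact Place.pmap_ne_zero one_ne_zero f.null' ih

end FamL

section assemble

variable {k L : Type*} [Field k] [IsAlgClosed k] [CharZero k] [Field L] [Algebra k L]
  (hL : IsFunField k L) {ι : Type*} [Fintype ι] (f : FamL L ι)
  {J : Type*} [Fintype J] {κ : J → Type*} [∀ j, Fintype (κ j)] (ψ : ∀ j, κ j → L)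

/-- A function `x` adapted to the family and the vectors. -/
structure Adapted (x : L) : Prop where
  tr : Transcendental k x
  hF : ∀ i m, (f.F i).coeff m ∈ icl k x
  hg : ∀ i j m, (f.g i j).coeff m ∈ icl k x
  hP : ∀ i, f.P i ∈ icl k x
  hPi : ∃ i, f.P i ≠ 0 ∧ (f.P i)⁻¹ ∈ icl k x
  hψ : ∀ j i, ψ j i ∈ icl k x
  hψi : ∀ j, ∃ i, ψ j i ≠ 0 ∧ (ψ j i)⁻¹ ∈ icl k x

include hL in
omit [IsAlgClosed k] [CharZero k] in
theorem exists_adapted (hψ0 : ∀ j, ψ j ≠ 0) : ∃ x : L, Adapted (k := k) f ψ x := by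
  classical
  obtain ⟨i0, hi0⟩ := Function.ne_iff.mp f.hP
  choose i1 hi1 using fun j => Function.ne_iff.mp (hψ0 j)
  let Zs : Set L := (⋃ i, (fun m => (f.F i).coeff m) '' (f.F i).support) ∪
    (⋃ p : ι × ι, (fun m => (f.g p.1 p.2).coeff m) '' (f.g p.1 p.2).support) ∪
    Set.range f.P ∪ {(f.P i0)⁻¹} ∪ (⋃ j, Set.range (ψ j)) ∪
    Set.range (fun j => (ψ j (i1 j))⁻¹)
  have hZs : Zs.Finite := by
    refine Set.Finite.union (Set.Finite.union (Set.Finite.union (Set.Finite.union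
      (Set.Finite.union ?_ ?_) (Set.finite_range _)) (Set.finite_singleton _)) ?_)
      (Set.finite_range _)
    · exact Set.finite_iUnion fun i => (Finset.finite_toSet _).image _
    · exact Set.finite_iUnion fun i => (Finset.finite_toSet _).image _
    · exact Set.finite_iUnion fun j => Set.finite_range _
  obtain ⟨x, hx, hint⟩ := exists_model hL hZs.toFinset
  have hmem : ∀ {z : L}, z ∈ Zs → z ∈ icl k x := fun h => hint _ (hZs.mem_toFinset.mpr h)
  refine ⟨x, hx, ?_, ?_, ?_, ⟨i0, hi0, ?_⟩, ?_, fun j => ⟨i1 j, hi1 j, ?_⟩⟩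
  · intro i m
    by_cases hm : m ∈ (f.F i).support
    · exact hmem (Or.inl (Or.inl (Or.inl (Or.inl (Or.inl
        (Set.mem_iUnion.mpr ⟨i, ⟨m, hm, rfl⟩⟩))))))
    · rw [MvPolynomial.notMem_support_iff.mp hm]
      exact (icl k x).zero_mem
  · intro i j m
    by_cases hm : m ∈ (f.g i j).support
    · exact hmem (Or.inl (Or.inl (Or.inl (Or.inl (Or.inr
        (Set.mem_iUnion.mpr ⟨(i, j), ⟨m, hm, rfl⟩⟩))))))
    · rw [MvPolynomial.notMem_support_iff.mp hm]
      exact (icl k x).zero_mem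
  · intro i
    exact hmem (Or.inl (Or.inl (Or.inl (Or.inr ⟨i, rfl⟩))))
  · exact hmem (Or.inl (Or.inl (Or.inr rfl)))
  · intro j i
    exact hmem (Or.inl (Or.inr (Set.mem_iUnion.mpr ⟨j, ⟨i, rfl⟩⟩)))
  · exact hmem (Or.inr ⟨j, rfl⟩)

/-- the type of punctures. -/
def Punct (k : Type*) {L : Type*} [Field k] [Field L] [Algebra k L] (x : L) : Type _ :=
  {s : Place k L // s.v x⁻¹ < 1}

/-- The local data at a point. -/
noncomputable def mkLD {x : L} (par : Punct k x → Place k L → k)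
    (qv : Punct k x → ℕ → ι → k) (C1 C2 : Punct k x → ℕ) (t : Place k L) :
    LD k ι (Punct k x) J κ where
  d := f.d
  V m := fun i => t.val (f.V m i)
  ψ j := fun i => t.val (ψ j i)
  xt := t.val x
  par s := par s t
  qv := qv
  E s m := s.1.ordv (f.V m)
  e s j := s.1.ordv (ψ j)
  C1 := C1
  C2 := C2

include hL in
theorem ev_loc {x : L} (hx : Adapted (k := k) f ψ x) (hψ0 : ∀ j, ψ j ≠ 0) :
    Finite (Punct k x) ∧ ∃ (par : Punct k x → Place k L → k) (qv : Punct k x → ℕ → ι → k)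
      (C1 C2 : Punct k x → ℕ) (n : ℕ), (∀ s m, qv s m ≠ 0) ∧ ∀ᶠ q in ctl k,
      ∀ t : Place k L, t.v x ≤ 1 →
        (∀ m, (mkLD f ψ par qv C1 C2 t).Glob (q.2 ^ n) q.1 m) ∧
        ∃ α, ∀ m, 1 ≤ m → (mkLD f ψ par qv C1 C2 t).Loc (q.2 ^ n) q.1 m α := by
  classical
  have hx0 : x ≠ 0 := by
    rintro rfl
    exact hx.tr isAlgebraic_zero
  have hxi : Transcendental k x⁻¹ := fun h => hx.tr (by
    have := h.inv
    rwa [inv_inv] at this)
  obtain ⟨i1, i2, hft⟩ := icl_dedekind hL hxi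
  have hint : ∀ φ : icl k x⁻¹, algebraMap (icl k x⁻¹) L φ ∈ icl k x⁻¹ := fun φ => φ.2
  let uA : icl k x⁻¹ := ⟨x⁻¹, self_mem_icl x⁻¹⟩
  have huA : algebraMap (icl k x⁻¹) L uA = x⁻¹ := rfl
  have huA0 : uA ≠ 0 := fun h => inv_ne_zero hx0 (congrArg Subtype.val h)
  have hA : ∀ s : Place k L, s.v x⁻¹ < 1 → ∀ φ : icl k x⁻¹,
      s.v (algebraMap (icl k x⁻¹) L φ) ≤ 1 := fun s h φ => s.v_le_one_of_mem_icl h.le φ.2
  let U : ∀ (s : Place k L) (_ : s.v x⁻¹ < 1), Uni (icl k x⁻¹) s := fun s h =>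
    (exists_uni s (hA s h)).some
  have hfin : {s : Place k L | s.v x⁻¹ < 1}.Finite := by
    refine (finite_places_of_mem (k := k) (L := L) huA0).subset ?_
    intro s hs
    exact ⟨hA s hs, hs⟩
  have hfinS : Finite (Punct k x) := hfin
  refine ⟨hfinS, ?_⟩
  have := Fintype.ofFinite (Punct k x)
  obtain ⟨n0, hn0⟩ := cover hL hft hx0 hint huA hA U hfin
  choose C1 C2 ns qv hqv hns using fun s : Punct k x =>
    (U s.1 s.2).ev_orbit hL (hA s.1 s.2) hft f.hd f.hdD f.hF f.hg f.null f.hP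
  have hrat : ∀ᶠ q in ctl k, ∀ (s : Punct k x) (j : J) (t : Place k L),
    (∀ φ : icl k x⁻¹, t.v (algebraMap (icl k x⁻¹) L φ) ≤ 1) →
      (U s.1 s.2).Near hL (hA s.1 s.2) hft q t → (U s.1 s.2).par t ≠ 0 →
      q.1 ((U s.1 s.2).par t) ^ (s.1.ordv (ψ j)) ≤ q.2 ^ 3 * vn q.1 (fun i => t.val (ψ j i)) ∧
      vn q.1 (fun i => t.val (ψ j i)) ≤ q.2 ^ 3 *
        q.1 ((U s.1 s.2).par t) ^ (s.1.ordv (ψ j)) := by
    rw [Filter.eventually_all]
    intro s
    rw [Filter.eventually_all]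
    intro j
    exact (U s.1 s.2).ev_ratioV hL (hA s.1 s.2) hft (ψ j) (hψ0 j)
  obtain ⟨iP, hiP0, hiP⟩ := hx.hPi
  obtain ⟨nb, hnb⟩ := ev_bulkOrbit hL f.hd f.hdD f.hF f.hg f.null hx.hF hx.hg hx.hP hiP0 hiP n0
  choose iψ hiψ0 hiψ using hx.hψi
  choose nψ hnψ using fun j => ev_bulkV hL (ψ j) (hx.hψ j) (hiψ0 j) (hiψ j) n0
  let n : ℕ := nb + ∑ j, nψ j + ∑ s, ns s + 3
  refine ⟨fun s => (U s.1 s.2).par, qv, C1, C2, n, hqv, ?_⟩
  filter_upwards [hn0, Filter.eventually_all.mpr hns, hrat, hnb, Filter.eventually_all.mpr hnψ,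
    ctl_const 1, Filter.eventually_all.mpr fun s : Punct k x =>
      (U s.1 s.2).ev_basic hL (hA s.1 s.2) hft,
    Filter.eventually_all.mpr fun s : Punct k x =>
      (U s.1 s.2).ev_ratioA hL (hA s.1 s.2) hft uA huA0] with
    q h1 h2 h3 h4 h5 h6 h7 h8 t ht
  have hH0 : 0 < q.2 := by linarith
  have hpow : ∀ {a b : ℕ}, a ≤ n → q.2 ^ (a * b) ≤ (q.2 ^ n) ^ b := by
    intro a b hab
    rw [← pow_mul]
    exact pow_le_pow_right₀ h6 (Nat.mul_le_mul_right _ hab)
  have hpow1 : ∀ {a : ℕ}, a ≤ n → q.2 ^ a ≤ q.2 ^ n := fun {a} hab => pow_le_pow_right₀ h6 hab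
  have hns_le : ∀ s, ns s ≤ n := by
    intro s
    have := Finset.single_le_sum (f := ns) (fun _ _ => Nat.zero_le _) (Finset.mem_univ s)
    simp only [n]
    omega
  have hnψ_le : ∀ j, nψ j ≤ n := by
    intro j
    have := Finset.single_le_sum (f := nψ) (fun _ _ => Nat.zero_le _) (Finset.mem_univ j)
    simp only [n]
    omega
  have hVint : ∀ m i, t.v (f.V m i) ≤ 1 := by
    intro m
    induction m with
    | zero => exact fun i => t.v_le_one_of_mem_icl ht (hx.hP i)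
    | succ m ih =>
      intro i
      rw [f.V_succ]
      refine (t.v_eval_le (f.hF i) (C := 1)
        (fun m => t.v_le_one_of_mem_icl ht (hx.hF i m)) _).trans ?_
      rw [one_mul]
      exact pow_le_one' (t.vsup_le ih) _
  constructor
  · intro m s
    exact ((h2 s).1 m).trans (hpow (hns_le s))
  rcases h1 t ht with hb | ⟨hx1, s, hs, hnear⟩
  · -- bulk
    refine ⟨none, fun m _ => ?_⟩
    obtain ⟨a1, a2⟩ := h4 t ht hb m
    have hV0 := vn_nonneg (μ := q.1) (fun i => t.val (f.V m i))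
    refine ⟨a1.trans (hpow (by simp only [n]; omega)), a2.trans ?_, fun j => ?_⟩
    · exact mul_le_mul_of_nonneg_right (hpow (by simp only [n]; omega)) hV0
    · obtain ⟨b1, b2⟩ := h5 j t ht hb
      have hψv := vn_nonneg (μ := q.1) (fun i => t.val (ψ j i))
      exact ⟨b1.trans (hpow1 (hnψ_le j)), b2.trans
        (mul_le_mul_of_nonneg_right (hpow1 (hnψ_le j)) hψv)⟩
  · -- near the puncture `s`
    have hvu : t.v x⁻¹ = 1 := by rw [map_inv₀, hx1, inv_one]
    have hA' : ∀ φ : icl k x⁻¹, t.v (algebraMap (icl k x⁻¹) L φ) ≤ 1 := fun φ =>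
      t.v_le_one_of_mem_icl hvu.le φ.2
    obtain ⟨b1, b2, b3⟩ := h7 ⟨s, hs⟩ t hA' hnear
    have hpar : (U s hs).par t ≠ 0 := by
      intro h0
      have e1 := b1 uA
      rw [show (U s hs).par t = 0 from h0, zero_mul, add_zero] at e1
      have e2 : t.val x⁻¹ ≠ 0 := (t.val_ne_zero_iff hL hvu.le).mpr hvu
      apply e2
      have e3 : (t.hom hL hA') uA = t.val x⁻¹ := rfl
      rw [← e3, e1, Uni.chart_s, huA]
      exact (s.val_eq_zero_iff hL hs.le).mpr hs
    have hα := q.1.pos hpar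
    have hα1 : q.1 ((U s hs).par t) ≤ 1 := by
      refine le_trans ?_ b2
      exact le_mul_of_one_le_right hα.le (one_le_pow₀ h6)
    refine ⟨some ⟨s, hs⟩, fun m hm => ⟨hpar, hα1, ?_, ?_, ?_, fun j => ?_⟩⟩
    · obtain ⟨-, -, c3⟩ := h8 ⟨s, hs⟩ t hA' hnear hpar
      have hord : 1 ≤ s.ord x⁻¹ := by
        have := (Place.v_lt_one_iff (inv_ne_zero hx0)).mp hs
        omega
      have e1 : q.1 ((U s hs).par t) ^ (s.ord x⁻¹) ≤ q.1 ((U s hs).par t) := by
        have := zpow_anti hα hα1 hord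
        rwa [zpow_one] at this
      have hux : q.1 (t.val x⁻¹) * q.1 (t.val x) = 1 := by
        rw [← map_mul, ← t.val_mul hL hvu.le hx1.le, inv_mul_cancel₀ hx0, t.val_one, map_one]
      have e2 : q.1 (t.val x⁻¹) ≤ q.2 * q.1 ((U s hs).par t) := by
        refine (show q.1 (t.val x⁻¹) ≤ q.2 * q.1 ((U s hs).par t) ^ (s.ord x⁻¹) from c3).trans ?_
        gcongr
      have hxn := q.1.nonneg (t.val x)
      calc (1:ℝ) = q.1 (t.val x⁻¹) * q.1 (t.val x) := hux.symm
        _ ≤ (q.2 * q.1 ((U s hs).par t)) * q.1 (t.val x) := by gcongr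
        _ = q.2 ^ 1 * (q.1 ((U s hs).par t) * q.1 (t.val x)) := by ring
        _ ≤ q.2 ^ n * (q.1 ((U s hs).par t) * q.1 (t.val x)) := by
            refine mul_le_mul_of_nonneg_right (hpow1 ?_) (by positivity)
            simp only [n]; omega
    · obtain ⟨c1, -⟩ := (h2 ⟨s, hs⟩).2 t hA' hnear hpar (fun m i => hVint m i) m hm
      refine c1.trans ?_
      exact mul_le_mul_of_nonneg_right (hpow (hns_le ⟨s, hs⟩)) (zpow_pos hα _).le
    · obtain ⟨-, c2⟩ := (h2 ⟨s, hs⟩).2 t hA' hnear hpar (fun m i => hVint m i) m hm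
      refine c2.trans ?_
      exact mul_le_mul_of_nonneg_right (hpow (hns_le ⟨s, hs⟩)) (vn_nonneg _)
    · obtain ⟨c1, c2⟩ := h3 ⟨s, hs⟩ j t hA' hnear hpar
      constructor
      · refine c2.trans ?_
        refine mul_le_mul_of_nonneg_right (hpow1 ?_) (zpow_pos hα _).le
        simp only [n]; omega
      · refine c1.trans ?_
        refine mul_le_mul_of_nonneg_right (hpow1 ?_) (vn_nonneg _)
        simp only [n]; omega

end assemble

end Pool.Agent.VCH
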