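import Pool.Agent.Lib.MP_30aac3_nt.SiteOrbit

/-!
Estimates away from the punctures.
-/

set_option linter.unusedSectionVars false

open Filter WithZero

namespace Pool.Agent.VCH

namespace Place

variable {k L : Type*} [Field k] [Field L] [Algebra k L]

/-- valuation ring as a subalgebra. -/
def ring (t : Place k L) : Subalgebra k L where
  carrier := {φ | t.v φ ≤ 1}
  mul_mem' := by
    intro a b ha hb
    simp only [Set.mem_ofPred_eq, map_mul] at *
    exact mul_le_one' ha hb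
  add_mem' := by
    intro a b ha hb
    simp only [Set.mem_ofPred_eq] at *
    exact (t.v.map_add _ _).trans (max_le ha hb)
  algebraMap_mem' := fun c => t.v_algebraMap_le c

lemma mem_ring {t : Place k L} {φ : L} : φ ∈ t.ring ↔ t.v φ ≤ 1 := Iff.rfl

lemma v_le_one_of_isIntegral (t : Place k L) {z : L} (h : IsIntegral t.ring z) : t.v z ≤ 1 := by
  have h7 : IsIntegral t.v.valuationSubring z := by
    have e : (algebraMap t.v.valuationSubring L).comp
        ((algebraMap t.ring L).codRestrict t.v.valuationSubring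
        (fun z => z.2)) = (RingHom.id L).comp (algebraMap t.ring L) := rfl
    exact IsIntegral.map_of_comp_eq _ (RingHom.id L) e h
  obtain ⟨w, hw⟩ := IsIntegrallyClosed.isIntegral_iff.mp h7
  rw [← hw]
  exact w.2

lemma v_le_one_of_mem_icl (t : Place k L) {w z : L} (hw : t.v w ≤ 1) (hz : z ∈ icl k w) :
    t.v z ≤ 1 :=
  t.v_le_one_of_isIntegral (isIntegral_of_mem_adjoin_le (C := t.ring) hw hz)

variable [IsAlgClosed k] (hL : IsFunField k L)

include hL in
lemma val_aeval (t : Place k L) {w : L} (hw : t.v w ≤ 1) (p : Polynomial k) :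
    t.val (Polynomial.aeval w p) = p.eval (t.val w) := by
  have h1 := Polynomial.aeval_algHom_apply (t.hom (A := t.ring) hL fun φ => φ.2)
    (⟨w, hw⟩ : t.ring) p
  have h2 := Polynomial.aeval_algHom_apply t.ring.val (⟨w, hw⟩ : t.ring) p
  have h3 : t.val (Polynomial.aeval w p) = (t.hom (A := t.ring) hL fun φ => φ.2)
      (Polynomial.aeval (⟨w, hw⟩ : t.ring) p) := congrArg t.val h2
  rw [h3, ← h1, Polynomial.coe_aeval_eq_eval]
  rfl

include hL in
lemma intDep_val (t : Place k L) {w z : L} (hw : t.v w ≤ 1) (hz : t.v z ≤ 1) {N : ℕ}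
    {p : ℕ → Polynomial k}
    (h : z ^ N + ∑ i ∈ Finset.range N, Polynomial.aeval w (p i) * z ^ i = 0) :
    t.val z ^ N + ∑ i ∈ Finset.range N, (p i).eval (t.val w) * t.val z ^ i = 0 := by
  have hR := congrArg (t.hom (A := t.ring) hL fun φ => φ.2)
    (Subtype.ext (by
      push_cast
      exact h) : (⟨z, hz⟩ : t.ring) ^ N + ∑ i ∈ Finset.range N,
        (⟨Polynomial.aeval w (p i), by
          have := Polynomial.aeval_algHom_apply t.ring.val (⟨w, hw⟩ : t.ring) (p i)
          rw [show Polynomial.aeval w (p i) = _ from this]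
          exact Subtype.property _⟩ : t.ring) * (⟨z, hz⟩ : t.ring) ^ i = 0)
  rw [map_add, map_pow, map_sum, map_zero] at hR
  simp only [map_mul, map_pow] at hR
  rw [← hR]
  congr 1
  refine Finset.sum_congr rfl fun i _ => ?_
  rw [← t.val_aeval hL hw]
  rfl

end Place

section bulk

variable {k L : Type*} [Field k] [IsAlgClosed k] [Field L] [Algebra k L] (hL : IsFunField k L)

include hL in
lemma ev_int {w z : L} (h : z ∈ icl k w) (n0 : ℕ) : ∃ n : ℕ, ∀ᶠ q in ctl k, ∀ t : Place k L,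
    t.v w ≤ 1 → q.1 (t.val w) ≤ q.2 ^ n0 → q.1 (t.val z) ≤ q.2 ^ n := by
  obtain ⟨N, p, hp⟩ := intDep_of_isIntegral h
  obtain ⟨n, hn⟩ := int_bound p N n0
  refine ⟨n, ?_⟩
  filter_upwards [hn] with q hq t ht h1
  exact hq _ _ h1 (t.intDep_val hL ht (t.v_le_one_of_mem_icl ht h) hp)

include hL in
lemma ev_int_family {α : Type*} [Finite α] {w : L} (z : α → L) (h : ∀ i, z i ∈ icl k w)
    (n0 : ℕ) : ∃ n : ℕ, ∀ᶠ q in ctl k, ∀ t : Place k L,
    t.v w ≤ 1 → q.1 (t.val w) ≤ q.2 ^ n0 → ∀ i, q.1 (t.val (z i)) ≤ q.2 ^ n := by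
  have := Fintype.ofFinite α
  choose n hn using fun i => ev_int hL (h i) n0
  refine ⟨∑ i, n i, ?_⟩
  filter_upwards [Filter.eventually_all.mpr hn, ctl_const 1] with q hq h1 t ht h2 i
  refine (hq i t ht h2).trans (pow_le_pow_right₀ h1 ?_)
  exact Finset.single_le_sum (f := n) (fun _ _ => Nat.zero_le _) (Finset.mem_univ i)

include hL in
/-- vectors without zeros away from the poles of `w`. -/
lemma ev_bulkV {α : Type*} [Fintype α] {w : L} (z : α → L) (h : ∀ i, z i ∈ icl k w)
    {i0 : α} (h0 : z i0 ≠ 0) (hinv : (z i0)⁻¹ ∈ icl k w)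
    (n0 : ℕ) : ∃ n : ℕ, ∀ᶠ q in ctl k, ∀ t : Place k L,
    t.v w ≤ 1 → q.1 (t.val w) ≤ q.2 ^ n0 →
      vn q.1 (fun i => t.val (z i)) ≤ q.2 ^ n ∧ 1 ≤ q.2 ^ n * vn q.1 (fun i => t.val (z i)) := by
  obtain ⟨n, hn⟩ := ev_int_family hL z h n0
  obtain ⟨n', hn'⟩ := ev_int hL hinv n0
  refine ⟨n + n', ?_⟩
  filter_upwards [hn, hn', ctl_const 1] with q h1 h2 h3 t ht h4
  have hH0 : 0 < q.2 := by linarith
  constructor
  · refine vn_le (by positivity) fun i => (h1 t ht h4 i).trans ?_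
    exact pow_le_pow_right₀ h3 (by omega)
  · have h5 := h2 t ht h4
    have h6 : q.1 (t.val (z i0)) * q.1 (t.val (z i0)⁻¹) = 1 := by
      rw [← map_mul, ← t.val_mul hL (t.v_le_one_of_mem_icl ht (h i0))
        (t.v_le_one_of_mem_icl ht hinv), mul_inv_cancel₀ h0, t.val_one, map_one]
    have h7 := le_vn (μ := q.1) (fun i => t.val (z i)) i0
    have h8 := q.1.nonneg (t.val (z i0))
    calc 1 = q.1 (t.val (z i0)) * q.1 (t.val (z i0)⁻¹) := h6.symm
      _ ≤ vn q.1 (fun i => t.val (z i)) * q.2 ^ (n + n') := by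
          refine mul_le_mul h7 (h5.trans (pow_le_pow_right₀ h3 (by omega))) (q.1.nonneg _)
            (vn_nonneg _)
      _ = _ := mul_comm _ _

end bulk

end Pool.Agent.VCH
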