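import Pool.Agent.Lib.MP_30aac3_nt.Bulk

/-!
Orbit estimates away from the punctures.
-/

set_option linter.unusedSectionVars false

open Filter WithZero

namespace Pool.Agent.VCH

section bulk

variable {k L : Type*} [Field k] [IsAlgClosed k] [Field L] [Algebra k L] (hL : IsFunField k L)
variable {ι : Type*} [Fintype ι]

lemma exists_lift_icl {α : Type*} {w : L} (F : α → MvPolynomial ι L)
    (hF : ∀ i m, (F i).coeff m ∈ icl k w) :
    ∃ F' : α → MvPolynomial ι (icl k w), ∀ i,
      MvPolynomial.map (algebraMap (icl k w) L) (F' i) = F i := by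
  have h : ∀ i, ∃ f : MvPolynomial ι (icl k w),
      MvPolynomial.map (algebraMap (icl k w) L) f = F i :=
    fun i => exists_lift_map _ _ fun m _ => ⟨⟨_, hF i m⟩, rfl⟩
  choose F' hF' using h
  exact ⟨F', hF'⟩

/-- iterating a lower bound. -/
lemma lower_iterate {d : ℕ} (hd : 2 ≤ d) {B : ℝ} (hB : 1 ≤ B) (v : ℕ → ℝ) (hv : ∀ m, 0 ≤ v m)
    (h : ∀ m, v m ^ d ≤ B * v (m + 1)) (m : ℕ) : v 0 ^ (d ^ m) ≤ B ^ (d ^ m - 1) * v m := by
  induction m with
  | zero => simp
  | succ m ih =>
    have h1 : 1 ≤ d ^ m := Nat.one_le_pow _ _ (by omega)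
    have e2 : (d ^ m - 1) * d + 1 ≤ d ^ (m + 1) - 1 := by
      have e3 : (d ^ m - 1) * d = d ^ (m+1) - d := by
        rw [Nat.sub_mul, one_mul, pow_succ]
      have : d ≤ d ^ (m + 1) := by
        rw [pow_succ]; exact Nat.le_mul_of_pos_left _ (by omega)
      omega
    have hv0 := hv 0
    have hvm := hv m
    have hvm1 := hv (m + 1)
    calc v 0 ^ (d ^ (m + 1)) = (v 0 ^ (d ^ m)) ^ d := by rw [← pow_mul, pow_succ]
      _ ≤ (B ^ (d ^ m - 1) * v m) ^ d := by gcongr
      _ = B ^ ((d ^ m - 1) * d) * v m ^ d := by rw [mul_pow, ← pow_mul]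
      _ ≤ B ^ ((d ^ m - 1) * d) * (B * v (m + 1)) := by
          gcongr
          exact h m
      _ = B ^ ((d ^ m - 1) * d + 1) * v (m + 1) := by rw [pow_succ]; ring
      _ ≤ _ := by gcongr

include hL in
theorem ev_bulkOrbit {x : L} {F : ι → MvPolynomial ι L} {P : ι → L}
    {g : ι → ι → MvPolynomial ι L} {d D : ℕ}
    (hd : 2 ≤ d) (hdD : d ≤ D) (hF : ∀ i, (F i).IsHomogeneous d)
    (hg : ∀ i j, (g i j).IsHomogeneous (D - d))
    (null : ∀ i, MvPolynomial.X i ^ D = ∑ j, g i j * F j)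
    (hFi : ∀ i m, (F i).coeff m ∈ icl k x) (hgi : ∀ i j m, (g i j).coeff m ∈ icl k x)
    (hPi : ∀ i, P i ∈ icl k x) {i0 : ι} (hP0 : P i0 ≠ 0) (hPinv : (P i0)⁻¹ ∈ icl k x)
    (n0 : ℕ) :
    ∃ n : ℕ, ∀ᶠ q in ctl k, ∀ t : Place k L, t.v x ≤ 1 → q.1 (t.val x) ≤ q.2 ^ n0 → ∀ m,
      vn q.1 (fun i => t.val ((pmap F)^[m] P i)) ≤ q.2 ^ (n * d ^ m) ∧
      1 ≤ q.2 ^ (n * d ^ m) * vn q.1 (fun i => t.val ((pmap F)^[m] P i)) := by
  classical
  obtain ⟨F', hF'⟩ := exists_lift_icl (k := k) (w := x) F hFi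
  obtain ⟨g', hg'⟩ := exists_lift_icl (k := k) (w := x) (fun p : ι × ι => g p.1 p.2)
    (fun p m => hgi p.1 p.2 m)
  have hinj : Function.Injective (algebraMap (icl k x) L) := Subtype.val_injective
  have hF'h : ∀ i, (F' i).IsHomogeneous d := fun i =>
    isHomogeneous_of_map' hinj (by rw [hF' i]; exact hF i)
  have hg'h : ∀ i j, (g' (i, j)).IsHomogeneous (D - d) := fun i j =>
    isHomogeneous_of_map' hinj (by rw [hg' (i, j)]; exact hg i j)
  have hnull' : ∀ i, MvPolynomial.C (1 : icl k x) * MvPolynomial.X i ^ D =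
      ∑ j, g' (i, j) * F' j := by
    intro i
    apply MvPolynomial.map_injective _ hinj
    rw [map_mul, MvPolynomial.map_C, map_pow, MvPolynomial.map_X, null i, map_sum, map_one,
      MvPolynomial.C_1, one_mul]
    refine Finset.sum_congr rfl fun j _ => ?_
    rw [map_mul (MvPolynomial.map (algebraMap (icl k x) L)), hg' (i, j), hF' j]
  let P' : ι → icl k x := fun i => ⟨P i, hPi i⟩
  have hV : ∀ m i, algebraMap (icl k x) L ((pmap F')^[m] P' i) = (pmap F)^[m] P i := by
    intro m i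
    have h1 := pmap_iterate_map (algebraMap (icl k x) L) F' P' m
    have h2 : (fun i => MvPolynomial.map (algebraMap (icl k x) L) (F' i)) = F := funext hF'
    rw [h2] at h1
    exact (congrFun h1 i).symm
  -- uniform bounds for the coefficients
  obtain ⟨n1, hn1⟩ := ev_int_family hL
    (fun p : Σ i : ι, (F i).support => (F p.1).coeff p.2) (fun p => hFi _ _) n0
  obtain ⟨n2, hn2⟩ := ev_int_family hL
    (fun p : Σ r : ι × ι, (g r.1 r.2).support => (g p.1.1 p.1.2).coeff p.2)
    (fun p => hgi _ _ _) n0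
  obtain ⟨n3, hn3⟩ := ev_bulkV hL P hPi hP0 hPinv n0
  have hsF : ∀ i, (F' i).support ⊆ (F i).support := by
    intro i m hm
    rw [MvPolynomial.mem_support_iff] at hm ⊢
    intro h0
    apply hm
    apply hinj
    rw [← MvPolynomial.coeff_map, hF' i, h0, map_zero]
  have hsg : ∀ p, (g' p).support ⊆ (g p.1 p.2).support := by
    intro i m hm
    rw [MvPolynomial.mem_support_iff] at hm ⊢
    intro h0
    apply hm
    apply hinj
    rw [← MvPolynomial.coeff_map, hg' i, h0, map_zero]
  refine ⟨(n1 + 1) + (n2 + 2) + n3, ?_⟩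
  filter_upwards [hn1, hn2, hn3, ctl_const 1, ctl_const (Fintype.card ι : ℝ),
    Filter.eventually_all.mpr fun i => ctl_const (k := k) (((F i).support.card : ℕ) : ℝ),
    Filter.eventually_all.mpr fun p : ι × ι =>
      ctl_const (k := k) (((g p.1 p.2).support.card : ℕ) : ℝ)] with q h1 h2 h3 h4 h5 h6 h7
    t ht hx m
  set H := q.2 with hH
  have hH0 : 0 < H := by linarith
  have hR : ∀ φ : icl k x, t.v (algebraMap (icl k x) L φ) ≤ 1 := fun φ =>
    t.v_le_one_of_mem_icl ht φ.2
  set tR : icl k x →ₐ[k] k := t.hom hL hR with htR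
  have hVt : ∀ m, (fun i => t.val ((pmap F)^[m] P i)) =
      (pmap fun i => MvPolynomial.map (tR : icl k x →+* k) (F' i))^[m]
        (fun i => tR (P' i)) := by
    intro m
    have e1 := pmap_iterate_map (tR : icl k x →+* k) F' P' m
    refine Eq.trans ?_ e1.symm
    funext i
    rw [← hV m i]
    rfl
  have hcF : ∀ i m, m ∈ (F' i).support → q.1 (tR ((F' i).coeff m)) ≤ H ^ n1 := by
    intro i m hm
    have e1 := h1 t ht hx ⟨i, ⟨m, hsF i hm⟩⟩
    have e2 : tR ((F' i).coeff m) = t.val ((F i).coeff m) := by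
      rw [htR, Place.hom_apply, ← MvPolynomial.coeff_map, hF' i]
    rw [e2]
    exact e1
  have hcg : ∀ p m, m ∈ (g' p).support → q.1 (tR ((g' p).coeff m)) ≤ H ^ n2 := by
    intro p m hm
    have e1 := h2 t ht hx ⟨p, ⟨m, hsg p hm⟩⟩
    have e2 : tR ((g' p).coeff m) = t.val ((g p.1 p.2).coeff m) := by
      rw [htR, Place.hom_apply, ← MvPolynomial.coeff_map, hg' p]
    rw [e2]
    exact e1
  obtain ⟨h3a, h3b⟩ := h3 t ht hx
  have hdm : 1 ≤ d ^ m := Nat.one_le_pow _ _ (by omega)
  have hV0 : (fun i => tR (P' i)) = fun i => t.val (P i) := rfl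
  constructor
  · rw [hVt m]
    refine vn_le (by positivity) fun i => ?_
    have hit := (isBd_abs q.1).iterate hd (F := fun i => MvPolynomial.map (tR : icl k x →+* k)
      (F' i)) (fun i => (hF'h i).map _) (K := H ^ (n1 + 1)) (V := H ^ n3) (by positivity)
      (one_le_pow₀ h4) (fun i => ⟨H ^ n1, fun m hm => by
        rw [MvPolynomial.coeff_map]
        exact hcF i m (MvPolynomial.support_map_subset _ _ hm), by
        have e1 : (((MvPolynomial.map (tR : icl k x →+* k) (F' i)).support.card : ℕ) : ℝ) ≤ H := by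
          refine le_trans ?_ (h6 i)
          exact_mod_cast Finset.card_le_card
            ((MvPolynomial.support_map_subset _ _).trans (hsF i))
        rw [pow_succ']
        gcongr⟩) (v := fun i => tR (P' i))
        (fun i => (le_vn (μ := q.1) (fun i => t.val (P i)) i).trans h3a) m i
    refine hit.trans ?_
    rw [← pow_mul, ← pow_mul, ← pow_add]
    refine pow_le_pow_right₀ h4 ?_
    have e1 : (n1 + 1) * (d ^ m - 1) ≤ (n1 + 1) * d ^ m := Nat.mul_le_mul_left _ (by omega)
    nlinarith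
  · have hlb : ∀ v : ι → k, vn q.1 v ^ d ≤ H ^ (n2 + 2) *
        vn q.1 (pmap (fun i => MvPolynomial.map (tR : icl k x →+* k) (F' i)) v) := by
      intro v
      have hG : ∀ i j (v : ι → k), q.1 (MvPolynomial.eval v
          (MvPolynomial.map (tR : icl k x →+* k) (g' (i, j)))) ≤
          H ^ (n2 + 1) * vn q.1 v ^ (D - d) := by
        intro i j v
        refine (eval_map_le (hg'h i j) (K := H ^ n2) (by positivity)
          (fun m hm => hcg (i, j) m hm) v).trans ?_
        have e1 : (((g' (i, j)).support.card : ℕ) : ℝ) ≤ H := by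
          refine le_trans ?_ (h7 (i, j))
          exact_mod_cast Finset.card_le_card (hsg (i, j))
        have e2 := vn_nonneg (μ := q.1) v
        rw [pow_succ' H n2]
        gcongr
      have e1 := lower_bound (t := (tR : icl k x →+* k)) (by omega) hdD hnull' hG v
      rw [map_one, map_one, one_mul] at e1
      refine e1.trans ?_
      have e2 := vn_nonneg (μ := q.1)
        (pmap (fun i => MvPolynomial.map (tR : icl k x →+* k) (F' i)) v)
      have e3 : H ^ (n2 + 2) = H * H ^ (n2 + 1) := by rw [← pow_succ']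
      rw [e3]
      gcongr
    have hit := lower_iterate hd (B := H ^ (n2 + 2)) (one_le_pow₀ h4)
      (fun m => vn q.1 ((pmap fun i => MvPolynomial.map (tR : icl k x →+* k) (F' i))^[m]
        (fun i => tR (P' i)))) (fun m => vn_nonneg _) (fun m => by
          rw [Function.iterate_succ_apply']
          exact hlb _) m
    rw [← hVt m, Function.iterate_zero_apply, hV0] at hit
    have hVm0 := vn_nonneg (μ := q.1) (fun i => t.val ((pmap F)^[m] P i))
    have hV00 := vn_nonneg (μ := q.1) (fun i => t.val (P i))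
    calc (1:ℝ) = 1 ^ d ^ m := (one_pow _).symm
      _ ≤ (H ^ n3 * vn q.1 (fun i => t.val (P i))) ^ d ^ m := by gcongr
      _ = H ^ (n3 * d ^ m) * vn q.1 (fun i => t.val (P i)) ^ d ^ m := by
          rw [mul_pow, ← pow_mul]
      _ ≤ H ^ (n3 * d ^ m) * ((H ^ (n2 + 2)) ^ (d ^ m - 1) *
          vn q.1 (fun i => t.val ((pmap F)^[m] P i))) := by gcongr
      _ = H ^ (n3 * d ^ m + (n2 + 2) * (d ^ m - 1)) *
          vn q.1 (fun i => t.val ((pmap F)^[m] P i)) := by
          rw [← pow_mul, pow_add]; ring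
      _ ≤ _ := by
          gcongr
          have e1 : (n2 + 2) * (d ^ m - 1) ≤ (n2 + 2) * d ^ m :=
            Nat.mul_le_mul_left _ (by omega)
          nlinarith

end bulk

end Pool.Agent.VCH
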