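import Pool.Agent.Lib.MP_30aac3_nt.Limit

/-!
Existence of the canonical height of a morphism.
-/

set_option linter.unusedSectionVars false

open Filter WithZero Topology

namespace Pool.Agent.VCH

section canht

variable {ι : Type} [Fintype ι]

lemma ev_coeff_bound {k : Type*} [Field k] {α : Type*} [Finite α]
    (G : α → MvPolynomial ι k) :
    ∀ᶠ q in ctl k, ∀ i, ((G i).support.card : ℝ) * mvn q.1 (G i) ≤ q.2 := by
  rw [Filter.eventually_all]
  intro i
  exact ((Ctl.const _).mul (Ctl.mvn (G i))).ev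

lemma coeff_le_mvn {k : Type*} [Field k] {μ : AbsoluteValue k ℝ} (p : MvPolynomial ι k)
    {m : ι →₀ ℕ} (hm : m ∈ p.support) : μ (p.coeff m) ≤ mvn μ p :=
  Finset.single_le_sum (f := fun m => μ (p.coeff m)) (fun _ _ => μ.nonneg _) hm

/-- two-sided local bounds for a morphism over the constant field. -/
lemma ev_two_sided {k : Type*} [Field k] {G : ι → MvPolynomial ι k}
    {g : ι → ι → MvPolynomial ι k} {d D : ℕ}
    (hd : 1 ≤ d) (hdD : d ≤ D) (hG : ∀ i, (G i).IsHomogeneous d)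
    (hg : ∀ i j, (g i j).IsHomogeneous (D - d))
    (null : ∀ i, MvPolynomial.X i ^ D = ∑ j, g i j * G j) :
    ∀ᶠ q in ctl k, ∀ x : ι → k, vn q.1 (pmap G x) ≤ q.2 ^ 2 * vn q.1 x ^ d ∧
      vn q.1 x ^ d ≤ q.2 ^ 2 * vn q.1 (pmap G x) := by
  filter_upwards [ev_coeff_bound G, ev_coeff_bound (fun p : ι × ι => g p.1 p.2), ctl_const 1,
    ctl_const (Fintype.card ι : ℝ)] with q h1 h2 h3 h4 x
  have hH0 : 0 < q.2 := by linarith
  have hx := vn_nonneg (μ := q.1) x
  constructor
  · refine vn_le (by positivity) fun i => ?_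
    have e1 := (isBd_abs q.1).eval_homogeneous (G i) (hG i) (K := mvn q.1 (G i)) (V := vn q.1 x)
      (fun m hm => coeff_le_mvn _ hm) (fun i => le_vn x i)
    refine e1.trans ?_
    have e2 : q.2 ≤ q.2 ^ 2 := by nlinarith
    have e3 := (h1 i).trans e2
    gcongr
  · have null' : ∀ i, MvPolynomial.C (1 : k) * MvPolynomial.X i ^ D = ∑ j, g i j * G j := by
      intro i
      rw [MvPolynomial.C_1, one_mul]
      exact null i
    have e1 := lower_bound (μ := q.1) (t := RingHom.id k) hd hdD null' (G := q.2)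
      (fun i j x => by
        rw [MvPolynomial.map_id]
        have e1 := (isBd_abs q.1).eval_homogeneous (g i j) (hg i j) (K := mvn q.1 (g i j))
          (V := vn q.1 x) (fun m hm => coeff_le_mvn _ hm) (fun i => le_vn x i)
        refine e1.trans ?_
        have := vn_nonneg (μ := q.1) x
        have := h2 (i, j)
        gcongr) x
    simp only [MvPolynomial.map_id, map_one, one_mul] at e1
    refine e1.trans ?_
    have := vn_nonneg (μ := q.1) (pmap (fun i => G i) x)
    calc (Fintype.card ι : ℝ) * q.2 * vn q.1 (pmap (fun i => G i) x)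
        ≤ q.2 * q.2 * vn q.1 (pmap (fun i => G i) x) := by gcongr
      _ = _ := by ring

/-- heights under a morphism. -/
theorem exists_height_bound {G : ι → MvPolynomial ι Qb} {d : ℕ} (hd : 2 ≤ d)
    (hG : ∀ i, (G i).IsHomogeneous d)
    (hnz : ∀ y : ι → Qb, (∀ i, MvPolynomial.eval y (G i) = 0) → y = 0) :
    ∃ C : ℝ, ∀ x : ι → Qb, x ≠ 0 → pmap G x ≠ 0 ∧ |absHt (pmap G x) - d * absHt x| ≤ C := by
  classical
  obtain ⟨D, g, hdD, hg, null⟩ := exists_null (Ω := Qb) hG (fun y hy => hnz y fun i => by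
    have := hy i
    rw [MvPolynomial.aeval_def, Algebra.algebraMap_self] at this
    exact this)
  have hev := ev_two_sided (by omega) hdD hG hg null
  obtain ⟨Z, n, hZ⟩ := eventually_ctl_iff.mp hev
  have hne : ∀ x : ι → Qb, x ≠ 0 → pmap G x ≠ 0 := by
    intro x hx h0
    exact hx (hnz x fun i => congrFun h0 i)
  have key : ∀ μ : AbsoluteValue Qb ℝ, ∀ x : ι → Qb,
      vn μ (pmap G x) ≤ ((2 + Z.card) * vn μ (zvec Z)) ^ (n * 2) * vn μ x ^ d ∧
      vn μ x ^ d ≤ ((2 + Z.card) * vn μ (zvec Z)) ^ (n * 2) * vn μ (pmap G x) := by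
    intro μ x
    have h1 : sz Z μ ^ n ≤ ((2 + Z.card) * vn μ (zvec Z)) ^ n := by
      have h2 := sz_le_vn Z μ
      have h3 := two_le_sz Z μ
      gcongr
    rw [pow_mul]
    exact hZ μ _ h1 x
  have keyna : ∀ μ : AbsoluteValue Qb ℝ, IsNonarchimedean μ → ∀ x : ι → Qb,
      vn μ (pmap G x) ≤ (vn μ (zvec Z)) ^ (n * 2) * vn μ x ^ d ∧
      vn μ x ^ d ≤ (vn μ (zvec Z)) ^ (n * 2) * vn μ (pmap G x) := by
    intro μ hμ x
    have hW := one_le_vn_zvec Z μ
    have hcomm : ∀ p : ℕ, ((2 + (Z.card : ℝ)) * vn μ (zvec Z) ^ (p + 1)) ^ (n * 2) =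
        (2 + (Z.card : ℝ)) ^ (n * 2) * ((vn μ (zvec Z)) ^ (n * 2)) ^ (p + 1) := by
      intro p
      rw [mul_pow, ← pow_mul, ← pow_mul, mul_comm (p + 1)]
    constructor
    · refine le_of_frequently_pow_le (K := (2 + (Z.card : ℝ)) ^ (n * 2)) (vn_nonneg _)
        (pow_nonneg (vn_nonneg _) _) (by positivity) (by positivity)
        (Filter.Frequently.of_forall fun p => ?_)
      have h1 := (key (powAbs μ hμ p) x).1
      rw [vn_powAbs, vn_powAbs, vn_powAbs, hcomm] at h1
      refine h1.trans (le_of_eq ?_)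
      rw [← pow_mul (vn μ x), ← pow_mul (vn μ x), mul_comm d]
    · refine le_of_frequently_pow_le (K := (2 + (Z.card : ℝ)) ^ (n * 2))
        (pow_nonneg (vn_nonneg _) _) (vn_nonneg _) (by positivity) (by positivity)
        (Filter.Frequently.of_forall fun p => ?_)
      have h1 := (key (powAbs μ hμ p) x).2
      rw [vn_powAbs, vn_powAbs, vn_powAbs, hcomm] at h1
      refine le_trans (le_of_eq ?_) h1
      rw [← pow_mul (vn μ x), ← pow_mul (vn μ x), mul_comm d]
  refine ⟨LD.C0 Z (n * 2), fun x hx => ⟨hne x hx, ?_⟩⟩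
  let Zs : Set Qb := Set.range (zvec Z) ∪ Set.range x ∪ Set.range (pmap G x)
  have hZs : Zs.Finite := Set.Finite.union (Set.Finite.union
      (Set.finite_range _) (Set.finite_range _)) (Set.finite_range _)
  obtain ⟨I, hI, ω, μ, arch, hω, hsum, hna, hht⟩ := exists_adelic hZs.toFinset
  have hmem : ∀ {z : Qb}, z ∈ Zs → z ∈ hZs.toFinset := fun h => hZs.mem_toFinset.mpr h
  have htz : absHt (zvec Z) = ∑ i, ω i * Real.log (vn (μ i) (zvec Z)) :=
    hht _ _ (zvec_ne_zero Z) fun j => hmem (Or.inl (Or.inl ⟨j, rfl⟩))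
  have htx : absHt x = ∑ i, ω i * Real.log (vn (μ i) x) :=
    hht _ _ hx fun j => hmem (Or.inl (Or.inr ⟨j, rfl⟩))
  have htG : absHt (pmap G x) = ∑ i, ω i * Real.log (vn (μ i) (pmap G x)) :=
    hht _ _ (hne x hx) fun j => hmem (Or.inr ⟨j, rfl⟩)
  let Γ : I → ℝ := fun i => if arch i then ((2 + Z.card) * vn (μ i) (zvec Z)) ^ (n * 2)
    else (vn (μ i) (zvec Z)) ^ (n * 2)
  have hcard : (1:ℝ) ≤ 2 + Z.card := by
    have : (0:ℝ) ≤ Z.card := Nat.cast_nonneg _
    linarith
  have hvz : ∀ i, 1 ≤ vn (μ i) (zvec Z) := fun i => one_le_vn_zvec Z (μ i)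
  have hΓ1 : ∀ i, 1 ≤ Γ i := by
    intro i
    simp only [Γ]
    split_ifs
    · exact one_le_pow₀ (one_le_mul_of_one_le_of_one_le hcard (hvz i))
    · exact one_le_pow₀ (hvz i)
  have hΓ : ∀ i, vn (μ i) (pmap G x) ≤ Γ i * vn (μ i) x ^ d ∧
      vn (μ i) x ^ d ≤ Γ i * vn (μ i) (pmap G x) := by
    intro i
    cases ha : arch i with
    | true =>
      simp only [Γ, ha, if_true]
      exact key (μ i) x
    | false =>
      have e : Γ i = (vn (μ i) (zvec Z)) ^ (n * 2) := by simp [Γ, ha]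
      rw [e]
      exact keyna (μ i) (hna i ha) x
  have hlogΓ : ∀ i, Real.log (Γ i) = (n * 2 : ℕ) *
      ((if arch i then Real.log (2 + Z.card) else 0) + Real.log (vn (μ i) (zvec Z))) := by
    intro i
    have h1 : vn (μ i) (zvec Z) ≠ 0 := by have := hvz i; linarith
    simp only [Γ]
    split_ifs
    · rw [Real.log_pow, Real.log_mul (by linarith) h1]
    · rw [Real.log_pow]; ring
  have hsumG : ∑ i, ω i * Real.log (Γ i) = LD.C0 Z (n * 2) := by
    simp only [hlogΓ]
    unfold LD.C0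
    rw [htz]
    have e1 : ∀ i, ω i * (((n * 2 : ℕ) : ℝ) * ((if arch i then Real.log (2 + Z.card) else 0) +
        Real.log (vn (μ i) (zvec Z)))) =
        ((n * 2 : ℕ) : ℝ) * (Real.log (2 + Z.card) * (if arch i then ω i else 0)) +
          ((n * 2 : ℕ) : ℝ) * (ω i * Real.log (vn (μ i) (zvec Z))) := by
      intro i
      split_ifs <;> ring
    simp only [e1]
    rw [Finset.sum_add_distrib, ← Finset.mul_sum, ← Finset.mul_sum, ← Finset.mul_sum, hsum]
    ring
  rw [htG, htx, Finset.mul_sum, ← Finset.sum_sub_distrib, ← hsumG]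
  refine (Finset.abs_sum_le_sum_abs _ _).trans (Finset.sum_le_sum fun i _ => ?_)
  have e1 : ω i * Real.log (vn (μ i) (pmap G x)) - d * (ω i * Real.log (vn (μ i) x)) =
      ω i * (Real.log (vn (μ i) (pmap G x)) - d * Real.log (vn (μ i) x)) := by ring
  rw [e1, abs_mul, abs_of_pos (hω i)]
  refine mul_le_mul_of_nonneg_left ?_ (hω i).le
  have hxp := vn_pos (μ := μ i) hx
  have hGp := vn_pos (μ := μ i) (hne x hx)
  have hΓp : 0 < Γ i := lt_of_lt_of_le one_pos (hΓ1 i)
  obtain ⟨g1, g2⟩ := hΓ i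
  have l1 := Real.log_le_log hGp g1
  have l2 := Real.log_le_log (by positivity) g2
  rw [Real.log_mul hΓp.ne' (by positivity), Real.log_pow] at l1
  rw [Real.log_mul hΓp.ne' hGp.ne', Real.log_pow] at l2
  rw [abs_le]
  constructor <;> linarith

lemma iterate_ne_zero {G : ι → MvPolynomial ι Qb}
    (hnz : ∀ y : ι → Qb, (∀ i, MvPolynomial.eval y (G i) = 0) → y = 0)
    {p : ι → Qb} (hp : p ≠ 0) (m : ℕ) : (pmap G)^[m] p ≠ 0 := by
  induction m with
  | zero => exact hp
  | succ m ih =>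
    rw [Function.iterate_succ_apply']
    intro h0
    exact ih (hnz _ fun i => congrFun h0 i)

/-- The canonical height exists. -/
theorem exists_canHt {G : ι → MvPolynomial ι Qb} {d : ℕ} (hd : 2 ≤ d)
    (hG : ∀ i, (G i).IsHomogeneous d)
    (hnz : ∀ y : ι → Qb, (∀ i, MvPolynomial.eval y (G i) = 0) → y = 0)
    {p : ι → Qb} (hp : p ≠ 0) :
    ∃ h : ℝ, Tendsto (fun n => absHt ((pmap G)^[n] p) / (d : ℝ) ^ n) atTop (𝓝 h) := by
  obtain ⟨C, hC⟩ := exists_height_bound hd hG hnz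
  refine tendsto_of_almost hd (fun n => absHt ((pmap G)^[n] p)) C fun n => ?_
  rw [Function.iterate_succ_apply']
  exact (hC _ (iterate_ne_zero hnz hp n)).2

end canht

end Pool.Agent.VCH
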