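import Pool.Agent.Lib.MP_30aac3_nt.Norms

/-!
Charts at a puncture: a finitely generated algebra with a point `s` and the operator
`T φ = (φ - φ(s)) / ζ`, where `ζ` is a uniformiser at `s`.
-/

open Polynomial

namespace Pool.Agent.VCH

section vn

variable {k : Type*} [Field k] {ι : Type*}

/-- sup norm of a vector. -/
noncomputable def vn (μ : AbsoluteValue k ℝ) (x : ι → k) : ℝ := ⨆ i, μ (x i)

variable {μ : AbsoluteValue k ℝ}

lemma vn_nonneg (x : ι → k) : 0 ≤ vn μ x := Real.iSup_nonneg fun _ => μ.nonneg _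

variable [Finite ι]

lemma le_vn (x : ι → k) (i : ι) : μ (x i) ≤ vn μ x :=
  le_ciSup (Set.finite_range fun i => μ (x i)).bddAbove i

lemma vn_le {x : ι → k} {c : ℝ} (hc : 0 ≤ c) (h : ∀ i, μ (x i) ≤ c) : vn μ x ≤ c :=
  Real.iSup_le h hc

lemma exists_eq_vn [Nonempty ι] (x : ι → k) : ∃ i, μ (x i) = vn μ x :=
  exists_eq_ciSup_of_finite

lemma vn_pos {x : ι → k} (hx : x ≠ 0) : 0 < vn μ x := by
  obtain ⟨i, hi⟩ := Function.ne_iff.mp hx
  exact (μ.pos hi).trans_le (le_vn x i)

lemma vn_smul (c : k) (x : ι → k) : vn μ (c • x) = μ c * vn μ x := by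
  unfold vn
  simp only [Pi.smul_apply, smul_eq_mul, map_mul]
  rw [Real.mul_iSup_of_nonneg (μ.nonneg c)]

end vn

section mvn

variable {k : Type*} [Field k] {σ : Type*}

/-- sum norm of a multivariate polynomial. -/
noncomputable def mvn (μ : AbsoluteValue k ℝ) (p : MvPolynomial σ k) : ℝ :=
  ∑ m ∈ p.support, μ (p.coeff m)

variable {μ : AbsoluteValue k ℝ}

lemma mvn_nonneg (p : MvPolynomial σ k) : 0 ≤ mvn μ p :=
  Finset.sum_nonneg fun _ _ => μ.nonneg _

lemma mvn_eq_of_subset (p : MvPolynomial σ k) {s : Finset (σ →₀ ℕ)} (hs : p.support ⊆ s) :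
    mvn μ p = ∑ m ∈ s, μ (p.coeff m) := by
  refine Finset.sum_subset hs fun i _ hi => ?_
  rw [MvPolynomial.notMem_support_iff.mp hi, map_zero]

@[simp] lemma mvn_zero : mvn μ (0 : MvPolynomial σ k) = 0 := by simp [mvn]

lemma mvn_monomial (m : σ →₀ ℕ) (a : k) : mvn μ (MvPolynomial.monomial m a) = μ a := by
  classical
  rw [mvn_eq_of_subset (s := {m}) _ MvPolynomial.support_monomial_subset]
  simp

@[simp] lemma mvn_C (a : k) : mvn μ (MvPolynomial.C a : MvPolynomial σ k) = μ a :=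
  mvn_monomial 0 a

@[simp] lemma mvn_one : mvn μ (1 : MvPolynomial σ k) = 1 := by
  rw [← MvPolynomial.C_1, mvn_C, map_one]

lemma mvn_add_le (p q : MvPolynomial σ k) : mvn μ (p + q) ≤ mvn μ p + mvn μ q := by
  classical
  rw [mvn_eq_of_subset (p + q) MvPolynomial.support_add,
    mvn_eq_of_subset p (Finset.subset_union_left (s₂ := q.support)),
    mvn_eq_of_subset q (Finset.subset_union_right (s₁ := p.support)), ← Finset.sum_add_distrib]
  exact Finset.sum_le_sum fun i _ => μ.add_le _ _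

lemma mvn_sum_le {ι : Type*} (s : Finset ι) (f : ι → MvPolynomial σ k) :
    mvn μ (∑ i ∈ s, f i) ≤ ∑ i ∈ s, mvn μ (f i) := by
  classical
  induction s using Finset.induction with
  | empty => simp
  | insert i s hi ih =>
    rw [Finset.sum_insert hi, Finset.sum_insert hi]
    exact (mvn_add_le _ _).trans (by gcongr)

lemma mvn_monomial_mul_le (m : σ →₀ ℕ) (a : k) (q : MvPolynomial σ k) :
    mvn μ (MvPolynomial.monomial m a * q) ≤ μ a * mvn μ q := by
  classical
  have h1 : (MvPolynomial.monomial m a * q).support ⊆ q.support.map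
      ⟨fun n => m + n, add_right_injective m⟩ := by
    intro n hn
    rw [MvPolynomial.mem_support_iff] at hn
    rw [MvPolynomial.coeff_monomial_mul'] at hn
    split_ifs at hn with h
    · rw [Finset.mem_map]
      refine ⟨n - m, ?_, ?_⟩
      · rw [MvPolynomial.mem_support_iff]; exact right_ne_zero_of_mul hn
      · simp only [Function.Embedding.coeFn_mk]
        exact add_tsub_cancel_of_le h
    · exact absurd rfl hn
  rw [mvn_eq_of_subset _ h1, Finset.sum_map]
  simp only [Function.Embedding.coeFn_mk]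
  rw [mvn, Finset.mul_sum]
  refine Finset.sum_le_sum fun n _ => ?_
  rw [MvPolynomial.coeff_monomial_mul, map_mul]

lemma mvn_mul_le (p q : MvPolynomial σ k) : mvn μ (p * q) ≤ mvn μ p * mvn μ q := by
  conv_lhs => rw [p.as_sum]
  rw [Finset.sum_mul]
  refine (mvn_sum_le _ _).trans ?_
  rw [mvn, Finset.sum_mul]
  exact Finset.sum_le_sum fun m _ => mvn_monomial_mul_le _ _ _

lemma mvn_C_mul_le (a : k) (q : MvPolynomial σ k) :
    mvn μ (MvPolynomial.C a * q) ≤ μ a * mvn μ q := mvn_monomial_mul_le 0 a q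

end mvn

/-- A chart at a puncture. -/
structure Chart (k A : Type*) [Field k] [CommRing A] [Algebra k A] where
  q : ℕ
  y : Fin q → A
  gen : ∀ φ : A, ∃ p : MvPolynomial (Fin q) k, MvPolynomial.aeval y p = φ
  s : A →ₐ[k] k
  hy : ∀ i, s (y i) = 0
  T : A →ₗ[k] A
  T_mul : ∀ φ ψ, T (φ * ψ) = ψ * T φ + s φ • T ψ

namespace Chart

variable {k A : Type*} [Field k] [CommRing A] [Algebra k A] (c : Chart k A)

/-- size predicate on `A`. -/
def Bd (μ : AbsoluteValue k ℝ) (φ : A) (B : ℝ) : Prop :=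
  ∃ p : MvPolynomial (Fin c.q) k, MvPolynomial.aeval c.y p = φ ∧ mvn μ p ≤ B

variable (μ : AbsoluteValue k ℝ)

lemma isBd : IsBd (c.Bd μ) where
  mono := by
    rintro a B B' ⟨p, hp, hB⟩ h
    exact ⟨p, hp, hB.trans h⟩
  zero := ⟨0, by simp, by simp⟩
  one := ⟨1, by simp, by simp⟩
  add := by
    rintro a b B B' ⟨p, hp, hB⟩ ⟨p', hp', hB'⟩
    exact ⟨p + p', by simp [hp, hp'], (mvn_add_le _ _).trans (add_le_add hB hB')⟩
  mul := by
    rintro a b B B' ⟨p, hp, hB⟩ ⟨p', hp', hB'⟩
    exact ⟨p * p', by simp [hp, hp'], (mvn_mul_le _ _).trans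
      (mul_le_mul hB hB' (mvn_nonneg _) ((mvn_nonneg _).trans hB))⟩
  nonneg := by
    rintro a B ⟨p, hp, hB⟩
    exact (mvn_nonneg _).trans hB

variable {μ}

lemma Bd.smul {c : Chart k A} {φ : A} {B : ℝ} (h : c.Bd μ φ B) (a : k) :
    c.Bd μ (a • φ) (μ a * B) := by
  obtain ⟨p, hp, hB⟩ := h
  refine ⟨MvPolynomial.C a * p, by simp [hp, Algebra.smul_def], (mvn_C_mul_le _ _).trans ?_⟩
  have := μ.nonneg a
  gcongr

lemma T_one : c.T 1 = 0 := by
  have := c.T_mul 1 1
  simp at this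
  exact this

/-- a chosen representation of `T y_i`. -/
noncomputable def pT (i : Fin c.q) : MvPolynomial (Fin c.q) k := (c.gen (c.T (c.y i))).choose

lemma aeval_pT (i : Fin c.q) : MvPolynomial.aeval c.y (c.pT i) = c.T (c.y i) :=
  (c.gen (c.T (c.y i))).choose_spec

variable (μ) in
/-- operator bound for `T`. -/
noncomputable def CT : ℝ := 1 + ∑ i, mvn μ (c.pT i)

lemma one_le_CT : 1 ≤ c.CT μ := by
  have : 0 ≤ ∑ i, mvn μ (c.pT i) := Finset.sum_nonneg fun _ _ => mvn_nonneg _
  unfold CT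
  linarith

lemma mvn_pT_le (i : Fin c.q) : mvn μ (c.pT i) ≤ c.CT μ := by
  have : mvn μ (c.pT i) ≤ ∑ i, mvn μ (c.pT i) :=
    Finset.single_le_sum (f := fun i => mvn μ (c.pT i)) (fun _ _ => mvn_nonneg _)
      (Finset.mem_univ i)
  unfold CT
  linarith

lemma Bd_T_monomial (m : Fin c.q →₀ ℕ) :
    c.Bd μ (c.T (MvPolynomial.aeval c.y (MvPolynomial.monomial m (1 : k)))) (c.CT μ) := by
  classical
  by_cases hm : m = 0
  · subst hm
    have : (MvPolynomial.monomial (0 : Fin c.q →₀ ℕ) (1 : k)) = 1 := rfl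
    rw [this, map_one, T_one]
    exact (c.isBd μ).mono (c.isBd μ).zero (zero_le_one.trans c.one_le_CT)
  · obtain ⟨i, hi⟩ : ∃ i, m i ≠ 0 := by
      by_contra h
      push_neg at h
      exact hm (Finsupp.ext h)
    set m' := m - Finsupp.single i 1 with hm'
    have e1 : m = Finsupp.single i 1 + m' := by
      rw [hm', add_tsub_cancel_of_le]
      rw [Finsupp.single_le_iff]
      omega
    have e2 : MvPolynomial.aeval c.y (MvPolynomial.monomial m (1 : k)) =
        c.y i * MvPolynomial.aeval c.y (MvPolynomial.monomial m' (1 : k)) := by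
      conv_lhs => rw [e1]
      rw [← one_mul (1 : k), ← MvPolynomial.monomial_mul, map_mul, one_mul]
      congr 1
      rw [MvPolynomial.aeval_monomial]
      simp
    rw [e2, c.T_mul, c.hy, zero_smul, add_zero]
    have b1 : c.Bd μ (MvPolynomial.aeval c.y (MvPolynomial.monomial m' (1 : k))) 1 :=
      ⟨_, rfl, by rw [mvn_monomial, map_one]⟩
    have b2 : c.Bd μ (c.T (c.y i)) (c.CT μ) := ⟨_, c.aeval_pT i, c.mvn_pT_le i⟩
    have := (c.isBd μ).mul b1 b2
    rwa [one_mul] at this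

lemma Bd_T {φ : A} {B : ℝ} (h : c.Bd μ φ B) : c.Bd μ (c.T φ) (c.CT μ * B) := by
  classical
  obtain ⟨p, rfl, hB⟩ := h
  have e1 : c.T (MvPolynomial.aeval c.y p) = ∑ m ∈ p.support, p.coeff m •
      c.T (MvPolynomial.aeval c.y (MvPolynomial.monomial m (1 : k))) := by
    conv_lhs => rw [p.as_sum]
    rw [map_sum, map_sum]
    refine Finset.sum_congr rfl fun m _ => ?_
    rw [← map_smul, ← map_smul]
    congr 2
    rw [MvPolynomial.smul_monomial, smul_eq_mul, mul_one]
  rw [e1]
  have h1 := (c.isBd μ).sum p.support (fun m => p.coeff m •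
      c.T (MvPolynomial.aeval c.y (MvPolynomial.monomial m (1 : k))))
      (fun m => μ (p.coeff m) * c.CT μ) (fun m _ => (c.Bd_T_monomial m).smul _)
  refine (c.isBd μ).mono h1 ?_
  rw [← Finset.sum_mul, mul_comm]
  have := c.one_le_CT (μ := μ)
  have h2 : ∑ m ∈ p.support, μ (p.coeff m) ≤ B := hB
  gcongr

lemma Bd_T_iterate {φ : A} {B : ℝ} (h : c.Bd μ φ B) (n : ℕ) :
    c.Bd μ (c.T^[n] φ) (c.CT μ ^ n * B) := by
  induction n with
  | zero => simpa using h
  | succ n ih =>
    rw [Function.iterate_succ_apply', pow_succ', mul_assoc]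
    exact c.Bd_T ih

lemma eval_le_of_Bd {φ : A} {B : ℝ} (h : c.Bd μ φ B) (t : A →ₐ[k] k)
    (ht : ∀ i, μ (t (c.y i)) ≤ 1) : μ (t φ) ≤ B := by
  classical
  obtain ⟨p, rfl, hB⟩ := h
  refine le_trans ?_ hB
  rw [MvPolynomial.aeval_def, MvPolynomial.eval₂_eq', map_sum]
  unfold mvn
  refine (μ.sum_le _ _).trans (Finset.sum_le_sum fun m _ => ?_)
  rw [map_mul, AlgHom.commutes, map_mul, map_prod, map_prod]
  have h1 : ∏ i, μ (t (c.y i ^ m i)) ≤ 1 := by
    refine Finset.prod_le_one (fun i _ => μ.nonneg _) fun i _ => ?_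
    rw [map_pow, map_pow]
    exact pow_le_one₀ (μ.nonneg _) (ht i)
  have h2 := μ.nonneg (p.coeff m)
  show μ (p.coeff m) * _ ≤ _
  calc μ (p.coeff m) * ∏ i, μ (t (c.y i ^ m i)) ≤ μ (p.coeff m) * 1 := by gcongr
    _ = _ := mul_one _

lemma s_le_of_Bd {φ : A} {B : ℝ} (h : c.Bd μ φ B) : μ (c.s φ) ≤ B :=
  c.eval_le_of_Bd h c.s fun i => by rw [c.hy, map_zero]; exact zero_le_one

/-- coefficients of the expansion at `s`. -/
noncomputable def thetaFun (φ : A) : PowerSeries k := PowerSeries.mk fun j => c.s (c.T^[j] φ)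

@[simp] lemma coeff_thetaFun (φ : A) (j : ℕ) :
    PowerSeries.coeff j (c.thetaFun φ) = c.s (c.T^[j] φ) := by
  simp [thetaFun]

lemma T_iterate_add (φ ψ : A) (j : ℕ) : c.T^[j] (φ + ψ) = c.T^[j] φ + c.T^[j] ψ := by
  induction j with
  | zero => rfl
  | succ j ih => simp only [Function.iterate_succ_apply', ih, map_add]

lemma T_iterate_smul (a : k) (φ : A) (j : ℕ) : c.T^[j] (a • φ) = a • c.T^[j] φ := by
  induction j with
  | zero => rfl
  | succ j ih => simp only [Function.iterate_succ_apply', ih, map_smul]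

lemma T_iterate_zero (j : ℕ) : c.T^[j] 0 = 0 := by
  induction j with
  | zero => rfl
  | succ j ih => simp only [Function.iterate_succ_apply', ih, map_zero]

lemma thetaFun_succ (φ : A) : c.thetaFun φ = PowerSeries.C (c.s φ) +
    PowerSeries.X * c.thetaFun (c.T φ) := by
  ext j
  cases j with
  | zero => simp
  | succ j =>
    rw [map_add, PowerSeries.coeff_succ_X_mul, PowerSeries.coeff_C]
    simp [Function.iterate_succ_apply]

lemma thetaFun_add (φ ψ : A) : c.thetaFun (φ + ψ) = c.thetaFun φ + c.thetaFun ψ := by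
  ext j
  simp [T_iterate_add]

lemma thetaFun_smul (a : k) (φ : A) : c.thetaFun (a • φ) = PowerSeries.C a * c.thetaFun φ := by
  ext j
  simp [T_iterate_smul]

lemma thetaFun_mul (φ ψ : A) : c.thetaFun (φ * ψ) = c.thetaFun φ * c.thetaFun ψ := by
  ext j
  induction j generalizing φ ψ with
  | zero => simp [PowerSeries.coeff_mul]
  | succ j ih =>
    rw [c.thetaFun_succ (φ * ψ), c.T_mul, thetaFun_add, thetaFun_smul, map_add,
      PowerSeries.coeff_succ_X_mul, PowerSeries.coeff_C, if_neg (Nat.succ_ne_zero j), zero_add,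
      map_add, ih, PowerSeries.coeff_C_mul]
    rw [c.thetaFun_succ φ, add_mul, map_add, PowerSeries.coeff_C_mul, mul_assoc,
      PowerSeries.coeff_succ_X_mul]
    have e1 : PowerSeries.coeff (j + 1) (c.thetaFun ψ) = PowerSeries.coeff j (c.thetaFun (c.T ψ)) := by
      conv_lhs => rw [c.thetaFun_succ ψ, map_add, PowerSeries.coeff_succ_X_mul,
        PowerSeries.coeff_C, if_neg (Nat.succ_ne_zero j), zero_add]
    rw [e1, mul_comm (c.thetaFun ψ)]
    ring

/-- expansion at `s` as a ring homomorphism. -/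
noncomputable def theta : A →+* PowerSeries k where
  toFun := c.thetaFun
  map_one' := by
    rw [c.thetaFun_succ, T_one]
    have : c.thetaFun 0 = 0 := by ext j; simp [T_iterate_zero]
    rw [this]; simp
  map_mul' := c.thetaFun_mul
  map_zero' := by ext j; simp [T_iterate_zero]
  map_add' := c.thetaFun_add

@[simp] lemma coeff_theta (φ : A) (j : ℕ) :
    PowerSeries.coeff j (c.theta φ) = c.s (c.T^[j] φ) := c.coeff_thetaFun φ j

lemma theta_vanish {φ : A} {E : ℕ} (h : ∀ l < E, c.s (c.T^[l] φ) = 0) :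
    c.theta φ = PowerSeries.X ^ E * c.theta (c.T^[E] φ) := by
  ext j
  rw [PowerSeries.coeff_X_pow_mul']
  split_ifs with hj
  · rw [coeff_theta, coeff_theta, ← Function.iterate_add_apply]
    congr 3; omega
  · rw [coeff_theta]; exact h j (by omega)

/-- `t` is a point at which the expansion identity at `s` holds with `ζ(t) = a`. -/
def Pt (t : A →ₐ[k] k) (a : k) : Prop := ∀ φ, t φ = c.s φ + a * t (c.T φ)

lemma Pt.vanish {c : Chart k A} {t : A →ₐ[k] k} {a : k} (h : c.Pt t a) {φ : A} {E : ℕ}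
    (hE : ∀ l < E, c.s (c.T^[l] φ) = 0) : t φ = a ^ E * t (c.T^[E] φ) := by
  induction E with
  | zero => simp
  | succ E ih =>
    rw [ih fun l hl => hE l (by omega), h (c.T^[E] φ), hE E (by omega), zero_add,
      Function.iterate_succ_apply', pow_succ]
    ring

lemma Pt.trunc {c : Chart k A} {t : A →ₐ[k] k} {a : k} (h : c.Pt t a) (φ : A) (J : ℕ) :
    t φ = (PowerSeries.trunc J (c.theta φ)).eval a + a ^ J * t (c.T^[J] φ) := by
  induction J with
  | zero => simp
  | succ J ih =>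
    rw [PowerSeries.trunc_succ, eval_add, eval_monomial, coeff_theta]
    conv_lhs => rw [ih, h (c.T^[J] φ), ← Function.iterate_succ_apply' (f := c.T)]
    rw [pow_succ]
    ring

lemma pn_trunc_le {r : ℝ} (hr : 0 ≤ r) (hCr : c.CT μ * r ≤ 1 / 2) {φ : A} {B : ℝ}
    (h : c.Bd μ φ B) (J : ℕ) : pn μ r (PowerSeries.trunc J (c.theta φ)) ≤ 2 * B := by
  have hB : 0 ≤ B := (c.isBd μ).nonneg h
  have hC := c.one_le_CT (μ := μ)
  have h1 : pn μ r (PowerSeries.trunc J (c.theta φ)) ≤ ∑ i ∈ Finset.range J, (1/2 : ℝ) ^ i * B := by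
    rw [pn_eq_of_subset (s := Finset.range J)]
    · refine Finset.sum_le_sum fun i hi => ?_
      rw [PowerSeries.coeff_trunc, if_pos (Finset.mem_range.mp hi), coeff_theta]
      have h2 := c.s_le_of_Bd (c.Bd_T_iterate h i)
      calc μ (c.s (c.T^[i] φ)) * r ^ i ≤ (c.CT μ ^ i * B) * r ^ i := by gcongr
        _ = (c.CT μ * r) ^ i * B := by rw [mul_pow]; ring
        _ ≤ (1/2) ^ i * B := by gcongr
    · intro i hi
      rw [Polynomial.mem_support_iff, PowerSeries.coeff_trunc] at hi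
      rw [Finset.mem_range]
      by_contra hcon
      rw [if_neg hcon] at hi
      exact hi rfl
  refine h1.trans ?_
  rw [← Finset.sum_mul]
  have h3 : ∑ i ∈ Finset.range J, (1/2 : ℝ) ^ i ≤ 2 := by
    have := Summable.sum_le_tsum (Finset.range J) (f := fun i : ℕ => (1/2 : ℝ) ^ i)
      (fun i _ => by positivity) summable_geometric_two
    rwa [tsum_geometric_two] at this
  gcongr

end Chart

end Pool.Agent.VCH
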