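import Pool.Agent.Lib.MP_30aac3_nt.FamNear

/-!
Clearing denominators.
-/

set_option linter.unusedSectionVars false

open Filter WithZero

namespace Pool.Agent.VCH

variable {L A ι : Type*} [Field L] [CommRing A] [IsDomain A] [Algebra A L] [IsFractionRing A L]
  [Fintype ι]

lemma exists_denom {α : Type*} [Finite α] (f : α → MvPolynomial ι L) :
    ∃ b : A, b ≠ 0 ∧ ∃ f' : α → MvPolynomial ι A, ∀ i,
      MvPolynomial.map (algebraMap A L) (f' i) = MvPolynomial.C (algebraMap A L b) * f i := by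
  obtain ⟨b, hb⟩ := IsLocalization.exist_integer_multiples_of_finite (nonZeroDivisors A)
    (S := L) (fun p : Σ i : α, (f i).support => (f p.1).coeff p.2)
  refine ⟨b, nonZeroDivisors.ne_zero b.2, ?_⟩
  have h1 : ∀ i, ∃ f' : MvPolynomial ι A, MvPolynomial.map (algebraMap A L) f' =
      MvPolynomial.C (algebraMap A L b) * f i := by
    intro i
    apply exists_lift_map
    intro m hm
    rw [MvPolynomial.coeff_C_mul]
    have hm' : m ∈ (f i).support := by
      rw [MvPolynomial.mem_support_iff] at hm ⊢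
      intro h0
      apply hm
      rw [MvPolynomial.coeff_C_mul, h0, mul_zero]
    obtain ⟨a, ha⟩ := hb ⟨i, ⟨m, hm'⟩⟩
    refine ⟨a, ha.trans ?_⟩
    rw [Algebra.smul_def]
  choose f' hf' using h1
  exact ⟨f', hf'⟩

lemma exists_denom_vec {α : Type*} [Finite α] (f : α → L) :
    ∃ b : A, b ≠ 0 ∧ ∃ f' : α → A, ∀ i, algebraMap A L (f' i) = algebraMap A L b * f i := by
  obtain ⟨b, hb⟩ := IsLocalization.exist_integer_multiples_of_finite (nonZeroDivisors A)
    (S := L) f
  refine ⟨b, nonZeroDivisors.ne_zero b.2, ?_⟩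
  choose f' hf' using hb
  refine ⟨f', fun i => ?_⟩
  rw [hf' i, Algebra.smul_def]

/-- the scaling factor of the iterates. -/
def kap {A : Type*} [CommRing A] (b1 b2 : A) (d : ℕ) : ℕ → A
  | 0 => b2
  | m + 1 => b1 * kap b1 b2 d m ^ d

lemma kap_ne {b1 b2 : A} (h1 : b1 ≠ 0) (h2 : b2 ≠ 0) (d m : ℕ) : kap b1 b2 d m ≠ 0 := by
  induction m with
  | zero => exact h2
  | succ m ih => exact mul_ne_zero h1 (pow_ne_zero _ ih)

/-- Every family over `L` comes from an integral family after scaling. -/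
theorem exists_fam (A : Type*) [CommRing A] [IsDomain A] [Algebra A L] [IsFractionRing A L]
    {F : ι → MvPolynomial ι L} {P : ι → L}
    {g : ι → ι → MvPolynomial ι L} {d D : ℕ}
    (hd : 2 ≤ d) (hdD : d ≤ D) (hF : ∀ i, (F i).IsHomogeneous d)
    (hg : ∀ i j, (g i j).IsHomogeneous (D - d))
    (null : ∀ i, MvPolynomial.X i ^ D = ∑ j, g i j * F j) (hP : P ≠ 0) :
    ∃ (f : Fam A ι) (b1 b2 : A), f.d = d ∧ b1 ≠ 0 ∧ b2 ≠ 0 ∧
      ∀ m i, algebraMap A L (f.W m i) = algebraMap A L (kap b1 b2 d m) *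
        ((pmap F)^[m] P) i := by
  obtain ⟨b1, hb1, F', hF'⟩ := exists_denom (A := A) F
  obtain ⟨b2, hb2, P', hP'⟩ := exists_denom_vec (A := A) P
  obtain ⟨b3, hb3, g', hg'⟩ := exists_denom (A := A) (fun p : ι × ι => g p.1 p.2)
  have hinj := FaithfulSMul.algebraMap_injective A L
  have hne : ∀ {b : A}, b ≠ 0 → algebraMap A L b ≠ 0 := fun {b} hb h => hb (hinj (by
    rw [h, map_zero]))
  have hF'h : ∀ i, (F' i).IsHomogeneous d := by
    intro i
    apply isHomogeneous_of_map' hinj
    rw [hF' i]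
    have := (MvPolynomial.isHomogeneous_C ι (algebraMap A L b1)).mul (hF i)
    rwa [zero_add] at this
  have hg'h : ∀ i j, (g' (i, j)).IsHomogeneous (D - d) := by
    intro i j
    apply isHomogeneous_of_map' hinj
    rw [hg' (i, j)]
    have := (MvPolynomial.isHomogeneous_C ι (algebraMap A L b3)).mul (hg i j)
    rwa [zero_add] at this
  have hP'0 : P' ≠ 0 := by
    obtain ⟨i, hi⟩ := Function.ne_iff.mp hP
    refine Function.ne_iff.mpr ⟨i, fun h => ?_⟩
    have h1 := hP' i
    rw [h, Pi.zero_apply, map_zero] at h1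
    exact mul_ne_zero (hne hb2) hi h1.symm
  have hnull : ∀ i, MvPolynomial.C (b3 * b1) * MvPolynomial.X i ^ D =
      ∑ j, g' (i, j) * F' j := by
    intro i
    apply MvPolynomial.map_injective _ hinj
    rw [map_mul, MvPolynomial.map_C, map_pow, MvPolynomial.map_X, null i, map_sum,
      Finset.mul_sum]
    refine Finset.sum_congr rfl fun j _ => ?_
    rw [map_mul (MvPolynomial.map (algebraMap A L)), hg' (i, j), hF' j, map_mul, map_mul]
    ring
  let f : Fam A ι := ⟨F', P', fun i j => g' (i, j), b3 * b1, d, D, hd, hdD,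
    mul_ne_zero hb3 hb1, hF'h, hg'h, hnull, hP'0⟩
  refine ⟨f, b1, b2, rfl, hb1, hb2, ?_⟩
  intro m
  induction m with
  | zero => intro i; exact hP' i
  | succ m ih =>
    have h1 : f.WL L m = algebraMap A L (kap b1 b2 d m) • ((pmap F)^[m] P) := by
      funext i; exact ih i
    have h2 : f.WL L (m + 1) = pmap (fun i => MvPolynomial.map (algebraMap A L) (F' i))
        (f.WL L m) := by
      have := pmap_map (algebraMap A L) f.F (f.W m)
      rw [← f.W_succ] at this
      exact this.symm
    intro i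
    have h3 := congrFun h2 i
    rw [h1, pmap_smul (fun i => (hF'h i).map _), Pi.smul_apply, smul_eq_mul] at h3
    have h4 : pmap (fun i => MvPolynomial.map (algebraMap A L) (F' i)) ((pmap F)^[m] P) i =
        algebraMap A L b1 * ((pmap F)^[m + 1] P) i := by
      rw [Function.iterate_succ_apply']
      show MvPolynomial.eval ((pmap F)^[m] P) (MvPolynomial.map (algebraMap A L) (F' i)) =
        algebraMap A L b1 * MvPolynomial.eval ((pmap F)^[m] P) (F i)
      rw [hF' i, map_mul, MvPolynomial.eval_C]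
    rw [h4] at h3
    refine h3.trans ?_
    rw [kap, map_mul, map_pow]
    ring

end Pool.Agent.VCH
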