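import Pool.Agent.Lib.MP_30aac3_nt.BulkOrbit

/-!
Every point is either in the bulk or close to a puncture.
-/

set_option linter.unusedSectionVars false

open Filter WithZero

namespace Pool.Agent.VCH

section cover

variable {k L A : Type*} [Field k] [IsAlgClosed k] [Field L] [Algebra k L] [CommRing A]
  [IsDedekindDomain A] [Algebra k A] [Algebra A L] [IsScalarTower k A L]
  [IsFractionRing A L] (hL : IsFunField k L) (hft : Algebra.FiniteType k A)

theorem cover {x : L} (hx0 : x ≠ 0)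
    (hint : ∀ φ : A, algebraMap A L φ ∈ icl k x⁻¹)
    {uA : A} (huA : algebraMap A L uA = x⁻¹)
    (hA : ∀ s : Place k L, s.v x⁻¹ < 1 → ∀ φ : A, s.v (algebraMap A L φ) ≤ 1)
    (U : ∀ (s : Place k L) (_ : s.v x⁻¹ < 1), Uni A s)
    (hfin : {s : Place k L | s.v x⁻¹ < 1}.Finite) :
    ∃ n0 : ℕ, ∀ᶠ q in ctl k, ∀ t : Place k L, t.v x ≤ 1 →
      q.1 (t.val x) ≤ q.2 ^ n0 ∨
      (t.v x = 1 ∧ ∃ (s : Place k L) (h : s.v x⁻¹ < 1), (U s h).Near hL (hA s h) hft q t) := by
  classical
  let S : Set (Place k L) := {s : Place k L | s.v x⁻¹ < 1}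
  have hfS : Finite S := hfin
  have := Fintype.ofFinite S
  let c : S → Chart k A := fun s => (U s.1 s.2).chart hL (hA s.1 s.2) hft
  let I := (s : S) → Fin (c s).q
  let z : I → A := fun i => ∏ s : S, (c s).y (i s)
  have hu0 : uA ≠ 0 := by
    rintro rfl
    rw [map_zero] at huA
    exact inv_ne_zero hx0 huA.symm
  have hz : ∀ i, z i ∈ (Ideal.span {uA}).radical := by
    intro i
    rw [Ideal.radical_eq_sInf, Submodule.mem_sInf]
    rintro p ⟨hp1, hp2⟩
    have hup : uA ∈ p := hp1 (Ideal.mem_span_singleton_self uA)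
    have hpb : p ≠ ⊥ := by
      rintro rfl
      exact hu0 (by simpa using hup)
    obtain ⟨s, hs, hcen⟩ := exists_place_of_prime (k := k) (L := L) p hp2 hpb
    have hsu : s.v x⁻¹ < 1 := by
      rw [← huA, ← Place.mem_center (hs := hs), hcen]
      exact hup
    have h1 : (c ⟨s, hsu⟩).y (i ⟨s, hsu⟩) ∈ p := by
      rw [← hcen, Place.mem_center, ← s.val_eq_zero_iff hL (hs _)]
      exact (c ⟨s, hsu⟩).hy _
    exact Ideal.mem_of_dvd p (Finset.dvd_prod_of_mem (fun s : S => (c s).y (i s))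
      (Finset.mem_univ (⟨s, hsu⟩ : S))) h1
  choose K hK using hz
  have hw : ∀ i, ∃ w : A, uA * w = z i ^ K i := by
    intro i
    have := hK i
    rw [Ideal.mem_span_singleton] at this
    obtain ⟨w, hw⟩ := this
    exact ⟨w, hw.symm⟩
  choose w hw using hw
  choose n hn using fun i => ev_int hL (hint (w i)) 0
  refine ⟨∑ i, (n i + 8 * Fintype.card S * K i), ?_⟩
  filter_upwards [Filter.eventually_all.mpr hn, ctl_const 1] with q h1 h2 t ht
  set H := q.2 with hH
  have hH0 : 0 < H := by linarith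
  rcases ht.lt_or_eq with hlt | heq
  · left
    rw [(t.val_eq_zero_iff hL ht).mpr hlt, map_zero]
    positivity
  by_cases hnear : ∃ (s : Place k L) (h : s.v x⁻¹ < 1), (U s h).Near hL (hA s h) hft q t
  · exact Or.inr ⟨heq, hnear⟩
  left
  push Not at hnear
  have hvu : t.v x⁻¹ = 1 := by rw [map_inv₀, heq, inv_one]
  have hA' : ∀ φ : A, t.v (algebraMap A L φ) ≤ 1 := fun φ =>
    t.v_le_one_of_mem_icl hvu.le (hint φ)
  have hsel : ∀ s : S, ∃ i, 1 ≤ q.1 (t.val (algebraMap A L ((c s).y i))) * H ^ 8 := by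
    intro s
    by_contra hcon
    push Not at hcon
    exact hnear s.1 s.2 fun i => (hcon i).le
  choose i hi using hsel
  have hux : q.1 (t.val x⁻¹) * q.1 (t.val x) = 1 := by
    rw [← map_mul, ← t.val_mul hL hvu.le heq.le, inv_mul_cancel₀ hx0, t.val_one, map_one]
  by_cases hx1 : q.1 (t.val x) ≤ 1
  · exact hx1.trans (one_le_pow₀ h2)
  push Not at hx1
  have hu1 : q.1 (t.val x⁻¹) ≤ 1 := by
    by_contra hcon
    push Not at hcon
    have := one_lt_mul_of_lt_of_le hcon hx1.le
    linarith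
  have hwi := h1 i t hvu.le (by simpa using hu1)
  have hz1 : 1 ≤ q.1 (t.val (algebraMap A L (z i))) * (H ^ 8) ^ Fintype.card S := by
    have e1 : t.val (algebraMap A L (z i)) =
        ∏ s : S, t.val (algebraMap A L ((c s).y (i s))) := by
      have := map_prod (t.hom hL hA') (fun s : S => (c s).y (i s)) Finset.univ
      exact this
    rw [e1, map_prod, ← Finset.card_univ, ← Finset.prod_const, ← Finset.prod_mul_distrib]
    calc (1:ℝ) = ∏ s : S, (1:ℝ) := by simp
      _ ≤ _ := Finset.prod_le_prod (fun _ _ => zero_le_one) fun s _ => hi s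
  have hzK : q.1 (t.val (algebraMap A L (z i))) ^ K i =
      q.1 (t.val x⁻¹) * q.1 (t.val (algebraMap A L (w i))) := by
    have e1 := congrArg (t.hom hL hA') (hw i)
    rw [map_mul, map_pow] at e1
    rw [← map_pow, ← map_mul, ← huA]
    exact congrArg q.1 e1.symm
  have hfinal : 1 ≤ q.1 (t.val x⁻¹) * H ^ (n i + 8 * Fintype.card S * K i) := by
    calc (1:ℝ) = 1 ^ K i := (one_pow _).symm
      _ ≤ (q.1 (t.val (algebraMap A L (z i))) * (H ^ 8) ^ Fintype.card S) ^ K i := by gcongr
      _ = q.1 (t.val (algebraMap A L (z i))) ^ K i * H ^ (8 * Fintype.card S * K i) := by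
          rw [mul_pow, ← pow_mul, ← pow_mul, mul_assoc 8]
      _ = q.1 (t.val x⁻¹) * q.1 (t.val (algebraMap A L (w i))) *
          H ^ (8 * Fintype.card S * K i) := by rw [hzK]
      _ ≤ q.1 (t.val x⁻¹) * H ^ n i * H ^ (8 * Fintype.card S * K i) := by
          have := q.1.nonneg (t.val x⁻¹)
          gcongr
      _ = _ := by rw [pow_add]; ring
  calc q.1 (t.val x) = 1 * q.1 (t.val x) := (one_mul _).symm
    _ ≤ q.1 (t.val x⁻¹) * H ^ (n i + 8 * Fintype.card S * K i) * q.1 (t.val x) := by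
        have := q.1.nonneg (t.val x)
        gcongr
    _ = (q.1 (t.val x⁻¹) * q.1 (t.val x)) * H ^ (n i + 8 * Fintype.card S * K i) := by ring
    _ = H ^ (n i + 8 * Fintype.card S * K i) := by rw [hux, one_mul]
    _ ≤ _ := by
        refine pow_le_pow_right₀ h2 ?_
        exact Finset.single_le_sum (f := fun i => n i + 8 * Fintype.card S * K i)
          (fun _ _ => Nat.zero_le _) (Finset.mem_univ i)

end cover

end Pool.Agent.VCH
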