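import Pool.Agent.Lib.MP_30aac3_nt.Chart

/-!
Controlled functions of an absolute value.
-/

open Polynomial Filter

namespace Pool.Agent.VCH

variable {k : Type*} [Field k]

/-- basic size function. -/
noncomputable def sz (Z : Finset k) (μ : AbsoluteValue k ℝ) : ℝ := 2 + ∑ c ∈ Z, μ c

lemma two_le_sz (Z : Finset k) (μ : AbsoluteValue k ℝ) : 2 ≤ sz Z μ := by
  have : 0 ≤ ∑ c ∈ Z, μ c := Finset.sum_nonneg fun _ _ => μ.nonneg _
  unfold sz
  linarith

lemma sz_mono {Z Z' : Finset k} (h : Z ⊆ Z') (μ : AbsoluteValue k ℝ) : sz Z μ ≤ sz Z' μ := by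
  unfold sz
  have := Finset.sum_le_sum_of_subset_of_nonneg h (f := fun c => μ c)
    (fun i _ _ => μ.nonneg i)
  linarith

lemma sz_pow_mono {Z Z' : Finset k} (h : Z ⊆ Z') {n n' : ℕ} (hn : n ≤ n')
    (μ : AbsoluteValue k ℝ) : sz Z μ ^ n ≤ sz Z' μ ^ n' := by
  have h1 := two_le_sz Z μ
  have h2 := two_le_sz Z' μ
  calc sz Z μ ^ n ≤ sz Z' μ ^ n := by
        have := sz_mono h μ
        gcongr
    _ ≤ _ := pow_le_pow_right₀ (by linarith) hn

/-- Controlled functions. -/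
def Ctl (f : AbsoluteValue k ℝ → ℝ) : Prop :=
  ∃ (Z : Finset k) (n : ℕ), ∀ μ, |f μ| ≤ sz Z μ ^ n

namespace Ctl

lemma const (C : ℝ) : Ctl (fun _ : AbsoluteValue k ℝ => C) := by
  obtain ⟨n, hn⟩ := pow_unbounded_of_one_lt |C| (by norm_num : (1:ℝ) < 2)
  refine ⟨∅, n, fun μ => hn.le.trans ?_⟩
  have := two_le_sz (∅ : Finset k) μ
  gcongr

lemma abs_val (c : k) : Ctl (fun μ : AbsoluteValue k ℝ => μ c) := by
  refine ⟨{c}, 1, fun μ => ?_⟩
  rw [abs_of_nonneg (μ.nonneg c), pow_one, sz]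
  simp

lemma add {f g : AbsoluteValue k ℝ → ℝ} (hf : Ctl f) (hg : Ctl g) :
    Ctl (fun μ => f μ + g μ) := by
  classical
  obtain ⟨Z, n, hf⟩ := hf
  obtain ⟨Z', n', hg⟩ := hg
  refine ⟨Z ∪ Z', max n n' + 1, fun μ => ?_⟩
  have h1 := sz_pow_mono (Finset.subset_union_left (s₁ := Z) (s₂ := Z')) (le_max_left n n') μ
  have h2 := sz_pow_mono (Finset.subset_union_right (s₁ := Z) (s₂ := Z')) (le_max_right n n') μ
  have h3 := two_le_sz (Z ∪ Z') μ
  calc |f μ + g μ| ≤ |f μ| + |g μ| := abs_add_le _ _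
    _ ≤ sz (Z ∪ Z') μ ^ max n n' + sz (Z ∪ Z') μ ^ max n n' :=
        add_le_add ((hf μ).trans h1) ((hg μ).trans h2)
    _ = 2 * sz (Z ∪ Z') μ ^ max n n' := by ring
    _ ≤ sz (Z ∪ Z') μ * sz (Z ∪ Z') μ ^ max n n' := by gcongr
    _ = _ := by rw [pow_succ']

lemma mul {f g : AbsoluteValue k ℝ → ℝ} (hf : Ctl f) (hg : Ctl g) :
    Ctl (fun μ => f μ * g μ) := by
  classical
  obtain ⟨Z, n, hf⟩ := hf
  obtain ⟨Z', n', hg⟩ := hg
  refine ⟨Z ∪ Z', n + n', fun μ => ?_⟩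
  have h1 := sz_pow_mono (Finset.subset_union_left (s₁ := Z) (s₂ := Z')) (le_refl n) μ
  have h2 := sz_pow_mono (Finset.subset_union_right (s₁ := Z) (s₂ := Z')) (le_refl n') μ
  rw [abs_mul, pow_add]
  exact mul_le_mul ((hf μ).trans h1) ((hg μ).trans h2) (abs_nonneg _)
    ((abs_nonneg _).trans ((hf μ).trans h1))

lemma sum {ι : Type*} (s : Finset ι) {f : ι → AbsoluteValue k ℝ → ℝ}
    (hf : ∀ i ∈ s, Ctl (f i)) : Ctl (fun μ => ∑ i ∈ s, f i μ) := by
  classical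
  induction s using Finset.induction with
  | empty => simpa using const 0
  | insert i s hi ih =>
    simp only [Finset.sum_insert hi]
    exact (hf i (Finset.mem_insert_self _ _)).add
      (ih fun j hj => hf j (Finset.mem_insert_of_mem hj))

lemma mvn {σ : Type*} (p : MvPolynomial σ k) :
    Ctl (fun μ : AbsoluteValue k ℝ => VCH.mvn μ p) :=
  sum _ fun _ _ => abs_val _

end Ctl

/-- The filter of controlled lower bounds. -/
def ctl (k : Type*) [Field k] : Filter (AbsoluteValue k ℝ × ℝ) where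
  sets := {s | ∃ (Z : Finset k) (n : ℕ), ∀ μ H, sz Z μ ^ n ≤ H → (μ, H) ∈ s}
  univ_sets := ⟨∅, 0, fun _ _ _ => Set.mem_univ _⟩
  sets_of_superset := by
    rintro s t ⟨Z, n, h⟩ hst
    exact ⟨Z, n, fun μ H hH => hst (h μ H hH)⟩
  inter_sets := by
    classical
    rintro s t ⟨Z, n, h⟩ ⟨Z', n', h'⟩
    refine ⟨Z ∪ Z', max n n', fun μ H hH => ⟨h μ H ?_, h' μ H ?_⟩⟩
    · exact (sz_pow_mono (Finset.subset_union_left (s₁ := Z) (s₂ := Z'))
        (le_max_left n n') μ).trans hH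
    · exact (sz_pow_mono (Finset.subset_union_right (s₁ := Z) (s₂ := Z'))
        (le_max_right n n') μ).trans hH

lemma eventually_ctl_iff {P : AbsoluteValue k ℝ × ℝ → Prop} :
    (∀ᶠ q in ctl k, P q) ↔ ∃ (Z : Finset k) (n : ℕ), ∀ μ H, sz Z μ ^ n ≤ H → P (μ, H) :=
  Iff.rfl

lemma Ctl.ev {f : AbsoluteValue k ℝ → ℝ} (hf : Ctl f) : ∀ᶠ q in ctl k, f q.1 ≤ q.2 := by
  obtain ⟨Z, n, h⟩ := hf
  rw [eventually_ctl_iff]
  exact ⟨Z, n, fun μ H hH => (le_abs_self _).trans ((h μ).trans hH)⟩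

lemma ctl_const (C : ℝ) : ∀ᶠ q in ctl k, C ≤ q.2 := (Ctl.const C).ev

lemma ctl_abs (c : k) : ∀ᶠ q in ctl k, q.1 c ≤ q.2 := (Ctl.abs_val c).ev

/-- Cauchy bound. -/
lemma cauchy_bound {μ : AbsoluteValue k ℝ} {N : ℕ} {c : ℕ → k} {z : k} {B : ℝ} (hB : 1 ≤ B)
    (hc : ∀ i < N, μ (c i) ≤ B) (h : z ^ N + ∑ i ∈ Finset.range N, c i * z ^ i = 0) :
    μ z ≤ N * B := by
  rcases Nat.eq_zero_or_pos N with h0 | hN
  · subst h0
    simp at h
  have hN1 : (1:ℝ) ≤ N := by exact_mod_cast hN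
  by_cases hz : μ z ≤ 1
  · nlinarith
  push Not at hz
  have h1 : z ^ N = -∑ i ∈ Finset.range N, c i * z ^ i := by linear_combination h
  have h2 : μ z ^ N ≤ N * B * μ z ^ (N - 1) := by
    rw [← map_pow, h1, AbsoluteValue.map_neg]
    refine (μ.sum_le _ _).trans ?_
    calc ∑ i ∈ Finset.range N, μ (c i * z ^ i) ≤ ∑ i ∈ Finset.range N, B * μ z ^ (N - 1) := by
          refine Finset.sum_le_sum fun i hi => ?_
          rw [Finset.mem_range] at hi
          rw [map_mul, map_pow]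
          have h3 := hc i hi
          have h4 : μ z ^ i ≤ μ z ^ (N - 1) := pow_le_pow_right₀ hz.le (by omega)
          gcongr
      _ = _ := by rw [Finset.sum_const, Finset.card_range, nsmul_eq_mul]; ring
  have h3 : μ z ^ N = μ z * μ z ^ (N - 1) := by
    rw [← pow_succ']; congr 1; omega
  rw [h3] at h2
  exact le_of_mul_le_mul_right h2 (by positivity)

lemma int_bound (p : ℕ → k[X]) (N n0 : ℕ) : ∃ n : ℕ, ∀ᶠ q in ctl k, ∀ w z : k,
    q.1 w ≤ q.2 ^ n0 → z ^ N + ∑ i ∈ Finset.range N, (p i).eval w * z ^ i = 0 →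
      q.1 z ≤ q.2 ^ n := by
  let D : ℕ := ∑ i ∈ Finset.range N, (p i).natDegree
  refine ⟨2 + n0 * D, ?_⟩
  have e1 : ∀ᶠ q in ctl k, ∀ i ∈ Finset.range N, pn q.1 1 (p i) ≤ q.2 := by
    rw [Filter.eventually_all_finset]
    intro i _
    have : Ctl (fun μ : AbsoluteValue k ℝ => pn μ 1 (p i)) := by
      unfold pn Polynomial.sum
      exact Ctl.sum _ fun j _ => by
        simp only [one_pow, mul_one]
        exact Ctl.abs_val _
    exact this.ev
  filter_upwards [e1, ctl_const 1, ctl_const (N : ℝ)] with q h1 h2 h3 w z hw hz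
  have hH0 : (0:ℝ) ≤ q.2 := by linarith
  have hc : ∀ i < N, q.1 ((p i).eval w) ≤ q.2 ^ (1 + n0 * D) := by
    intro i hi
    refine (eval_le_pn _ hw).trans ?_
    have h4 : pn q.1 (q.2 ^ n0) (p i) ≤ q.2 ^ (n0 * D) * pn q.1 1 (p i) := by
      rw [pn_eq_range _ _ (Nat.lt_succ_self _), pn_eq_range _ _ (Nat.lt_succ_self _),
        Finset.mul_sum]
      refine Finset.sum_le_sum fun j hj => ?_
      rw [Finset.mem_range] at hj
      have hjD : j ≤ D := by
        have h5 : (p i).natDegree ≤ D :=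
          Finset.single_le_sum (f := fun i => (p i).natDegree) (fun _ _ => Nat.zero_le _)
            (Finset.mem_range.mpr hi)
        omega
      have h6 : (q.2 ^ n0) ^ j ≤ q.2 ^ (n0 * D) := by
        rw [← pow_mul]
        exact pow_le_pow_right₀ h2 (Nat.mul_le_mul_left _ hjD)
      have h7 := q.1.nonneg ((p i).coeff j)
      rw [one_pow, mul_one, mul_comm]
      gcongr
    refine h4.trans ?_
    have h5 := h1 i (Finset.mem_range.mpr hi)
    rw [pow_add, pow_one, mul_comm]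
    gcongr
  have h4 := cauchy_bound (μ := q.1) (one_le_pow₀ h2) hc hz
  calc q.1 z ≤ N * q.2 ^ (1 + n0 * D) := h4
    _ ≤ q.2 * q.2 ^ (1 + n0 * D) := by gcongr
    _ = q.2 ^ (2 + n0 * D) := by rw [← pow_succ']; congr 1; ring

end Pool.Agent.VCH
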