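import Mathlib

/-!
Definitions used in the statement of the theorem on the variation of canonical heights.
-/

open WithZero

namespace Pool.Agent.VCH

/-- The field of algebraic numbers. -/
abbrev Qb : Type := AlgebraicClosure ℚ

instance instAlgQb : Algebra.IsAlgebraic ℚ Qb := by
  have h := AlgebraicClosure.isAlgebraic ℚ
  have e : (AlgebraicClosure.instAlgebra ℚ : Algebra ℚ (AlgebraicClosure ℚ)) =
    DivisionRing.toRatAlgebra := Subsingleton.elim _ _
  rw [e] at h
  exact h

instance instFDAdjoinRange {ι : Type*} [Finite ι] (x : ι → Qb) :
    FiniteDimensional ℚ (IntermediateField.adjoin ℚ (Set.range x)) :=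
  IntermediateField.finiteDimensional_adjoin fun y _ =>
    instAlgQb.isIntegral.isIntegral y

/-- The field generated by finitely many algebraic numbers is a number field. -/
instance instNFAdjoinRange {ι : Type*} [Finite ι] (x : ι → Qb) :
    NumberField (IntermediateField.adjoin ℚ (Set.range x)) where

/-- The absolute logarithmic Weil height of the point of projective space with homogeneous
coordinates `x`: the height computed in the number field generated by the coordinates, divided
by the degree of this field. -/
noncomputable def absHt {ι : Type*} [Finite ι] (x : ι → Qb) : ℝ :=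
  Height.logHeight (K := IntermediateField.adjoin ℚ (Set.range x))
      (fun i => ⟨x i, IntermediateField.subset_adjoin ℚ _ ⟨i, rfl⟩⟩) /
    Module.finrank ℚ (IntermediateField.adjoin ℚ (Set.range x))

/-- `L` is a field of algebraic functions of one variable over `k`. -/
def IsFunField (k L : Type*) [Field k] [Field L] [Algebra k L] : Prop :=
  ∃ x : L, Transcendental k x ∧ FiniteDimensional (IntermediateField.adjoin k {x}) L

/-- A place of `L / k`: a normalised discrete valuation of `L`, trivial on `k`.
When `L / k` is a function field of one variable and `k` is algebraically closed, the places are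
the points of the smooth projective curve over `k` with function field `L`. -/
structure Place (k L : Type*) [Field k] [Field L] [Algebra k L] where
  /-- the valuation. -/
  v : Valuation L ℤᵐ⁰
  surj : Function.Surjective v
  triv : ∀ c : k, c ≠ 0 → v (algebraMap k L c) = 1

/-- The order of vanishing of the function `φ` (nonzero) at a place. -/
noncomputable def Place.ord {k L : Type*} [Field k] [Field L] [Algebra k L] (t : Place k L)
    (φ : L) : ℤ := -log (t.v φ)

/-- The minimal order of vanishing `min_i ord (x i)` of the coordinates (not all zero) of a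
vector of functions at a place. -/
noncomputable def Place.ordv {k L : Type*} [Field k] [Field L] [Algebra k L] (t : Place k L)
    {ι : Type*} [Fintype ι] (x : ι → L) : ℤ := -log (Finset.univ.sup fun i => t.v (x i))

/-- The polynomial self-map of affine space attached to a tuple of polynomials. -/
noncomputable def pmap {S : Type*} [CommRing S] {ι : Type*} (F : ι → MvPolynomial ι S)
    (v : ι → S) : ι → S := fun i => MvPolynomial.eval v (F i)

/-- The vector of constants `a` gives homogeneous coordinates of the value at the place `t` of
the point of projective space over `L` with homogeneous coordinates `x`. -/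
def IsValue {k L : Type*} [Field k] [Field L] [Algebra k L] (t : Place k L) {ι : Type*}
    (x : ι → L) (a : ι → k) : Prop :=
  a ≠ 0 ∧ ∃ c : L, c ≠ 0 ∧ ∀ i, t.v (c * x i - algebraMap k L (a i)) < 1

/-- The tuple of forms `G` is obtained from the tuple of forms `F` by specialisation at the
place `t` (after multiplication by a common scalar), and `G` has no common zero, so that it
defines a morphism. -/
def IsGoodSpec {k L : Type*} [Field k] [Field L] [Algebra k L] (t : Place k L) {ι : Type*}
    (F : ι → MvPolynomial ι L) (G : ι → MvPolynomial ι k) : Prop :=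
  (∃ c : L, c ≠ 0 ∧ ∀ i m, t.v (c * (F i).coeff m - algebraMap k L ((G i).coeff m)) < 1) ∧
    ∀ y : ι → k, (∀ i, MvPolynomial.eval y (G i) = 0) → y = 0

/-- The coefficient at the place `s` of the divisor `φ^* H`, where `φ` is the map to projective
space given by the functions `x`, and `H` is the hyperplane with equation `ℓ`. -/
noncomputable def pullDiv {k L : Type*} [Field k] [Field L] [Algebra k L] (s : Place k L)
    {ι : Type*} [Fintype ι] (x : ι → L) (ℓ : ι → k) : ℤ :=
  s.ord (∑ i, algebraMap k L (ℓ i) * x i) - s.ordv x

/-- `g` is a Weil height associated with the `ℝ`-divisor `D` on the smooth projective curve with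
function field `L`: the divisor is a real linear combination `∑ c_j φ_j^* H_j` with `φ_j` maps to
projective spaces and `H_j` hyperplanes, and `g(t) = ∑ c_j h(φ_j(t)) + O(1)`. -/
def IsWeilHeight {L : Type} [Field L] [Algebra Qb L] (D g : Place Qb L → ℝ) : Prop :=
  ∃ (J : Type) (_ : Fintype J) (n : J → ℕ) (c : J → ℝ) (φ : ∀ j, Fin (n j + 1) → L)
    (ℓ : ∀ j, Fin (n j + 1) → Qb) (C : ℝ),
    (∀ j, ∑ i, algebraMap Qb L (ℓ j i) * φ j i ≠ 0) ∧
    (∀ s, D s = ∑ j, c j * (pullDiv s (φ j) (ℓ j) : ℝ)) ∧
    ∀ (t : Place Qb L) (a : ∀ j, Fin (n j + 1) → Qb), (∀ j, IsValue t (φ j) (a j)) →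
      |g t - ∑ j, c j * absHt (a j)| ≤ C

/-- `D` has Weil heights, and each of them differs by a bounded function from the canonical
height `t ↦ ĥ_{f_t}(P_t)` of the specialisations of the family `F` (of degree `d`) and of the
point `P`, at all places `t` where `F` specialises to a morphism. -/
def VariesAs {L : Type} [Field L] [Algebra Qb L] {ι : Type} [Fintype ι] (d : ℕ)
    (F : ι → MvPolynomial ι L) (P : ι → L) (D : Place Qb L → ℝ) : Prop :=
  (∃ g, IsWeilHeight D g) ∧ ∀ g, IsWeilHeight D g → ∃ C : ℝ, ∀ (t : Place Qb L)
    (G : ι → MvPolynomial ι Qb) (p : ι → Qb), IsGoodSpec t F G → IsValue t P p →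
    ∃ h : ℝ, Filter.Tendsto (fun n => absHt ((pmap G)^[n] p) / (d : ℝ) ^ n) Filter.atTop
      (nhds h) ∧ |h - g t| ≤ C

end Pool.Agent.VCH
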