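import Pool.Agent.Lib.MP_30aac3_nt.Key

/-!
The local key inequality, final form.
-/

open Polynomial

namespace Pool.Agent.VCH

section numeric

lemma num_aux {H : ℝ} (hH : 10 ≤ H) (M1 x : ℕ) (hx : 1 ≤ x) :
    2 + 4 * H ^ ((M1 + 2) * x) / (1 / (2 * H)) ≤ H ^ ((M1 + 4) * x) := by
  have hH0 : (0:ℝ) < H := by linarith
  set V := H ^ ((M1 + 2) * x) with hV
  have hV1 : 1 ≤ V := one_le_pow₀ (by linarith)
  have e1 : 4 * V / (1 / (2 * H)) = 8 * H * V := by field_simp; ring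
  rw [e1]
  have e2 : 10 * H * V ≤ H * H * V := by gcongr
  have e3 : 1 ≤ H * V := by nlinarith
  calc 2 + 8 * H * V ≤ H * H * V := by linarith
    _ = H ^ (2 + (M1 + 2) * x) := by rw [pow_add, hV]; ring
    _ ≤ _ := by
      refine pow_le_pow_right₀ (by linarith) ?_
      nlinarith

lemma num_first {H α : ℝ} (hH : 10 ≤ H) (hα : 0 < α) (hα1 : α ≤ 1) (M M1 x D j : ℕ)
    (hx : 1 ≤ x) (hD : 1 ≤ D) (hj : j ≤ M * D) :
    (α / α ^ (2 * M + 2)) ^ (D / 2) * (2 / α) ^ j *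
      ((2 * H) ^ (D - 1) *
        (α ^ (2 * M + 2) * (2 + 4 * H ^ ((M1 + 2) * x) / (1 / (2 * H)))) ^ D) ≤
      α ^ (D / 2) * H ^ ((2 * M + M1 + 7) * (x * D)) := by
  have hH0 : (0:ℝ) < H := by linarith
  set b := D / 2 with hb
  have hbD : b ≤ D := Nat.div_le_self _ _
  set U := 2 + 4 * H ^ ((M1 + 2) * x) / (1 / (2 * H)) with hU
  have hU0 : 0 ≤ U := by positivity
  have h24 : U ≤ H ^ ((M1 + 4) * x) := num_aux hH M1 x hx
  have e0 : (α ^ (2 * M + 2)) ^ D = (α ^ (2 * M + 2)) ^ (D - b) * (α ^ (2 * M + 2)) ^ b := by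
    rw [← pow_add]; congr 1; omega
  have e1 : (α / α ^ (2 * M + 2)) ^ b * (2 / α) ^ j *
      ((2 * H) ^ (D - 1) * (α ^ (2 * M + 2) * U) ^ D) =
      α ^ b * (((α ^ (2 * M + 2)) ^ (D - b) / α ^ j)) *
        (2 ^ j * (2 * H) ^ (D - 1) * U ^ D) := by
    rw [mul_pow (α ^ (2 * M + 2)), e0, div_pow, div_pow]
    field_simp
  rw [e1]
  have e2 : (α ^ (2 * M + 2)) ^ (D - b) / α ^ j ≤ 1 := by
    rw [div_le_one (by positivity), ← pow_mul]
    refine pow_le_pow_of_le_one hα.le hα1 ?_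
    have h1 : D ≤ 2 * (D - b) := by omega
    calc j ≤ M * D := hj
      _ ≤ M * (2 * (D - b)) := Nat.mul_le_mul_left _ h1
      _ ≤ (2 * M + 2) * (D - b) := by
        generalize D - b = x
        nlinarith
  have e3 : (2:ℝ) ^ j ≤ H ^ (M * D) := by
    calc (2:ℝ) ^ j ≤ H ^ j := by gcongr; linarith
      _ ≤ _ := pow_le_pow_right₀ (by linarith) hj
  have e4 : U ^ D ≤ H ^ ((M1 + 4) * (x * D)) := by
    calc U ^ D ≤ (H ^ ((M1 + 4) * x)) ^ D := by gcongr
      _ = _ := by rw [← pow_mul, mul_assoc]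
  have h2H : (2 * H) ^ (D - 1) ≤ H ^ (2 * D) := by
    calc (2 * H) ^ (D - 1) ≤ (H * H) ^ (D - 1) := by gcongr; linarith
      _ = H ^ (2 * (D - 1)) := by rw [← pow_two, ← pow_mul]
      _ ≤ _ := pow_le_pow_right₀ (by linarith) (by omega)
  calc α ^ b * ((α ^ (2 * M + 2)) ^ (D - b) / α ^ j) *
      (2 ^ j * (2 * H) ^ (D - 1) * U ^ D)
      ≤ α ^ b * 1 * (H ^ (M * D) * H ^ (2 * D) * H ^ ((M1 + 4) * (x * D))) := by gcongr
    _ = α ^ b * H ^ (M * D + 2 * D + (M1 + 4) * (x * D)) := by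
        rw [pow_add, pow_add]; ring
    _ ≤ _ := by
        gcongr
        · linarith
        · have h3 : D ≤ x * D := Nat.le_mul_of_pos_left _ hx
          have h4 := Nat.mul_le_mul_left M h3
          nlinarith

lemma num_second {H α : ℝ} (hH : 10 ≤ H) (hα : 0 < α) (M M1 x D j : ℕ)
    (hx : 1 ≤ x) (hD : 1 ≤ D) (hj : j ≤ M * D) :
    (2 * α / (1 / (2 * H))) ^ (D / 2) * (1 / (1 / (2 * H))) ^ j *
      ((2 * H) ^ (D - 1) * (2 * H ^ ((M1 + 2) * x)) ^ D) ≤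
      α ^ (D / 2) * H ^ ((2 * M + M1 + 7) * (x * D)) := by
  have hH0 : (0:ℝ) < H := by linarith
  set b := D / 2 with hb
  have hbD : b ≤ D := Nat.div_le_self _ _
  set V := H ^ ((M1 + 2) * x) with hV
  have hV1 : 1 ≤ V := one_le_pow₀ (by linarith)
  have e1 : 2 * α / (1 / (2 * H)) = α * (4 * H) := by field_simp; ring
  have e1' : 1 / (1 / (2 * H)) = 2 * H := by field_simp
  rw [e1, e1', mul_pow α]
  have e2 : (4 * H) ^ b ≤ H ^ (2 * D) := by
    calc (4 * H) ^ b ≤ (H * H) ^ b := by gcongr; linarith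
      _ = H ^ (2 * b) := by rw [← pow_two, ← pow_mul]
      _ ≤ _ := pow_le_pow_right₀ (by linarith) (by omega)
  have e3 : (2 * H) ^ j ≤ H ^ (2 * (M * D)) := by
    calc (2 * H) ^ j ≤ (H * H) ^ j := by gcongr; linarith
      _ = H ^ (2 * j) := by rw [← pow_two, ← pow_mul]
      _ ≤ _ := pow_le_pow_right₀ (by linarith) (by omega)
  have e4 : (2 * V) ^ D ≤ H ^ ((M1 + 3) * (x * D)) := by
    calc (2 * V) ^ D ≤ (H ^ ((M1 + 3) * x)) ^ D := by
          gcongr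
          calc 2 * V ≤ H * V := by gcongr; linarith
            _ = H ^ (1 + (M1 + 2) * x) := by rw [pow_add, hV]; ring
            _ ≤ _ := by
              refine pow_le_pow_right₀ (by linarith) ?_
              nlinarith
      _ = _ := by rw [← pow_mul, mul_assoc]
  have h2H : (2 * H) ^ (D - 1) ≤ H ^ (2 * D) := by
    calc (2 * H) ^ (D - 1) ≤ (H * H) ^ (D - 1) := by gcongr; linarith
      _ = H ^ (2 * (D - 1)) := by rw [← pow_two, ← pow_mul]
      _ ≤ _ := pow_le_pow_right₀ (by linarith) (by omega)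
  calc α ^ b * (4 * H) ^ b * (2 * H) ^ j * ((2 * H) ^ (D - 1) * (2 * V) ^ D)
      ≤ α ^ b * H ^ (2 * D) * H ^ (2 * (M * D)) *
        (H ^ (2 * D) * H ^ ((M1 + 3) * (x * D))) := by gcongr
    _ = α ^ b * H ^ (2 * D + 2 * (M * D) + (2 * D + (M1 + 3) * (x * D))) := by
        rw [pow_add, pow_add, pow_add]; ring
    _ ≤ _ := by
        gcongr
        · linarith
        · have h3 : D ≤ x * D := Nat.le_mul_of_pos_left _ hx
          have h4 := Nat.mul_le_mul_left M h3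
          nlinarith

end numeric

/-- Data for the orbit of a point in a chart: a homogeneous map `F`, a point `P`, and the
orders of vanishing `E n` at the puncture of the iterates. -/
structure OrbitData {k A : Type*} [Field k] [CommRing A] [Algebra k A] (c : Chart k A)
    (ι : Type*) where
  F : ι → MvPolynomial ι A
  P : ι → A
  d : ℕ
  E : ℕ → ℕ
  M : ℕ
  hd : 2 ≤ d
  hF : ∀ i, (F i).IsHomogeneous d
  hE1 : ∀ n i, ∀ l < E n, c.s (c.T^[l] ((pmap F)^[n] P i)) = 0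
  hE2 : ∀ n, ∃ i, c.s (c.T^[E n] ((pmap F)^[n] P i)) ≠ 0
  hEM : ∀ n, E (n + 1) ≤ d * E n + M

namespace OrbitData

variable {k A : Type*} [Field k] [CommRing A] [Algebra k A] {c : Chart k A}
variable {ι : Type*} (o : OrbitData c ι)

/-- iterates. -/
noncomputable def W (n : ℕ) : ι → A := (pmap o.F)^[n] o.P

/-- normalised iterates. -/
noncomputable def Q (n : ℕ) : ι → A := fun i => c.T^[o.E n] (o.W n i)

lemma theta_W (n : ℕ) (i : ι) :
    c.theta (o.W n i) = PowerSeries.X ^ o.E n * c.theta (o.Q n i) :=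
  c.theta_vanish (o.hE1 n i)

lemma W_add (n N : ℕ) : (pmap o.F)^[N] (o.W n) = o.W (n + N) := by
  unfold W
  rw [← Function.iterate_add_apply, add_comm]

lemma W_succ (n : ℕ) : o.W (n + 1) = pmap o.F (o.W n) := by
  unfold W
  rw [Function.iterate_succ_apply']

lemma exists_Q_ne (n : ℕ) : ∃ i, c.s (o.Q n i) ≠ 0 := o.hE2 n

lemma sQ_ne_zero (n : ℕ) : (fun i => c.s (o.Q n i)) ≠ 0 := by
  obtain ⟨i, hi⟩ := o.exists_Q_ne n
  intro h
  exact hi (congrFun h i)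

variable [Fintype ι]

lemma pmap_smul_iterate {S : Type*} [CommRing S] {F : ι → MvPolynomial ι S}
    {d : ℕ} (hF : ∀ i, (F i).IsHomogeneous d) (a : S) (v : ι → S) (N : ℕ) :
    (pmap F)^[N] (a • v) = a ^ (d ^ N) • (pmap F)^[N] v := by
  induction N with
  | zero => simp
  | succ N ih =>
    rw [Function.iterate_succ_apply', ih, pmap_smul hF, Function.iterate_succ_apply', ← pow_mul,
      pow_succ]

lemma theta_iterate (n N : ℕ) (i : ι) :
    PowerSeries.X ^ (o.E n * o.d ^ N) * c.theta ((pmap o.F)^[N] (o.Q n) i) =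
      PowerSeries.X ^ o.E (n + N) * c.theta (o.Q (n + N) i) := by
  have hF' : ∀ i, (MvPolynomial.map c.theta (o.F i)).IsHomogeneous o.d := fun i => (o.hF i).map _
  have h1 := congrFun (pmap_iterate_map c.theta o.F (o.Q n) N) i
  have h2 := congrFun (pmap_iterate_map c.theta o.F (o.W n) N) i
  have h3 : (fun i => c.theta (o.W n i)) =
      (PowerSeries.X ^ o.E n : PowerSeries k) • fun i => c.theta (o.Q n i) := by
    funext i
    exact o.theta_W n i
  have h4 := congrFun (pmap_smul_iterate hF' (PowerSeries.X ^ o.E n : PowerSeries k)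
    (fun i => c.theta (o.Q n i)) N) i
  rw [← h3, h2, o.W_add, o.theta_W, Pi.smul_apply, smul_eq_mul, h1, ← pow_mul] at h4
  exact h4.symm

lemma dE_le (n N : ℕ) : o.E n * o.d ^ N ≤ o.E (n + N) := by
  by_contra hcon
  push Not at hcon
  obtain ⟨i, hi⟩ := o.exists_Q_ne (n + N)
  have h := congrArg (PowerSeries.coeff (o.E (n + N))) (o.theta_iterate n N i)
  rw [PowerSeries.coeff_X_pow_mul', PowerSeries.coeff_X_pow_mul', if_neg (by omega),
    if_pos le_rfl, Nat.sub_self, Chart.coeff_theta] at h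
  exact hi h.symm

lemma theta_iterate' (n N : ℕ) (i : ι) :
    c.theta ((pmap o.F)^[N] (o.Q n) i) =
      PowerSeries.X ^ (o.E (n + N) - o.E n * o.d ^ N) * c.theta (o.Q (n + N) i) := by
  have h := o.theta_iterate n N i
  have h1 := o.dE_le n N
  have h2 : o.E (n + N) = o.E n * o.d ^ N + (o.E (n + N) - o.E n * o.d ^ N) := by omega
  rw [h2, pow_add, mul_assoc] at h
  exact mul_left_cancel₀ (pow_ne_zero _ PowerSeries.X_ne_zero) h

lemma s_T_lt (n N : ℕ) (i : ι) {l : ℕ} (hl : l < o.E (n + N) - o.E n * o.d ^ N) :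
    c.s (c.T^[l] ((pmap o.F)^[N] (o.Q n) i)) = 0 := by
  rw [← Chart.coeff_theta, theta_iterate', PowerSeries.coeff_X_pow_mul', if_neg (by omega)]

lemma s_T_eq (n N : ℕ) (i : ι) :
    c.s (c.T^[o.E (n + N) - o.E n * o.d ^ N] ((pmap o.F)^[N] (o.Q n) i)) =
      c.s (o.Q (n + N) i) := by
  rw [← Chart.coeff_theta, theta_iterate', PowerSeries.coeff_X_pow_mul', if_pos le_rfl,
    Nat.sub_self, Chart.coeff_theta]
  rfl

lemma E_le (n N : ℕ) : o.E (n + N) ≤ o.E n * o.d ^ N + o.M * (o.d ^ N - 1) := by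
  induction N with
  | zero => simp
  | succ N ih =>
    have h1 := o.hEM (n + N)
    have h2 : 1 ≤ o.d ^ N := Nat.one_le_pow _ _ (by have := o.hd; omega)
    have hd := o.hd
    rw [← add_assoc]
    refine h1.trans ?_
    have h3 : o.d * o.E (n + N) ≤ o.d * (o.E n * o.d ^ N + o.M * (o.d ^ N - 1)) :=
      Nat.mul_le_mul_left _ ih
    have h4 : o.d * (o.E n * o.d ^ N + o.M * (o.d ^ N - 1)) + o.M ≤
        o.E n * o.d ^ (N+1) + o.M * (o.d ^ (N+1) - 1) := by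
      obtain ⟨e, he⟩ : ∃ e, o.d ^ N = e + 1 := ⟨o.d ^ N - 1, by omega⟩
      rw [pow_succ, he]
      have e1 : (e + 1) * o.d - 1 = e * o.d + (o.d - 1) := by
        rw [Nat.add_mul, one_mul]; omega
      rw [e1, Nat.add_sub_cancel]
      have e2 : o.M ≤ o.M * (o.d - 1) := Nat.le_mul_of_pos_right _ (by omega)
      nlinarith
    omega

lemma pow_d_pos (N : ℕ) : 1 ≤ o.d ^ N := Nat.one_le_pow _ _ (by have := o.hd; omega)

/-- Hypotheses at an absolute value `μ` and a point `t`. -/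
structure Hyp (o : OrbitData c ι) (μ : AbsoluteValue k ℝ) (M1 Y0 : ℕ) (H : ℝ)
    (t : A →ₐ[k] k) (a : k) : Prop where
  hH : 10 ≤ H
  hEM1 : ∀ n, o.E n ≤ M1 * o.d ^ n
  hCT : c.CT μ ≤ H
  hBF : ∀ i, ∃ K', (∀ m ∈ (o.F i).support, c.Bd μ ((o.F i).coeff m) K') ∧
    (o.F i).support.card * K' ≤ H
  hP : ∀ i, c.Bd μ (o.P i) H
  ha : a ≠ 0
  haH : μ a * (4 * H) ≤ 1
  hy : ∀ i, μ (t (c.y i)) ≤ 1
  pt : c.Pt t a
  hLB : ∀ x : ι → k, μ a ^ o.M * vn μ x ^ o.d ≤
    H * vn μ (pmap (fun i => MvPolynomial.map (t : A →+* k) (o.F i)) x)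
  hP0 : μ a ^ Y0 ≤ H * vn μ (fun i => t (o.Q 0 i))

variable {o} {μ : AbsoluteValue k ℝ} {M1 Y0 : ℕ} {H : ℝ} {t : A →ₐ[k] k} {a : k}

lemma Bd_W (hCT : 10 ≤ H)
    (hBF : ∀ i, ∃ K', (∀ m ∈ (o.F i).support, c.Bd μ ((o.F i).coeff m) K') ∧
      (o.F i).support.card * K' ≤ H) (hP : ∀ i, c.Bd μ (o.P i) H) (n : ℕ) (i : ι) :
    c.Bd μ (o.W n i) (H ^ (2 * o.d ^ n)) := by
  have h1 := (c.isBd μ).iterate o.hd o.hF (by linarith : (0:ℝ) ≤ H) (by linarith) hBF hP n i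
  refine (c.isBd μ).mono h1 ?_
  rw [← pow_add]
  exact pow_le_pow_right₀ (by linarith) (by omega)

lemma Bd_Q (hH : 10 ≤ H) (hEM1 : ∀ n, o.E n ≤ M1 * o.d ^ n) (hCT : c.CT μ ≤ H)
    (hBF : ∀ i, ∃ K', (∀ m ∈ (o.F i).support, c.Bd μ ((o.F i).coeff m) K') ∧
      (o.F i).support.card * K' ≤ H) (hP : ∀ i, c.Bd μ (o.P i) H) (n : ℕ) (i : ι) :
    c.Bd μ (o.Q n i) (H ^ ((M1 + 2) * o.d ^ n)) := by
  have h1 := c.Bd_T_iterate (Bd_W hH hBF hP n i) (o.E n)
  refine (c.isBd μ).mono h1 ?_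
  have h0 := c.one_le_CT (μ := μ)
  calc c.CT μ ^ o.E n * H ^ (2 * o.d ^ n) ≤ H ^ o.E n * H ^ (2 * o.d ^ n) := by gcongr
    _ ≤ H ^ (M1 * o.d ^ n) * H ^ (2 * o.d ^ n) := by
        gcongr
        · linarith
        · exact hEM1 n
    _ = _ := by rw [← pow_add]; ring_nf

lemma sQ_le (hH : 10 ≤ H) (hEM1 : ∀ n, o.E n ≤ M1 * o.d ^ n) (hCT : c.CT μ ≤ H)
    (hBF : ∀ i, ∃ K', (∀ m ∈ (o.F i).support, c.Bd μ ((o.F i).coeff m) K') ∧
      (o.F i).support.card * K' ≤ H) (hP : ∀ i, c.Bd μ (o.P i) H) (n : ℕ) :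
    vn μ (fun i => c.s (o.Q n i)) ≤ H ^ ((M1 + 2) * o.d ^ n) :=
  vn_le (by positivity) fun i => c.s_le_of_Bd (Bd_Q hH hEM1 hCT hBF hP n i)

namespace Hyp

lemma α_pos (h : Hyp o μ M1 Y0 H t a) : 0 < μ a := μ.pos h.ha

lemma α_le (h : Hyp o μ M1 Y0 H t a) : μ a ≤ 1 / (4 * H) := by
  have := h.haH
  have hH := h.hH
  rw [le_div_iff₀ (by linarith)]
  exact this

lemma α_le_one (h : Hyp o μ M1 Y0 H t a) : μ a ≤ 1 / 40 := by
  refine h.α_le.trans ?_
  have hH := h.hH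
  exact one_div_le_one_div_of_le (by norm_num) (by linarith)

lemma tQ_le (h : Hyp o μ M1 Y0 H t a) (n : ℕ) :
    vn μ (fun i => t (o.Q n i)) ≤ H ^ ((M1 + 2) * o.d ^ n) := by
  have hH := h.hH
  exact vn_le (by positivity) fun i =>
    c.eval_le_of_Bd (Bd_Q h.hH h.hEM1 h.hCT h.hBF h.hP n i) t h.hy

lemma sQ_le' (h : Hyp o μ M1 Y0 H t a) (n : ℕ) :
    vn μ (fun i => c.s (o.Q n i)) ≤ H ^ ((M1 + 2) * o.d ^ n) :=
  sQ_le h.hH h.hEM1 h.hCT h.hBF h.hP n

/-- the values at `t`. -/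
lemma t_W (h : Hyp o μ M1 Y0 H t a) (n : ℕ) (i : ι) :
    t (o.W n i) = a ^ o.E n * t (o.Q n i) := h.pt.vanish (o.hE1 n i)

lemma Ft_Q (h : Hyp o μ M1 Y0 H t a) (n : ℕ) :
    pmap (fun i => MvPolynomial.map (t : A →+* k) (o.F i)) (fun i => t (o.Q n i)) =
      a ^ (o.E (n + 1) - o.E n * o.d) • fun i => t (o.Q (n + 1) i) := by
  have hF' : ∀ i, (MvPolynomial.map (t : A →+* k) (o.F i)).IsHomogeneous o.d :=
    fun i => (o.hF i).map _
  have h1 : (fun i => t (o.W n i)) = a ^ o.E n • fun i => t (o.Q n i) := by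
    funext i; exact h.t_W n i
  have h2 : (fun i => t (o.W (n+1) i)) = a ^ o.E (n+1) • fun i => t (o.Q (n+1) i) := by
    funext i; exact h.t_W (n+1) i
  have h3 : pmap (fun i => MvPolynomial.map (t : A →+* k) (o.F i)) (fun i => t (o.W n i)) =
      fun i => t (o.W (n+1) i) := by
    have := pmap_map (t : A →+* k) o.F (o.W n)
    rw [← o.W_succ] at this
    exact this
  rw [h1, pmap_smul hF', h2] at h3
  have h4 := o.dE_le n 1
  rw [pow_one] at h4
  have h5 : o.E (n+1) = o.E n * o.d + (o.E (n + 1) - o.E n * o.d) := by omega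
  have h6 : a ^ o.E (n+1) = (a ^ o.E n) ^ o.d * a ^ (o.E (n + 1) - o.E n * o.d) := by
    conv_lhs => rw [h5]
    rw [pow_add, pow_mul]
  rw [h6, mul_smul] at h3
  have ha0 : (a ^ o.E n) ^ o.d ≠ 0 := pow_ne_zero _ (pow_ne_zero _ h.ha)
  exact smul_right_injective _ ha0 h3

lemma step (h : Hyp o μ M1 Y0 H t a) (n : ℕ) :
    μ a ^ o.M / H * vn μ (fun i => t (o.Q n i)) ^ o.d ≤ vn μ (fun i => t (o.Q (n + 1) i)) := by
  have h1 := h.hLB (fun i => t (o.Q n i))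
  rw [h.Ft_Q n, vn_smul] at h1
  have hH := h.hH
  have hα := h.α_pos
  have hα1 := h.α_le_one
  rw [div_mul_eq_mul_div, div_le_iff₀ (by linarith)]
  refine h1.trans ?_
  rw [map_pow]
  have h2 : μ a ^ (o.E (n + 1) - o.E n * o.d) ≤ 1 := pow_le_one₀ hα.le (by linarith)
  have h3 := vn_nonneg (μ := μ) (fun i => t (o.Q (n + 1) i))
  calc H * (μ a ^ (o.E (n + 1) - o.E n * o.d) * vn μ fun i => t (o.Q (n + 1) i))
      ≤ H * (1 * vn μ fun i => t (o.Q (n + 1) i)) := by gcongr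
    _ = _ := by ring

lemma steps (h : Hyp o μ M1 Y0 H t a) (n N : ℕ) :
    (μ a ^ o.M / H) ^ (o.d ^ N - 1) * vn μ (fun i => t (o.Q n i)) ^ (o.d ^ N) ≤
      vn μ (fun i => t (o.Q (n + N) i)) := by
  have hH := h.hH
  have hα := h.α_pos
  have hα1 := h.α_le_one
  have hd := o.hd
  set κ := μ a ^ o.M / H with hκ
  have hκ0 : 0 ≤ κ := by positivity
  have hκ1 : κ ≤ 1 := by
    rw [hκ, div_le_one (by linarith)]
    exact (pow_le_one₀ hα.le (by linarith)).trans (by linarith)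
  have hx := vn_nonneg (μ := μ) (fun i => t (o.Q n i))
  induction N with
  | zero => simp
  | succ N ih =>
    rw [← add_assoc]
    refine le_trans ?_ (h.step (n + N))
    have h1 := o.pow_d_pos N
    have e2 : (o.d ^ N - 1) * o.d + 1 ≤ o.d ^ (N + 1) - 1 := by
      have e3 : (o.d ^ N - 1) * o.d = o.d ^ (N+1) - o.d := by
        rw [Nat.sub_mul, one_mul, pow_succ]
      rw [e3, pow_succ]
      have : o.d ≤ o.d ^ N * o.d := by nlinarith
      omega
    calc κ ^ (o.d ^ (N + 1) - 1) * vn μ (fun i => t (o.Q n i)) ^ o.d ^ (N + 1)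
        ≤ κ ^ ((o.d ^ N - 1) * o.d + 1) * vn μ (fun i => t (o.Q n i)) ^ o.d ^ (N + 1) := by
          have := pow_le_pow_of_le_one hκ0 hκ1 e2
          gcongr
      _ = κ * (κ ^ (o.d ^ N - 1) * vn μ (fun i => t (o.Q n i)) ^ o.d ^ N) ^ o.d := by
          rw [mul_pow, ← pow_mul, ← pow_mul, pow_succ' κ, pow_succ o.d N]
          ring
      _ ≤ _ := by gcongr

/-- Lower bound for the values at `t` after `N` steps. -/
lemma steps' (h : Hyp o μ M1 Y0 H t a) (n N : ℕ) :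
    (μ a ^ o.M / H * vn μ (fun i => t (o.Q n i))) ^ (o.d ^ N) ≤
      vn μ (fun i => t (o.Q (n + N) i)) := by
  refine le_trans ?_ (h.steps n N)
  have hH := h.hH
  have hα := h.α_pos
  have hα1 := h.α_le_one
  set κ := μ a ^ o.M / H with hκ
  have hκ0 : 0 ≤ κ := by positivity
  have hκ1 : κ ≤ 1 := by
    rw [hκ, div_le_one (by linarith)]
    exact (pow_le_one₀ hα.le (by linarith)).trans (by linarith)
  have hx := vn_nonneg (μ := μ) (fun i => t (o.Q n i))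
  rw [mul_pow]
  have := pow_le_pow_of_le_one hκ0 hκ1 (show o.d ^ N - 1 ≤ o.d ^ N by omega)
  gcongr

/-- main consequence of `KL`. -/
lemma small (h : Hyp o μ M1 Y0 H t a) (n N : ℕ)
    (hsm : ∀ i, μ (t (o.Q n i)) ≤ μ a ^ (2 * o.M + 2)) :
    vn μ (fun i => c.s (o.Q (n + N) i)) ≤
      μ a ^ (o.d ^ N / 2) * H ^ ((2 * o.M + M1 + 8) * o.d ^ (n + N)) := by
  have hH := h.hH
  have hα := h.α_pos
  have hα1 := h.α_le_one
  have hd := o.hd
  have hH0 : (0:ℝ) < H := by linarith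
  refine vn_le (by positivity) fun i => ?_
  have hr0 : (0:ℝ) < 1 / (2 * H) := by positivity
  have hD1 : 1 ≤ o.d ^ N := o.pow_d_pos N
  have hn1 : 1 ≤ o.d ^ n := o.pow_d_pos n
  have hmD : o.d ^ (n + N) = o.d ^ n * o.d ^ N := by rw [pow_add]
  have hV1 : (1:ℝ) ≤ H ^ ((M1 + 2) * o.d ^ n) := one_le_pow₀ (by linarith)
  have hjM : o.E (n + N) - o.E n * o.d ^ N ≤ o.M * o.d ^ N := by
    have := o.E_le n N
    have h2 : o.M * (o.d ^ N - 1) ≤ o.M * o.d ^ N := Nat.mul_le_mul_left _ (by omega)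
    omega
  have hCr : c.CT μ * (1 / (2 * H)) ≤ 1 / 2 := by
    calc c.CT μ * (1 / (2 * H)) ≤ H * (1 / (2 * H)) := by gcongr; exact h.hCT
      _ = 1 / 2 := by field_simp
  have hBF2 : ∀ i, ∃ K', (∀ m ∈ (o.F i).support, c.Bd μ ((o.F i).coeff m) K') ∧
      (o.F i).support.card * (2 * K') ≤ 2 * H := by
    intro i
    obtain ⟨K', h1, h2⟩ := h.hBF i
    exact ⟨K', h1, by linarith⟩
  have har : μ a ≤ 1 / (2 * H) / 2 := by
    have := h.α_le
    calc μ a ≤ 1 / (4 * H) := this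
      _ = 1 / (2 * H) / 2 := by field_simp; norm_num
  have hρ : 0 < μ a ^ (2 * o.M + 2) := by positivity
  have hρa : μ a ^ (2 * o.M + 2) ≤ μ a / 2 := by
    calc μ a ^ (2 * o.M + 2) ≤ μ a ^ 2 :=
          pow_le_pow_of_le_one hα.le (by linarith) (by omega)
      _ = μ a * μ a := by ring
      _ ≤ μ a * (1/2) := by gcongr; linarith
      _ = μ a / 2 := by ring
  have hKL := c.KL hd o.hF hr0 hCr (by linarith : (1:ℝ) ≤ 2 * H)
    (by linarith : (0:ℝ) ≤ H ^ ((M1 + 2) * o.d ^ n)) hBF2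
    (Bd_Q h.hH h.hEM1 h.hCT h.hBF h.hP n) h.pt h.hy har hρ hρa hsm
    (N := N) (j := o.E (n + N) - o.E n * o.d ^ N) (fun i l hl => o.s_T_lt n N i hl)
    (o.d ^ N / 2) i
  rw [o.s_T_eq n N i] at hKL
  refine hKL.trans ?_
  have hfirst := num_first hH hα (by linarith) o.M M1 (o.d ^ n) (o.d ^ N) _ hn1 hD1 hjM
  have hsecond := num_second hH hα o.M M1 (o.d ^ n) (o.d ^ N) _ hn1 hD1 hjM
  rw [← hmD] at hfirst hsecond
  refine (add_le_add hfirst hsecond).trans ?_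
  have h1 := o.pow_d_pos (n + N)
  have h2 : 2 * H ^ ((2 * o.M + M1 + 7) * o.d ^ (n + N)) ≤
      H ^ ((2 * o.M + M1 + 8) * o.d ^ (n + N)) := by
    calc 2 * H ^ ((2 * o.M + M1 + 7) * o.d ^ (n + N))
        ≤ H * H ^ ((2 * o.M + M1 + 7) * o.d ^ (n + N)) := by gcongr; linarith
      _ = H ^ (1 + (2 * o.M + M1 + 7) * o.d ^ (n + N)) := by rw [pow_add H 1, pow_one]
      _ ≤ _ := by
        refine pow_le_pow_right₀ (by linarith) ?_
        nlinarith
  calc _ = μ a ^ (o.d ^ N / 2) * (2 * H ^ ((2 * o.M + M1 + 7) * o.d ^ (n + N))) := by ring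
    _ ≤ _ := by gcongr

/-- cubed form. -/
lemma small_cube (h : Hyp o μ M1 Y0 H t a) (n N : ℕ) (hN : 1 ≤ N)
    (hsm : ∀ i, μ (t (o.Q n i)) ≤ μ a ^ (2 * o.M + 2)) :
    vn μ (fun i => c.s (o.Q (n + N) i)) ^ 3 ≤
      μ a ^ (o.d ^ N) * H ^ ((3 * (2 * o.M + M1 + 8)) * o.d ^ (n + N)) := by
  have h1 := h.small n N hsm
  have hH := h.hH
  have hα := h.α_pos
  have hα1 := h.α_le_one
  have hx := vn_nonneg (μ := μ) (fun i => c.s (o.Q (n + N) i))
  have hD : 2 ≤ o.d ^ N := by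
    calc 2 ≤ o.d ^ 1 := by rw [pow_one]; exact o.hd
      _ ≤ o.d ^ N := Nat.pow_le_pow_right (by have := o.hd; omega) hN
  calc _ ≤ (μ a ^ (o.d ^ N / 2) * H ^ ((2 * o.M + M1 + 8) * o.d ^ (n + N))) ^ 3 := by gcongr
    _ = μ a ^ (o.d ^ N / 2 * 3) * H ^ ((3 * (2 * o.M + M1 + 8)) * o.d ^ (n + N)) := by
        rw [mul_pow, ← pow_mul, ← pow_mul]; ring_nf
    _ ≤ _ := by
        gcongr ?_ * _
        exact pow_le_pow_of_le_one hα.le (by linarith) (by omega)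

/-- Numerical step for the key inequality. -/
lemma _root_.Pool.Agent.VCH.key_aux {q α x H : ℝ} (hq : 0 ≤ q) (hα : 0 ≤ α) (hα1 : α ≤ 1)
    (hx : 0 ≤ x) (hH : 1 ≤ H) {G e C M2 C1 C2 : ℕ} (hqH : q ≤ H ^ (M2 * G))
    {D b : ℕ} (h1 : q ^ 3 ≤ α ^ D * H ^ (C * G)) (h2 : α ^ (e * D) ≤ H ^ (b * G) * x)
    (he : 3 * e ≤ C1) (hb : b ≤ 2) :
    q ^ C1 * α ^ C2 ≤ H ^ ((2 + C * C1 + M2 * C1) * G) * x := by
  have e1 : q ^ C1 = (q ^ 3) ^ e * q ^ (C1 - 3 * e) := by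
    rw [← pow_mul, ← pow_add]; congr 1; omega
  have e2 : (q ^ 3) ^ e ≤ H ^ (b * G) * x * H ^ (C * G * e) := by
    calc (q ^ 3) ^ e ≤ (α ^ D * H ^ (C * G)) ^ e := by gcongr
      _ = α ^ (e * D) * H ^ (C * G * e) := by rw [mul_pow, ← pow_mul, ← pow_mul, mul_comm D e]
      _ ≤ _ := by gcongr
  have e3 : q ^ (C1 - 3 * e) ≤ H ^ (M2 * G * C1) := by
    calc q ^ (C1 - 3 * e) ≤ (H ^ (M2 * G)) ^ (C1 - 3 * e) := by gcongr
      _ = H ^ (M2 * G * (C1 - 3 * e)) := by rw [← pow_mul]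
      _ ≤ _ := pow_le_pow_right₀ hH (Nat.mul_le_mul_left _ (by omega))
  have e4 : α ^ C2 ≤ 1 := pow_le_one₀ hα hα1
  calc q ^ C1 * α ^ C2 ≤ (H ^ (b * G) * x * H ^ (C * G * e)) * H ^ (M2 * G * C1) * 1 := by
        rw [e1]; gcongr
    _ = H ^ (b * G + C * G * e + M2 * G * C1) * x := by rw [pow_add, pow_add]; ring
    _ ≤ _ := by
      have h5 : b * G ≤ 2 * G := Nat.mul_le_mul_right _ hb
      have h6 : C * G * e ≤ C * G * C1 := Nat.mul_le_mul_left _ (by omega)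
      have h7 : b * G + C * G * e + M2 * G * C1 ≤ (2 + C * C1 + M2 * C1) * G := by nlinarith
      gcongr

/-- The key local inequality. -/
theorem key (h : Hyp o μ M1 Y0 H t a) (m : ℕ) (hm : 1 ≤ m) :
    vn μ (fun i => c.s (o.Q m i)) ^ (3 * (o.d * (3 * o.M + 2 + Y0))) *
        μ a ^ ((3 * o.M + 2) * o.d) ≤
      H ^ ((2 + (3 * (2 * o.M + M1 + 8)) * (3 * (o.d * (3 * o.M + 2 + Y0))) +
        (M1 + 2) * (3 * (o.d * (3 * o.M + 2 + Y0)))) * o.d ^ m) *
        vn μ (fun i => t (o.Q m i)) := by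
  have hH := h.hH
  have hα := h.α_pos
  have hα1 := h.α_le_one
  have hd := o.hd
  have hq := vn_nonneg (μ := μ) (fun i => c.s (o.Q m i))
  have hx := vn_nonneg (μ := μ) (fun i => t (o.Q m i))
  have hqH := h.sQ_le' m
  have hG := o.pow_d_pos m
  set q := vn μ (fun i => c.s (o.Q m i)) with hqdef
  set x := vn μ (fun i => t (o.Q m i)) with hxdef
  set C := 3 * (2 * o.M + M1 + 8) with hC
  set C1 := 3 * (o.d * (3 * o.M + 2 + Y0)) with hC1
  have hdY : o.M + Y0 ≤ o.d * (3 * o.M + 2 + Y0) := by nlinarith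
  have hdY2 : o.d * (3 * o.M + 2) ≤ o.d * (3 * o.M + 2 + Y0) := Nat.mul_le_mul_left _ (by omega)
  by_cases hB : q ^ 3 ≤ μ a ^ (o.d ^ m) * H ^ (C * o.d ^ m)
  · -- case B
    refine key_aux hq hα.le (by linarith) hx (by linarith) hqH hB (e := o.M + Y0) (b := 2)
      ?_ (by omega) le_rfl
    have h1 := h.steps' 0 m
    rw [zero_add] at h1
    have h2 := h.hP0
    have h3 : (μ a ^ (o.M + Y0) / H ^ 2) ^ (o.d ^ m) ≤ x := by
      refine le_trans ?_ h1
      have : μ a ^ (o.M + Y0) / H ^ 2 ≤ μ a ^ o.M / H * vn μ (fun i => t (o.Q 0 i)) := by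
        rw [pow_add, pow_two, mul_div_mul_comm]
        gcongr
        rw [div_le_iff₀ (by linarith)]
        linarith
      gcongr
    rw [div_pow, div_le_iff₀ (by positivity), ← pow_mul, ← pow_mul] at h3
    rw [mul_comm (H ^ _)]
    exact h3
  · -- other cases
    let Pn : ℕ → Prop := fun n => ¬ (q ^ 3 ≤ μ a ^ (o.d ^ (m - n)) * H ^ (C * o.d ^ m))
    classical
    have hP0' : Pn 0 := by simpa [Pn] using hB
    have hspec := Nat.findGreatest_spec (P := Pn) (Nat.zero_le (m - 1)) hP0'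
    have hgr := fun k => Nat.findGreatest_is_greatest (P := Pn) (n := m - 1) (k := k)
    have hle := Nat.findGreatest_le (P := Pn) (m - 1)
    set n := Nat.findGreatest Pn (m - 1) with hn
    have hnm : n + (m - n) = m := by omega
    -- the value at stage n is not small
    have hbig : μ a ^ (2 * o.M + 2) ≤ vn μ (fun i => t (o.Q n i)) := by
      by_contra hcon
      push Not at hcon
      apply hspec
      have h1 := h.small_cube n (m - n) (by omega) fun i => (le_vn _ i).trans hcon.le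
      rw [hnm] at h1
      exact h1
    have h1 := h.steps' n (m - n)
    rw [hnm] at h1
    have h3 : (μ a ^ (3 * o.M + 2) / H) ^ (o.d ^ (m - n)) ≤ x := by
      refine le_trans ?_ h1
      have : μ a ^ (3 * o.M + 2) / H ≤ μ a ^ o.M / H * vn μ (fun i => t (o.Q n i)) := by
        have e1 : μ a ^ (3 * o.M + 2) = μ a ^ o.M * μ a ^ (2 * o.M + 2) := by
          rw [← pow_add]; congr 1; omega
        rw [e1, mul_div_right_comm]
        gcongr
      gcongr
    rw [div_pow, div_le_iff₀ (by positivity), ← pow_mul] at h3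
    have hdle : o.d ^ (m - n) ≤ o.d ^ m := Nat.pow_le_pow_right (by omega) (by omega)
    have h4 : μ a ^ ((3 * o.M + 2) * o.d ^ (m - n)) ≤ H ^ (1 * o.d ^ m) * x := by
      rw [one_mul, mul_comm (H ^ _)]
      refine h3.trans ?_
      gcongr
      linarith
    rcases Nat.lt_or_ge n (m - 1) with hlt | hge
    · -- case C
      have h5 := hgr (n + 1) (by omega) (by omega)
      simp only [Pn, not_not] at h5
      have e5 : m - n = (m - (n + 1)) + 1 := by omega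
      refine key_aux hq hα.le (by linarith) hx (by linarith) hqH h5 (e := o.d * (3 * o.M + 2))
        (b := 1) ?_ (by omega) (by omega)
      refine le_trans (le_of_eq ?_) h4
      rw [e5, pow_succ]
      congr 1
      ring
    · -- case A
      have e5 : m - n = 1 := by omega
      rw [e5, pow_one] at h4
      have e3 : q ^ C1 ≤ H ^ ((M1 + 2) * o.d ^ m * C1) := by
        calc q ^ C1 ≤ (H ^ ((M1 + 2) * o.d ^ m)) ^ C1 := by gcongr
          _ = _ := by rw [← pow_mul]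
      calc q ^ C1 * μ a ^ ((3 * o.M + 2) * o.d)
          ≤ H ^ ((M1 + 2) * o.d ^ m * C1) * (H ^ (1 * o.d ^ m) * x) := by gcongr
        _ = H ^ ((M1 + 2) * o.d ^ m * C1 + 1 * o.d ^ m) * x := by rw [pow_add]; ring
        _ ≤ _ := by
          gcongr
          · linarith
          · nlinarith [Nat.zero_le (C * C1 * o.d ^ m)]

end Hyp

end OrbitData

end Pool.Agent.VCH
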