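import Pool.Agent.Lib.MP_30aac3_nt.Norms

/-!
Homogeneous Nullstellensatz identities.
-/

namespace Pool.Agent.VCH

open MvPolynomial

lemma homComp_mul {σ R : Type*} [CommRing R] {F : MvPolynomial σ R} {d : ℕ}
    (hF : F.IsHomogeneous d) (c : MvPolynomial σ R) {n : ℕ} (hn : d ≤ n) :
    homogeneousComponent n (c * F) = homogeneousComponent (n - d) c * F := by
  have h1 : homogeneousComponent n (c * F) =
      ∑ i ∈ Finset.range (c.totalDegree + 1), if n = i + d then homogeneousComponent i c * F
        else 0 := by
    conv_lhs => rw [← sum_homogeneousComponent c, Finset.sum_mul, map_sum]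
    refine Finset.sum_congr rfl fun i _ => ?_
    exact homogeneousComponent_of_mem ((homogeneousComponent_isHomogeneous i c).mul hF)
  rw [h1]
  by_cases hle : n - d < c.totalDegree + 1
  · rw [Finset.sum_eq_single (n - d)]
    · rw [if_pos (by omega)]
    · intro i _ hi
      rw [if_neg (by omega)]
    · intro h
      exact absurd (Finset.mem_range.mpr hle) h
  · rw [homogeneousComponent_eq_zero (h := by omega), zero_mul]
    refine Finset.sum_eq_zero fun i hi => ?_
    rw [Finset.mem_range] at hi
    rw [if_neg (by omega)]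

/-- Nullstellensatz for homogeneous systems with only the trivial common zero. -/
theorem exists_null {K Ω : Type*} [Field K] [Field Ω] [Algebra K Ω] [IsAlgClosed Ω]
    {ι : Type*} [Fintype ι] {F : ι → MvPolynomial ι K} {d : ℕ}
    (hF : ∀ i, (F i).IsHomogeneous d)
    (hnz : ∀ x : ι → Ω, (∀ i, aeval x (F i) = 0) → x = 0) :
    ∃ (D : ℕ) (g : ι → ι → MvPolynomial ι K), d ≤ D ∧
      (∀ i j, (g i j).IsHomogeneous (D - d)) ∧
      ∀ i, X i ^ D = ∑ j, g i j * F j := by
  classical
  have h1 : ∀ i, ∃ n : ℕ, (X i : MvPolynomial ι K) ^ n ∈ Ideal.span (Set.range F) := by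
    intro i
    have h2 : (X i : MvPolynomial ι K) ∈ (Ideal.span (Set.range F)).radical := by
      rw [← vanishingIdeal_zeroLocus_eq_radical (K := Ω), mem_vanishingIdeal_iff]
      intro x hx
      rw [mem_zeroLocus_iff] at hx
      have h3 := hnz x fun j => hx _ (Ideal.subset_span ⟨j, rfl⟩)
      rw [h3, aeval_X]
      rfl
    exact h2
  choose n hn using h1
  let D : ℕ := d + ∑ i, n i
  have h2 : ∀ i, (X i : MvPolynomial ι K) ^ D ∈ Ideal.span (Set.range F) := by
    intro i
    have h3 : n i ≤ D := by
      have := Finset.single_le_sum (f := n) (fun _ _ => Nat.zero_le _) (Finset.mem_univ i)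
      omega
    have h4 : (X i : MvPolynomial ι K) ^ D = X i ^ (D - n i) * X i ^ n i := by
      rw [← pow_add]; congr 1; omega
    rw [h4]
    exact Ideal.mul_mem_left _ _ (hn i)
  have h3 : ∀ i, ∃ c : ι → MvPolynomial ι K, ∑ j, c j * F j = X i ^ D := by
    intro i
    have := h2 i
    rw [Ideal.mem_span_range_iff_exists_fun] at this
    exact this
  choose c hc using h3
  refine ⟨D, fun i j => homogeneousComponent (D - d) (c i j), by omega,
    fun i j => homogeneousComponent_isHomogeneous _ _, fun i => ?_⟩
  have h4 : homogeneousComponent D ((X i : MvPolynomial ι K) ^ D) = X i ^ D := by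
    refine homogeneousComponent_eq_self ?_
    have := (isHomogeneous_X K i).pow D
    rwa [one_mul] at this
  rw [← h4, ← hc i, map_sum]
  refine Finset.sum_congr rfl fun j _ => ?_
  exact homComp_mul (hF j) _ (by omega)

/-- Lifting polynomials along an injective map hitting all coefficients. -/
lemma exists_lift_map {A K σ : Type*} [CommRing A] [CommRing K] (φ : A →+* K)
    (f : MvPolynomial σ K) (hf : ∀ m ∈ f.support, ∃ a, φ a = f.coeff m) :
    ∃ f' : MvPolynomial σ A, MvPolynomial.map φ f' = f := by
  classical
  choose! a ha using hf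
  refine ⟨∑ m ∈ f.support, monomial m (a m), ?_⟩
  rw [map_sum]
  conv_rhs => rw [f.as_sum]
  refine Finset.sum_congr rfl fun m hm => ?_
  rw [map_monomial, ha m hm]

lemma isHomogeneous_of_map' {A K σ : Type*} [CommRing A] [CommRing K] {φ : A →+* K}
    (hφ : Function.Injective φ) {f : MvPolynomial σ A} {n : ℕ}
    (h : (MvPolynomial.map φ f).IsHomogeneous n) : f.IsHomogeneous n := by
  intro m hm
  apply h
  rw [coeff_map]
  intro h0
  exact hm (hφ (by rw [h0, map_zero]))

end Pool.Agent.VCH
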