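import Pool.Agent.Lib.MP_30aac3_nt.Model
import Pool.Agent.Lib.MP_30aac3_nt.Chart

/-!
Charts at the places of an affine Dedekind model.
-/

set_option linter.unusedSectionVars false

open WithZero

namespace Pool.Agent.VCH

namespace Place

variable {k L : Type*} [Field k] [Field L] [Algebra k L] {t : Place k L}

lemma v_ne_zero {φ : L} (h : φ ≠ 0) : t.v φ ≠ 0 := (t.v.ne_zero_iff).mpr h

lemma v_eq {φ : L} (h : φ ≠ 0) : t.v φ = exp (-t.ord φ) := by
  rw [ord, neg_neg, exp_log (v_ne_zero h)]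

@[simp] lemma ord_one : t.ord 1 = 0 := by simp [ord]

@[simp] lemma ord_zero : t.ord 0 = 0 := by simp [ord]

lemma ord_mul {φ ψ : L} (h1 : φ ≠ 0) (h2 : ψ ≠ 0) : t.ord (φ * ψ) = t.ord φ + t.ord ψ := by
  rw [ord, map_mul, log_mul (v_ne_zero h1) (v_ne_zero h2), ord, ord]
  ring

lemma ord_inv (φ : L) : t.ord φ⁻¹ = -t.ord φ := by
  rw [ord, map_inv₀, log_inv, ord]

lemma ord_div {φ ψ : L} (h1 : φ ≠ 0) (h2 : ψ ≠ 0) : t.ord (φ / ψ) = t.ord φ - t.ord ψ := by
  rw [div_eq_mul_inv, ord_mul h1 (inv_ne_zero h2), ord_inv]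
  ring

lemma ord_pow (φ : L) (n : ℕ) : t.ord (φ ^ n) = n * t.ord φ := by
  rw [ord, map_pow, log_pow, ord, nsmul_eq_mul]
  ring

lemma v_le_exp_iff {φ : L} (h : φ ≠ 0) (n : ℤ) : t.v φ ≤ exp (-n) ↔ n ≤ t.ord φ := by
  rw [v_eq h, exp_le_exp, neg_le_neg_iff]

lemma v_le_one_iff {φ : L} (h : φ ≠ 0) : t.v φ ≤ 1 ↔ 0 ≤ t.ord φ := by
  have := v_le_exp_iff (t := t) h 0
  rwa [neg_zero, exp_zero] at this

lemma v_lt_one_iff {φ : L} (h : φ ≠ 0) : t.v φ < 1 ↔ 0 < t.ord φ := by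
  rw [v_eq h, ← exp_zero, exp_lt_exp]
  omega

lemma v_eq_one_iff {φ : L} (h : φ ≠ 0) : t.v φ = 1 ↔ t.ord φ = 0 := by
  rw [v_eq h, ← exp_zero, exp_inj]
  omega

lemma ne_zero_of_v_eq_one {φ : L} (h : t.v φ = 1) : φ ≠ 0 := by
  rintro rfl
  simp at h

end Place

section xi

variable {k L A : Type*} [Field k] [Field L] [Algebra k L]
  [CommRing A] [IsDedekindDomain A] [Algebra A L] [IsFractionRing A L]

lemma exists_xi (L : Type*) [Field L] [Algebra A L] [IsFractionRing A L]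
    (m : Ideal A) (h0 : m ≠ ⊥) (h1 : m ≠ ⊤) :
    ∃ ξ : L, (∀ φ ∈ m, ∃ ψ : A, algebraMap A L ψ = ξ * algebraMap A L φ) ∧
      ∃ φ ∈ m, ∃ ψ : A, ψ ∉ m ∧ algebraMap A L ψ = ξ * algebraMap A L φ := by
  obtain ⟨ξ, hξ1, hξ2⟩ := FractionalIdeal.exists_notMem_one_of_ne_bot (K := L) h0 h1
  have hm0 : (m : FractionalIdeal (nonZeroDivisors A) L) ≠ 0 := by
    simpa using h0
  rw [FractionalIdeal.mem_inv_iff hm0] at hξ1
  have h2 : ∀ φ ∈ m, ∃ ψ : A, algebraMap A L ψ = ξ * algebraMap A L φ := by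
    intro φ hφ
    have := hξ1 _ (FractionalIdeal.mem_coeIdeal_of_mem _ hφ)
    rw [FractionalIdeal.mem_one_iff] at this
    exact this
  refine ⟨ξ, h2, ?_⟩
  by_contra hcon
  push Not at hcon
  apply hξ2
  rw [FractionalIdeal.mem_one_iff]
  have hN : (Submodule.map (Algebra.linearMap A L) m : Submodule A L) ≠ ⊥ := by
    intro hbot
    apply h0
    rw [eq_bot_iff]
    intro φ hφ
    have h3 : algebraMap A L φ ∈ Submodule.map (Algebra.linearMap A L) m := ⟨φ, hφ, rfl⟩
    rw [hbot, Submodule.mem_bot, FaithfulSMul.algebraMap_eq_zero_iff] at h3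
    exact h3
  have hfg : (Submodule.map (Algebra.linearMap A L) m : Submodule A L).FG :=
    (IsNoetherian.noetherian m).map _
  have hint : IsIntegral A ξ := by
    refine isIntegral_of_smul_mem_submodule _ hN hfg ξ ?_
    rintro _ ⟨φ, hφ, rfl⟩
    obtain ⟨ψ, hψ⟩ := h2 φ hφ
    have hψm : ψ ∈ m := by
      by_contra hn
      exact hcon φ hφ ψ hn hψ
    exact ⟨ψ, hψm, hψ⟩
  exact IsIntegrallyClosed.isIntegral_iff.mp hint

end xi

/-- Data of a local parameter at a place of an affine model. -/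
structure Uni {k L : Type*} (A : Type*) [Field k] [Field L] [Algebra k L] [CommRing A]
    [Algebra A L] (s : Place k L) where
  /-- the inverse of the parameter -/
  ξ : L
  hξ : ∀ φ : A, s.v (algebraMap A L φ) < 1 → ∃ ψ : A, algebraMap A L ψ = ξ * algebraMap A L φ
  φ1 : A
  ψ1 : A
  h1 : s.v (algebraMap A L φ1) < 1
  h2 : s.v (algebraMap A L ψ1) = 1
  h12 : algebraMap A L ψ1 = ξ * algebraMap A L φ1

section place

variable {k L A : Type*} [Field k] [Field L] [Algebra k L]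
  [CommRing A] [IsDedekindDomain A] [Algebra k A] [Algebra A L] [IsScalarTower k A L]
  [IsFractionRing A L]

/-- prime ideal of a place. -/
def Place.center (s : Place k L) (hs : ∀ φ : A, s.v (algebraMap A L φ) ≤ 1) : Ideal A where
  carrier := {φ | s.v (algebraMap A L φ) < 1}
  zero_mem' := by simp
  add_mem' := by
    intro a b ha hb
    simp only [Set.mem_ofPred_eq, map_add] at *
    exact (s.v.map_add _ _).trans_lt (max_lt ha hb)
  smul_mem' := by
    intro a b hb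
    simp only [Set.mem_ofPred_eq, smul_eq_mul, map_mul] at *
    exact lt_of_le_of_lt (mul_le_of_le_one_left' (hs a)) hb

lemma Place.mem_center {s : Place k L} {hs : ∀ φ : A, s.v (algebraMap A L φ) ≤ 1} {φ : A} :
    φ ∈ s.center hs ↔ s.v (algebraMap A L φ) < 1 := Iff.rfl

lemma Place.center_ne_top (s : Place k L) (hs : ∀ φ : A, s.v (algebraMap A L φ) ≤ 1) :
    s.center hs ≠ ⊤ := by
  rw [Ne, Ideal.eq_top_iff_one, Place.mem_center, map_one, map_one]
  exact lt_irrefl _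

lemma Place.center_ne_bot (s : Place k L) (hs : ∀ φ : A, s.v (algebraMap A L φ) ≤ 1) :
    s.center hs ≠ ⊥ := by
  intro hbot
  have h1 : ∀ φ : A, φ ≠ 0 → s.v (algebraMap A L φ) = 1 := by
    intro φ hφ
    refine le_antisymm (hs φ) ?_
    by_contra hlt
    rw [not_le] at hlt
    have : φ ∈ s.center hs := hlt
    rw [hbot] at this
    exact hφ (by simpa using this)
  obtain ⟨z, hz⟩ := s.surj (exp (1 : ℤ))
  obtain ⟨a, b, hb, rfl⟩ := IsFractionRing.div_surjective (A := A) z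
  have hb0 : b ≠ 0 := nonZeroDivisors.ne_zero hb
  by_cases ha0 : a = 0
  · subst ha0
    simp only [map_zero, zero_div] at hz
    exact exp_ne_zero hz.symm
  rw [map_div₀, h1 a ha0, h1 b hb0, div_one] at hz
  have : (0 : ℤ) = 1 := by
    rw [← exp_inj, exp_zero]; exact hz
  omega

lemma Place.center_isPrime (s : Place k L) (hs : ∀ φ : A, s.v (algebraMap A L φ) ≤ 1) :
    (s.center hs).IsPrime := by
  refine ⟨s.center_ne_top hs, fun {a b} hab => ?_⟩
  rw [Place.mem_center, map_mul, map_mul] at hab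
  rw [Place.mem_center, Place.mem_center]
  by_contra hcon
  push Not at hcon
  have h1 := le_antisymm (hs a) hcon.1
  have h2 := le_antisymm (hs b) hcon.2
  rw [h1, h2, one_mul] at hab
  exact lt_irrefl _ hab

/-- parameters exist, and the first component only depends on the centre. -/
lemma exists_uni (s : Place k L) (hs : ∀ φ : A, s.v (algebraMap A L φ) ≤ 1) :
    Nonempty (Uni A s) := by
  obtain ⟨ξ, h1, φ, hφ, ψ, hψ, h2⟩ := exists_xi L (s.center hs) (s.center_ne_bot hs)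
    (s.center_ne_top hs)
  refine ⟨⟨ξ, fun φ hφ => h1 φ hφ, φ, ψ, hφ, ?_, h2⟩⟩
  rw [Place.mem_center, not_lt] at hψ
  exact le_antisymm (hs ψ) hψ

end place

namespace Uni

variable {k L A : Type*} [Field k] [Field L] [Algebra k L]
  [CommRing A] [IsDedekindDomain A] [Algebra k A] [Algebra A L] [IsScalarTower k A L]
  [IsFractionRing A L] {s : Place k L} (U : Uni A s)

lemma aM_ne {φ : A} (h : φ ≠ 0) : algebraMap A L φ ≠ 0 := by
  rw [Ne, FaithfulSMul.algebraMap_eq_zero_iff]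
  exact h

lemma ξ_ne : U.ξ ≠ 0 := by
  intro h
  have := U.h12
  rw [h, zero_mul] at this
  have h2 := U.h2
  rw [this] at h2
  simp at h2

lemma φ1_ne : algebraMap A L U.φ1 ≠ 0 := by
  intro h
  have := U.h12
  rw [h, mul_zero] at this
  have h2 := U.h2
  rw [this] at h2
  simp at h2

lemma dvd_ord (hs : ∀ φ : A, s.v (algebraMap A L φ) ≤ 1) (φ : A) (hφ : φ ≠ 0) :
    s.ord U.ξ ∣ s.ord (algebraMap A L φ) := by
  have hj : s.ord U.ξ ≤ -1 := by
    have e1 : s.ord (algebraMap A L U.ψ1) = 0 := (Place.v_eq_one_iff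
      (Place.ne_zero_of_v_eq_one U.h2)).mp U.h2
    have e2 : 0 < s.ord (algebraMap A L U.φ1) := (Place.v_lt_one_iff U.φ1_ne).mp U.h1
    rw [U.h12, Place.ord_mul U.ξ_ne U.φ1_ne] at e1
    omega
  have key : ∀ (n : ℕ) (φ : A), φ ≠ 0 → s.ord (algebraMap A L φ) = n →
      s.ord U.ξ ∣ s.ord (algebraMap A L φ) := by
    intro n
    induction n using Nat.strong_induction_on with
    | _ n ih =>
      intro φ hφ hn
      have hφL := aM_ne (L := L) hφ
      rcases Nat.eq_zero_or_pos n with h0 | hpos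
      · rw [hn, h0]; simp
      · have h1 : s.v (algebraMap A L φ) < 1 := by
          rw [Place.v_lt_one_iff hφL, hn]
          exact_mod_cast hpos
        obtain ⟨ψ, hψ⟩ := U.hξ φ h1
        have hψL : algebraMap A L ψ ≠ 0 := by rw [hψ]; exact mul_ne_zero U.ξ_ne hφL
        have hψ0 : ψ ≠ 0 := by rintro rfl; simp at hψL
        have e1 : s.ord (algebraMap A L ψ) = s.ord U.ξ + s.ord (algebraMap A L φ) := by
          rw [hψ, Place.ord_mul U.ξ_ne hφL]
        have e2 : 0 ≤ s.ord (algebraMap A L ψ) := (Place.v_le_one_iff hψL).mp (hs ψ)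
        have e3 : s.ord (algebraMap A L ψ) = ((s.ord (algebraMap A L ψ)).toNat : ℤ) :=
          (Int.toNat_of_nonneg e2).symm
        have e4 := ih (s.ord (algebraMap A L ψ)).toNat (by omega) ψ hψ0 e3
        rw [e1] at e4
        exact (Int.dvd_add_right (dvd_refl _)).mp e4
  have h0 : 0 ≤ s.ord (algebraMap A L φ) := (Place.v_le_one_iff (aM_ne hφ)).mp (hs φ)
  exact key _ φ hφ (Int.toNat_of_nonneg h0).symm

lemma ord_xi (hs : ∀ φ : A, s.v (algebraMap A L φ) ≤ 1) : s.ord U.ξ = -1 := by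
  have hj : s.ord U.ξ ≤ -1 := by
    have e1 : s.ord (algebraMap A L U.ψ1) = 0 := (Place.v_eq_one_iff
      (Place.ne_zero_of_v_eq_one U.h2)).mp U.h2
    have e2 : 0 < s.ord (algebraMap A L U.φ1) := (Place.v_lt_one_iff U.φ1_ne).mp U.h1
    rw [U.h12, Place.ord_mul U.ξ_ne U.φ1_ne] at e1
    omega
  obtain ⟨z, hz⟩ := s.surj (exp (1 : ℤ))
  have hz0 : z ≠ 0 := by
    rintro rfl
    rw [map_zero] at hz
    exact exp_ne_zero hz.symm
  have hord : s.ord z = -1 := by rw [Place.ord, hz, log_exp]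
  obtain ⟨a, b, hb, rfl⟩ := IsFractionRing.div_surjective (A := A) z
  have hb0 : b ≠ 0 := nonZeroDivisors.ne_zero hb
  have ha0 : a ≠ 0 := by
    rintro rfl
    simp at hz0
  rw [Place.ord_div (aM_ne ha0) (aM_ne hb0)] at hord
  have h1 := U.dvd_ord hs a ha0
  have h2 := U.dvd_ord hs b hb0
  have h3 := dvd_sub h1 h2
  rw [hord] at h3
  have h4 : s.ord U.ξ ∣ 1 := by
    rw [← Int.dvd_neg]; exact h3
  rcases Int.isUnit_iff.mp (isUnit_of_dvd_one h4) with h | h <;> omega

end Uni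

end Pool.Agent.VCH
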