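import Pool.Agent.Lib.MP_30aac3_nt.Norms
import Pool.Agent.Lib.MP_30aac3_nt.Geo

/-!
Orders of vanishing of vectors and their behaviour under polynomial maps.
-/

set_option linter.unusedSectionVars false

open WithZero Filter

namespace Pool.Agent.VCH

namespace Place

variable {k L : Type*} [Field k] [Field L] [Algebra k L] (s : Place k L)
variable {ι : Type*} [Fintype ι]

/-- sup of valuations. -/
noncomputable def vsup (x : ι → L) : ℤᵐ⁰ := Finset.univ.sup fun i => s.v (x i)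

lemma le_vsup (x : ι → L) (i : ι) : s.v (x i) ≤ s.vsup x :=
  Finset.le_sup (f := fun i => s.v (x i)) (Finset.mem_univ i)

lemma vsup_le {x : ι → L} {c : ℤᵐ⁰} (h : ∀ i, s.v (x i) ≤ c) : s.vsup x ≤ c :=
  Finset.sup_le fun i _ => h i

lemma exists_eq_vsup [Nonempty ι] (x : ι → L) : ∃ i, s.v (x i) = s.vsup x := by
  obtain ⟨i, -, hi⟩ := Finset.exists_mem_eq_sup (Finset.univ : Finset ι) Finset.univ_nonempty
    (fun i => s.v (x i))
  exact ⟨i, hi.symm⟩

lemma vsup_ne_zero {x : ι → L} (hx : x ≠ 0) : s.vsup x ≠ 0 := by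
  obtain ⟨i, hi⟩ := Function.ne_iff.mp hx
  intro h
  have := s.le_vsup x i
  rw [h] at this
  exact v_ne_zero hi (le_zero_iff.mp this)

lemma ordv_eq (x : ι → L) : s.ordv x = -log (s.vsup x) := rfl

lemma vsup_eq {x : ι → L} (hx : x ≠ 0) : s.vsup x = exp (-s.ordv x) := by
  rw [ordv_eq, neg_neg, exp_log (s.vsup_ne_zero hx)]

lemma ordv_le_ord {x : ι → L} {i : ι} (hi : x i ≠ 0) : s.ordv x ≤ s.ord (x i) := by
  have hx : x ≠ 0 := fun h => hi (congrFun h i)
  have h1 := s.le_vsup x i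
  rw [s.vsup_eq hx, v_le_exp_iff hi] at h1
  exact h1

lemma exists_ord_eq [Nonempty ι] {x : ι → L} (hx : x ≠ 0) :
    ∃ i, x i ≠ 0 ∧ s.ord (x i) = s.ordv x := by
  obtain ⟨i, hi⟩ := s.exists_eq_vsup x
  have h0 : x i ≠ 0 := by
    intro h
    rw [h, map_zero] at hi
    exact s.vsup_ne_zero hx hi.symm
  refine ⟨i, h0, ?_⟩
  rw [v_eq h0, s.vsup_eq hx, exp_inj] at hi
  linarith

lemma vsup_smul (c : L) (x : ι → L) : s.vsup (c • x) = s.v c * s.vsup x := by
  by_cases hc : c = 0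
  · subst hc
    rw [map_zero, zero_mul]
    apply le_antisymm _ zero_le
    apply s.vsup_le
    intro i
    simp
  apply le_antisymm
  · apply s.vsup_le
    intro i
    rw [Pi.smul_apply, smul_eq_mul, map_mul]
    exact mul_le_mul_right (s.le_vsup x i) _
  · by_cases hι : Nonempty ι
    · obtain ⟨i, hi⟩ := s.exists_eq_vsup x
      rw [← hi, ← map_mul]
      exact s.le_vsup (c • x) i
    · have : s.vsup x = 0 := by
        apply le_antisymm _ zero_le
        apply s.vsup_le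
        intro i
        exact absurd ⟨i⟩ hι
      rw [this, mul_zero]
      exact zero_le

lemma ordv_smul {c : L} (hc : c ≠ 0) {x : ι → L} (hx : x ≠ 0) :
    s.ordv (c • x) = s.ord c + s.ordv x := by
  rw [ordv_eq, vsup_smul, log_mul (v_ne_zero hc) (s.vsup_ne_zero hx), ordv_eq, ord]
  ring

lemma v_sum_le {α : Type*} (S : Finset α) (f : α → L) {c : ℤᵐ⁰} (h : ∀ i ∈ S, s.v (f i) ≤ c) :
    s.v (∑ i ∈ S, f i) ≤ c := by
  classical
  induction S using Finset.induction with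
  | empty => simp
  | insert i S hi ih =>
    rw [Finset.sum_insert hi]
    exact (s.v.map_add _ _).trans (max_le (h i (Finset.mem_insert_self _ _))
      (ih fun j hj => h j (Finset.mem_insert_of_mem hj)))

lemma v_eval_le {f : MvPolynomial ι L} {n : ℕ} (hf : f.IsHomogeneous n) {C : ℤᵐ⁰}
    (hC : ∀ m, s.v (f.coeff m) ≤ C) (x : ι → L) :
    s.v (MvPolynomial.eval x f) ≤ C * s.vsup x ^ n := by
  classical
  rw [MvPolynomial.eval_eq']
  apply s.v_sum_le
  intro m hm
  have h3 : ∑ i, m i = n := by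
    have := hf (MvPolynomial.mem_support_iff.mp hm)
    rw [← this, Finsupp.weight_apply, Finsupp.sum_fintype]
    · simp
    · simp
  rw [map_mul, map_prod, ← h3, ← Finset.prod_pow_eq_pow_sum]
  refine mul_le_mul' (hC m) ?_
  refine Finset.prod_le_prod' fun i _ => ?_
  rw [map_pow]
  exact pow_le_pow_left' (s.le_vsup x i) _

/-- upper bound for valuations of values. -/
lemma vsup_pmap_le {F : ι → MvPolynomial ι L} {d : ℕ} (hF : ∀ i, (F i).IsHomogeneous d)
    {C : ℤᵐ⁰} (hC : ∀ i m, s.v ((F i).coeff m) ≤ C) (x : ι → L) :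
    s.vsup (pmap F x) ≤ C * s.vsup x ^ d :=
  s.vsup_le fun i => s.v_eval_le (hF i) (hC i) x

/-- lower bound for valuations of values. -/
lemma le_vsup_pmap {F : ι → MvPolynomial ι L} {g : ι → ι → MvPolynomial ι L} {d D : ℕ}
    (hdD : d ≤ D) (hg : ∀ i j, (g i j).IsHomogeneous (D - d)) {b : L}
    (hnull : ∀ i, MvPolynomial.C b * MvPolynomial.X i ^ D = ∑ j, g i j * F j)
    {C : ℤᵐ⁰} (hC : ∀ i j m, s.v ((g i j).coeff m) ≤ C) {x : ι → L} (hx : x ≠ 0) :
    s.v b * s.vsup x ^ d ≤ C * s.vsup (pmap F x) := by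
  have hne : Nonempty ι := by
    obtain ⟨i, -⟩ := Function.ne_iff.mp hx
    exact ⟨i⟩
  have h0 := s.vsup_ne_zero hx
  obtain ⟨i, hi⟩ := s.exists_eq_vsup x
  have h1 := congrArg (MvPolynomial.eval x) (hnull i)
  rw [map_mul, MvPolynomial.eval_C, map_pow, MvPolynomial.eval_X, map_sum] at h1
  have h2 : s.v (b * x i ^ D) ≤ C * s.vsup x ^ (D - d) * s.vsup (pmap F x) := by
    rw [h1]
    apply s.v_sum_le
    intro j _
    rw [map_mul, map_mul]
    exact mul_le_mul' (s.v_eval_le (hg i j) (hC i j) x) (s.le_vsup (pmap F x) j)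
  rw [map_mul, map_pow, hi] at h2
  have h3 : s.vsup x ^ D = s.vsup x ^ (D - d) * s.vsup x ^ d := by
    rw [← pow_add]; congr 1; omega
  rw [h3] at h2
  have h4 : s.vsup x ^ (D - d) * (s.v b * s.vsup x ^ d) ≤
      s.vsup x ^ (D - d) * (C * s.vsup (pmap F x)) := by
    refine le_trans (le_of_eq (mul_left_comm _ _ _)) (h2.trans (le_of_eq ?_))
    rw [mul_assoc, mul_left_comm]
  exact (mul_le_mul_iff_right₀ (zero_lt_iff.mpr (pow_ne_zero _ h0))).mp h4

lemma pmap_ne_zero {S : Type*} [CommRing S] [IsDomain S]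
    {F : ι → MvPolynomial ι S} {g : ι → ι → MvPolynomial ι S} {D : ℕ}
    {b : S} (hb : b ≠ 0)
    (hnull : ∀ i, MvPolynomial.C b * MvPolynomial.X i ^ D = ∑ j, g i j * F j)
    {x : ι → S} (hx : x ≠ 0) : pmap F x ≠ 0 := by
  intro h
  apply hx
  funext i
  have h1 := congrArg (MvPolynomial.eval x) (hnull i)
  rw [map_mul, MvPolynomial.eval_C, map_pow, MvPolynomial.eval_X, map_sum] at h1
  have h2 : ∀ j, MvPolynomial.eval x (F j) = 0 := fun j => congrFun h j
  simp only [map_mul, h2, mul_zero, Finset.sum_const_zero, mul_eq_zero, hb, false_or] at h1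
  exact eq_zero_of_pow_eq_zero h1

/-- change of the order of vanishing under a polynomial map. -/
lemma ordv_pmap_ge {F : ι → MvPolynomial ι L} {d : ℕ} (hF : ∀ i, (F i).IsHomogeneous d)
    {γ : ℤ} (hC : ∀ i m, s.v ((F i).coeff m) ≤ exp γ) {x : ι → L} (hx : x ≠ 0)
    (hFx : pmap F x ≠ 0) :
    d * s.ordv x - γ ≤ s.ordv (pmap F x) := by
  have h1 := s.vsup_pmap_le hF hC x
  rw [s.vsup_eq hx, s.vsup_eq hFx, ← exp_nsmul, ← exp_add, exp_le_exp] at h1
  simp only [nsmul_eq_mul] at h1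
  linarith

lemma ordv_pmap_le {F : ι → MvPolynomial ι L} {g : ι → ι → MvPolynomial ι L} {d D : ℕ}
    (hdD : d ≤ D) (hg : ∀ i j, (g i j).IsHomogeneous (D - d)) {b : L} (hb : b ≠ 0)
    (hnull : ∀ i, MvPolynomial.C b * MvPolynomial.X i ^ D = ∑ j, g i j * F j)
    {γ : ℤ} (hC : ∀ i j m, s.v ((g i j).coeff m) ≤ exp γ) {x : ι → L} (hx : x ≠ 0) :
    s.ordv (pmap F x) ≤ d * s.ordv x + s.ord b + γ := by
  have hFx := pmap_ne_zero hb hnull hx
  have h1 := s.le_vsup_pmap hdD hg hnull hC hx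
  rw [s.vsup_eq hx, s.vsup_eq hFx, v_eq hb, ← exp_nsmul, ← exp_add, ← exp_add, exp_le_exp] at h1
  simp only [nsmul_eq_mul] at h1
  linarith

lemma exists_exp_bound {α : Type*} [Finite α] (f : α → L) : ∃ γ : ℤ, ∀ i, s.v (f i) ≤ exp γ := by
  have := Fintype.ofFinite α
  refine ⟨∑ i, |log (s.v (f i))|, fun i => ?_⟩
  by_cases hi : f i = 0
  · rw [hi, map_zero]; exact zero_le
  · rw [← exp_log (v_ne_zero (t := s) hi), exp_le_exp]
    refine (le_abs_self _).trans ?_
    exact Finset.single_le_sum (f := fun i => |log (s.v (f i))|) (fun _ _ => abs_nonneg _)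
      (Finset.mem_univ i)

lemma exists_exp_bound_coeff {α : Type*} [Finite α] (f : α → MvPolynomial ι L) :
    ∃ γ : ℤ, ∀ i m, s.v ((f i).coeff m) ≤ exp γ := by
  obtain ⟨γ, hγ⟩ := s.exists_exp_bound (fun p : Σ i : α, (f i).support => (f p.1).coeff p.2)
  refine ⟨γ, fun i m => ?_⟩
  by_cases hm : m ∈ (f i).support
  · exact hγ ⟨i, ⟨m, hm⟩⟩
  · rw [MvPolynomial.notMem_support_iff.mp hm, map_zero]; exact zero_le

end Place

/-- An almost multiplicative sequence converges after normalisation. -/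
lemma tendsto_of_almost {d : ℕ} (hd : 2 ≤ d) (a : ℕ → ℝ) (C : ℝ)
    (h : ∀ n, |a (n + 1) - d * a n| ≤ C) :
    ∃ l, Tendsto (fun n => a n / (d : ℝ) ^ n) atTop (nhds l) := by
  have hd0 : (0:ℝ) < d := by positivity
  have hd2 : (2:ℝ) ≤ d := by exact_mod_cast hd
  have hC : 0 ≤ C := (abs_nonneg _).trans (h 0)
  have hcau : CauchySeq (fun n => a n / (d : ℝ) ^ n) := by
    refine cauchySeq_of_le_geometric (1/2 : ℝ) C (by norm_num) fun n => ?_
    rw [Real.dist_eq]
    have e : a n / (d:ℝ) ^ n - a (n + 1) / (d:ℝ) ^ (n + 1) =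
        -(a (n + 1) - d * a n) / (d:ℝ) ^ (n + 1) := by
      field_simp
      ring
    rw [e, abs_div, abs_neg, abs_of_pos (pow_pos hd0 _), div_le_iff₀ (by positivity)]
    refine (h n).trans ?_
    have h1 : (2:ℝ) ^ n ≤ (d:ℝ) ^ (n + 1) := by
      calc (2:ℝ) ^ n ≤ 2 ^ (n + 1) := pow_le_pow_right₀ (by norm_num) (by omega)
        _ ≤ _ := by gcongr
    calc C = C * ((1 / 2) ^ n * 2 ^ n) := by rw [← mul_pow]; norm_num
      _ ≤ C * ((1 / 2) ^ n * (d:ℝ) ^ (n + 1)) := by gcongr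
      _ = _ := by ring
  exact cauchySeq_tendsto_of_complete hcau

end Pool.Agent.VCH
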