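import Pool.Agent.Lib.MP_30aac3_nt.Near
import Pool.Agent.Lib.MP_30aac3_nt.Key2
import Pool.Agent.Lib.MP_30aac3_nt.Ordv
import Pool.Agent.Lib.MP_30aac3_nt.Null

/-!
Integral families over an affine model and their orbit data at a puncture.
-/

set_option linter.unusedSectionVars false

open Filter WithZero

namespace Pool.Agent.VCH

/-- A family of maps and a starting point with coefficients in `A`, with an identity certifying
that the maps have no common zero generically. -/
structure Fam (A ι : Type*) [CommRing A] [Fintype ι] where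
  F : ι → MvPolynomial ι A
  P : ι → A
  g : ι → ι → MvPolynomial ι A
  b : A
  d : ℕ
  D : ℕ
  hd : 2 ≤ d
  hdD : d ≤ D
  hb : b ≠ 0
  hF : ∀ i, (F i).IsHomogeneous d
  hg : ∀ i j, (g i j).IsHomogeneous (D - d)
  null : ∀ i, MvPolynomial.C b * MvPolynomial.X i ^ D = ∑ j, g i j * F j
  hP : P ≠ 0

namespace Fam

variable {A ι : Type*} [CommRing A] [Fintype ι] (f : Fam A ι)

/-- iterates -/
noncomputable def W (n : ℕ) : ι → A := (pmap f.F)^[n] f.P

lemma W_succ (n : ℕ) : f.W (n + 1) = pmap f.F (f.W n) := by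
  unfold W
  rw [Function.iterate_succ_apply']

lemma W_ne [IsDomain A] (n : ℕ) : f.W n ≠ 0 := by
  induction n with
  | zero => exact f.hP
  | succ n ih =>
    rw [W_succ]
    exact Place.pmap_ne_zero f.hb f.null ih

section site

variable {k L : Type*} [Field k] [IsAlgClosed k] [Field L] [Algebra k L]
  [IsDedekindDomain A] [Algebra k A] [Algebra A L] [IsScalarTower k A L]
  [IsFractionRing A L] {s : Place k L} (U : Uni A s) (hL : IsFunField k L)
  (hs : ∀ φ : A, s.v (algebraMap A L φ) ≤ 1) (hft : Algebra.FiniteType k A)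

/-- iterates in `L`. -/
noncomputable def WL (L : Type*) [Field L] [Algebra A L] (n : ℕ) : ι → L :=
  fun i => algebraMap A L (f.W n i)

lemma WL_ne (n : ℕ) : f.WL L n ≠ 0 := by
  obtain ⟨i, hi⟩ := Function.ne_iff.mp (f.W_ne n)
  exact Function.ne_iff.mpr ⟨i, Uni.aM_ne hi⟩

include hs in
lemma ordv_nonneg (n : ℕ) : 0 ≤ s.ordv (f.WL L n) := by
  have h1 : s.vsup (f.WL L n) ≤ 1 := s.vsup_le fun i => hs _
  rw [s.vsup_eq (f.WL_ne n), ← exp_zero, exp_le_exp] at h1
  linarith

include hs in
lemma ordv_step (n : ℕ) : s.ordv (f.WL L (n + 1)) ≤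
    f.d * s.ordv (f.WL L n) + s.ord (algebraMap A L f.b) := by
  have e1 : f.WL L (n + 1) = pmap (fun i => MvPolynomial.map (algebraMap A L) (f.F i))
      (f.WL L n) := by
    have := pmap_map (algebraMap A L) f.F (f.W n)
    rw [← f.W_succ] at this
    exact this.symm
  have h1 := s.ordv_pmap_le (F := fun i => MvPolynomial.map (algebraMap A L) (f.F i))
    (g := fun i j => MvPolynomial.map (algebraMap A L) (f.g i j)) f.hdD
    (fun i j => (f.hg i j).map _) (b := algebraMap A L f.b) (Uni.aM_ne f.hb)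
    (fun i => by
      have := congrArg (MvPolynomial.map (algebraMap A L)) (f.null i)
      simpa using this) (γ := 0)
    (fun i j m => by
      rw [MvPolynomial.coeff_map, exp_zero]
      exact hs _) (f.WL_ne (L := L) n)
  rw [← e1, add_zero] at h1
  exact h1

/-- orbit data at a site. -/
noncomputable def orbit : OrbitData (U.chart hL hs hft) ι where
  F := f.F
  P := f.P
  d := f.d
  E n := (s.ordv (f.WL L n)).toNat
  M := (s.ord (algebraMap A L f.b)).toNat
  hd := f.hd
  hF := f.hF
  hE1 n i l hl := by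
    have h0 := f.ordv_nonneg hs n
    have h1 : s.v (algebraMap A L (f.W n i)) ≤ exp (-((s.ordv (f.WL L n)).toNat : ℤ)) := by
      rw [Int.toNat_of_nonneg h0, ← s.vsup_eq (f.WL_ne n)]
      exact s.le_vsup (f.WL L n) i
    exact U.chart_s_lt hL hs hft h1 hl
  hE2 n := by
    have h0 := f.ordv_nonneg hs n
    have hne : Nonempty ι := by
      obtain ⟨i, -⟩ := Function.ne_iff.mp (f.W_ne n)
      exact ⟨i⟩
    obtain ⟨i, hi⟩ := s.exists_eq_vsup (f.WL L n)
    refine ⟨i, U.chart_s_eq hL hs hft (φ := f.W n i) ?_⟩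
    rw [Int.toNat_of_nonneg h0, ← s.vsup_eq (f.WL_ne n)]
    exact hi
  hEM n := by
    have h0 := f.ordv_nonneg hs n
    have h1 := f.ordv_nonneg hs (n + 1)
    have h2 := f.ordv_step hs n
    have h3 : 0 ≤ s.ord (algebraMap A L f.b) := (Place.v_le_one_iff (Uni.aM_ne f.hb)).mp (hs _)
    zify
    rw [Int.toNat_of_nonneg h0, Int.toNat_of_nonneg h1, Int.toNat_of_nonneg h3]
    exact h2

end site

end Fam

end Pool.Agent.VCH
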