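import Pool.Agent.Lib.MP_30aac3_nt.Fam

/-!
The key inequality for an integral family at a puncture.
-/

set_option linter.unusedSectionVars false

open Filter WithZero

namespace Pool.Agent.VCH

lemma isBd_abs {k : Type*} [Field k] (μ : AbsoluteValue k ℝ) :
    IsBd (fun (a : k) (c : ℝ) => μ a ≤ c) where
  mono h h' := h.trans h'
  zero := by simp
  one := by simp
  add h h' := (μ.add_le _ _).trans (add_le_add h h')
  mul {a b c c'} h h' := by
    rw [map_mul]
    exact mul_le_mul h h' (μ.nonneg _) ((μ.nonneg _).trans h)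
  nonneg h := (μ.nonneg _).trans h

section

variable {k A ι : Type*} [Field k] [CommRing A] [Algebra k A] [Fintype ι]

lemma eval_map_le {μ : AbsoluteValue k ℝ} {t : A →+* k} {g : MvPolynomial ι A} {n : ℕ}
    (hg : g.IsHomogeneous n) {K : ℝ} (hK0 : 0 ≤ K)
    (hK : ∀ m ∈ g.support, μ (t (g.coeff m)) ≤ K) (x : ι → k) :
    μ (MvPolynomial.eval x (MvPolynomial.map t g)) ≤ g.support.card * K * vn μ x ^ n := by
  have h1 := (isBd_abs μ).eval_homogeneous (MvPolynomial.map t g) (hg.map t) (K := K)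
    (V := vn μ x) (fun m hm => by
      rw [MvPolynomial.coeff_map]
      exact hK m (MvPolynomial.support_map_subset _ _ hm)) (fun i => le_vn x i)
  refine h1.trans ?_
  have h2 : ((MvPolynomial.map t g).support.card : ℝ) ≤ g.support.card := by
    exact_mod_cast Finset.card_le_card (MvPolynomial.support_map_subset _ _)
  have h3 := vn_nonneg (μ := μ) x
  gcongr

lemma ev_hBF (c : Chart k A) {α : Type*} [Finite α] (F : α → MvPolynomial ι A) :
    ∀ᶠ q in ctl k, ∀ i, ∃ K', 0 ≤ K' ∧ (∀ m ∈ (F i).support, c.Bd q.1 ((F i).coeff m) K') ∧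
      (F i).support.card * K' ≤ q.2 := by
  rw [Filter.eventually_all]
  intro i
  have h1 : ∀ m, ∃ p : MvPolynomial (Fin c.q) k, MvPolynomial.aeval c.y p = (F i).coeff m :=
    fun m => c.gen _
  choose p hp using h1
  have h2 : Ctl (fun μ : AbsoluteValue k ℝ => ((F i).support.card : ℝ) *
      ∑ m ∈ (F i).support, mvn μ (p m)) :=
    (Ctl.const _).mul (Ctl.sum _ fun m _ => Ctl.mvn _)
  filter_upwards [h2.ev] with q hq
  refine ⟨∑ m ∈ (F i).support, mvn q.1 (p m), Finset.sum_nonneg fun _ _ => mvn_nonneg _,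
    fun m hm => ⟨p m, hp m, ?_⟩, hq⟩
  exact Finset.single_le_sum (f := fun m => mvn q.1 (p m)) (fun _ _ => mvn_nonneg _) hm

/-- lower bound for values of a family at a point. -/
lemma lower_bound {μ : AbsoluteValue k ℝ} {t : A →+* k} {F : ι → MvPolynomial ι A}
    {g : ι → ι → MvPolynomial ι A} {d D : ℕ} (hd : 1 ≤ d) (hdD : d ≤ D) {b : A}
    (null : ∀ i, MvPolynomial.C b * MvPolynomial.X i ^ D = ∑ j, g i j * F j)
    {G : ℝ} (hG : ∀ i j (x : ι → k), μ (MvPolynomial.eval x (MvPolynomial.map t (g i j))) ≤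
      G * vn μ x ^ (D - d)) (x : ι → k) :
    μ (t b) * vn μ x ^ d ≤ Fintype.card ι * G *
      vn μ (pmap (fun i => MvPolynomial.map t (F i)) x) := by
  by_cases hx : x = 0
  · subst hx
    have h1 : vn μ (0 : ι → k) = 0 := by
      refine le_antisymm (vn_le le_rfl fun i => by simp) (vn_nonneg _)
    rw [h1, zero_pow (by omega), mul_zero]
    have h2 := vn_nonneg (μ := μ) (pmap (fun i => MvPolynomial.map t (F i)) 0)
    by_cases hι : Nonempty ι
    · obtain ⟨i⟩ := hι
      have h4 : 0 ≤ G := by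
        have h6 := hG i i (fun _ => 1)
        have h7 : vn μ (fun _ : ι => (1:k)) = 1 := by
          refine le_antisymm (vn_le zero_le_one fun i => by simp) ?_
          have := le_vn (μ := μ) (fun _ : ι => (1:k)) i
          simpa using this
        rw [h7, one_pow, mul_one] at h6
        exact (μ.nonneg _).trans h6
      positivity
    · rw [not_nonempty_iff] at hι
      simp
  have hpos := vn_pos (μ := μ) hx
  have hne : Nonempty ι := by
    obtain ⟨i, -⟩ := Function.ne_iff.mp hx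
    exact ⟨i⟩
  obtain ⟨i, hi⟩ := exists_eq_vn (μ := μ) x
  have h1 := congrArg (fun p => MvPolynomial.eval x (MvPolynomial.map t p)) (null i)
  simp only [map_mul, MvPolynomial.map_C, MvPolynomial.eval_C, map_pow, MvPolynomial.map_X,
    MvPolynomial.eval_X, map_sum] at h1
  have h2 : μ (t b) * vn μ x ^ D ≤ ∑ j : ι, (G * vn μ x ^ (D - d)) *
      vn μ (pmap (fun i => MvPolynomial.map t (F i)) x) := by
    rw [← hi, ← map_pow, ← map_mul, h1]
    refine (μ.sum_le _ _).trans (Finset.sum_le_sum fun j _ => ?_)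
    rw [map_mul, hi]
    have h3 := hG i j x
    have h4 := le_vn (μ := μ) (pmap (fun i => MvPolynomial.map t (F i)) x) j
    exact mul_le_mul h3 h4 (μ.nonneg _) ((μ.nonneg _).trans h3)
  rw [Finset.sum_const, Finset.card_univ, nsmul_eq_mul] at h2
  have h3 : vn μ x ^ D = vn μ x ^ (D - d) * vn μ x ^ d := by
    rw [← pow_add]; congr 1; omega
  rw [h3] at h2
  have h4 : vn μ x ^ (D - d) * (μ (t b) * vn μ x ^ d) ≤ vn μ x ^ (D - d) *
      (Fintype.card ι * G * vn μ (pmap (fun i => MvPolynomial.map t (F i)) x)) := by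
    refine le_trans (le_of_eq ?_) (h2.trans (le_of_eq ?_)) <;> ring
  exact le_of_mul_le_mul_left h4 (by positivity)

end

namespace Fam

variable {A ι : Type*} [CommRing A] [Fintype ι] (f : Fam A ι)
variable {k L : Type*} [Field k] [IsAlgClosed k] [Field L] [Algebra k L]
  [IsDedekindDomain A] [Algebra k A] [Algebra A L] [IsScalarTower k A L]
  [IsFractionRing A L] {s : Place k L} (U : Uni A s) (hL : IsFunField k L)
  (hs : ∀ φ : A, s.v (algebraMap A L φ) ≤ 1) (hft : Algebra.FiniteType k A)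

theorem ev_near : ∃ C1 C2 n : ℕ, ∀ᶠ q in ctl k,
    (∀ m, vn q.1 (fun i => (U.chart hL hs hft).s ((f.orbit U hL hs hft).Q m i)) ≤
      q.2 ^ (n * f.d ^ m)) ∧
    ∀ (t : A →ₐ[k] k) (a : k), (U.chart hL hs hft).Pt t a → a ≠ 0 →
      (∀ i, q.1 (t ((U.chart hL hs hft).y i)) ≤ 1) → q.1 a * q.2 ^ 5 ≤ 1 → ∀ m, 1 ≤ m →
      vn q.1 (fun i => t (f.W m i)) ≤ q.2 ^ (n * f.d ^ m) *
        q.1 a ^ ((f.orbit U hL hs hft).E m) ∧
      vn q.1 (fun i => (U.chart hL hs hft).s ((f.orbit U hL hs hft).Q m i)) ^ C1 *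
        q.1 a ^ (C2 + (f.orbit U hL hs hft).E m) ≤
        q.2 ^ (n * f.d ^ m) * vn q.1 (fun i => t (f.W m i)) := by
  classical
  set c := U.chart hL hs hft with hc
  set o := f.orbit U hL hs hft with ho
  have hod : o.d = f.d := rfl
  have hoF : o.F = f.F := rfl
  have hoP : o.P = f.P := rfl
  set M1 := o.E 0 + o.M with hM1
  set C1 := 3 * (o.d * (3 * o.M + 2 + 0)) with hC1
  set C3 := 2 + (3 * (2 * o.M + M1 + 8)) * C1 + (M1 + 2) * C1 with hC3
  refine ⟨C1, (3 * o.M + 2) * o.d, 4 * (C3 + M1 + 2), ?_⟩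
  obtain ⟨i0, hi0⟩ := o.exists_Q_ne 0
  have hM0 : s.v (algebraMap A L f.b) = exp (-(o.M : ℤ)) := by
    have h3 : 0 ≤ s.ord (algebraMap A L f.b) :=
      (Place.v_le_one_iff (Uni.aM_ne f.hb)).mp (hs _)
    have h4 : (o.M : ℤ) = s.ord (algebraMap A L f.b) := Int.toNat_of_nonneg h3
    rw [h4, ← Place.v_eq (Uni.aM_ne f.hb)]
  have hEM1 : ∀ n, o.E n ≤ M1 * o.d ^ n := by
    intro n
    have h1 := o.E_le 0 n
    rw [zero_add] at h1
    refine h1.trans ?_
    have h2 : o.M * (o.d ^ n - 1) ≤ o.M * o.d ^ n := Nat.mul_le_mul_left _ (by omega)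
    rw [hM1, add_mul]
    omega
  filter_upwards [ev_hBF c f.F, ev_hBF c (fun p : ι × ι => f.g p.1 p.2), c.ev_CT,
    ctl_const 10, ctl_const (Fintype.card ι : ℝ),
    Filter.eventually_all.mpr fun i => c.ev_Bd (f.P i),
    c.ev_ratio f.b o.M (fun l hl => U.chart_s_lt hL hs hft hM0.le hl)
      (U.chart_s_eq hL hs hft hM0),
    c.ev_ratio (o.Q 0 i0) 0 (fun l hl => absurd hl (Nat.not_lt_zero l)) hi0] with
    q h1 h2 h3 h4 h5 h6 h7 h8
  set H := q.2 with hH
  have hH0 : 0 < H := by linarith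
  have hH1 : 1 ≤ H := by linarith
  have hHH4 : H ≤ H ^ 4 := by
    calc H = H ^ 1 := (pow_one _).symm
      _ ≤ H ^ 4 := pow_le_pow_right₀ hH1 (by norm_num)
  have h10 : (10:ℝ) ≤ H ^ 4 := h4.trans hHH4
  have hBF : ∀ i, ∃ K', (∀ m ∈ (o.F i).support, c.Bd q.1 ((o.F i).coeff m) K') ∧
      (o.F i).support.card * K' ≤ H ^ 4 := by
    intro i
    obtain ⟨K', -, hK1, hK2⟩ := h1 i
    exact ⟨K', hK1, hK2.trans hHH4⟩
  have hCT : c.CT q.1 ≤ H ^ 4 := h3.trans hHH4
  have hP : ∀ i, c.Bd q.1 (o.P i) (H ^ 4) := fun i => (c.isBd q.1).mono (h6 i) hHH4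
  have hQs := fun m => OrbitData.sQ_le h10 hEM1 hCT hBF hP m
  refine ⟨fun m => ?_, ?_⟩
  · refine (hQs m).trans ?_
    rw [← pow_mul, ← mul_assoc]
    refine pow_le_pow_right₀ hH1 ?_
    exact Nat.mul_le_mul_right _ (by omega)
  intro t a hpt ha hy ha5 m hm
  have hyp : OrbitData.Hyp o q.1 M1 0 (H ^ 4) t a := by
    refine ⟨h10, hEM1, hCT, hBF, hP, ha, ?_, hy, hpt, ?_, ?_⟩
    · refine le_trans ?_ ha5
      have : 4 * H ^ 4 ≤ H ^ 5 := by
        rw [pow_succ' H 4]
        have : 0 < H ^ 4 := by positivity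
        nlinarith
      have h9 := q.1.nonneg a
      gcongr
    · intro x
      have hG : ∀ i j (x : ι → k), q.1 (MvPolynomial.eval x (MvPolynomial.map (t : A →+* k)
          (f.g i j))) ≤ H * vn q.1 x ^ (f.D - f.d) := by
        intro i j x
        obtain ⟨K', hK0, hK1, hK2⟩ := h2 (i, j)
        refine (eval_map_le (f.hg i j) hK0 (fun m hm => ?_) x).trans ?_
        · exact c.eval_le_of_Bd (hK1 m hm) t hy
        · have := vn_nonneg (μ := q.1) x
          gcongr
      have g1 := lower_bound (t := (t : A →+* k)) (by have := f.hd; omega) f.hdD f.null hG x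
      have g2 := (h7 t a hpt hy ha5).1
      have g3 := vn_nonneg (μ := q.1) x
      have g4 := vn_nonneg (μ := q.1) (pmap (fun i => MvPolynomial.map (t : A →+* k) (f.F i)) x)
      show q.1 a ^ o.M * vn q.1 x ^ f.d ≤
        H ^ 4 * vn q.1 (pmap (fun i => MvPolynomial.map (t : A →+* k) (f.F i)) x)
      calc q.1 a ^ o.M * vn q.1 x ^ f.d ≤ (H ^ 2 * q.1 (t f.b)) * vn q.1 x ^ f.d := by gcongr
        _ = H ^ 2 * (q.1 (t f.b) * vn q.1 x ^ f.d) := by ring
        _ ≤ H ^ 2 * (Fintype.card ι * H *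
            vn q.1 (pmap (fun i => MvPolynomial.map (t : A →+* k) (f.F i)) x)) :=
            mul_le_mul_of_nonneg_left g1 (by positivity)
        _ ≤ H ^ 2 * (H * H *
            vn q.1 (pmap (fun i => MvPolynomial.map (t : A →+* k) (f.F i)) x)) := by gcongr
        _ = _ := by ring
    · have g1 := (h8 t a hpt hy ha5).1
      refine g1.trans ?_
      have g2 := le_vn (μ := q.1) (fun i => t (o.Q 0 i)) i0
      have g3 : H ^ 2 ≤ H ^ 4 := pow_le_pow_right₀ hH1 (by norm_num)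
      have g4 := q.1.nonneg (t (o.Q 0 i0))
      calc H ^ 2 * q.1 (t (o.Q 0 i0)) ≤ H ^ 4 * q.1 (t (o.Q 0 i0)) := by gcongr
        _ ≤ _ := by gcongr
  have hW : (fun i => t (f.W m i)) = a ^ o.E m • fun i => t (o.Q m i) := by
    funext i
    exact hyp.t_W m i
  have hkey := hyp.key m hm
  have htQ := hyp.tQ_le m
  rw [hW, vn_smul, map_pow]
  have ha0 := q.1.nonneg a
  have hvn0 := vn_nonneg (μ := q.1) (fun i => t (o.Q m i))
  constructor
  · have e1 : (H ^ 4) ^ ((M1 + 2) * o.d ^ m) ≤ H ^ (4 * (C3 + M1 + 2) * f.d ^ m) := by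
      rw [← pow_mul, ← mul_assoc]
      refine pow_le_pow_right₀ hH1 ?_
      exact Nat.mul_le_mul_right _ (by omega)
    rw [mul_comm]
    gcongr
    exact htQ.trans e1
  · have e1 : (H ^ 4) ^ (C3 * o.d ^ m) ≤ H ^ (4 * (C3 + M1 + 2) * f.d ^ m) := by
      rw [← pow_mul, ← mul_assoc]
      refine pow_le_pow_right₀ hH1 ?_
      exact Nat.mul_le_mul_right _ (by omega)
    calc vn q.1 (fun i => c.s (o.Q m i)) ^ C1 * q.1 a ^ ((3 * o.M + 2) * o.d + o.E m)
        = (vn q.1 (fun i => c.s (o.Q m i)) ^ C1 * q.1 a ^ ((3 * o.M + 2) * o.d)) *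
          q.1 a ^ o.E m := by rw [pow_add]; ring
      _ ≤ ((H ^ 4) ^ (C3 * o.d ^ m) * vn q.1 (fun i => t (o.Q m i))) * q.1 a ^ o.E m := by
          gcongr
      _ ≤ (H ^ (4 * (C3 + M1 + 2) * f.d ^ m) * vn q.1 (fun i => t (o.Q m i))) *
          q.1 a ^ o.E m := by gcongr
      _ = _ := by ring

end Fam

end Pool.Agent.VCH
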