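import Pool.Agent.Lib.MP_30aac3_nt.Main

/-!
Final form of the theorem.
-/

set_option linter.unusedSectionVars false

open Filter WithZero Topology

namespace Pool.Agent.VCH

section final

variable {L : Type} [Field L] [Algebra Qb L] (hL : IsFunField Qb L) {N : ℕ}
  (f : FamL L (Fin (N + 1)))

include hL in
theorem varies {E : Place Qb L → ℝ}
    (hE : ∀ s : Place Qb L, Tendsto (fun m => (-(s.ordv (f.V m) : ℝ)) / (f.d : ℝ) ^ m) atTop
      (𝓝 (E s))) : VariesAs f.d f.F f.P E :=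
  ⟨exists_weil hL f hE, fun _ hg => compare hL f hE hg⟩

include hL in
/-- The divisor may be changed by a real combination of principal divisors. -/
theorem varies_of_equiv {E E' : Place Qb L → ℝ} {z z' : L} (hz : z ≠ 0) (hz' : z' ≠ 0)
    (r r' : ℝ) (h : VariesAs f.d f.F f.P E)
    (hE' : ∀ s, E' s = E s + r * s.ord z + r' * s.ord z') : VariesAs f.d f.F f.P E' := by
  obtain ⟨⟨g0, hg0⟩, h2⟩ := h
  have p1 := isWeil_principal hL hz
  have p2 := isWeil_principal hL hz'
  constructor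
  · have h3 := isWeil_add (isWeil_add hg0 (isWeil_smul r p1)) (isWeil_smul r' p2)
    rw [← show E' = fun s => (E s + r * (s.ord z : ℝ)) + r' * (s.ord z' : ℝ) from
      funext hE'] at h3
    exact ⟨_, h3⟩
  · intro g hg
    apply h2
    have h3 := isWeil_add (isWeil_add hg (isWeil_smul (-r) p1)) (isWeil_smul (-r') p2)
    have e1 : (fun s => E' s + -r * (s.ord z : ℝ) + -r' * (s.ord z' : ℝ)) = E := by
      funext s
      rw [hE' s]
      ring
    have e2 : (fun t => g t + -r * 0 + -r' * 0) = g := by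
      funext t
      ring
    rw [e1, e2] at h3
    exact h3

lemma lim_of_affine {d : ℕ} (hd : 2 ≤ d) (a : ℕ → ℝ) (γ : ℝ)
    (h : ∀ n, a (n + 1) = γ + d * a n) :
    Tendsto (fun n => a n / (d : ℝ) ^ n) atTop (𝓝 (a 0 + γ / (d - 1))) := by
  have hd2 : (2:ℝ) ≤ d := by exact_mod_cast hd
  have hd1 : (d:ℝ) - 1 ≠ 0 := by linarith
  have h1 : ∀ n, a n + γ / (d - 1) = (d:ℝ) ^ n * (a 0 + γ / (d - 1)) := by
    intro n
    induction n with
    | zero => simp
    | succ n ih =>
      rw [h n, pow_succ']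
      have : γ + d * a n + γ / (d - 1) = d * (a n + γ / (d - 1)) := by
        field_simp
        ring
      rw [this, ih]
      ring
  have h2 : ∀ n, a n / (d:ℝ) ^ n = (a 0 + γ / (d - 1)) - (γ / (d - 1)) / (d:ℝ) ^ n := by
    intro n
    have hpos : (d:ℝ) ^ n ≠ 0 := by positivity
    have := h1 n
    have e : a n = (d:ℝ) ^ n * (a 0 + γ / (d - 1)) - γ / (d - 1) := by linarith
    rw [e]
    field_simp
  simp only [h2]
  have h3 : Tendsto (fun n : ℕ => (γ / (d - 1)) / (d:ℝ) ^ n) atTop (𝓝 0) := by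
    refine Tendsto.const_div_atTop ?_ _
    exact tendsto_pow_atTop_atTop_of_one_lt (by linarith)
  have h4 := h3.const_sub (a 0 + γ / (d - 1))
  rwa [sub_zero] at h4

include hL in
/-- The case of a totally invariant hyperplane. -/
theorem varies_literal {E : Place Qb L →₀ ℝ}
    (hE : ∀ s : Place Qb L, Tendsto (fun m => (-(s.ordv (f.V m) : ℝ)) / (f.d : ℝ) ^ m) atTop
      (𝓝 (E s))) (ℓ : Fin (N + 1) → Qb) {c : L} (hc : c ≠ 0)
    (hinv : ∑ i, MvPolynomial.C (algebraMap Qb L (ℓ i)) * f.F i =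
      MvPolynomial.C c * (∑ i, MvPolynomial.C (algebraMap Qb L (ℓ i)) * MvPolynomial.X i) ^ f.d)
    (hP : ∑ i, algebraMap Qb L (ℓ i) * f.P i ≠ 0) :
    ∃ E' : Place Qb L →₀ ℝ,
      (∀ s : Place Qb L, Tendsto (fun n => (pullDiv s (f.V n) ℓ : ℝ) / (f.d : ℝ) ^ n) atTop
        (𝓝 (E' s))) ∧ VariesAs f.d f.F f.P E' := by
  classical
  have hstep : ∀ n, ∑ i, algebraMap Qb L (ℓ i) * f.V (n + 1) i =
      c * (∑ i, algebraMap Qb L (ℓ i) * f.V n i) ^ f.d := by
    intro n
    have h1 := congrArg (MvPolynomial.eval (f.V n)) hinv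
    rw [map_sum, map_mul, map_pow, map_sum, MvPolynomial.eval_C] at h1
    simp only [map_mul, MvPolynomial.eval_C, MvPolynomial.eval_X] at h1
    rw [f.V_succ]
    exact h1
  have hne : ∀ n, ∑ i, algebraMap Qb L (ℓ i) * f.V n i ≠ 0 := by
    intro n
    induction n with
    | zero => exact hP
    | succ n ih =>
      rw [hstep n]
      exact mul_ne_zero hc (pow_ne_zero _ ih)
  set z := ∑ i, algebraMap Qb L (ℓ i) * f.P i with hz
  have hlim : ∀ s : Place Qb L, Tendsto (fun n => (pullDiv s (f.V n) ℓ : ℝ) / (f.d : ℝ) ^ n) atTop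
        (𝓝 (E s + 1 * s.ord z + (1 / ((f.d : ℝ) - 1)) * s.ord c)) := by
    intro s
    have h1 := lim_of_affine f.hd (fun n => ((s.ord (∑ i, algebraMap Qb L (ℓ i) * f.V n i) : ℤ) :
      ℝ)) (s.ord c) (fun n => by
        rw [hstep n, Place.ord_mul hc (pow_ne_zero _ (hne n)), Place.ord_pow]
        push_cast
        ring)
    have h2 := h1.add (hE s)
    have e1 : (((s.ord (∑ i, algebraMap Qb L (ℓ i) * f.V 0 i) : ℤ) : ℝ) +
        (s.ord c : ℝ) / ((f.d : ℝ) - 1)) + E s =
        E s + 1 * s.ord z + (1 / ((f.d : ℝ) - 1)) * s.ord c := by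
      have : ∑ i, algebraMap Qb L (ℓ i) * f.V 0 i = z := rfl
      rw [this]
      ring
    rw [e1] at h2
    refine h2.congr fun n => ?_
    unfold pullDiv
    push_cast
    ring
  let bad : Set (Place Qb L) := {s | s.ord z ≠ 0} ∪ {s | s.ord c ≠ 0} ∪ ↑E.support
  have hbad : bad.Finite := Set.Finite.union (Set.Finite.union
    (finite_ord_ne_zero hL f hP) (finite_ord_ne_zero hL f hc)) (Finset.finite_toSet _)
  let E' : Place Qb L →₀ ℝ := Finsupp.onFinset hbad.toFinset
    (fun s => E s + 1 * s.ord z + (1 / ((f.d : ℝ) - 1)) * s.ord c) (by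
      intro s hs
      rw [Set.Finite.mem_toFinset]
      by_contra hcon
      apply hs
      have h1 : s.ord z = 0 := by
        by_contra h; exact hcon (Or.inl (Or.inl h))
      have h2 : s.ord c = 0 := by
        by_contra h; exact hcon (Or.inl (Or.inr h))
      have h3 : E s = 0 := by
        by_contra h
        exact hcon (Or.inr (Finsupp.mem_support_iff.mpr h))
      rw [h1, h2, h3]
      simp)
  refine ⟨E', fun s => hlim s, ?_⟩
  exact varies_of_equiv hL f hP hc 1 (1 / ((f.d : ℝ) - 1)) (varies hL f hE) fun s => rfl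

end final

/-- The theorem on the variation of the canonical height. -/
theorem main_theorem {L : Type} [Field L] [Algebra Qb L] (hL : IsFunField Qb L)
    {N d : ℕ} (hd : 2 ≤ d) {F : Fin (N + 1) → MvPolynomial (Fin (N + 1)) L}
    (hF : ∀ i, (F i).IsHomogeneous d)
    (hF0 : ∀ y : Fin (N + 1) → AlgebraicClosure L,
      (∀ i, MvPolynomial.aeval y (F i) = 0) → y = 0)
    {P : Fin (N + 1) → L} (hP : P ≠ 0) :
    (∃ (S : Finset (Place Qb L)) (E : Place Qb L →₀ ℝ),
      (∀ s ∉ S, ∀ n, s.ordv ((pmap F)^[n] P) = 0) ∧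
      (∀ s : Place Qb L,
        Tendsto (fun n => (-(s.ordv ((pmap F)^[n] P) : ℝ)) / (d : ℝ) ^ n) atTop (𝓝 (E s))) ∧
      VariesAs d F P E) ∧
    ∀ (ℓ : Fin (N + 1) → Qb) (c : L), c ≠ 0 →
      ∑ i, MvPolynomial.C (algebraMap Qb L (ℓ i)) * F i =
        MvPolynomial.C c * (∑ i, MvPolynomial.C (algebraMap Qb L (ℓ i)) * MvPolynomial.X i) ^ d →
      ∑ i, algebraMap Qb L (ℓ i) * P i ≠ 0 →
      ∃ E : Place Qb L →₀ ℝ,
        (∀ s : Place Qb L,
          Tendsto (fun n => (pullDiv s ((pmap F)^[n] P) ℓ : ℝ) / (d : ℝ) ^ n) atTop (𝓝 (E s))) ∧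
        VariesAs d F P E := by
  obtain ⟨D, g, hdD, hg, null⟩ := exists_null (Ω := AlgebraicClosure L) hF hF0
  let f : FamL L (Fin (N + 1)) := ⟨F, P, g, d, D, hd, hdD, hF, hg, null, hP⟩
  obtain ⟨S, E, hS, hE⟩ := exists_limit_divisor hL f
  exact ⟨⟨S, E, hS, hE, varies hL f hE⟩, fun ℓ c hc hinv hP0 =>
    varies_literal hL f hE ℓ hc hinv hP0⟩

end Pool.Agent.VCH
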