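import Pool.Agent.Lib.MP_30aac3_nt.Geo

/-!
Charts at the places of an affine Dedekind model, continued.
-/

set_option linter.unusedSectionVars false

open WithZero

namespace Pool.Agent.VCH

section uniq

variable {k L A : Type*} [Field k] [Field L] [Algebra k L]
  [CommRing A] [IsDedekindDomain A] [Algebra k A] [Algebra A L] [IsScalarTower k A L]
  [IsFractionRing A L]

lemma Place.ext' {s s' : Place k L} (h : ∀ z, s.v z = s'.v z) : s = s' := by
  obtain ⟨v, h1, h2⟩ := s
  obtain ⟨v', h1', h2'⟩ := s'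
  have : v = v' := Valuation.ext h
  subst this
  rfl

lemma Place.eq_of_center_eq {s s' : Place k L} (hs : ∀ φ : A, s.v (algebraMap A L φ) ≤ 1)
    (hs' : ∀ φ : A, s'.v (algebraMap A L φ) ≤ 1) (h : s.center hs = s'.center hs') :
    s = s' := by
  have hmem : ∀ φ : A, s.v (algebraMap A L φ) < 1 ↔ s'.v (algebraMap A L φ) < 1 := by
    intro φ
    rw [← Place.mem_center (hs := hs), h, Place.mem_center]
  obtain ⟨U⟩ := exists_uni s hs
  have hone : ∀ φ : A, s.v (algebraMap A L φ) = 1 ↔ s'.v (algebraMap A L φ) = 1 := by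
    intro φ
    have h1 := hmem φ
    have h2 := hs φ
    have h3 := hs' φ
    constructor
    · intro h4
      refine le_antisymm h3 ?_
      by_contra h5
      rw [not_le, ← h1, h4] at h5
      exact lt_irrefl _ h5
    · intro h4
      refine le_antisymm h2 ?_
      by_contra h5
      rw [not_le, h1, h4] at h5
      exact lt_irrefl _ h5
  let U' : Uni A s' := ⟨U.ξ, fun φ hφ => U.hξ φ ((hmem φ).mpr hφ), U.φ1, U.ψ1,
    (hmem _).mp U.h1, (hone _).mp U.h2, U.h12⟩
  have hξ : s.ord U.ξ = -1 := U.ord_xi hs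
  have hξ' : s'.ord U.ξ = -1 := U'.ord_xi hs'
  have key : ∀ (n : ℕ) (φ : A), φ ≠ 0 → s.ord (algebraMap A L φ) = n →
      s.ord (algebraMap A L φ) = s'.ord (algebraMap A L φ) := by
    intro n
    induction n with
    | zero =>
      intro φ hφ hn
      have hφL := Uni.aM_ne (L := L) hφ
      rw [hn, eq_comm, Nat.cast_zero, ← Place.v_eq_one_iff hφL, ← hone, Place.v_eq_one_iff hφL]
      simpa using hn
    | succ n ih =>
      intro φ hφ hn
      have hφL := Uni.aM_ne (L := L) hφ
      have h1 : s.v (algebraMap A L φ) < 1 := by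
        rw [Place.v_lt_one_iff hφL, hn]
        exact_mod_cast Nat.succ_pos n
      obtain ⟨ψ, hψ⟩ := U.hξ φ h1
      have hψL : algebraMap A L ψ ≠ 0 := by rw [hψ]; exact mul_ne_zero U.ξ_ne hφL
      have hψ0 : ψ ≠ 0 := by rintro rfl; simp at hψL
      have e1 : s.ord (algebraMap A L ψ) = s.ord U.ξ + s.ord (algebraMap A L φ) := by
        rw [hψ, Place.ord_mul U.ξ_ne hφL]
      have e2 : s'.ord (algebraMap A L ψ) = s'.ord U.ξ + s'.ord (algebraMap A L φ) := by
        rw [hψ, Place.ord_mul U.ξ_ne hφL]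
      have e3 := ih ψ hψ0 (by rw [e1, hξ, hn]; push_cast; ring)
      rw [e1, e2, hξ, hξ'] at e3
      linarith
  have key2 : ∀ φ : A, s.v (algebraMap A L φ) = s'.v (algebraMap A L φ) := by
    intro φ
    by_cases hφ : φ = 0
    · subst hφ; simp
    have hφL := Uni.aM_ne (L := L) hφ
    have h0 : 0 ≤ s.ord (algebraMap A L φ) := (Place.v_le_one_iff hφL).mp (hs φ)
    rw [Place.v_eq hφL, Place.v_eq hφL, key _ φ hφ (Int.toNat_of_nonneg h0).symm]
  apply Place.ext'
  intro z
  obtain ⟨a, b, hb, rfl⟩ := IsFractionRing.div_surjective (A := A) z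
  rw [map_div₀, map_div₀, key2, key2]

/-- every nonzero prime is the centre of a place. -/
lemma exists_place_of_prime (p : Ideal A) (hp : p.IsPrime) (h0 : p ≠ ⊥) :
    ∃ (s : Place k L) (hs : ∀ φ : A, s.v (algebraMap A L φ) ≤ 1), s.center hs = p := by
  let P : IsDedekindDomain.HeightOneSpectrum A := ⟨p, hp, h0⟩
  have hle : ∀ φ : A, P.valuation L (algebraMap A L φ) ≤ 1 := fun φ => P.valuation_le_one φ
  have htriv : ∀ c : k, c ≠ 0 → P.valuation L (algebraMap k L c) = 1 := by
    intro c hc
    have h1 := hle (algebraMap k A c)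
    have h2 := hle (algebraMap k A c⁻¹)
    rw [← IsScalarTower.algebraMap_apply] at h1 h2
    have h3 : P.valuation L (algebraMap k L c) * P.valuation L (algebraMap k L c⁻¹) = 1 := by
      rw [← map_mul, ← map_mul, mul_inv_cancel₀ hc, map_one, map_one]
    refine le_antisymm h1 ?_
    by_contra h4
    rw [not_le] at h4
    have h5 := lt_of_le_of_lt (mul_le_of_le_one_right' h2 :
      P.valuation L (algebraMap k L c) * P.valuation L (algebraMap k L c⁻¹) ≤ _) h4
    rw [h3] at h5
    exact lt_irrefl _ h5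
  refine ⟨⟨P.valuation L, P.valuation_surjective L, htriv⟩, hle, ?_⟩
  ext φ
  rw [Place.mem_center]
  exact P.valuation_lt_one_iff_mem φ

/-- finitely many places have centre containing a given nonzero element. -/
lemma finite_places_of_mem {u : A} (hu : u ≠ 0) :
    {s : Place k L | (∀ φ : A, s.v (algebraMap A L φ) ≤ 1) ∧
      s.v (algebraMap A L u) < 1}.Finite := by
  have hI : Ideal.span {u} ≠ 0 := by simpa using hu
  have h1 := Ideal.finite_factors hI
  refine Set.Finite.of_finite_image (f := fun s : Place k L =>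
    {φ : A | s.v (algebraMap A L φ) < 1}) ?_ ?_
  · refine (h1.image fun P => (P.asIdeal : Set A)).subset ?_
    rintro _ ⟨s, ⟨hs, hsu⟩, rfl⟩
    refine ⟨⟨s.center hs, s.center_isPrime hs, s.center_ne_bot hs⟩, ?_, rfl⟩
    show s.center hs ∣ Ideal.span {u}
    rw [Ideal.dvd_span_singleton]
    exact hsu
  · rintro s ⟨hs, hsu⟩ s' ⟨hs', hsu'⟩ h
    refine Place.eq_of_center_eq hs hs' ?_
    exact SetLike.coe_injective h

end uniq

end Pool.Agent.VCH
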