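import Pool.Agent.Lib.MP_30aac3_nt.Geo2

/-!
The chart attached to a place of an affine Dedekind model.
-/

set_option linter.unusedSectionVars false

open WithZero

namespace Pool.Agent.VCH

namespace Uni

variable {k L A : Type*} [Field k] [IsAlgClosed k] [Field L] [Algebra k L]
  [CommRing A] [IsDedekindDomain A] [Algebra k A] [Algebra A L] [IsScalarTower k A L]
  [IsFractionRing A L] {s : Place k L} (U : Uni A s) (hL : IsFunField k L)
  (hs : ∀ φ : A, s.v (algebraMap A L φ) ≤ 1)

include hL hs

lemma exists_T (φ : A) : ∃ ψ : A, algebraMap A L ψ =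
    U.ξ * (algebraMap A L φ - algebraMap k L (s.val (algebraMap A L φ))) := by
  have h1 := s.val_spec hL (hs φ)
  have h2 : algebraMap A L φ - algebraMap k L (s.val (algebraMap A L φ)) =
      algebraMap A L (φ - algebraMap k A (s.val (algebraMap A L φ))) := by
    rw [map_sub, ← IsScalarTower.algebraMap_apply]
  rw [h2] at h1 ⊢
  exact U.hξ _ h1

/-- the shift operator, as a function. -/
noncomputable def Tf (φ : A) : A := (U.exists_T hL hs φ).choose

lemma Tf_spec (φ : A) : algebraMap A L (U.Tf hL hs φ) =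
    U.ξ * (algebraMap A L φ - algebraMap k L (s.val (algebraMap A L φ))) :=
  (U.exists_T hL hs φ).choose_spec

/-- the shift operator. -/
noncomputable def T : A →ₗ[k] A where
  toFun φ := U.Tf hL hs φ
  map_add' φ ψ := by
    apply FaithfulSMul.algebraMap_injective A L
    rw [Tf_spec, map_add (algebraMap A L) (U.Tf hL hs φ), Tf_spec, Tf_spec,
      map_add (algebraMap A L) φ, s.val_add hL (hs φ) (hs ψ), map_add]
    ring
  map_smul' c φ := by
    apply FaithfulSMul.algebraMap_injective A L
    have e : ∀ φ : A, algebraMap A L (c • φ) = algebraMap k L c * algebraMap A L φ := by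
      intro φ
      rw [Algebra.smul_def, map_mul, ← IsScalarTower.algebraMap_apply]
    rw [Tf_spec, RingHom.id_apply, e, e, Tf_spec,
      s.val_mul hL (s.v_algebraMap_le c) (hs φ), s.val_algebraMap, map_mul]
    ring

lemma T_spec (φ : A) : algebraMap A L (U.T hL hs φ) =
    U.ξ * (algebraMap A L φ - algebraMap k L (s.val (algebraMap A L φ))) :=
  U.Tf_spec hL hs φ

/-- the chart at a place. -/
noncomputable def chart (hft : Algebra.FiniteType k A) : Chart k A where
  q := (Algebra.FiniteType.iff_quotient_mvPolynomial''.mp hft).choose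
  y i := (Algebra.FiniteType.iff_quotient_mvPolynomial''.mp hft).choose_spec.choose
      (MvPolynomial.X i) -
    algebraMap k A (s.hom hL hs
      ((Algebra.FiniteType.iff_quotient_mvPolynomial''.mp hft).choose_spec.choose
      (MvPolynomial.X i)))
  gen φ := by
    set f := (Algebra.FiniteType.iff_quotient_mvPolynomial''.mp hft).choose_spec.choose with hf
    have hsurj : Function.Surjective f :=
      (Algebra.FiniteType.iff_quotient_mvPolynomial''.mp hft).choose_spec.choose_spec
    obtain ⟨p, rfl⟩ := hsurj φ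
    refine ⟨MvPolynomial.aeval (fun i => MvPolynomial.X i +
      MvPolynomial.C (s.hom hL hs (f (MvPolynomial.X i)))) p, ?_⟩
    have h1 : (MvPolynomial.aeval (fun i => f (MvPolynomial.X i) -
        algebraMap k A (s.hom hL hs (f (MvPolynomial.X i))))).comp
        (MvPolynomial.aeval (fun i => MvPolynomial.X i +
      MvPolynomial.C (s.hom hL hs (f (MvPolynomial.X i))))) = f := by
      ext i
      simp
    exact DFunLike.congr_fun h1 p
  s := s.hom hL hs
  hy i := by
    rw [map_sub, AlgHom.commutes, Algebra.algebraMap_self, RingHom.id_apply, sub_self]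
  T := U.T hL hs
  T_mul φ ψ := by
    apply FaithfulSMul.algebraMap_injective A L
    rw [U.T_spec, map_add, map_mul, map_mul, Algebra.smul_def, map_mul,
      ← IsScalarTower.algebraMap_apply, U.T_spec, U.T_spec, s.val_mul hL (hs φ) (hs ψ), map_mul,
      Place.hom_apply]
    ring

variable (hft : Algebra.FiniteType k A)

lemma chart_s (φ : A) : (U.chart hL hs hft).s φ = s.val (algebraMap A L φ) := rfl

lemma chart_T (φ : A) : algebraMap A L ((U.chart hL hs hft).T φ) =
    U.ξ * (algebraMap A L φ - algebraMap k L ((U.chart hL hs hft).s φ)) := U.T_spec hL hs φ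

lemma chart_T_iterate {φ : A} {n : ℕ} (hn : s.v (algebraMap A L φ) ≤ exp (-(n : ℤ))) :
    ∀ l ≤ n, algebraMap A L ((U.chart hL hs hft).T^[l] φ) = U.ξ ^ l * algebraMap A L φ := by
  intro l
  induction l with
  | zero => intro _; simp
  | succ l ih =>
    intro hl
    rw [Function.iterate_succ_apply', U.chart_T hL hs hft]
    have ih1 := ih (by omega)
    have h0 : (U.chart hL hs hft).s ((U.chart hL hs hft).T^[l] φ) = 0 := by
      rw [chart_s, s.val_eq_zero_iff hL (hs _), ih1, map_mul, map_pow,
        Place.v_eq U.ξ_ne, U.ord_xi hs, neg_neg, ← exp_nsmul]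
      refine lt_of_le_of_lt (mul_le_mul_right hn _) ?_
      rw [← exp_add, ← exp_zero, exp_lt_exp]
      simp
      omega
    rw [h0, map_zero, sub_zero, ih1, pow_succ']
    ring

lemma chart_s_lt {φ : A} {n : ℕ} (hn : s.v (algebraMap A L φ) ≤ exp (-(n : ℤ))) {l : ℕ}
    (hl : l < n) : (U.chart hL hs hft).s ((U.chart hL hs hft).T^[l] φ) = 0 := by
  rw [chart_s, s.val_eq_zero_iff hL (hs _), U.chart_T_iterate hL hs hft hn l hl.le, map_mul,
    map_pow, Place.v_eq U.ξ_ne, U.ord_xi hs, neg_neg, ← exp_nsmul]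
  refine lt_of_le_of_lt (mul_le_mul_right hn _) ?_
  rw [← exp_add, ← exp_zero, exp_lt_exp]
  simp
  omega

lemma chart_s_eq {φ : A} {n : ℕ} (hn : s.v (algebraMap A L φ) = exp (-(n : ℤ))) :
    (U.chart hL hs hft).s ((U.chart hL hs hft).T^[n] φ) ≠ 0 := by
  rw [chart_s, s.val_ne_zero_iff hL (hs _), U.chart_T_iterate hL hs hft hn.le n le_rfl, map_mul,
    map_pow, Place.v_eq U.ξ_ne, U.ord_xi hs, neg_neg, ← exp_nsmul, hn, ← exp_add]
  simp

lemma chart_s_φ1 : (U.chart hL hs hft).s U.φ1 = 0 := by
  rw [chart_s, s.val_eq_zero_iff hL (hs _)]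
  exact U.h1

lemma chart_T_φ1 : (U.chart hL hs hft).T U.φ1 = U.ψ1 := by
  apply FaithfulSMul.algebraMap_injective A L
  rw [U.chart_T, chart_s_φ1, map_zero, sub_zero, U.h12]

lemma chart_s_ψ1 : (U.chart hL hs hft).s U.ψ1 ≠ 0 := by
  rw [chart_s, s.val_ne_zero_iff hL (hs _)]
  exact U.h2

lemma chart_rel (φ ψ : A) :
    (φ - algebraMap k A ((U.chart hL hs hft).s φ)) * (U.chart hL hs hft).T ψ =
      (ψ - algebraMap k A ((U.chart hL hs hft).s ψ)) * (U.chart hL hs hft).T φ := by
  apply FaithfulSMul.algebraMap_injective A L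
  rw [map_mul, map_mul, U.chart_T, U.chart_T, map_sub, map_sub,
    ← IsScalarTower.algebraMap_apply, ← IsScalarTower.algebraMap_apply]
  ring

lemma chart_pt (t : A →ₐ[k] k) (ht : t U.ψ1 ≠ 0) :
    (U.chart hL hs hft).Pt t (t U.φ1 / t U.ψ1) := by
  intro φ
  have h1 := congrArg t (U.chart_rel hL hs hft φ U.φ1)
  rw [map_mul, map_mul, map_sub, map_sub, AlgHom.commutes, AlgHom.commutes, chart_T_φ1,
    chart_s_φ1] at h1
  simp only [Algebra.algebraMap_self, RingHom.id_apply, sub_zero] at h1
  field_simp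
  linear_combination h1

end Uni

end Pool.Agent.VCH
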