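import Pool.Agent.Lib.MP_30aac3_nt.Chart

/-!
The local key inequality.
-/

open Polynomial

namespace Pool.Agent.VCH

namespace Chart

variable {k A : Type*} [Field k] [CommRing A] [Algebra k A] (c : Chart k A)
variable {ι : Type*}

/-- truncated expansion of a polynomial with coefficients in `A`. -/
noncomputable def truncF (J : ℕ) (f : MvPolynomial ι A) : MvPolynomial ι k[X] :=
  ∑ m ∈ f.support, MvPolynomial.monomial m (PowerSeries.trunc J (c.theta (f.coeff m)))

lemma coeff_truncF (J : ℕ) (f : MvPolynomial ι A) (m : ι →₀ ℕ) :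
    (c.truncF J f).coeff m = PowerSeries.trunc J (c.theta (f.coeff m)) := by
  classical
  unfold truncF
  rw [MvPolynomial.coeff_sum]
  by_cases hm : m ∈ f.support
  · rw [Finset.sum_eq_single_of_mem m hm]
    · rw [MvPolynomial.coeff_monomial, if_pos rfl]
    · intro b _ hb
      rw [MvPolynomial.coeff_monomial, if_neg hb]
  · rw [Finset.sum_eq_zero, MvPolynomial.notMem_support_iff.mp hm, map_zero]
    · simp
    · intro b hb
      rw [MvPolynomial.coeff_monomial, if_neg]
      rintro rfl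
      exact hm hb

lemma support_truncF_subset (J : ℕ) (f : MvPolynomial ι A) :
    (c.truncF J f).support ⊆ f.support := by
  intro m hm
  rw [MvPolynomial.mem_support_iff] at hm ⊢
  intro h
  apply hm
  rw [coeff_truncF, h, map_zero]
  simp

lemma isHomogeneous_truncF (J : ℕ) {f : MvPolynomial ι A} {d : ℕ} (hf : f.IsHomogeneous d) :
    (c.truncF J f).IsHomogeneous d := by
  intro m hm
  apply hf
  intro h
  apply hm
  rw [coeff_truncF, h, map_zero]
  simp

/-- the quotient by `X ^ J`. -/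
noncomputable def quo (k : Type*) [Field k] (J : ℕ) :
    PowerSeries k →+* PowerSeries k ⧸ Ideal.span {(PowerSeries.X : PowerSeries k) ^ J} :=
  Ideal.Quotient.mk _

lemma quo_trunc (J : ℕ) (f : PowerSeries k) :
    quo k J ((PowerSeries.trunc J f : k[X]) : PowerSeries k) = quo k J f := by
  unfold quo
  rw [Ideal.Quotient.eq, Ideal.mem_span_singleton, PowerSeries.X_pow_dvd_iff]
  intro m hm
  rw [map_sub, Polynomial.coeff_coe, PowerSeries.coeff_trunc, if_pos hm, sub_self]

lemma coeff_eq_of_quo_eq {J : ℕ} {f g : PowerSeries k} (h : quo k J f = quo k J g) {l : ℕ}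
    (hl : l < J) : PowerSeries.coeff l f = PowerSeries.coeff l g := by
  unfold quo at h
  rw [Ideal.Quotient.eq, Ideal.mem_span_singleton, PowerSeries.X_pow_dvd_iff] at h
  have := h l hl
  rw [map_sub, sub_eq_zero] at this
  exact this

lemma coeff_truncF_iterate (F : ι → MvPolynomial ι A) (v : ι → A) (J N : ℕ) (i : ι) {l : ℕ}
    (hl : l < J) :
    ((pmap fun i => c.truncF J (F i))^[N] (fun i => PowerSeries.trunc J (c.theta (v i))) i).coeff l
      = c.s (c.T^[l] ((pmap F)^[N] v i)) := by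
  let ψ1 : k[X] →+* PowerSeries k ⧸ Ideal.span {(PowerSeries.X : PowerSeries k) ^ J} :=
    (quo k J).comp Polynomial.coeToPowerSeries.ringHom
  let ψ2 : A →+* PowerSeries k ⧸ Ideal.span {(PowerSeries.X : PowerSeries k) ^ J} :=
    (quo k J).comp c.theta
  have h0 : ∀ a : A, ψ1 (PowerSeries.trunc J (c.theta a)) = ψ2 a := by
    intro a
    exact quo_trunc J (c.theta a)
  have h1 : (fun i => MvPolynomial.map ψ1 (c.truncF J (F i))) =
      fun i => MvPolynomial.map ψ2 (F i) := by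
    funext i
    ext m
    rw [MvPolynomial.coeff_map, MvPolynomial.coeff_map, coeff_truncF, h0]
  have h2 := congrFun (pmap_iterate_map ψ1 (fun i => c.truncF J (F i))
    (fun i => PowerSeries.trunc J (c.theta (v i))) N) i
  have h3 := congrFun (pmap_iterate_map ψ2 F v N) i
  have h4 : (fun i => ψ1 (PowerSeries.trunc J (c.theta (v i)))) = fun i => ψ2 (v i) := by
    funext i; exact h0 _
  rw [h1, h4, h3] at h2
  have h5 := coeff_eq_of_quo_eq (f := c.theta ((pmap F)^[N] v i))
    (g := (((pmap fun i => c.truncF J (F i))^[N]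
      (fun i => PowerSeries.trunc J (c.theta (v i))) i : k[X]) : PowerSeries k)) h2 hl
  rw [Polynomial.coeff_coe, coeff_theta] at h5
  exact h5.symm

lemma isBd_taylor {μ : AbsoluteValue k ℝ} {ρ : ℝ} (hρ : 0 ≤ ρ) (a : k) :
    IsBd (fun (g : k[X]) B => pn μ ρ (taylor a g) ≤ B) where
  mono h1 h2 := h1.trans h2
  zero := by simp
  one := by simp
  add {x y B B'} h1 h2 := by
    have h3 : pn μ ρ (taylor a (x + y)) ≤ B + B' := by
      rw [map_add]; exact (pn_add_le hρ _ _).trans (add_le_add h1 h2)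
    exact h3
  mul {x y B B'} h1 h2 := by
    have h3 : pn μ ρ (taylor a (x * y)) ≤ B * B' := by
      rw [taylor_mul]
      exact (pn_mul_le hρ _ _).trans (mul_le_mul h1 h2 (pn_nonneg hρ _) ((pn_nonneg hρ _).trans h1))
    exact h3
  nonneg {x B} h := (pn_nonneg hρ _).trans h

variable [Fintype ι]

/-- If the values of `v` at `t` are tiny then the leading coefficient at `s` of every iterate
is small. -/
lemma KL {μ : AbsoluteValue k ℝ} {F : ι → MvPolynomial ι A} {d : ℕ} (hd : 2 ≤ d)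
    (hF : ∀ i, (F i).IsHomogeneous d) {v : ι → A} {K V r ρ : ℝ} (hr : 0 < r)
    (hCr : c.CT μ * r ≤ 1 / 2) (hK1 : 1 ≤ K) (hV : 0 ≤ V)
    (hK : ∀ i, ∃ K', (∀ m ∈ (F i).support, c.Bd μ ((F i).coeff m) K') ∧
      (F i).support.card * (2 * K') ≤ K) (hv : ∀ i, c.Bd μ (v i) V)
    {t : A →ₐ[k] k} {a : k} (ht : c.Pt t a) (hty : ∀ i, μ (t (c.y i)) ≤ 1)
    (har : μ a ≤ r / 2) (hρ : 0 < ρ) (hρa : ρ ≤ μ a / 2) (hsmall : ∀ i, μ (t (v i)) ≤ ρ)
    {N j : ℕ} (hj : ∀ i, ∀ l < j, c.s (c.T^[l] ((pmap F)^[N] v i)) = 0) (b : ℕ) (i : ι) :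
    μ (c.s (c.T^[j] ((pmap F)^[N] v i))) ≤
      (μ a / ρ) ^ b * (2 / μ a) ^ j * (K ^ (d ^ N - 1) * (ρ * (2 + 4 * V / r)) ^ (d ^ N)) +
      (2 * μ a / r) ^ b * (1 / r) ^ j * (K ^ (d ^ N - 1) * (2 * V) ^ (d ^ N)) := by
  have ha0 : 0 < μ a := by linarith
  have hC1 := c.one_le_CT (μ := μ)
  have hCa : c.CT μ * μ a ≤ 1 / 4 := by
    calc c.CT μ * μ a ≤ c.CT μ * (r / 2) := by gcongr
      _ = (c.CT μ * r) / 2 := by ring
      _ ≤ (1/2) / 2 := by gcongr
      _ = _ := by norm_num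
  -- choose J
  obtain ⟨J0, hJ0⟩ : ∃ J0 : ℕ, (1/4 : ℝ) ^ J0 * V ≤ ρ := by
    obtain ⟨n, hn⟩ := exists_pow_lt_of_lt_one (x := ρ / (V + 1)) (y := (1/4 : ℝ)) (by positivity)
      (by norm_num)
    refine ⟨n, ?_⟩
    calc (1/4 : ℝ) ^ n * V ≤ (ρ / (V+1)) * V := by gcongr
      _ ≤ (ρ / (V+1)) * (V+1) := by
        have : 0 ≤ ρ / (V+1) := by positivity
        nlinarith
      _ = ρ := by field_simp
  set J := max J0 (j+1) with hJ
  have hJ0' : (1/4 : ℝ) ^ J * V ≤ ρ := by
    refine le_trans ?_ hJ0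
    have : (1/4 : ℝ) ^ J ≤ (1/4 : ℝ) ^ J0 :=
      pow_le_pow_of_le_one (by norm_num) (by norm_num) (le_max_left _ _)
    gcongr
  set q : ι → k[X] := fun i => PowerSeries.trunc J (c.theta (v i)) with hq
  set G : ι → k[X] := (pmap fun i => c.truncF J (F i))^[N] q with hG
  -- coefficient bounds
  have hFtr : ∀ i, (c.truncF J (F i)).IsHomogeneous d := fun i => c.isHomogeneous_truncF J (hF i)
  have hKr : ∀ i, ∃ K', (∀ m ∈ (c.truncF J (F i)).support,
      pn μ r ((c.truncF J (F i)).coeff m) ≤ K') ∧ (c.truncF J (F i)).support.card * K' ≤ K := by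
    intro i
    obtain ⟨K', h1, h2⟩ := hK i
    by_cases hne : (F i).support.Nonempty
    · obtain ⟨m0, hm0⟩ := hne
      have hK'0 : 0 ≤ K' := (c.isBd μ).nonneg (h1 m0 hm0)
      refine ⟨2 * K', fun m hm => ?_, ?_⟩
      · rw [coeff_truncF]
        exact c.pn_trunc_le hr.le hCr (h1 m (c.support_truncF_subset J _ hm)) J
      · refine le_trans ?_ h2
        have := Finset.card_le_card (c.support_truncF_subset J (F i))
        gcongr
    · rw [Finset.not_nonempty_iff_eq_empty] at hne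
      have h3 : (c.truncF J (F i)).support = ∅ := by
        have := c.support_truncF_subset J (F i)
        rw [hne] at this
        exact Finset.subset_empty.mp this
      refine ⟨0, fun m hm => ?_, ?_⟩
      · rw [h3] at hm; simp at hm
      · rw [mul_zero]; linarith
  -- norm of radius r
  have hq0 : ∀ i, pn μ r (q i) ≤ 2 * V := fun i => c.pn_trunc_le hr.le hCr (hv i) J
  have hG0 : ∀ i, pn μ r (G i) ≤ K ^ (d ^ N - 1) * (2 * V) ^ (d ^ N) := by
    intro i
    have := (isBd_pn (μ := μ) hr.le).iterate hd hFtr (by positivity) hK1 hKr hq0 N i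
    exact this
  -- norm around a
  have hr2 : 0 < r / 2 := by positivity
  have hρr : ρ ≤ r / 2 := by linarith
  have hqa : ∀ i, pn μ ρ (taylor a (q i)) ≤ ρ * (2 + 4 * V / r) := by
    intro i
    have h1 := pn_le_of_radius hρ.le hr2 hρr (taylor a (q i)) (μ := μ)
    rw [taylor_coeff_zero_eq] at h1
    have h2 : pn μ (r/2) (taylor a (q i)) ≤ 2 * V :=
      (pn_taylor_le hr2.le (by linarith) _).trans (hq0 i)
    have h3 : μ ((q i).eval a) ≤ ρ + ρ := by
      have h4 := ht.trunc (v i) J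
      have h5 : (q i).eval a = t (v i) + -(a ^ J * t (c.T^[J] (v i))) := by
        rw [h4]; simp [hq]
      rw [h5]
      refine (μ.add_le _ _).trans (add_le_add (hsmall i) ?_)
      rw [AbsoluteValue.map_neg, map_mul, map_pow]
      have h6 := c.eval_le_of_Bd (c.Bd_T_iterate (hv i) J) t hty
      calc μ a ^ J * μ (t (c.T^[J] (v i))) ≤ μ a ^ J * (c.CT μ ^ J * V) := by gcongr
        _ = (c.CT μ * μ a) ^ J * V := by rw [mul_pow]; ring
        _ ≤ (1/4) ^ J * V := by gcongr
        _ ≤ ρ := hJ0'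
    have h7 : ρ / (r/2) * pn μ (r/2) (taylor a (q i)) ≤ ρ / (r/2) * (2 * V) := by
      gcongr
    have h8 : ρ / (r/2) * (2 * V) = ρ * (4 * V / r) := by field_simp; ring
    calc _ ≤ _ := h1
      _ ≤ (ρ + ρ) + ρ * (4 * V / r) := by rw [← h8]; exact add_le_add h3 h7
      _ = _ := by ring
  have hKa : ∀ i, ∃ K', (∀ m ∈ (c.truncF J (F i)).support,
      pn μ ρ (taylor a ((c.truncF J (F i)).coeff m)) ≤ K') ∧
      (c.truncF J (F i)).support.card * K' ≤ K := by
    intro i
    obtain ⟨K', h1, h2⟩ := hKr i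
    exact ⟨K', fun m hm => (pn_taylor_le hρ.le (by linarith) _).trans (h1 m hm), h2⟩
  have hGa : ∀ i, pn μ ρ (taylor a (G i)) ≤
      K ^ (d ^ N - 1) * (ρ * (2 + 4 * V / r)) ^ (d ^ N) := by
    intro i
    have := (isBd_taylor (μ := μ) hρ.le a).iterate hd hFtr (by positivity) hK1 hKa hqa N i
    exact this
  -- divide by X ^ j
  have hcoef : ∀ l < J, (G i).coeff l = c.s (c.T^[l] ((pmap F)^[N] v i)) :=
    fun l hl => c.coeff_truncF_iterate F v J N i hl
  obtain ⟨g, hg⟩ : X ^ j ∣ G i := by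
    rw [Polynomial.X_pow_dvd_iff]
    intro l hl
    rw [hcoef l (by omega), hj i l hl]
  have hg0 : g.eval 0 = c.s (c.T^[j] ((pmap F)^[N] v i)) := by
    rw [← hcoef j (by omega), hg, Polynomial.coeff_X_pow_mul', if_pos le_rfl, Nat.sub_self,
      Polynomial.coeff_zero_eq_eval_zero]
  rw [← hg0]
  have hnorm0 : pn μ r g = (1 / r) ^ j * pn μ r (G i) := by
    rw [hg, pn_X_pow_mul, ← mul_assoc, ← mul_pow, one_div_mul_cancel hr.ne', one_pow, one_mul]
  have hnorma : pn μ ρ (taylor a g) ≤ (2 / μ a) ^ j * pn μ ρ (taylor a (G i)) := by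
    have h1 := pn_taylor_X_pow_mul hρ.le a (by linarith) j g (μ := μ)
    rw [← hg] at h1
    have h2 : (μ a / 2) ^ j * pn μ ρ (taylor a g) ≤ pn μ ρ (taylor a (G i)) := by
      refine le_trans ?_ h1
      have := pn_nonneg hρ.le (taylor a g) (μ := μ)
      gcongr
      linarith
    calc pn μ ρ (taylor a g) = (2 / μ a) ^ j * ((μ a / 2) ^ j * pn μ ρ (taylor a g)) := by
          rw [← mul_assoc, ← mul_pow]
          have : 2 / μ a * (μ a / 2) = 1 := by field_simp
          rw [this, one_pow, one_mul]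
      _ ≤ _ := by gcongr
  have hint := eval_zero_le_interp hρ (by linarith) (show μ a ≤ r/2 by linarith) g b
    (μ := μ) (a := a)
  refine hint.trans (add_le_add ?_ ?_)
  · calc (μ a / ρ) ^ b * pn μ ρ (taylor a g)
        ≤ (μ a / ρ) ^ b * ((2 / μ a) ^ j * pn μ ρ (taylor a (G i))) := by gcongr
      _ = (μ a / ρ) ^ b * (2 / μ a) ^ j * pn μ ρ (taylor a (G i)) := by ring
      _ ≤ _ := by gcongr; exact hGa i
  · have h1 : pn μ (r/2) (taylor a g) ≤ pn μ r g := pn_taylor_le hr2.le (by linarith) _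
    calc (μ a / (r/2)) ^ b * pn μ (r/2) (taylor a g)
        ≤ (μ a / (r/2)) ^ b * ((1 / r) ^ j * pn μ r (G i)) := by rw [← hnorm0]; gcongr
      _ = (2 * μ a / r) ^ b * (1 / r) ^ j * pn μ r (G i) := by
          have : μ a / (r/2) = 2 * μ a / r := by field_simp
          rw [this]; ring
      _ ≤ _ := by gcongr; exact hG0 i

end Chart

end Pool.Agent.VCH
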