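import Pool.Agent.Lib.MP_30aac3_nt.Assemble

/-!
Passing to the limit.
-/

set_option linter.unusedSectionVars false

open Filter WithZero Topology

namespace Pool.Agent.VCH

section general

variable {k L : Type*} [Field k] [IsAlgClosed k] [Field L] [Algebra k L]
  (hL : IsFunField k L) {ι : Type*} [Fintype ι] (f : FamL L ι)

/-- the normalised orders converge. -/
theorem exists_lim_ordv (s : Place k L) :
    ∃ l : ℝ, Tendsto (fun m => (-(s.ordv (f.V m) : ℝ)) / (f.d : ℝ) ^ m) atTop (𝓝 l) := by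
  obtain ⟨γ, hγ⟩ := s.exists_exp_bound_coeff f.F
  obtain ⟨γ', hγ'⟩ := s.exists_exp_bound_coeff (fun p : ι × ι => f.g p.1 p.2)
  refine tendsto_of_almost f.hd (fun m => -(s.ordv (f.V m) : ℝ)) (|(γ : ℝ)| + |(γ' : ℝ)|)
    fun m => ?_
  have hne := f.V_ne (m + 1)
  rw [f.V_succ] at hne
  have h1 := s.ordv_pmap_ge f.hF hγ (f.V_ne m) hne
  have h2 := s.ordv_pmap_le f.hdD f.hg one_ne_zero f.null' (fun i j m => hγ' (i, j) m) (f.V_ne m)
  rw [← f.V_succ] at h1 h2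
  rw [Place.ord_one, add_zero] at h2
  have h1' : (f.d : ℝ) * s.ordv (f.V m) - γ ≤ s.ordv (f.V (m + 1)) := by exact_mod_cast h1
  have h2' : (s.ordv (f.V (m + 1)) : ℝ) ≤ f.d * s.ordv (f.V m) + γ' := by exact_mod_cast h2
  rw [abs_le]
  have h3 := le_abs_self (γ : ℝ)
  have h4 := le_abs_self (γ' : ℝ)
  have h5 := abs_nonneg (γ : ℝ)
  have h6 := abs_nonneg (γ' : ℝ)
  constructor <;> linarith

variable {J : Type*} [Fintype J] {κ : J → Type*} [∀ j, Fintype (κ j)] (ψ : ∀ j, κ j → L)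

lemma vsup_eq_one_of {w : L} {α : Type*} [Fintype α] {z : α → L} (t : Place k L)
    (ht : t.v w ≤ 1) (h : ∀ i, z i ∈ icl k w) {i : α} (h0 : z i ≠ 0)
    (hinv : (z i)⁻¹ ∈ icl k w) : t.vsup z = 1 := by
  apply le_antisymm
  · exact t.vsup_le fun i => t.v_le_one_of_mem_icl ht (h i)
  · refine le_trans ?_ (t.le_vsup z i)
    have h1 := t.v_le_one_of_mem_icl ht hinv
    rw [map_inv₀] at h1
    exact (inv_le_one₀ (zero_lt_iff.mpr (Place.v_ne_zero h0))).mp h1

lemma Adapted.vsup_V {f : FamL L ι} {ψ : ∀ j, κ j → L} {x : L}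
    (hx : Adapted (k := k) f ψ x) (t : Place k L) (ht : t.v x ≤ 1) (m : ℕ) :
    t.vsup (f.V m) = 1 := by
  have hc : ∀ i m, t.v ((f.F i).coeff m) ≤ 1 := fun i m => t.v_le_one_of_mem_icl ht (hx.hF i m)
  induction m with
  | zero =>
    obtain ⟨i, h0, h1⟩ := hx.hPi
    exact vsup_eq_one_of t ht hx.hP h0 h1
  | succ m ih =>
    rw [f.V_succ]
    apply le_antisymm
    · have := t.vsup_pmap_le f.hF hc (f.V m)
      rwa [ih, one_pow, mul_one] at this
    · have := t.le_vsup_pmap f.hdD f.hg f.null' (C := 1)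
        (fun i j m => t.v_le_one_of_mem_icl ht (hx.hg i j m)) (f.V_ne m)
      rwa [ih, one_pow, one_mul, map_one] at this

lemma Adapted.vsup_ψ {f : FamL L ι} {ψ : ∀ j, κ j → L} {x : L}
    (hx : Adapted (k := k) f ψ x) (t : Place k L) (ht : t.v x ≤ 1) (j : J) :
    t.vsup (ψ j) = 1 := by
  obtain ⟨i, h0, h1⟩ := hx.hψi j
  exact vsup_eq_one_of t ht (hx.hψ j) h0 h1

include hL in
lemma val_ne_zero_of_vsup {α : Type*} [Fintype α] {z : α → L} (t : Place k L)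
    (h : t.vsup z = 1) : (fun i => t.val (z i)) ≠ 0 := by
  have hne : Nonempty α := by
    by_contra hcon
    rw [not_nonempty_iff] at hcon
    have : t.vsup z = 0 := by
      apply le_antisymm _ zero_le
      exact t.vsup_le fun i => hcon.elim i
    rw [this] at h
    exact zero_ne_one h
  obtain ⟨i, hi⟩ := t.exists_eq_vsup z
  intro h0
  have h1 := congrFun h0 i
  rw [h] at hi
  exact (t.val_ne_zero_iff hL hi.le).mpr hi h1

lemma ordv_eq_zero_of_vsup {α : Type*} [Fintype α] {z : α → L} (t : Place k L)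
    (h : t.vsup z = 1) : t.ordv z = 0 := by
  rw [Place.ordv_eq, h, log_one, neg_zero]

end general

section main

variable {L : Type} [Field L] [Algebra Qb L] (hL : IsFunField Qb L)
  {ι : Type} [Fintype ι] (f : FamL L ι)
  {J : Type} [Fintype J] {κ : J → Type} [∀ j, Fintype (κ j)] (ψ : ∀ j, κ j → L)

include hL in
/-- The main estimate away from finitely many places. -/
theorem main_estimate {x : L} (hx : Adapted (k := Qb) f ψ x) (hψ0 : ∀ j, ψ j ≠ 0)
    {E : Place Qb L → ℝ}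
    (hE : ∀ s : Place Qb L, Tendsto (fun m => (-(s.ordv (f.V m) : ℝ)) / (f.d : ℝ) ^ m) atTop
      (𝓝 (E s)))
    (w : J → ℝ) (hw : ∀ s : Place Qb L, E s = -∑ j, w j * s.ordv (ψ j)) :
    ∃ C : ℝ, ∀ t : Place Qb L, t.v x ≤ 1 → ∀ h : ℝ,
      Tendsto (fun m => absHt (fun i => t.val (f.V m i)) / (f.d : ℝ) ^ m) atTop (𝓝 h) →
      |h - ∑ j, w j * absHt (fun i => t.val (ψ j i))| ≤ C := by
  classical
  obtain ⟨hfin, par, qv, C1, C2, n, hqv, hev⟩ := ev_loc hL f ψ hx hψ0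
  have := Fintype.ofFinite (Punct Qb x)
  obtain ⟨Z, n', hZ⟩ := eventually_ctl_iff.mp hev
  set c0 := LD.C0 Z (n' * n) with hc0
  refine ⟨c0 * (1 + ∑ s, (C1 s : ℝ) + ∑ j, |w j|), fun t ht h hlim => ?_⟩
  set D := mkLD f ψ par qv C1 C2 t with hD
  have hΓ : ∀ μ : AbsoluteValue Qb ℝ, (∀ m, D.Glob (((2 + Z.card) * vn μ (zvec Z)) ^ (n' * n))
      μ m) ∧ ∃ α, ∀ m, 1 ≤ m → D.Loc (((2 + Z.card) * vn μ (zvec Z)) ^ (n' * n)) μ m α := by
    intro μ
    have h1 : sz Z μ ^ n' ≤ ((2 + Z.card) * vn μ (zvec Z)) ^ n' := by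
      have h2 := sz_le_vn Z μ
      have h3 := two_le_sz Z μ
      gcongr
    have h2 := hZ μ _ h1 t ht
    rw [pow_mul]
    exact h2
  have hglobal := fun m hm => D.global (Z := Z) (n := n' * n)
    (fun m => val_ne_zero_of_vsup hL t (hx.vsup_V t ht m))
    (fun j => val_ne_zero_of_vsup hL t (hx.vsup_ψ t ht j)) hqv (fun μ => (hΓ μ).2)
    (fun μ => (hΓ μ).1) m hm
  set B : ℝ := c0 + absHt ![1, t.val x] with hB
  have hdpos : ∀ m : ℕ, (0:ℝ) < (f.d : ℝ) ^ m := fun m => by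
    have := f.hd
    have : (0:ℝ) < f.d := by exact_mod_cast (by omega : 0 < f.d)
    positivity
  have hc00 : 0 ≤ c0 := LD.C0_nonneg _ _
  have hB0 : 0 ≤ B := add_nonneg hc00 (absHt_nonneg _)
  set G : ℝ := ∑ j, w j * absHt (fun i => t.val (ψ j i)) with hG
  -- error term
  let err : ℕ → ℝ := fun m => ∑ s : Punct Qb x,
    |(-(s.1.ordv (f.V m) : ℝ)) / (f.d : ℝ) ^ m - E s.1| * B +
    (∑ s, (C2 s : ℝ)) * B / (f.d : ℝ) ^ m
  have herr : Tendsto err atTop (𝓝 0) := by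
    have h1 : Tendsto (fun m => ∑ s : Punct Qb x,
        |(-(s.1.ordv (f.V m) : ℝ)) / (f.d : ℝ) ^ m - E s.1| * B) atTop (𝓝 0) := by
      have : (0:ℝ) = ∑ s : Punct Qb x, |E s.1 - E s.1| * B := by simp
      rw [this]
      exact tendsto_finsetSum _ fun s _ => (((hE s.1).sub_const _).abs).mul_const _
    have h2 : Tendsto (fun m : ℕ => (∑ s, (C2 s : ℝ)) * B / (f.d : ℝ) ^ m) atTop (𝓝 0) := by
      refine Tendsto.const_div_atTop ?_ _
      refine tendsto_pow_atTop_atTop_of_one_lt ?_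
      have := f.hd
      exact_mod_cast (by omega : 1 < f.d)
    have := h1.add h2
    rwa [add_zero] at this
  have hbound : ∀ m, 1 ≤ m →
      |absHt (fun i => t.val (f.V m i)) / (f.d : ℝ) ^ m - G| ≤
        c0 * (1 + ∑ s, (C1 s : ℝ) + ∑ j, |w j|) + err m := by
    intro m hm
    obtain ⟨Λ, hΛ0, hΛB, hU, hLo, hψb⟩ := hglobal m hm
    have hΛs : ∀ s, Λ s ≤ B := fun s =>
      (Finset.single_le_sum (f := Λ) (fun s _ => hΛ0 s) (Finset.mem_univ s)).trans hΛB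
    -- comparison of `G` with the sum of `E`
    have hGE : |G - ∑ s : Punct Qb x, E s.1 * Λ s| ≤ c0 * ∑ j, |w j| := by
      have e1 : ∑ s : Punct Qb x, E s.1 * Λ s =
          -∑ j, w j * ∑ s : Punct Qb x, (s.1.ordv (ψ j) : ℝ) * Λ s := by
        simp only [hw, Finset.mul_sum, neg_mul, Finset.sum_neg_distrib, Finset.sum_mul]
        rw [Finset.sum_comm]
        simp only [mul_assoc]
      have e2 : G - ∑ s : Punct Qb x, E s.1 * Λ s =
          ∑ j, w j * (absHt (fun i => t.val (ψ j i)) +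
            ∑ s : Punct Qb x, (s.1.ordv (ψ j) : ℝ) * Λ s) := by
        rw [e1, hG, sub_neg_eq_add, ← Finset.sum_add_distrib]
        refine Finset.sum_congr rfl fun j _ => ?_
        ring
      rw [e2, Finset.mul_sum]
      refine (Finset.abs_sum_le_sum_abs _ _).trans (Finset.sum_le_sum fun j _ => ?_)
      rw [abs_mul, mul_comm]
      exact mul_le_mul_of_nonneg_right (hψb j) (abs_nonneg _)
    have hEE : |∑ s : Punct Qb x, ((-(s.1.ordv (f.V m) : ℝ)) / (f.d : ℝ) ^ m) * Λ s -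
        ∑ s : Punct Qb x, E s.1 * Λ s| ≤ ∑ s : Punct Qb x,
        |(-(s.1.ordv (f.V m) : ℝ)) / (f.d : ℝ) ^ m - E s.1| * B := by
      rw [← Finset.sum_sub_distrib]
      refine (Finset.abs_sum_le_sum_abs _ _).trans (Finset.sum_le_sum fun s _ => ?_)
      rw [← sub_mul, abs_mul, abs_of_nonneg (hΛ0 s)]
      exact mul_le_mul_of_nonneg_left (hΛs s) (abs_nonneg _)
    have hU' : absHt (fun i => t.val (f.V m i)) / (f.d : ℝ) ^ m ≤
        c0 + ∑ s : Punct Qb x, ((-(s.1.ordv (f.V m) : ℝ)) / (f.d : ℝ) ^ m) * Λ s := by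
      rw [div_le_iff₀ (hdpos m), add_mul, Finset.sum_mul]
      have e1 : ∀ s : Punct Qb x, ((-(s.1.ordv (f.V m) : ℝ)) / (f.d : ℝ) ^ m) * Λ s *
          (f.d : ℝ) ^ m = -((s.1.ordv (f.V m) : ℝ) * Λ s) := by
        intro s
        have := (hdpos m).ne'
        field_simp
      simp only [e1, Finset.sum_neg_distrib]
      have e2 : absHt (fun i => t.val (f.V m i)) ≤
        (f.d : ℝ) ^ m * c0 - ∑ s : Punct Qb x, (s.1.ordv (f.V m) : ℝ) * Λ s := hU
      linarith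
    have hC2 : ∑ s, (C2 s : ℝ) * Λ s ≤ (∑ s, (C2 s : ℝ)) * B := by
      rw [Finset.sum_mul]
      exact Finset.sum_le_sum fun s _ => mul_le_mul_of_nonneg_left (hΛs s) (Nat.cast_nonneg _)
    have hL' : -(c0 * (1 + ∑ s, (C1 s : ℝ))) +
        ∑ s : Punct Qb x, ((-(s.1.ordv (f.V m) : ℝ)) / (f.d : ℝ) ^ m) * Λ s -
        (∑ s, (C2 s : ℝ)) * B / (f.d : ℝ) ^ m ≤
        absHt (fun i => t.val (f.V m i)) / (f.d : ℝ) ^ m := by
      rw [le_div_iff₀ (hdpos m), sub_mul, add_mul, Finset.sum_mul,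
        div_mul_cancel₀ _ (hdpos m).ne']
      have e1 : ∀ s : Punct Qb x, ((-(s.1.ordv (f.V m) : ℝ)) / (f.d : ℝ) ^ m) * Λ s *
          (f.d : ℝ) ^ m = -((s.1.ordv (f.V m) : ℝ) * Λ s) := by
        intro s
        have := (hdpos m).ne'
        field_simp
      simp only [e1, Finset.sum_neg_distrib]
      have e2 : -((f.d : ℝ) ^ m * c0 * (1 + ∑ s, (C1 s : ℝ))) -
        ∑ s : Punct Qb x, (s.1.ordv (f.V m) : ℝ) * Λ s - ∑ s, (C2 s : ℝ) * Λ s ≤
          absHt (fun i => t.val (f.V m i)) := hLo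
      linarith
    have hC1 : 0 ≤ ∑ s, (C1 s : ℝ) := Finset.sum_nonneg fun _ _ => Nat.cast_nonneg _
    have herr2 : 0 ≤ (∑ s, (C2 s : ℝ)) * B / (f.d : ℝ) ^ m := by
      have : 0 ≤ ∑ s, (C2 s : ℝ) := Finset.sum_nonneg fun _ _ => Nat.cast_nonneg _
      have := hdpos m
      positivity
    have hprod : 0 ≤ c0 * ∑ s, (C1 s : ℝ) := mul_nonneg hc00 hC1
    rw [abs_le] at hGE hEE ⊢
    simp only [err]
    constructor
    · linarith [hGE.1, hGE.2, hEE.1, hEE.2]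
    · linarith [hGE.1, hGE.2, hEE.1, hEE.2]
  have hlim1 : Tendsto (fun m => |absHt (fun i => t.val (f.V m i)) / (f.d : ℝ) ^ m - G|) atTop
      (𝓝 |h - G|) := (hlim.sub_const G).abs
  have hlim2 : Tendsto (fun m => c0 * (1 + ∑ s, (C1 s : ℝ) + ∑ j, |w j|) + err m) atTop
      (𝓝 (c0 * (1 + ∑ s, (C1 s : ℝ) + ∑ j, |w j|))) := by
    have := herr.const_add (c0 * (1 + ∑ s, (C1 s : ℝ) + ∑ j, |w j|))
    rwa [add_zero] at this
  exact le_of_tendsto_of_tendsto hlim1 hlim2 (by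
    filter_upwards [Filter.eventually_ge_atTop 1] with m hm
    exact hbound m hm)

end main

end Pool.Agent.VCH
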