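import Pool.Agent.Lib.MP_30aac3_nt.Weil

/-!
The theorem on the variation of canonical heights.
-/

set_option linter.unusedSectionVars false

open Filter WithZero Topology

namespace Pool.Agent.VCH

section main

variable {L : Type} [Field L] [Algebra Qb L] (hL : IsFunField Qb L)
  {ι : Type} [Fintype ι] (f : FamL L ι)

lemma ordv_const {k : Type*} [Field k] [Algebra k L] (s : Place k L) {α : Type*} [Fintype α]
    [Nonempty α] (z : L) : s.ordv (fun _ : α => z) = s.ord z := by
  have h : s.vsup (fun _ : α => z) = s.v z :=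
    le_antisymm (s.vsup_le fun _ => le_rfl) (s.le_vsup (fun _ : α => z) (Classical.arbitrary α))
  rw [Place.ordv_eq, Place.ord, h]

lemma absHt_const {α : Type} [Finite α] (c : Qb) : absHt (fun _ : α => c) = 0 := by
  by_cases hc : c = 0
  · subst hc
    unfold absHt
    have : (fun i : α => (⟨0, IntermediateField.subset_adjoin ℚ _ ⟨i, rfl⟩⟩ :
        IntermediateField.adjoin ℚ (Set.range fun _ : α => (0 : Qb)))) = 0 := by
      funext i; rfl
    rw [this, Height.logHeight_zero, zero_div]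
  · have h1 : (fun _ : α => c) = c • (fun _ : α => (1 : Qb)) := by
      funext i; simp
    rw [h1, absHt_smul hc]
    unfold absHt
    have : (fun i : α => (⟨1, IntermediateField.subset_adjoin ℚ _ ⟨i, rfl⟩⟩ :
        IntermediateField.adjoin ℚ (Set.range fun _ : α => (1 : Qb)))) = 1 := by
      funext i; rfl
    rw [this, Height.logHeight_one, zero_div]

include hL in
/-- finiteness of the set of bad places and vanishing outside. -/
lemma exists_finite_bad {J : Type} [Fintype J] {κ : J → Type} [∀ j, Fintype (κ j)]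
    (ψ : ∀ j, κ j → L) (hψ0 : ∀ j, ψ j ≠ 0) :
    ∃ (x : L), Adapted (k := Qb) f ψ x ∧ {s : Place Qb L | ¬ s.v x ≤ 1}.Finite := by
  obtain ⟨x, hx⟩ := exists_adapted (k := Qb) hL f ψ hψ0
  refine ⟨x, hx, ?_⟩
  have hfin : Finite (Punct Qb x) := (ev_loc hL f ψ hx hψ0).1
  have h1 : {s : Place Qb L | s.v x⁻¹ < 1}.Finite := hfin
  refine h1.subset ?_
  intro s hs
  have hs' : ¬ s.v x ≤ 1 := hs
  rw [not_le] at hs'
  show s.v x⁻¹ < 1
  rw [map_inv₀]
  exact inv_lt_one_of_one_lt₀ hs'

include hL in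
lemma finite_ord_ne_zero (f : FamL L ι) {z : L} (hz : z ≠ 0) : {s : Place Qb L | s.ord z ≠ 0}.Finite := by
  obtain ⟨x, hx, hfin⟩ := exists_finite_bad hL f (fun _ : Unit => fun _ : Unit => z)
    (fun _ h => hz (congrFun h ()))
  refine hfin.subset fun s hs hle => hs ?_
  have h1 := ordv_eq_zero_of_vsup s (hx.vsup_ψ s hle ())
  rwa [ordv_const] at h1

include hL in
/-- The orders of the iterates vanish outside a finite set of places. -/
lemma exists_finset_ordv : ∃ S : Finset (Place Qb L), ∀ s ∉ S, ∀ m, s.ordv (f.V m) = 0 := by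
  obtain ⟨x, hx, hfin⟩ := exists_finite_bad hL f (fun e : Empty => (e.elim : Unit → L))
    (fun e => e.elim)
  refine ⟨hfin.toFinset, fun s hs m => ?_⟩
  rw [Set.Finite.mem_toFinset] at hs
  have hle : s.v x ≤ 1 := not_not.mp hs
  exact ordv_eq_zero_of_vsup s (hx.vsup_V s hle m)

include hL in
/-- The limit divisor has finite support. -/
lemma exists_limit_divisor : ∃ (S : Finset (Place Qb L)) (E : Place Qb L →₀ ℝ),
    (∀ s ∉ S, ∀ m, s.ordv (f.V m) = 0) ∧
    ∀ s : Place Qb L, Tendsto (fun m => (-(s.ordv (f.V m) : ℝ)) / (f.d : ℝ) ^ m) atTop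
      (𝓝 (E s)) := by
  classical
  choose E hE using exists_lim_ordv (k := Qb) f
  obtain ⟨S, hS⟩ := exists_finset_ordv hL f
  refine ⟨S, Finsupp.onFinset S E ?_, hS, fun s => hE s⟩
  intro s hs
  by_contra hns
  apply hs
  have h2 := hE s
  simp only [hS s hns, Int.cast_zero, neg_zero, zero_div] at h2
  exact tendsto_nhds_unique h2 tendsto_const_nhds

include hL in
/-- values of the iterates at places of good specialisation. -/
lemma isValue_iterate {t : Place Qb L} {G : ι → MvPolynomial ι Qb} {p : ι → Qb}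
    (hG : IsGoodSpec t f.F G) (hp : IsValue t f.P p) (m : ℕ) :
    IsValue t (f.V m) ((pmap G)^[m] p) := by
  induction m with
  | zero => exact hp
  | succ m ih =>
    rw [f.V_succ, Function.iterate_succ_apply']
    exact ih.pmap hL t f.hF hG

include hL in
/-- Main theorem, second half: comparison of the canonical height with any Weil height. -/
theorem compare {E : Place Qb L → ℝ}
    (hE : ∀ s : Place Qb L, Tendsto (fun m => (-(s.ordv (f.V m) : ℝ)) / (f.d : ℝ) ^ m) atTop
      (𝓝 (E s))) {g : Place Qb L → ℝ} (hg : IsWeilHeight E g) :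
    ∃ C : ℝ, ∀ (t : Place Qb L) (G : ι → MvPolynomial ι Qb) (p : ι → Qb), IsGoodSpec t f.F G →
      IsValue t f.P p → ∃ h : ℝ, Tendsto (fun n => absHt ((pmap G)^[n] p) / (f.d : ℝ) ^ n)
        atTop (𝓝 h) ∧ |h - g t| ≤ C := by
  classical
  obtain ⟨J, hJ, n, c, φ, ℓ, C, h1, h2, h3⟩ := hg
  let ψ : ∀ p : J × Bool, Fin (n p.1 + 1) → L := fun p =>
    if p.2 then φ p.1 else fun _ => ∑ i, algebraMap Qb L (ℓ p.1 i) * φ p.1 i
  have hφ0 : ∀ j, φ j ≠ 0 := by
    intro j h0
    apply h1 j
    simp [h0]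
  have hψt : ∀ j, ψ (j, true) = φ j := fun j => rfl
  have hψf : ∀ j, ψ (j, false) = fun _ => ∑ i, algebraMap Qb L (ℓ j i) * φ j i := fun j => rfl
  have hψ0 : ∀ p, ψ p ≠ 0 := by
    rintro ⟨j, b⟩
    cases b with
    | true => rw [hψt]; exact hφ0 j
    | false =>
      rw [hψf]
      intro h0
      exact h1 j (congrFun h0 0)
  obtain ⟨x, hx, hfin⟩ := exists_finite_bad hL f ψ hψ0
  let w : J × Bool → ℝ := fun p => if p.2 then c p.1 else -c p.1
  have hw : ∀ s : Place Qb L, E s = -∑ p, w p * s.ordv (ψ p) := by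
    intro s
    rw [h2 s, Fintype.sum_prod_type, ← Finset.sum_neg_distrib]
    refine Finset.sum_congr rfl fun j _ => ?_
    rw [Fintype.sum_bool, hψt, hψf, ordv_const]
    simp only [w, pullDiv, if_true, Bool.false_eq_true, if_false]
    push_cast
    ring
  obtain ⟨C1, hC1⟩ := main_estimate hL f ψ hx hψ0 hE w hw
  -- the canonical height at a place of good specialisation
  have hcan : ∀ (t : Place Qb L) (G : ι → MvPolynomial ι Qb) (p : ι → Qb),
      IsGoodSpec t f.F G → IsValue t f.P p →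
      ∃ h : ℝ, Tendsto (fun n => absHt ((pmap G)^[n] p) / (f.d : ℝ) ^ n) atTop (𝓝 h) :=
    fun t G p hG hp => exists_canHt f.hd (hG.isHomogeneous f.hF) hG.2 hp.1
  -- uniform constant at the finitely many remaining places
  have hbad : ∀ t : Place Qb L, ∃ Ct : ℝ, 0 ≤ Ct ∧ ∀ (G : ι → MvPolynomial ι Qb) (p : ι → Qb),
      IsGoodSpec t f.F G → IsValue t f.P p → ∀ h : ℝ,
        Tendsto (fun n => absHt ((pmap G)^[n] p) / (f.d : ℝ) ^ n) atTop (𝓝 h) →
        |h - g t| ≤ Ct := by
    intro t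
    by_cases hex : ∃ (G : ι → MvPolynomial ι Qb) (p : ι → Qb), IsGoodSpec t f.F G ∧
        IsValue t f.P p
    · obtain ⟨G0, p0, hG0, hp0⟩ := hex
      obtain ⟨h0, hh0⟩ := hcan t G0 p0 hG0 hp0
      refine ⟨|h0 - g t|, abs_nonneg _, fun G p hG hp h hh => ?_⟩
      have e1 : ∀ n, absHt ((pmap G)^[n] p) = absHt ((pmap G0)^[n] p0) := fun n =>
        absHt_value_eq hL (isValue_iterate hL f hG hp n) (isValue_iterate hL f hG0 hp0 n)
      simp only [e1] at hh
      rw [tendsto_nhds_unique hh hh0]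
    · exact ⟨0, le_rfl, fun G p hG hp => absurd ⟨G, p, hG, hp⟩ hex⟩
  choose Ct hCt0 hCt using hbad
  refine ⟨|C1| + |C| + ∑ t ∈ hfin.toFinset, Ct t, fun t G p hG hp => ?_⟩
  obtain ⟨h, hh⟩ := hcan t G p hG hp
  refine ⟨h, hh, ?_⟩
  by_cases ht : t.v x ≤ 1
  · have hV : ∀ m, absHt ((pmap G)^[m] p) = absHt (fun i => t.val (f.V m i)) := fun m =>
      absHt_value_eq hL (isValue_iterate hL f hG hp m)
        (isValue_val hL t (hx.vsup_V t ht m))
    have hh' := hh
    simp only [hV] at hh'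
    have e1 := hC1 t ht h hh'
    have e2 := h3 t (fun j i => t.val (φ j i)) fun j =>
      isValue_val hL t (hx.vsup_ψ t ht (j, true))
    have e3 : ∑ p, w p * absHt (fun i => t.val (ψ p i)) =
        ∑ j, c j * absHt (fun i => t.val (φ j i)) := by
      rw [Fintype.sum_prod_type]
      refine Finset.sum_congr rfl fun j _ => ?_
      rw [Fintype.sum_bool, hψt, hψf, absHt_const, mul_zero, add_zero]
      simp only [w, if_true]
    rw [e3] at e1
    have e5 : 0 ≤ ∑ t ∈ hfin.toFinset, Ct t := Finset.sum_nonneg fun t _ => hCt0 t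
    have e6 : h - g t = (h - ∑ j, c j * absHt (fun i => t.val (φ j i))) -
        (g t - ∑ j, c j * absHt (fun i => t.val (φ j i))) := by ring
    rw [e6]
    refine (abs_sub _ _).trans ?_
    have e7 := le_abs_self C1
    have e8 := le_abs_self C
    linarith
  · have e1 := hCt t G p hG hp h hh
    have e2 : Ct t ≤ ∑ t ∈ hfin.toFinset, Ct t :=
      Finset.single_le_sum (f := Ct) (fun t _ => hCt0 t) (hfin.mem_toFinset.mpr ht)
    have e3 := abs_nonneg C1
    have e4 := abs_nonneg C
    linarith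

end main

section weilE

variable {L : Type} [Field L] [Algebra Qb L] (hL : IsFunField Qb L) {N : ℕ}
  (f : FamL L (Fin (N + 1)))

include hL in
/-- The limit divisor has Weil heights. -/
theorem exists_weil {E : Place Qb L → ℝ}
    (hE : ∀ s : Place Qb L, Tendsto (fun m => (-(s.ordv (f.V m) : ℝ)) / (f.d : ℝ) ^ m) atTop
      (𝓝 (E s))) : ∃ g, IsWeilHeight E g := by
  classical
  obtain ⟨x, hx, hfin⟩ := exists_finite_bad hL f (fun e : Empty => (e.elim : Unit → L))
    (fun e => e.elim)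
  let S : Type := {s : Place Qb L // ¬ s.v x ≤ 1}
  have hS : Finite S := hfin
  have hlim : Tendsto (fun m => fun s : S => (-(s.1.ordv (f.V m) : ℝ)) / (f.d : ℝ) ^ m) atTop
      (𝓝 fun s => E s.1) := tendsto_pi_nhds.mpr fun s => hE s.1
  obtain ⟨c, hc⟩ := exists_finsupp_of_tendsto _ hlim
  have hall : ∀ s : Place Qb L, E s =
      ∑ m ∈ c.support, (c m / (f.d : ℝ) ^ m) * (-(s.ordv (f.V m) : ℝ)) := by
    intro s
    by_cases hs : s.v x ≤ 1
    · have h1 : ∀ m, s.ordv (f.V m) = 0 := fun m => ordv_eq_zero_of_vsup s (hx.vsup_V s hs m)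
      have h2 := hE s
      simp only [h1, Int.cast_zero, neg_zero, zero_div] at h2
      rw [tendsto_nhds_unique h2 tendsto_const_nhds]
      simp [h1]
    · rw [hc ⟨s, hs⟩]
      refine Finset.sum_congr rfl fun m _ => ?_
      ring
  have hw := isWeil_sum c.support (D := fun m s => (c m / (f.d : ℝ) ^ m) *
    (-(s.ordv (f.V m) : ℝ))) (g := fun m t => (c m / (f.d : ℝ) ^ m) * htVal (f.V m) t)
    (fun m _ => isWeil_smul _ (isWeil_ordv hL (f.V_ne m)))
  have e : E = fun s => ∑ m ∈ c.support, (c m / (f.d : ℝ) ^ m) * (-(s.ordv (f.V m) : ℝ)) :=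
    funext hall
  rw [e]
  exact ⟨_, hw⟩

end weilE

end Pool.Agent.VCH
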