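import Pool.Agent.Lib.MP_30aac3_nt.Places

/-!
Affine models of a function field.
-/

open Polynomial WithZero

open scoped IntermediateField.algebraAdjoinAdjoin

namespace Pool.Agent.VCH

variable {k L : Type*} [Field k] [Field L] [Algebra k L]

/-- explicit integral dependence of `z` over `k[w]`. -/
def IntDep (k : Type*) {L : Type*} [Field k] [CommRing L] [Algebra k L] (w z : L) : Prop :=
  ∃ (N : ℕ) (p : ℕ → k[X]), z ^ N + ∑ i ∈ Finset.range N, aeval w (p i) * z ^ i = 0

lemma exists_aeval_of_mem_adjoin {w z : L} (h : z ∈ Algebra.adjoin k {w}) :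
    ∃ p : k[X], aeval w p = z := by
  rw [Algebra.adjoin_singleton_eq_range_aeval] at h
  exact h

lemma intDep_of_isIntegral {w z : L} (h : IsIntegral (Algebra.adjoin k {w}) z) :
    IntDep k w z := by
  obtain ⟨q, hq, hq0⟩ := h
  have h1 : ∀ i, ∃ p : k[X], aeval w p = ((q.coeff i : Algebra.adjoin k {w}) : L) :=
    fun i => exists_aeval_of_mem_adjoin (q.coeff i).2
  choose p hp using h1
  refine ⟨q.natDegree, p, ?_⟩
  rw [← hq0, hq.as_sum]
  conv_rhs => rw [eval₂_add, eval₂_finsetSum]
  rw [← hq.as_sum]
  simp only [eval₂_pow, eval₂_X, eval₂_mul, eval₂_C]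
  congr 1
  refine Finset.sum_congr rfl fun i _ => ?_
  rw [hp]
  rfl

lemma isIntegral_of_mem_adjoin_le {C : Subalgebra k L} {w : L} (hw : w ∈ C) {z : L}
    (h : IsIntegral (Algebra.adjoin k {w}) z) : IsIntegral C z := by
  have hle : Algebra.adjoin k {w} ≤ C := Algebra.adjoin_le (by simpa using hw)
  have e : (algebraMap C L).comp (Subalgebra.inclusion hle : _ →+* C) =
      (RingHom.id L).comp (algebraMap (Algebra.adjoin k {w}) L) := rfl
  exact IsIntegral.map_of_comp_eq _ (RingHom.id L) e h

/-- Any finite set of functions is integral over `k[x]` for a suitable `x`. -/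
theorem exists_model (hL : IsFunField k L) (Z : Finset L) :
    ∃ x : L, Transcendental k x ∧ ∀ z ∈ Z, IsIntegral (Algebra.adjoin k {x}) z := by
  obtain ⟨x0, hx0, hfin⟩ := id hL
  have h2 : Algebra.IsAlgebraic (Algebra.adjoin k {x0}) L :=
    Algebra.IsAlgebraic.trans _ (IntermediateField.adjoin k {x0}) _
  obtain ⟨y, hy0, hy⟩ := Algebra.IsAlgebraic.exists_integral_multiples
    (Algebra.adjoin k {x0}) Z
  obtain ⟨p, hp⟩ : ∃ p : k[X], aeval x0 p = (y : L) :=
    exists_aeval_of_mem_adjoin y.2
  have hyL : (y : L) ≠ 0 := by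
    intro h
    apply hy0
    exact Subtype.ext h
  have hp0 : p ≠ 0 := by
    rintro rfl
    rw [map_zero] at hp
    exact hyL hp.symm
  set x : L := x0 + (y : L)⁻¹ with hx
  -- `x0` is integral over `k[x]`
  have hint0 : IsIntegral (Algebra.adjoin k {x}) x0 := by
    let xx : Algebra.adjoin k {x} := ⟨x, Algebra.self_mem_adjoin_singleton k x⟩
    let a : k := p.leadingCoeff⁻¹
    have ha : p.leadingCoeff ≠ 0 := leadingCoeff_ne_zero.mpr hp0
    have hm1 : (C a * p).Monic := monic_C_mul_of_mul_leadingCoeff_eq_one (by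
      exact inv_mul_cancel₀ ha)
    have hm2 : ((C a * p).map (algebraMap k (Algebra.adjoin k {x})) * (X - C xx)).Monic :=
      (hm1.map _).mul (monic_X_sub_C xx)
    have hnt : Nontrivial (Algebra.adjoin k {x}) := inferInstance
    have hdeg : (C (algebraMap k (Algebra.adjoin k {x}) a)).degree <
        ((C a * p).map (algebraMap k (Algebra.adjoin k {x})) * (X - C xx)).degree := by
      refine degree_C_le.trans_lt ?_
      rw [(monic_X_sub_C xx).degree_mul, degree_X_sub_C,
        degree_eq_natDegree (hm1.map _).ne_zero]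
      exact_mod_cast Nat.succ_pos _
    refine ⟨_, hm2.add_of_left hdeg, ?_⟩
    rw [eval₂_add, eval₂_mul, eval₂_map, eval₂_sub, eval₂_X, eval₂_C, eval₂_C, eval₂_mul, eval₂_C]
    have e1 : eval₂ ((algebraMap (Algebra.adjoin k {x}) L).comp
        (algebraMap k (Algebra.adjoin k {x}))) x0 p = y := by
      rw [← hp]; rfl
    rw [e1]
    have e2 : (algebraMap (Algebra.adjoin k {x}) L) xx = x := rfl
    rw [e2, hx]
    have e3 : ((algebraMap (Algebra.adjoin k {x}) L).comp
        (algebraMap k (Algebra.adjoin k {x}))) a = algebraMap k L a := rfl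
    have e4 : (algebraMap (Algebra.adjoin k {x}) L) ((algebraMap k (Algebra.adjoin k {x})) a)
      = algebraMap k L a := rfl
    rw [e3, e4]
    field_simp
    ring
  have hxmem : IsIntegral (Algebra.adjoin k {x}) x :=
    isIntegral_algebraMap (R := Algebra.adjoin k {x})
      (x := ⟨x, Algebra.self_mem_adjoin_singleton k x⟩)
  have hinty : IsIntegral (Algebra.adjoin k {x}) (y : L)⁻¹ := by
    have : (y : L)⁻¹ = x - x0 := by rw [hx]; ring
    rw [this]
    exact hxmem.sub hint0
  refine ⟨x, ?_, ?_⟩
  · intro halg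
    apply hx0
    have h3 : Algebra.IsIntegral k (Algebra.adjoin k {x}) := by
      apply Algebra.IsIntegral.adjoin
      rintro z hz
      rw [Set.mem_singleton_iff] at hz
      subst hz
      exact halg.isIntegral
    exact (isIntegral_trans (R := k) x0 hint0).isAlgebraic
  · intro z hz
    have h4 := hy z hz
    let Cl : Subalgebra k L := (integralClosure (Algebra.adjoin k {x}) L).restrictScalars k
    have h5 : IsIntegral Cl (y • z) := by
      refine isIntegral_of_mem_adjoin_le (C := Cl) (w := x0) hint0 h4
    have h6 : IsIntegral (integralClosure (Algebra.adjoin k {x}) L) (y • z) := h5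
    have h7 : IsIntegral (Algebra.adjoin k {x}) (y • z) := isIntegral_trans _ h6
    have h8 : z = (y : L)⁻¹ * (y • z) := by
      rw [Algebra.smul_def]
      have : (algebraMap (Algebra.adjoin k {x0}) L) y = (y : L) := rfl
      rw [this]
      field_simp
    rw [h8]
    exact hinty.mul h7

/-- The integral closure of `k[u]` in `L`. -/
noncomputable def icl (k : Type*) {L : Type*} [Field k] [Field L] [Algebra k L] (u : L) :
    Subalgebra k L :=
  (integralClosure (Algebra.adjoin k {u}) L).restrictScalars k

lemma mem_icl {u z : L} : z ∈ icl k u ↔ IsIntegral (Algebra.adjoin k {u}) z := Iff.rfl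

lemma self_mem_icl (u : L) : u ∈ icl k u :=
  isIntegral_algebraMap (R := Algebra.adjoin k {u})
      (x := ⟨u, Algebra.self_mem_adjoin_singleton k u⟩)

/-- evaluation `k[X] ≃ k[u]`. -/
noncomputable def evalEquiv {u : L} (hu : Transcendental k u) :
    k[X] ≃+* Algebra.adjoin k {u} :=
  RingEquiv.ofBijective
    (((aeval (⟨u, Algebra.self_mem_adjoin_singleton k u⟩ : Algebra.adjoin k {u}) :
      k[X] →ₐ[k] _) : k[X] →+* _)) <| by
    have h1 : ∀ p : k[X], ((aeval (⟨u, Algebra.self_mem_adjoin_singleton k u⟩ :
        Algebra.adjoin k {u}) p : Algebra.adjoin k {u}) : L) = aeval u p := by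
      intro p
      exact (aeval_algHom_apply (Algebra.adjoin k {u}).val
        (⟨u, Algebra.self_mem_adjoin_singleton k u⟩ : Algebra.adjoin k {u}) p).symm
    constructor
    · intro p q hpq
      have h2 : aeval u p = aeval u q := by
        rw [← h1, ← h1]
        exact congrArg Subtype.val hpq
      have h3 : aeval u (p - q) = 0 := by rw [map_sub, h2, sub_self]
      by_contra hne
      exact hu ⟨p - q, sub_ne_zero.mpr hne, h3⟩
    · intro z
      obtain ⟨p, hp⟩ := exists_aeval_of_mem_adjoin z.2
      refine ⟨p, Subtype.ext ?_⟩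
      rw [← hp]
      exact h1 p

theorem icl_dedekind [CharZero k] (hL : IsFunField k L) {u : L} (hu : Transcendental k u) :
    IsDedekindDomain (icl k u) ∧ IsFractionRing (icl k u) L ∧ Algebra.FiniteType k (icl k u) := by
  have hpid : IsPrincipalIdealRing (Algebra.adjoin k {u}) :=
    IsPrincipalIdealRing.of_surjective (evalEquiv hu : k[X] →+* _) (evalEquiv hu).surjective
  have hfin := hL.finiteDimensional hu
  have hchar : CharZero (IntermediateField.adjoin k {u}) := inferInstance
  have h1 : IsDedekindDomain (integralClosure (Algebra.adjoin k {u}) L) :=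
    integralClosure.isDedekindDomain (Algebra.adjoin k {u}) (IntermediateField.adjoin k {u}) L
  have h2 : IsFractionRing (integralClosure (Algebra.adjoin k {u}) L) L :=
    integralClosure.isFractionRing_of_finite_extension (IntermediateField.adjoin k {u}) L
  have h3 : Module.Finite (Algebra.adjoin k {u}) (integralClosure (Algebra.adjoin k {u}) L) :=
    IsIntegralClosure.finite (Algebra.adjoin k {u}) (IntermediateField.adjoin k {u}) L _
  have h4 : Algebra.FiniteType k (Algebra.adjoin k {u}) :=
    Algebra.FiniteType.adjoin_of_finite (Set.finite_singleton u)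
  have h5 : Algebra.FiniteType k (integralClosure (Algebra.adjoin k {u}) L) :=
    Algebra.FiniteType.trans h4 inferInstance
  exact ⟨h1, h2, h5⟩

end Pool.Agent.VCH
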