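import Pool.Agent.Lib.MP_30aac3_nt.Ctl
import Pool.Agent.Lib.MP_30aac3_nt.Geo3

/-!
Estimates near a puncture.
-/

set_option linter.unusedSectionVars false

open Polynomial Filter

namespace Pool.Agent.VCH

namespace Chart

variable {k A : Type*} [Field k] [CommRing A] [Algebra k A] (c : Chart k A)

lemma ev_Bd (φ : A) : ∀ᶠ q in ctl k, c.Bd q.1 φ q.2 := by
  obtain ⟨p, hp⟩ := c.gen φ
  filter_upwards [(Ctl.mvn p).ev] with q hq
  exact ⟨p, hp, hq⟩

lemma ev_CT : ∀ᶠ q in ctl k, c.CT q.1 ≤ q.2 := by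
  have : Ctl (fun μ : AbsoluteValue k ℝ => c.CT μ) := by
    unfold CT
    exact (Ctl.const 1).add (Ctl.sum _ fun i _ => Ctl.mvn _)
  exact this.ev

lemma ev_close (φ : A) : ∀ᶠ q in ctl k, ∀ (t : A →ₐ[k] k) (ε : ℝ), 0 ≤ ε → ε ≤ 1 →
    (∀ i, q.1 (t (c.y i)) ≤ ε) → q.1 (t φ - c.s φ) ≤ q.2 * ε := by
  classical
  obtain ⟨p, rfl⟩ := c.gen φ
  filter_upwards [(Ctl.mvn p).ev] with q hq t ε h0 h1 hy
  have e1 : t (MvPolynomial.aeval c.y p) - c.s (MvPolynomial.aeval c.y p) =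
      ∑ m ∈ p.support, p.coeff m * ((∏ i, t (c.y i) ^ m i) - ∏ i, (0 : k) ^ m i) := by
    have e2 : ∀ t : A →ₐ[k] k, t (MvPolynomial.aeval c.y p) =
        ∑ m ∈ p.support, p.coeff m * ∏ i, t (c.y i) ^ m i := by
      intro t
      rw [MvPolynomial.aeval_def, MvPolynomial.eval₂_eq', map_sum]
      refine Finset.sum_congr rfl fun m _ => ?_
      rw [map_mul, AlgHom.commutes, map_prod]
      simp only [map_pow]
      rfl
    rw [e2, e2, ← Finset.sum_sub_distrib]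
    refine Finset.sum_congr rfl fun m _ => ?_
    simp only [c.hy]
    ring
  rw [e1]
  refine (q.1.sum_le _ _).trans ?_
  calc ∑ m ∈ p.support, q.1 (p.coeff m * ((∏ i, t (c.y i) ^ m i) - ∏ i, (0 : k) ^ m i))
      ≤ ∑ m ∈ p.support, q.1 (p.coeff m) * ε := by
        refine Finset.sum_le_sum fun m _ => ?_
        rw [map_mul]
        have h2 := q.1.nonneg (p.coeff m)
        refine mul_le_mul_of_nonneg_left ?_ h2
        by_cases hm : m = 0
        · subst hm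
          simpa using h0
        · obtain ⟨i, hi⟩ : ∃ i, m i ≠ 0 := by
            by_contra h
            push Not at h
            exact hm (Finsupp.ext h)
          have h3 : ∏ i, (0 : k) ^ m i = 0 :=
            Finset.prod_eq_zero (Finset.mem_univ i) (zero_pow hi)
          rw [h3, sub_zero, map_prod, ← Finset.mul_prod_erase _ _ (Finset.mem_univ i)]
          have h4 : q.1 (t (c.y i) ^ m i) ≤ ε := by
            rw [map_pow]
            calc q.1 (t (c.y i)) ^ m i ≤ ε ^ m i := by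
                  have := hy i
                  gcongr
                _ ≤ ε ^ 1 := pow_le_pow_of_le_one h0 h1 (by omega)
                _ = ε := pow_one _
          have h5 : ∏ j ∈ Finset.univ.erase i, q.1 (t (c.y j) ^ m j) ≤ 1 := by
            refine Finset.prod_le_one (fun j _ => q.1.nonneg _) fun j _ => ?_
            rw [map_pow]
            exact pow_le_one₀ (q.1.nonneg _) ((hy j).trans h1)
          have h6 : 0 ≤ ∏ j ∈ Finset.univ.erase i, q.1 (t (c.y j) ^ m j) :=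
            Finset.prod_nonneg fun j _ => q.1.nonneg _
          calc _ ≤ ε * 1 := mul_le_mul h4 h5 h6 h0
            _ = ε := mul_one _
    _ = mvn q.1 p * ε := by rw [← Finset.sum_mul]; rfl
    _ ≤ q.2 * ε := by gcongr

/-- A lower bound from invertibility. -/
lemma inv_bound {μ : AbsoluteValue k ℝ} {z : k} (hz : z ≠ 0) {H : ℝ} (hH : 0 < H)
    (h : μ z⁻¹ ≤ H) : 1 / H ≤ μ z := by
  rw [map_inv₀] at h
  have h1 := μ.pos hz
  rw [div_le_iff₀ hH]
  calc 1 = μ z * (μ z)⁻¹ := (mul_inv_cancel₀ h1.ne').symm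
    _ ≤ μ z * H := by gcongr

lemma ev_near (φ1 ψ1 : A) (h1 : c.s φ1 = 0) (h2 : c.s ψ1 ≠ 0) :
    ∀ᶠ q in ctl k, ∀ t : A →ₐ[k] k, (∀ i, q.1 (t (c.y i)) * q.2 ^ 8 ≤ 1) →
      t ψ1 ≠ 0 ∧ q.1 (t φ1 / t ψ1) * q.2 ^ 5 ≤ 1 := by
  filter_upwards [c.ev_close φ1, c.ev_close ψ1, ctl_const 2, ctl_abs (c.s ψ1)⁻¹] with q e1 e2 e3
    e4 t ht
  set H := q.2 with hH
  have hH0 : 0 < H := by linarith
  have hε0 : (0:ℝ) ≤ 1 / H ^ 8 := by positivity
  have hε1 : (1:ℝ) / H ^ 8 ≤ 1 := by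
    rw [div_le_one (by positivity)]
    exact one_le_pow₀ (by linarith)
  have hy : ∀ i, q.1 (t (c.y i)) ≤ 1 / H ^ 8 := fun i => by
    rw [le_div_iff₀ (by positivity)]; exact ht i
  have f1 := e1 t _ hε0 hε1 hy
  have f2 := e2 t _ hε0 hε1 hy
  have f3 := inv_bound h2 hH0 e4
  rw [h1, sub_zero] at f1
  have f4 : H * (1 / H ^ 8) = 1 / H ^ 7 := by field_simp
  rw [f4] at f1 f2
  have f5 : 1 / H ^ 2 ≤ q.1 (t ψ1) := by
    have g1 : q.1 (c.s ψ1) ≤ q.1 (t ψ1) + q.1 (t ψ1 - c.s ψ1) := by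
      have := q.1.add_le (t ψ1) (-(t ψ1 - c.s ψ1))
      rw [AbsoluteValue.map_neg] at this
      refine le_trans (le_of_eq ?_) this
      congr 1; ring
    have g2 : 1 / H ^ 2 + 1 / H ^ 7 ≤ 1 / H := by
      rw [div_add_div _ _ (by positivity) (by positivity), div_le_div_iff₀ (by positivity) hH0]
      have g3 : 1 ≤ H ^ 5 := one_le_pow₀ (by linarith)
      have g4 : H ^ 2 ≤ H ^ 7 := pow_le_pow_right₀ (by linarith) (by norm_num)
      have g5 : 0 < H ^ 7 := by positivity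
      nlinarith [mul_nonneg (sub_nonneg.mpr e3) g5.le]
    linarith
  have f6 : 0 < q.1 (t ψ1) := lt_of_lt_of_le (by positivity) f5
  refine ⟨fun h => by rw [h, map_zero] at f6; exact lt_irrefl _ f6, ?_⟩
  rw [map_div₀, div_mul_eq_mul_div, div_le_one f6]
  refine le_trans ?_ f5
  calc q.1 (t φ1) * H ^ 5 ≤ 1 / H ^ 7 * H ^ 5 := by gcongr
    _ = 1 / H ^ 2 := by field_simp

lemma ev_ratio (φ : A) (E : ℕ) (hE1 : ∀ l < E, c.s (c.T^[l] φ) = 0)
    (hE2 : c.s (c.T^[E] φ) ≠ 0) :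
    ∀ᶠ q in ctl k, ∀ (t : A →ₐ[k] k) (a : k), c.Pt t a → (∀ i, q.1 (t (c.y i)) ≤ 1) →
      q.1 a * q.2 ^ 5 ≤ 1 →
      q.1 a ^ E ≤ q.2 ^ 2 * q.1 (t φ) ∧ q.1 (t φ) ≤ q.2 * q.1 a ^ E := by
  filter_upwards [c.ev_Bd (c.T^[E] φ), c.ev_Bd (c.T^[E + 1] φ), ctl_const 2,
    ctl_abs (c.s (c.T^[E] φ))⁻¹] with q e1 e2 e3 e4 t a hpt hy ha
  set H := q.2 with hH
  have hH0 : 0 < H := by linarith
  have f1 := c.eval_le_of_Bd e1 t hy
  have f2 := c.eval_le_of_Bd e2 t hy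
  have f3 := inv_bound hE2 hH0 e4
  have f4 := hpt.vanish hE1
  have f5 := hpt (c.T^[E] φ)
  rw [← Function.iterate_succ_apply' (f := c.T)] at f5
  have ha' : q.1 a ≤ 1 / H ^ 5 := by rw [le_div_iff₀ (by positivity)]; exact ha
  have f6 : 1 / H ^ 2 ≤ q.1 (t (c.T^[E] φ)) := by
    have g1 : q.1 (c.s (c.T^[E] φ)) ≤
        q.1 (t (c.T^[E] φ)) + q.1 (a * t (c.T^[E + 1] φ)) := by
      have := q.1.add_le (t (c.T^[E] φ)) (-(a * t (c.T^[E + 1] φ)))
      rw [AbsoluteValue.map_neg] at this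
      refine le_trans (le_of_eq ?_) this
      rw [f5]
      congr 1; ring
    have g2 : q.1 (a * t (c.T^[E + 1] φ)) ≤ 1 / H ^ 4 := by
      rw [map_mul]
      calc q.1 a * q.1 (t (c.T^[E + 1] φ)) ≤ 1 / H ^ 5 * H := by gcongr
        _ = 1 / H ^ 4 := by field_simp
    have g3 : 1 / H ^ 2 + 1 / H ^ 4 ≤ 1 / H := by
      rw [div_add_div _ _ (by positivity) (by positivity), div_le_div_iff₀ (by positivity) hH0]
      have g4 : H ^ 2 ≤ H ^ 4 := pow_le_pow_right₀ (by linarith) (by norm_num)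
      have g5 : 0 < H ^ 5 := by positivity
      nlinarith [mul_nonneg (sub_nonneg.mpr e3) g5.le]
    linarith
  have ha0 := q.1.nonneg a
  rw [f4, map_mul, map_pow]
  constructor
  · calc q.1 a ^ E = q.1 a ^ E * (H ^ 2 * (1 / H ^ 2)) := by field_simp
      _ ≤ q.1 a ^ E * (H ^ 2 * q.1 (t (c.T^[E] φ))) := by gcongr
      _ = _ := by ring
  · rw [mul_comm]
    gcongr

end Chart

end Pool.Agent.VCH
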