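import Pool.Agent.Lib.MP_30aac3_nt.Defs

/-!
Sum norms of one-variable polynomials over a field with an absolute value, and the
two-centre interpolation inequality used for the variation of canonical heights.
-/

open Polynomial

namespace Pool.Agent.VCH

/-- A predicate `Bd a c` to be read as: the size of `a` is at most `c`. -/
structure IsBd {S : Type*} [CommRing S] (Bd : S → ℝ → Prop) : Prop where
  mono : ∀ {a c c'}, Bd a c → c ≤ c' → Bd a c'
  zero : Bd 0 0
  one : Bd 1 1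
  add : ∀ {a b c c'}, Bd a c → Bd b c' → Bd (a + b) (c + c')
  mul : ∀ {a b c c'}, Bd a c → Bd b c' → Bd (a * b) (c * c')
  nonneg : ∀ {a c}, Bd a c → 0 ≤ c

namespace IsBd

variable {S : Type*} [CommRing S] {Bd : S → ℝ → Prop} (h : IsBd Bd)

include h

lemma pow {a : S} {c : ℝ} (ha : Bd a c) (n : ℕ) : Bd (a ^ n) (c ^ n) := by
  induction n with
  | zero => simpa using h.one
  | succ n ih => simpa [pow_succ] using h.mul ih ha

lemma sum {ι : Type*} (s : Finset ι) (f : ι → S) (c : ι → ℝ)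
    (hf : ∀ i ∈ s, Bd (f i) (c i)) : Bd (∑ i ∈ s, f i) (∑ i ∈ s, c i) := by
  classical
  induction s using Finset.induction with
  | empty => simpa using h.zero
  | insert i s hi ih =>
    rw [Finset.sum_insert hi, Finset.sum_insert hi]
    exact h.add (hf _ (Finset.mem_insert_self _ _))
      (ih fun j hj => hf _ (Finset.mem_insert_of_mem hj))

lemma prod {ι : Type*} (s : Finset ι) (f : ι → S) (c : ι → ℝ)
    (hf : ∀ i ∈ s, Bd (f i) (c i)) : Bd (∏ i ∈ s, f i) (∏ i ∈ s, c i) := by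
  classical
  induction s using Finset.induction with
  | empty => simpa using h.one
  | insert i s hi ih =>
    rw [Finset.prod_insert hi, Finset.prod_insert hi]
    exact h.mul (hf _ (Finset.mem_insert_self _ _))
      (ih fun j hj => hf _ (Finset.mem_insert_of_mem hj))

/-- bound for the value of a homogeneous polynomial. -/
lemma eval_homogeneous {ι : Type*} [Fintype ι] (f : MvPolynomial ι S) {d : ℕ}
    (hf : f.IsHomogeneous d) {K V : ℝ} (hK : ∀ m ∈ f.support, Bd (f.coeff m) K)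
    {v : ι → S} (hv : ∀ i, Bd (v i) V) :
    Bd (MvPolynomial.eval v f) (f.support.card * K * V ^ d) := by
  classical
  rw [MvPolynomial.eval_eq']
  have h1 : Bd (∑ m ∈ f.support, f.coeff m * ∏ i, v i ^ m i) (∑ m ∈ f.support, K * V ^ d) := by
    refine h.sum _ _ _ fun m hm => ?_
    refine h.mul (hK m hm) ?_
    have h2 := h.prod Finset.univ (fun i => v i ^ m i) (fun i => V ^ m i)
      (fun i _ => h.pow (hv i) _)
    rw [Finset.prod_pow_eq_pow_sum] at h2
    have h3 : ∑ i, m i = d := by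
      have := hf (MvPolynomial.mem_support_iff.mp hm)
      rw [← this, Finsupp.weight_apply, Finsupp.sum_fintype]
      · simp
      · simp
    rwa [h3] at h2
  rw [Finset.sum_const, nsmul_eq_mul, ← mul_assoc] at h1
  exact h1

end IsBd

lemma pmap_map {S S' : Type*} [CommRing S] [CommRing S'] {ι : Type*} (φ : S →+* S')
    (F : ι → MvPolynomial ι S) (v : ι → S) :
    pmap (fun i => MvPolynomial.map φ (F i)) (fun i => φ (v i)) = fun i => φ (pmap F v i) := by
  funext i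
  exact (MvPolynomial.map_eval φ v (F i)).symm

lemma pmap_iterate_map {S S' : Type*} [CommRing S] [CommRing S'] {ι : Type*} (φ : S →+* S')
    (F : ι → MvPolynomial ι S) (v : ι → S) (n : ℕ) :
    (pmap (fun i => MvPolynomial.map φ (F i)))^[n] (fun i => φ (v i))
      = fun i => φ ((pmap F)^[n] v i) := by
  induction n with
  | zero => rfl
  | succ n ih => rw [Function.iterate_succ_apply', ih, pmap_map, Function.iterate_succ_apply']

lemma pmap_smul {S : Type*} [CommRing S] {ι : Type*} [Fintype ι] {F : ι → MvPolynomial ι S}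
    {d : ℕ} (hF : ∀ i, (F i).IsHomogeneous d) (c : S) (v : ι → S) :
    pmap F (c • v) = c ^ d • pmap F v := by
  classical
  funext i
  simp only [pmap, Pi.smul_apply, smul_eq_mul]
  rw [MvPolynomial.eval_eq', MvPolynomial.eval_eq', Finset.mul_sum]
  refine Finset.sum_congr rfl fun m hm => ?_
  have h3 : ∑ i, m i = d := by
    have := hF i (MvPolynomial.mem_support_iff.mp hm)
    rw [← this, Finsupp.weight_apply, Finsupp.sum_fintype]
    · simp
    · simp
  simp only [Pi.smul_apply, smul_eq_mul, mul_pow, Finset.prod_mul_distrib,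
    Finset.prod_pow_eq_pow_sum, h3]
  ring

lemma IsBd.iterate {S : Type*} [CommRing S] {Bd : S → ℝ → Prop} (h : IsBd Bd)
    {ι : Type*} [Fintype ι] {F : ι → MvPolynomial ι S} {d : ℕ} (hd : 2 ≤ d)
    (hF : ∀ i, (F i).IsHomogeneous d) {K V : ℝ} (hV : 0 ≤ V) (hK1 : 1 ≤ K)
    (hK : ∀ i, ∃ K', (∀ m ∈ (F i).support, Bd ((F i).coeff m) K') ∧
      (F i).support.card * K' ≤ K)
    {v : ι → S} (hv : ∀ i, Bd (v i) V) (n : ℕ) :
    ∀ i, Bd ((pmap F)^[n] v i) (K ^ (d ^ n - 1) * V ^ (d ^ n)) := by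
  induction n with
  | zero => simpa using hv
  | succ n ih =>
    intro i
    rw [Function.iterate_succ_apply']
    obtain ⟨K', hK', hKK⟩ := hK i
    have h1 := h.eval_homogeneous (F i) (hF i) hK' ih
    refine h.mono h1 ?_
    have hd1 : 1 ≤ d ^ n := Nat.one_le_pow _ _ (by omega)
    have e1 : (K ^ (d ^ n - 1) * V ^ d ^ n) ^ d = K ^ ((d ^ n - 1) * d) * V ^ (d ^ (n+1)) := by
      rw [mul_pow, ← pow_mul, ← pow_mul, ← pow_succ]
    rw [e1]
    have e2 : (d ^ n - 1) * d + 1 ≤ d ^ (n + 1) - 1 := by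
      have : d * 1 ≤ d * d ^ n := Nat.mul_le_mul_left _ hd1
      have e3 : (d ^ n - 1) * d = d ^ (n+1) - d := by
        rw [Nat.sub_mul, one_mul, pow_succ]
      rw [e3, pow_succ]
      have : d ≤ d ^ n * d := by nlinarith
      omega
    have e4 : K * K ^ ((d ^ n - 1) * d) ≤ K ^ (d ^ (n + 1) - 1) := by
      rw [← pow_succ']
      exact pow_le_pow_right₀ hK1 e2
    calc ((F i).support.card : ℝ) * K' * (K ^ ((d ^ n - 1) * d) * V ^ d ^ (n + 1))
        ≤ K * (K ^ ((d ^ n - 1) * d) * V ^ d ^ (n + 1)) := by gcongr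
      _ = (K * K ^ ((d ^ n - 1) * d)) * V ^ d ^ (n + 1) := by ring
      _ ≤ _ := by gcongr

section pn

variable {k : Type*} [Field k] (μ : AbsoluteValue k ℝ)

/-- the sum norm of radius `r`. -/
noncomputable def pn (r : ℝ) (g : k[X]) : ℝ := g.sum fun i c => μ c * r ^ i

variable {μ}

lemma pn_nonneg {r : ℝ} (hr : 0 ≤ r) (g : k[X]) : 0 ≤ pn μ r g := by
  unfold pn Polynomial.sum
  exact Finset.sum_nonneg fun i _ => mul_nonneg (μ.nonneg _) (pow_nonneg hr _)

@[simp] lemma pn_zero (r : ℝ) : pn μ r 0 = 0 := by simp [pn]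

@[simp] lemma pn_C (r : ℝ) (a : k) : pn μ r (C a) = μ a := by
  simp [pn, Polynomial.sum_C_index]

@[simp] lemma pn_one (r : ℝ) : pn μ r 1 = 1 := by
  rw [← C_1, pn_C, map_one]

lemma pn_eq_of_subset (r : ℝ) (g : k[X]) {s : Finset ℕ} (hs : g.support ⊆ s) :
    pn μ r g = ∑ i ∈ s, μ (g.coeff i) * r ^ i := by
  unfold pn
  rw [Polynomial.sum_def]
  refine Finset.sum_subset hs fun i _ hi => ?_
  rw [Polynomial.notMem_support_iff.mp hi, map_zero, zero_mul]

lemma pn_eq_range (r : ℝ) (g : k[X]) {n : ℕ} (hn : g.natDegree < n) :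
    pn μ r g = ∑ i ∈ Finset.range n, μ (g.coeff i) * r ^ i := by
  apply pn_eq_of_subset
  intro i hi
  rw [Finset.mem_range]
  exact lt_of_le_of_lt (le_natDegree_of_mem_supp _ hi) hn

lemma pn_monomial (r : ℝ) (n : ℕ) (a : k) : pn μ r (monomial n a) = μ a * r ^ n := by
  simp [pn, Polynomial.sum_monomial_index]

lemma pn_add_le {r : ℝ} (hr : 0 ≤ r) (f g : k[X]) : pn μ r (f + g) ≤ pn μ r f + pn μ r g := by
  classical
  rw [pn_eq_of_subset r (f+g) (Polynomial.support_add),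
    pn_eq_of_subset r f (Finset.subset_union_left (s₂ := g.support)),
    pn_eq_of_subset r g (Finset.subset_union_right (s₁ := f.support)), ← Finset.sum_add_distrib]
  refine Finset.sum_le_sum fun i _ => ?_
  rw [coeff_add, ← add_mul]
  exact mul_le_mul_of_nonneg_right (μ.add_le _ _) (pow_nonneg hr _)

lemma pn_sum_le {r : ℝ} (hr : 0 ≤ r) {ι : Type*} (s : Finset ι) (f : ι → k[X]) :
    pn μ r (∑ i ∈ s, f i) ≤ ∑ i ∈ s, pn μ r (f i) := by
  classical
  induction s using Finset.induction with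
  | empty => simp
  | insert i s hi ih =>
    rw [Finset.sum_insert hi, Finset.sum_insert hi]
    exact (pn_add_le hr _ _).trans (by gcongr)

lemma pn_monomial_mul {r : ℝ} (n : ℕ) (a : k) (g : k[X]) :
    pn μ r (monomial n a * g) = μ a * r ^ n * pn μ r g := by
  have h1 : (monomial n a * g).natDegree < g.natDegree + 1 + n := by
    refine lt_of_le_of_lt natDegree_mul_le ?_
    have := natDegree_monomial_le (R := k) a (m := n)
    omega
  rw [pn_eq_range r _ h1, pn_eq_range r g (Nat.lt_succ_self _), Finset.mul_sum,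
    ← Finset.sum_range_add_sum_Ico _ (Nat.le_add_left n (g.natDegree + 1))]
  have h2 : ∑ x ∈ Finset.range n, μ ((monomial n a * g).coeff x) * r ^ x = 0 := by
    refine Finset.sum_eq_zero fun i hi => ?_
    rw [Finset.mem_range] at hi
    rw [← C_mul_X_pow_eq_monomial, mul_assoc, coeff_C_mul, coeff_X_pow_mul', if_neg (by omega),
      mul_zero, map_zero, zero_mul]
  rw [h2, zero_add, Finset.sum_Ico_eq_sum_range]
  have h3 : g.natDegree + 1 + n - n = g.natDegree.succ := by omega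
  rw [h3]
  refine Finset.sum_congr rfl fun i _ => ?_
  have : n + i - n = i := by omega
  rw [← C_mul_X_pow_eq_monomial, mul_assoc, coeff_C_mul, coeff_X_pow_mul', if_pos (by omega),
    map_mul, pow_add, this]
  ring

lemma pn_mul_le {r : ℝ} (hr : 0 ≤ r) (f g : k[X]) : pn μ r (f * g) ≤ pn μ r f * pn μ r g := by
  conv_lhs => rw [f.as_sum_support]
  rw [Finset.sum_mul]
  refine (pn_sum_le hr _ _).trans ?_
  simp only [pn_monomial_mul]
  rw [← Finset.sum_mul]
  rfl

lemma pn_X_mul {r : ℝ} (g : k[X]) : pn μ r (X * g) = r * pn μ r g := by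
  rw [← monomial_one_one_eq_X, pn_monomial_mul]; simp

lemma pn_X_pow_mul {r : ℝ} (n : ℕ) (g : k[X]) : pn μ r (X ^ n * g) = r ^ n * pn μ r g := by
  rw [← monomial_one_right_eq_X_pow, pn_monomial_mul]; simp

lemma pn_C_mul {r : ℝ} (a : k) (g : k[X]) : pn μ r (C a * g) = μ a * pn μ r g := by
  rw [← monomial_zero_left, pn_monomial_mul]; simp

lemma pn_mono {r r' : ℝ} (hr : 0 ≤ r) (hrr : r ≤ r') (g : k[X]) : pn μ r g ≤ pn μ r' g := by
  unfold pn Polynomial.sum
  refine Finset.sum_le_sum fun i _ => ?_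
  have := μ.nonneg (g.coeff i)
  show μ (g.coeff i) * r ^ i ≤ μ (g.coeff i) * r' ^ i
  gcongr

lemma isBd_pn {r : ℝ} (hr : 0 ≤ r) : IsBd (fun (g : k[X]) c => pn μ r g ≤ c) where
  mono h1 h2 := h1.trans h2
  zero := by simp
  one := by simp
  add {a b c c'} h1 h2 := (pn_add_le hr _ _).trans (add_le_add h1 h2)
  mul {a b c c'} h1 h2 := (pn_mul_le hr _ _).trans
    (mul_le_mul h1 h2 (pn_nonneg hr _) ((pn_nonneg hr _).trans h1))
  nonneg {a c} h := (pn_nonneg hr _).trans h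

lemma coeff_mul_pow_le_pn {r : ℝ} (hr : 0 ≤ r) (g : k[X]) (i : ℕ) :
    μ (g.coeff i) * r ^ i ≤ pn μ r g := by
  rw [pn_eq_range r g (n := max g.natDegree i + 1) (by omega)]
  exact Finset.single_le_sum (f := fun i => μ (g.coeff i) * r ^ i)
    (fun j _ => mul_nonneg (μ.nonneg _) (pow_nonneg hr _)) (Finset.mem_range.mpr (by omega))

lemma eval_le_pn {r : ℝ} (g : k[X]) {a : k} (ha : μ a ≤ r) : μ (g.eval a) ≤ pn μ r g := by
  rw [eval_eq_sum]
  unfold pn Polynomial.sum
  refine (μ.sum_le _ _).trans (Finset.sum_le_sum fun i _ => ?_)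
  have := μ.nonneg a
  have := μ.nonneg (g.coeff i)
  show μ (g.coeff i * a ^ i) ≤ μ (g.coeff i) * r ^ i
  rw [map_mul, map_pow]
  gcongr

/-- (F1) change of centre. -/
lemma pn_taylor_le {ρ r : ℝ} (hρ : 0 ≤ ρ) {a : k} (h : μ a + ρ ≤ r) (g : k[X]) :
    pn μ ρ (taylor a g) ≤ pn μ r g := by
  have h1 : pn μ ρ (X + C a) ≤ r := by
    refine (pn_add_le hρ _ _).trans ?_
    rw [pn_C, ← monomial_one_one_eq_X, pn_monomial]
    simp only [map_one, pow_one, one_mul]
    linarith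
  rw [taylor_apply, comp, eval₂_eq_sum, Polynomial.sum_def]
  refine (pn_sum_le hρ _ _).trans ?_
  have h2 : pn μ r g = ∑ i ∈ g.support, μ (g.coeff i) * r ^ i := rfl
  rw [h2]
  refine Finset.sum_le_sum fun i _ => ?_
  rw [pn_C_mul]
  have h3 : pn μ ρ ((X + C a) ^ i) ≤ r ^ i := (isBd_pn hρ).pow (a := X + C a) h1 i
  have := μ.nonneg (g.coeff i)
  gcongr

lemma taylor_coeff_zero_eq (a : k) (g : k[X]) : (taylor a g).coeff 0 = g.eval a := by
  simp

/-- (F2) a small value gives a small norm on a small disc. -/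
lemma pn_le_of_radius {ρ ρ' : ℝ} (hρ : 0 ≤ ρ) (hρ' : 0 < ρ') (hle : ρ ≤ ρ') (g : k[X]) :
    pn μ ρ g ≤ μ (g.coeff 0) + ρ / ρ' * pn μ ρ' g := by
  have h0 : 0 ≤ ρ / ρ' := by positivity
  have h1 : ρ / ρ' ≤ 1 := (div_le_one hρ').mpr hle
  rw [pn_eq_range ρ g (n := g.natDegree + 1) (by omega), pn_eq_range ρ' g (n := g.natDegree + 1)
    (by omega), Finset.mul_sum, Finset.sum_range_succ', add_comm, Finset.sum_range_succ']
  simp only [pow_zero, mul_one]
  have h2 : ∑ i ∈ Finset.range g.natDegree, μ (g.coeff (i + 1)) * ρ ^ (i + 1) ≤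
      ∑ i ∈ Finset.range g.natDegree, ρ / ρ' * (μ (g.coeff (i + 1)) * ρ' ^ (i + 1)) := by
    refine Finset.sum_le_sum fun i _ => ?_
    have e1 : ρ ^ (i+1) = (ρ/ρ')^(i+1) * ρ' ^ (i+1) := by
      rw [← mul_pow, div_mul_cancel₀ _ hρ'.ne']
    have e2 : (ρ/ρ')^(i+1) ≤ ρ / ρ' := pow_le_of_le_one h0 h1 (Nat.succ_ne_zero i)
    rw [e1]
    have := μ.nonneg (g.coeff (i+1))
    calc μ (g.coeff (i + 1)) * ((ρ / ρ') ^ (i + 1) * ρ' ^ (i + 1))
        = (ρ / ρ') ^ (i + 1) * (μ (g.coeff (i + 1)) * ρ' ^ (i + 1)) := by ring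
      _ ≤ _ := by gcongr
  have h3 : 0 ≤ ρ / ρ' * μ (g.coeff 0) := mul_nonneg h0 (μ.nonneg _)
  linarith

/-- (F3) division by `X` on a disc around `a`. -/
lemma pn_taylor_X_mul {ρ : ℝ} (hρ : 0 ≤ ρ) (a : k) (g : k[X]) :
    (μ a - ρ) * pn μ ρ (taylor a g) ≤ pn μ ρ (taylor a (X * g)) := by
  rw [taylor_mul, taylor_X, add_mul]
  have h1 : pn μ ρ (C a * taylor a g) ≤
      pn μ ρ (X * taylor a g + C a * taylor a g) + pn μ ρ (-(X * taylor a g)) := by
    have := pn_add_le hρ (X * taylor a g + C a * taylor a g) (-(X * taylor a g)) (μ := μ)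
    rwa [add_neg_cancel_comm] at this
  have h2 : pn μ ρ (-(X * taylor a g)) = ρ * pn μ ρ (taylor a g) := by
    have : -(X * taylor a g) = C (-1) * (X * taylor a g) := by simp
    rw [this, pn_C_mul, pn_X_mul]; simp
  rw [pn_C_mul, h2] at h1
  linarith

lemma pn_taylor_X_pow_mul {ρ : ℝ} (hρ : 0 ≤ ρ) (a : k) (haρ : ρ ≤ μ a) (n : ℕ) (g : k[X]) :
    (μ a - ρ) ^ n * pn μ ρ (taylor a g) ≤ pn μ ρ (taylor a (X ^ n * g)) := by
  induction n with
  | zero => simp
  | succ n ih =>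
    rw [pow_succ', pow_succ', mul_assoc, mul_assoc]
    refine le_trans ?_ (pn_taylor_X_mul hρ a _)
    have : 0 ≤ μ a - ρ := by linarith
    gcongr

/-- (F4) interpolation: value at `0` from two norms around `a`. -/
lemma eval_zero_le_interp {ρ ρ' : ℝ} (hρ : 0 < ρ) {a : k} (h1 : ρ ≤ μ a) (h2 : μ a ≤ ρ')
    (g : k[X]) (b : ℕ) :
    μ (g.eval 0) ≤ (μ a / ρ) ^ b * pn μ ρ (taylor a g) + (μ a / ρ') ^ b * pn μ ρ' (taylor a g) := by
  have ha : 0 < μ a := hρ.trans_le h1
  have hρ' : 0 < ρ' := ha.trans_le h2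
  set h := taylor a g with hh
  have e0 : g.eval 0 = h.eval (-a) := by
    rw [hh, taylor_eval]; simp
  rw [e0, eval_eq_sum_range, pn_eq_range ρ h (Nat.lt_succ_self _),
    pn_eq_range ρ' h (Nat.lt_succ_self _), Finset.mul_sum, Finset.mul_sum,
    ← Finset.sum_add_distrib]
  refine (μ.sum_le _ _).trans (Finset.sum_le_sum fun i _ => ?_)
  rw [map_mul, map_pow, AbsoluteValue.map_neg]
  have hc := μ.nonneg (h.coeff i)
  have p1 : 0 ≤ (μ a / ρ) ^ b * (μ (h.coeff i) * ρ ^ i) := by positivity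
  have p2 : 0 ≤ (μ a / ρ') ^ b * (μ (h.coeff i) * ρ' ^ i) := by positivity
  rcases le_total i b with hib | hib
  · have : μ (h.coeff i) * μ a ^ i ≤ (μ a / ρ) ^ b * (μ (h.coeff i) * ρ ^ i) := by
      have e1 : μ a ^ i = (μ a / ρ) ^ i * ρ ^ i := by
        rw [← mul_pow, div_mul_cancel₀ _ hρ.ne']
      rw [e1]
      have e2 : (μ a / ρ) ^ i ≤ (μ a / ρ) ^ b :=
        pow_le_pow_right₀ ((one_le_div hρ).mpr h1) hib
      calc μ (h.coeff i) * ((μ a / ρ) ^ i * ρ ^ i)
          = (μ a / ρ) ^ i * (μ (h.coeff i) * ρ ^ i) := by ring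
        _ ≤ _ := by gcongr
    linarith
  · have : μ (h.coeff i) * μ a ^ i ≤ (μ a / ρ') ^ b * (μ (h.coeff i) * ρ' ^ i) := by
      have e1 : μ a ^ i = (μ a / ρ') ^ i * ρ' ^ i := by
        rw [← mul_pow, div_mul_cancel₀ _ hρ'.ne']
      rw [e1]
      have e2 : (μ a / ρ') ^ i ≤ (μ a / ρ') ^ b :=
        pow_le_pow_of_le_one (by positivity) ((div_le_one hρ').mpr h2) hib
      calc μ (h.coeff i) * ((μ a / ρ') ^ i * ρ' ^ i)
          = (μ a / ρ') ^ i * (μ (h.coeff i) * ρ' ^ i) := by ring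
        _ ≤ _ := by gcongr
    linarith

end pn

end Pool.Agent.VCH
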