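import Pool.Agent.Lib.MP_30aac3_nt.Defs

/-!
Places of a function field of one variable over an algebraically closed field.
-/

open Polynomial WithZero

open scoped IntermediateField.algebraAdjoinAdjoin

namespace Pool.Agent.VCH

section funfield

variable {k L : Type*} [Field k] [Field L] [Algebra k L]

lemma IsFunField.isAlgebraic (h : IsFunField k L) {y : L} (hy : Transcendental k y) :
    Algebra.IsAlgebraic (IntermediateField.adjoin k {y}) L := by
  obtain ⟨x, -, hx⟩ := h
  have h1 : Algebra.IsAlgebraic (IntermediateField.adjoin k {x}) L := inferInstance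
  have h2 : Algebra.IsAlgebraic (Algebra.adjoin k {x}) L :=
    Algebra.IsAlgebraic.trans _ (IntermediateField.adjoin k {x}) _
  have h3 : Algebra.trdeg k L ≤ 1 := by
    have := Algebra.IsAlgebraic.trdeg_le_cardinalMk k ({x} : Set L)
    simpa using this
  have h4 : AlgebraicIndependent k (fun _ : Unit => y) := by
    rw [algebraicIndependent_unique_type_iff]
    exact hy
  have h5 := h4.isTranscendenceBasis_of_lift_trdeg_le_of_finite (by simpa using h3)
  have h6 := h5.isAlgebraic_field
  have h7 : Set.range (fun _ : Unit => y) = {y} := by simp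
  rw [h7] at h6
  exact h6

lemma IsFunField.essFinite (h : IsFunField k L) : Algebra.EssFiniteType k L := by
  obtain ⟨x, -, hx⟩ := h
  have h1 : Algebra.EssFiniteType k (IntermediateField.adjoin k {x}) := by
    rw [IntermediateField.essFiniteType_iff]
    exact IntermediateField.fg_adjoin_of_finite (Set.finite_singleton x)
  exact Algebra.EssFiniteType.comp k (IntermediateField.adjoin k {x}) L

lemma IsFunField.finiteDimensional (h : IsFunField k L) {y : L} (hy : Transcendental k y) :
    FiniteDimensional (IntermediateField.adjoin k {y}) L := by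
  have h1 := h.isAlgebraic hy
  have h2 := h.essFinite
  have h3 : Algebra.EssFiniteType (IntermediateField.adjoin k {y}) L :=
    Algebra.EssFiniteType.of_comp k _ _
  obtain ⟨s, hs⟩ := (IntermediateField.fg_top_iff
    (F := IntermediateField.adjoin k {y}) (E := L)).mpr h3
  have h4 : FiniteDimensional (IntermediateField.adjoin k {y})
      (IntermediateField.adjoin (IntermediateField.adjoin k {y}) (s : Set L)) :=
    IntermediateField.finiteDimensional_adjoin fun z _ => h1.isIntegral.isIntegral z
  rw [hs] at h4
  exact (IntermediateField.topEquiv (F := IntermediateField.adjoin k {y})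
    (E := L)).toLinearEquiv.finiteDimensional

end funfield

namespace Place

variable {k L : Type*} [Field k] [Field L] [Algebra k L]

lemma v_algebraMap_le (t : Place k L) (c : k) : t.v (algebraMap k L c) ≤ 1 := by
  by_cases hc : c = 0
  · subst hc; simp
  · exact (t.triv c hc).le

lemma v_algebraMap_lt_iff (t : Place k L) (c : k) : t.v (algebraMap k L c) < 1 ↔ c = 0 := by
  constructor
  · intro h
    by_contra hc
    exact h.ne (t.triv c hc)
  · rintro rfl; simp

/-- Over an algebraically closed field of constants the residue field of a place is the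
constant field. -/
lemma exists_residue [IsAlgClosed k] (hL : IsFunField k L) (t : Place k L) {φ : L}
    (hφ : t.v φ ≤ 1) : ∃ c : k, t.v (φ - algebraMap k L c) < 1 := by
  by_contra hcon
  push Not at hcon
  have h1 : ∀ c : k, t.v (φ - algebraMap k L c) = 1 := fun c =>
    le_antisymm ((t.v.map_sub _ _).trans (max_le hφ (t.v_algebraMap_le c))) (hcon c)
  have h2 : ∀ p : k[X], p ≠ 0 → t.v (aeval φ p) = 1 := by
    intro p hp
    have hs := IsAlgClosed.splits p
    rw [hs.eq_prod_roots, map_mul, map_mul, aeval_C, t.triv _ (leadingCoeff_ne_zero.mpr hp),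
      one_mul, map_multiset_prod, map_multiset_prod, Multiset.map_map, Multiset.map_map]
    apply Multiset.prod_eq_one
    intro z hz
    rw [Multiset.mem_map] at hz
    obtain ⟨r, -, rfl⟩ := hz
    simp only [Function.comp_apply, map_sub, aeval_X, aeval_C]
    exact h1 r
  have h3 : Transcendental k φ := by
    intro halg
    obtain ⟨p, hp, hp0⟩ := halg
    have := h2 p hp
    rw [hp0] at this
    simp at this
  have h4 := hL.isAlgebraic h3
  have h5 : ∀ z ∈ IntermediateField.adjoin k {φ}, t.v z ≤ 1 := by
    intro z hz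
    rw [IntermediateField.mem_adjoin_simple_iff] at hz
    obtain ⟨r, s, rfl⟩ := hz
    by_cases hr : r = 0
    · subst hr; simp
    by_cases hs : s = 0
    · subst hs; simp
    rw [map_div₀, h2 r hr, h2 s hs]
    simp
  obtain ⟨z, hz⟩ := t.surj (exp (1 : ℤ))
  have h6 : IsIntegral (IntermediateField.adjoin k {φ}) z := h4.isIntegral.isIntegral z
  have h7 : IsIntegral t.v.valuationSubring z := by
    have e : (algebraMap t.v.valuationSubring L).comp
        ((algebraMap (IntermediateField.adjoin k {φ}) L).codRestrict t.v.valuationSubring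
        (fun z => h5 z.1 z.2)) = (RingHom.id L).comp
          (algebraMap (IntermediateField.adjoin k {φ}) L) := rfl
    exact IsIntegral.map_of_comp_eq _ (RingHom.id L) e h6
  have h8 : z ∈ t.v.valuationSubring := by
    obtain ⟨w, hw⟩ := IsIntegrallyClosed.isIntegral_iff.mp h7
    rw [← hw]
    exact w.2
  rw [Valuation.mem_valuationSubring_iff, hz] at h8
  exact absurd h8 (by
    rw [not_le, ← exp_zero]
    exact exp_lt_exp.mpr (by norm_num))

open Classical in
/-- value of a function at a place. -/
noncomputable def val (t : Place k L) (φ : L) : k :=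
  if h : ∃ c : k, t.v (φ - algebraMap k L c) < 1 then h.choose else 0

lemma val_eq (t : Place k L) {φ : L} {c : k} (h : t.v (φ - algebraMap k L c) < 1) :
    t.val φ = c := by
  have h1 : ∃ c : k, t.v (φ - algebraMap k L c) < 1 := ⟨c, h⟩
  have h2 : t.v (φ - algebraMap k L (t.val φ)) < 1 := by
    unfold val
    rw [dif_pos h1]
    exact h1.choose_spec
  have h3 : t.v (algebraMap k L (t.val φ - c)) < 1 := by
    have e : algebraMap k L (t.val φ - c) =
        (φ - algebraMap k L c) - (φ - algebraMap k L (t.val φ)) := by rw [map_sub]; ring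
    rw [e]
    exact (t.v.map_sub _ _).trans_lt (max_lt h h2)
  rw [v_algebraMap_lt_iff] at h3
  exact sub_eq_zero.mp h3

@[simp] lemma val_algebraMap (t : Place k L) (c : k) : t.val (algebraMap k L c) = c :=
  t.val_eq (by simp)

@[simp] lemma val_zero (t : Place k L) : t.val 0 = 0 := by
  have := t.val_algebraMap 0
  rwa [map_zero] at this

@[simp] lemma val_one (t : Place k L) : t.val 1 = 1 := by
  have := t.val_algebraMap 1
  rwa [map_one] at this

section

variable [IsAlgClosed k] (hL : IsFunField k L) (t : Place k L)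

include hL

lemma val_spec {φ : L} (h : t.v φ ≤ 1) : t.v (φ - algebraMap k L (t.val φ)) < 1 := by
  obtain ⟨c, hc⟩ := t.exists_residue hL h
  rwa [t.val_eq hc]

lemma val_add {φ ψ : L} (h1 : t.v φ ≤ 1) (h2 : t.v ψ ≤ 1) :
    t.val (φ + ψ) = t.val φ + t.val ψ := by
  apply t.val_eq
  have e : φ + ψ - algebraMap k L (t.val φ + t.val ψ) =
      (φ - algebraMap k L (t.val φ)) + (ψ - algebraMap k L (t.val ψ)) := by
    rw [map_add]; ring
  rw [e]
  exact (t.v.map_add _ _).trans_lt (max_lt (t.val_spec hL h1) (t.val_spec hL h2))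

lemma val_mul {φ ψ : L} (h1 : t.v φ ≤ 1) (h2 : t.v ψ ≤ 1) :
    t.val (φ * ψ) = t.val φ * t.val ψ := by
  apply t.val_eq
  have e : φ * ψ - algebraMap k L (t.val φ * t.val ψ) =
      (φ - algebraMap k L (t.val φ)) * ψ +
        algebraMap k L (t.val φ) * (ψ - algebraMap k L (t.val ψ)) := by
    rw [map_mul]; ring
  rw [e]
  refine (t.v.map_add _ _).trans_lt (max_lt ?_ ?_)
  · rw [map_mul]
    exact lt_of_le_of_lt (mul_le_of_le_one_right' h2) (t.val_spec hL h1)
  · rw [map_mul]
    exact lt_of_le_of_lt (mul_le_of_le_one_left' (t.v_algebraMap_le _)) (t.val_spec hL h2)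

lemma val_eq_zero_iff {φ : L} (h : t.v φ ≤ 1) : t.val φ = 0 ↔ t.v φ < 1 := by
  constructor
  · intro h0
    have := t.val_spec hL h
    rwa [h0, map_zero, sub_zero] at this
  · intro h0
    apply t.val_eq
    rwa [map_zero, sub_zero]

lemma val_ne_zero_iff {φ : L} (h : t.v φ ≤ 1) : t.val φ ≠ 0 ↔ t.v φ = 1 := by
  rw [Ne, t.val_eq_zero_iff hL h]
  constructor
  · intro h1
    exact le_antisymm h (not_lt.mp h1)
  · intro h1
    rw [h1]; exact lt_irrefl _

lemma val_div {φ ψ : L} (h1 : t.v φ ≤ 1) (h2 : t.v ψ = 1) :
    t.val (φ / ψ) = t.val φ / t.val ψ := by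
  have h3 : t.v (φ / ψ) ≤ 1 := by rw [map_div₀, h2, div_one]; exact h1
  have h4 : t.val ψ ≠ 0 := (t.val_ne_zero_iff hL h2.le).mpr h2
  have hψ : ψ ≠ 0 := by
    rintro rfl
    simp at h2
  rw [eq_div_iff h4, ← t.val_mul hL h3 h2.le, div_mul_cancel₀ _ hψ]

/-- evaluation at a place as a homomorphism. -/
noncomputable def hom {A : Type*} [CommRing A] [Algebra k A] [Algebra A L]
    [IsScalarTower k A L] (hA : ∀ φ : A, t.v (algebraMap A L φ) ≤ 1) : A →ₐ[k] k where
  toFun φ := t.val (algebraMap A L φ)
  map_one' := by rw [map_one, val_one]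
  map_mul' φ ψ := by rw [map_mul, t.val_mul hL (hA _) (hA _)]
  map_zero' := by rw [map_zero, val_zero]
  map_add' φ ψ := by rw [map_add, t.val_add hL (hA _) (hA _)]
  commutes' c := by
    rw [← IsScalarTower.algebraMap_apply, val_algebraMap]
    rfl

lemma hom_apply {A : Type*} [CommRing A] [Algebra k A] [Algebra A L]
    [IsScalarTower k A L] (hA : ∀ φ : A, t.v (algebraMap A L φ) ≤ 1) (φ : A) :
    t.hom hL hA φ = t.val (algebraMap A L φ) := rfl

end

end Place

end Pool.Agent.VCH
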