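import Pool.Agent.Lib.MP_30aac3_nt.Clear

/-!
Estimates near a puncture for functions, vectors and orbits over the function field.
-/

set_option linter.unusedSectionVars false

open Filter WithZero

namespace Pool.Agent.VCH

section site

variable {k L A : Type*} [Field k] [IsAlgClosed k] [Field L] [Algebra k L] [CommRing A]
  [IsDedekindDomain A] [Algebra k A] [Algebra A L] [IsScalarTower k A L]
  [IsFractionRing A L] {s : Place k L} (U : Uni A s) (hL : IsFunField k L)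
  (hs : ∀ φ : A, s.v (algebraMap A L φ) ≤ 1) (hft : Algebra.FiniteType k A)

/-- value of the local parameter. -/
noncomputable def Uni.par (t : Place k L) : k :=
  t.val (algebraMap A L U.φ1) / t.val (algebraMap A L U.ψ1)

/-- nearness. -/
def Uni.Near (q : AbsoluteValue k ℝ × ℝ) (t : Place k L) : Prop :=
  ∀ i, q.1 (t.val (algebraMap A L ((U.chart hL hs hft).y i))) * q.2 ^ 8 ≤ 1

lemma Uni.ev_basic : ∀ᶠ q in ctl k, ∀ (t : Place k L)
    (ht : ∀ φ : A, t.v (algebraMap A L φ) ≤ 1), U.Near hL hs hft q t →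
    (U.chart hL hs hft).Pt (t.hom hL ht) (U.par t) ∧ q.1 (U.par t) * q.2 ^ 5 ≤ 1 ∧
      ∀ i, q.1 (t.hom hL ht ((U.chart hL hs hft).y i)) ≤ 1 := by
  filter_upwards [(U.chart hL hs hft).ev_near U.φ1 U.ψ1 (U.chart_s_φ1 hL hs hft)
    (U.chart_s_ψ1 hL hs hft), ctl_const 1] with q h1 h2 t ht hn
  obtain ⟨h3, h4⟩ := h1 (t.hom hL ht) hn
  refine ⟨U.chart_pt hL hs hft (t.hom hL ht) h3, h4, fun i => ?_⟩
  have h5 := hn i
  have h6 : (1:ℝ) ≤ q.2 ^ 8 := one_le_pow₀ h2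
  have h7 := q.1.nonneg (t.hom hL ht ((U.chart hL hs hft).y i))
  calc q.1 (t.hom hL ht ((U.chart hL hs hft).y i))
      ≤ q.1 (t.hom hL ht ((U.chart hL hs hft).y i)) * q.2 ^ 8 := le_mul_of_one_le_right h7 h6
    _ ≤ 1 := h5

lemma Uni.ev_ratioA (φ : A) (hφ : φ ≠ 0) : ∀ᶠ q in ctl k, ∀ (t : Place k L),
    (∀ φ : A, t.v (algebraMap A L φ) ≤ 1) → U.Near hL hs hft q t → U.par t ≠ 0 →
    t.v (algebraMap A L φ) = 1 ∧
      q.1 (U.par t) ^ (s.ord (algebraMap A L φ)) ≤ q.2 ^ 2 * q.1 (t.val (algebraMap A L φ)) ∧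
      q.1 (t.val (algebraMap A L φ)) ≤ q.2 * q.1 (U.par t) ^ (s.ord (algebraMap A L φ)) := by
  have h0 : 0 ≤ s.ord (algebraMap A L φ) := (Place.v_le_one_iff (Uni.aM_ne hφ)).mp (hs _)
  obtain ⟨E, hE⟩ := Int.eq_ofNat_of_zero_le h0
  have hv : s.v (algebraMap A L φ) = exp (-(E : ℤ)) := by
    rw [Place.v_eq (Uni.aM_ne hφ), hE]
  filter_upwards [U.ev_basic hL hs hft, (U.chart hL hs hft).ev_ratio φ E
    (fun l hl => U.chart_s_lt hL hs hft hv.le hl) (U.chart_s_eq hL hs hft hv), ctl_const 1] with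
    q h1 h2 h3 t ht hn hp
  obtain ⟨h4, h5, h6⟩ := h1 t ht hn
  obtain ⟨h7, h8⟩ := h2 _ _ h4 h6 h5
  rw [hE]
  refine ⟨?_, ?_, ?_⟩
  · rw [← t.val_ne_zero_iff hL (ht φ)]
    intro h9
    have h10 : 0 < q.1 (U.par t) ^ E := pow_pos (q.1.pos hp) _
    have h11 : (t.hom hL ht) φ = 0 := h9
    rw [h11, map_zero, mul_zero] at h7
    linarith
  · rw [zpow_natCast]; exact h7
  · rw [zpow_natCast]; exact h8

lemma Uni.ev_ratioL (x : L) (hx : x ≠ 0) : ∀ᶠ q in ctl k, ∀ (t : Place k L),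
    (∀ φ : A, t.v (algebraMap A L φ) ≤ 1) → U.Near hL hs hft q t → U.par t ≠ 0 →
    t.v x = 1 ∧
      q.1 (U.par t) ^ (s.ord x) ≤ q.2 ^ 3 * q.1 (t.val x) ∧
      q.1 (t.val x) ≤ q.2 ^ 3 * q.1 (U.par t) ^ (s.ord x) := by
  obtain ⟨φ, φ', hφ', rfl⟩ := IsFractionRing.div_surjective (A := A) x
  have h1 : φ' ≠ 0 := nonZeroDivisors.ne_zero hφ'
  have h2 : φ ≠ 0 := by
    rintro rfl
    simp at hx
  filter_upwards [U.ev_ratioA hL hs hft φ h2, U.ev_ratioA hL hs hft φ' h1, ctl_const 1] with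
    q h3 h4 h5 t ht hn hp
  obtain ⟨a1, a2, a3⟩ := h3 t ht hn hp
  obtain ⟨b1, b2, b3⟩ := h4 t ht hn hp
  have hH0 : 0 < q.2 := by linarith
  have hα := q.1.pos hp
  have hb : 0 < q.1 (t.val (algebraMap A L φ')) :=
    q.1.pos ((t.val_ne_zero_iff hL b1.le).mpr b1)
  have hz : 0 < q.1 (U.par t) ^ (s.ord (algebraMap A L φ')) := zpow_pos hα _
  refine ⟨by rw [map_div₀, a1, b1, div_one], ?_, ?_⟩
  · rw [t.val_div hL a1.le b1, map_div₀, Place.ord_div (Uni.aM_ne h2) (Uni.aM_ne h1),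
      zpow_sub₀ hα.ne', mul_div_assoc', div_le_div_iff₀ hz hb]
    calc q.1 (U.par t) ^ (s.ord (algebraMap A L φ)) * q.1 (t.val (algebraMap A L φ'))
        ≤ (q.2 ^ 2 * q.1 (t.val (algebraMap A L φ))) *
          (q.2 * q.1 (U.par t) ^ (s.ord (algebraMap A L φ'))) := by
          have := q.1.nonneg (t.val (algebraMap A L φ))
          gcongr
      _ = _ := by ring
  · rw [t.val_div hL a1.le b1, map_div₀, Place.ord_div (Uni.aM_ne h2) (Uni.aM_ne h1),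
      zpow_sub₀ hα.ne', mul_div_assoc', div_le_div_iff₀ hb hz]
    calc q.1 (t.val (algebraMap A L φ)) * q.1 (U.par t) ^ (s.ord (algebraMap A L φ'))
        ≤ (q.2 * q.1 (U.par t) ^ (s.ord (algebraMap A L φ))) *
          (q.2 ^ 2 * q.1 (t.val (algebraMap A L φ'))) := by gcongr
      _ = _ := by ring

lemma zpow_anti {α : ℝ} (h0 : 0 < α) (h1 : α ≤ 1) {m n : ℤ} (h : m ≤ n) : α ^ n ≤ α ^ m :=
  zpow_le_zpow_right_of_le_one₀ h0 h1 h

lemma Uni.ev_ratioV {ι : Type*} [Fintype ι] (x : ι → L) (hx : x ≠ 0) :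
    ∀ᶠ q in ctl k, ∀ (t : Place k L),
    (∀ φ : A, t.v (algebraMap A L φ) ≤ 1) → U.Near hL hs hft q t → U.par t ≠ 0 →
      q.1 (U.par t) ^ (s.ordv x) ≤ q.2 ^ 3 * vn q.1 (fun i => t.val (x i)) ∧
      vn q.1 (fun i => t.val (x i)) ≤ q.2 ^ 3 * q.1 (U.par t) ^ (s.ordv x) := by
  have hne : Nonempty ι := by
    obtain ⟨i, -⟩ := Function.ne_iff.mp hx
    exact ⟨i⟩
  have h1 : ∀ᶠ q in ctl k, ∀ i : ι, x i ≠ 0 → ∀ (t : Place k L),
    (∀ φ : A, t.v (algebraMap A L φ) ≤ 1) → U.Near hL hs hft q t → U.par t ≠ 0 →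
    t.v (x i) = 1 ∧
      q.1 (U.par t) ^ (s.ord (x i)) ≤ q.2 ^ 3 * q.1 (t.val (x i)) ∧
      q.1 (t.val (x i)) ≤ q.2 ^ 3 * q.1 (U.par t) ^ (s.ord (x i)) := by
    rw [Filter.eventually_all]
    intro i
    by_cases hi : x i = 0
    · exact Filter.Eventually.of_forall fun q h => absurd hi h
    · filter_upwards [U.ev_ratioL hL hs hft (x i) hi] with q hq _
      exact hq
  filter_upwards [h1, U.ev_basic hL hs hft, ctl_const 1] with q h1 h2 h3 t ht hn hp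
  obtain ⟨-, h4, -⟩ := h2 t ht hn
  have hα := q.1.pos hp
  have hα1 : q.1 (U.par t) ≤ 1 := by
    refine le_trans ?_ h4
    exact le_mul_of_one_le_right hα.le (one_le_pow₀ h3)
  constructor
  · obtain ⟨i, hi0, hi⟩ := s.exists_ord_eq hx
    obtain ⟨-, h5, -⟩ := h1 i hi0 t ht hn hp
    rw [hi] at h5
    have h6 := le_vn (μ := q.1) (fun i => t.val (x i)) i
    refine h5.trans ?_
    gcongr
  · refine vn_le (by positivity) fun i => ?_
    by_cases hi0 : x i = 0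
    · rw [hi0, Place.val_zero, map_zero]
      positivity
    · obtain ⟨-, -, h5⟩ := h1 i hi0 t ht hn hp
      have h6 := zpow_anti hα hα1 (s.ordv_le_ord hi0)
      refine h5.trans ?_
      gcongr

include hL in
lemma kap_val {b1 b2 : A} {d : ℕ} (t : Place k L)
    (ht : ∀ φ : A, t.v (algebraMap A L φ) ≤ 1) (m : ℕ) :
    t.val (algebraMap A L (kap b1 b2 d (m + 1))) =
      t.val (algebraMap A L b1) * t.val (algebraMap A L (kap b1 b2 d m)) ^ d := by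
  have h := map_mul (t.hom hL ht) b1 (kap b1 b2 d m ^ d)
  rw [map_pow] at h
  exact h

lemma kap_ord {b1 b2 : A} {d : ℕ} (h1 : b1 ≠ 0) (h2 : b2 ≠ 0) (m : ℕ) :
    s.ord (algebraMap A L (kap b1 b2 d (m + 1))) =
      s.ord (algebraMap A L b1) + d * s.ord (algebraMap A L (kap b1 b2 d m)) := by
  have hk := kap_ne h1 h2 d m
  rw [kap, map_mul, Place.ord_mul (Uni.aM_ne h1) (Uni.aM_ne (pow_ne_zero _ hk)), map_pow,
    Place.ord_pow]

lemma Uni.ev_kap {b1 b2 : A} {d : ℕ} (hd : 2 ≤ d) (hb1 : b1 ≠ 0) (hb2 : b2 ≠ 0) :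
    ∀ᶠ q in ctl k, ∀ (t : Place k L),
    (∀ φ : A, t.v (algebraMap A L φ) ≤ 1) → U.Near hL hs hft q t → U.par t ≠ 0 → ∀ m : ℕ,
      t.v (algebraMap A L (kap b1 b2 d m)) = 1 ∧
      q.1 (U.par t) ^ (s.ord (algebraMap A L (kap b1 b2 d m))) ≤
        q.2 ^ (6 * d ^ m - 3) * q.1 (t.val (algebraMap A L (kap b1 b2 d m))) ∧
      q.1 (t.val (algebraMap A L (kap b1 b2 d m))) ≤
        q.2 ^ (6 * d ^ m - 3) * q.1 (U.par t) ^ (s.ord (algebraMap A L (kap b1 b2 d m))) := by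
  filter_upwards [U.ev_ratioL hL hs hft _ (Uni.aM_ne hb1), U.ev_ratioL hL hs hft _
    (Uni.aM_ne hb2), ctl_const 1] with q h1 h2 h3 t ht hn hp m
  obtain ⟨a1, a2, a3⟩ := h1 t ht hn hp
  have hα := q.1.pos hp
  have hH0 : 0 < q.2 := by linarith
  induction m with
  | zero =>
    obtain ⟨b1, b2, b3⟩ := h2 t ht hn hp
    exact ⟨b1, by simpa [kap] using b2, by simpa [kap] using b3⟩
  | succ m ih =>
    obtain ⟨c1, c2, c3⟩ := ih
    rw [kap_val hL t ht, kap_ord hb1 hb2, zpow_add₀ hα.ne', mul_comm (d : ℤ), zpow_mul,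
      zpow_natCast, map_mul, map_pow]
    have hdm : 1 ≤ d ^ m := Nat.one_le_pow _ _ (by omega)
    have hpow : 3 + (6 * d ^ m - 3) * d ≤ 6 * d ^ (m + 1) - 3 := by
      have e1 : (6 * d ^ m - 3) * d = 6 * d ^ (m + 1) - 3 * d := by
        rw [Nat.sub_mul, pow_succ, mul_assoc]
      have e2 : d ≤ d ^ (m + 1) := by
        calc d = d ^ 1 := (pow_one d).symm
          _ ≤ d ^ (m + 1) := Nat.pow_le_pow_right (by omega) (by omega)
      omega
    have hpow' : q.2 ^ 3 * (q.2 ^ (6 * d ^ m - 3)) ^ d ≤ q.2 ^ (6 * d ^ (m + 1) - 3) := by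
      rw [← pow_mul, ← pow_add]
      exact pow_le_pow_right₀ h3 hpow
    have n1 := q.1.nonneg (t.val (algebraMap A L b1))
    have n2 := q.1.nonneg (t.val (algebraMap A L (kap b1 b2 d m)))
    have n3 : 0 < q.1 (U.par t) ^ (s.ord (algebraMap A L b1)) := zpow_pos hα _
    have n4 : 0 < q.1 (U.par t) ^ (s.ord (algebraMap A L (kap b1 b2 d m))) := zpow_pos hα _
    refine ⟨?_, ?_, ?_⟩
    · rw [kap, map_mul, map_mul, map_pow, map_pow, a1, c1, one_pow, one_mul]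
    · calc q.1 (U.par t) ^ (s.ord (algebraMap A L b1)) *
          (q.1 (U.par t) ^ (s.ord (algebraMap A L (kap b1 b2 d m)))) ^ d
          ≤ (q.2 ^ 3 * q.1 (t.val (algebraMap A L b1))) *
            (q.2 ^ (6 * d ^ m - 3) * q.1 (t.val (algebraMap A L (kap b1 b2 d m)))) ^ d := by
            gcongr
        _ = (q.2 ^ 3 * (q.2 ^ (6 * d ^ m - 3)) ^ d) * (q.1 (t.val (algebraMap A L b1)) *
            q.1 (t.val (algebraMap A L (kap b1 b2 d m))) ^ d) := by rw [mul_pow]; ring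
        _ ≤ _ := by gcongr
    · calc q.1 (t.val (algebraMap A L b1)) * q.1 (t.val (algebraMap A L (kap b1 b2 d m))) ^ d
          ≤ (q.2 ^ 3 * q.1 (U.par t) ^ (s.ord (algebraMap A L b1))) *
            (q.2 ^ (6 * d ^ m - 3) *
              q.1 (U.par t) ^ (s.ord (algebraMap A L (kap b1 b2 d m)))) ^ d := by
            gcongr
        _ = (q.2 ^ 3 * (q.2 ^ (6 * d ^ m - 3)) ^ d) *
            (q.1 (U.par t) ^ (s.ord (algebraMap A L b1)) *
            (q.1 (U.par t) ^ (s.ord (algebraMap A L (kap b1 b2 d m)))) ^ d) := by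
            rw [mul_pow]; ring
        _ ≤ _ := by gcongr

end site

end Pool.Agent.VCH
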