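import Pool.Agent.Lib.MP_30aac3_nt.SiteL

/-!
Orbit estimates near a puncture, over the function field.
-/

set_option linter.unusedSectionVars false

open Filter WithZero

namespace Pool.Agent.VCH

section site

variable {k L A : Type*} [Field k] [IsAlgClosed k] [Field L] [Algebra k L] [CommRing A]
  [IsDedekindDomain A] [Algebra k A] [Algebra A L] [IsScalarTower k A L]
  [IsFractionRing A L] {s : Place k L} (U : Uni A s) (hL : IsFunField k L)
  (hs : ∀ φ : A, s.v (algebraMap A L φ) ≤ 1) (hft : Algebra.FiniteType k A)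
  {ι : Type*} [Fintype ι]

theorem Uni.ev_orbit {F : ι → MvPolynomial ι L} {P : ι → L}
    {g : ι → ι → MvPolynomial ι L} {d D : ℕ}
    (hd : 2 ≤ d) (hdD : d ≤ D) (hF : ∀ i, (F i).IsHomogeneous d)
    (hg : ∀ i j, (g i j).IsHomogeneous (D - d))
    (null : ∀ i, MvPolynomial.X i ^ D = ∑ j, g i j * F j) (hP : P ≠ 0) :
    ∃ (C1 C2 n : ℕ) (qv : ℕ → ι → k), (∀ m, qv m ≠ 0) ∧ ∀ᶠ q in ctl k,
      (∀ m, vn q.1 (qv m) ≤ q.2 ^ (n * d ^ m)) ∧
      ∀ (t : Place k L), (∀ φ : A, t.v (algebraMap A L φ) ≤ 1) → U.Near hL hs hft q t →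
        U.par t ≠ 0 → (∀ m i, t.v ((pmap F)^[m] P i) ≤ 1) → ∀ m, 1 ≤ m →
        vn q.1 (fun i => t.val ((pmap F)^[m] P i)) ≤
          q.2 ^ (n * d ^ m) * q.1 (U.par t) ^ (s.ordv ((pmap F)^[m] P)) ∧
        vn q.1 (qv m) ^ C1 * q.1 (U.par t) ^ C2 * q.1 (U.par t) ^ (s.ordv ((pmap F)^[m] P)) ≤
          q.2 ^ (n * d ^ m) * vn q.1 (fun i => t.val ((pmap F)^[m] P i)) := by
  obtain ⟨f, b1, b2, hfd, hb1, hb2, hW⟩ := exists_fam A hd hdD hF hg null hP
  obtain ⟨C1, C2, n, hev⟩ := f.ev_near U hL hs hft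
  have hVne : ∀ m, (pmap F)^[m] P ≠ 0 := by
    intro m h
    apply f.WL_ne (L := L) m
    funext i
    show algebraMap A L (f.W m i) = 0
    rw [hW m i, h]
    simp
  have hWL : ∀ m, f.WL L m = algebraMap A L (kap b1 b2 d m) • ((pmap F)^[m] P) := by
    intro m
    funext i
    exact hW m i
  have hord : ∀ m, (((f.orbit U hL hs hft).E m : ℕ) : ℤ) =
      s.ord (algebraMap A L (kap b1 b2 d m)) + s.ordv ((pmap F)^[m] P) := by
    intro m
    have h1 : (((f.orbit U hL hs hft).E m : ℕ) : ℤ) = s.ordv (f.WL L m) :=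
      Int.toNat_of_nonneg (f.ordv_nonneg hs m)
    rw [h1, hWL m, s.ordv_smul (Uni.aM_ne (kap_ne hb1 hb2 d m)) (hVne m)]
  refine ⟨C1, C2, n + 6, fun m i => (U.chart hL hs hft).s ((f.orbit U hL hs hft).Q m i),
    fun m => (f.orbit U hL hs hft).sQ_ne_zero m, ?_⟩
  filter_upwards [hev, U.ev_kap hL hs hft hd hb1 hb2, U.ev_basic hL hs hft, ctl_const 1] with
    q h1 h2 h3 h4
  rw [hfd] at h1
  obtain ⟨h1a, h1b⟩ := h1
  refine ⟨fun m => (h1a m).trans (pow_le_pow_right₀ h4 (Nat.mul_le_mul_right _ (by omega))), ?_⟩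
  intro t ht hn hp hint m hm
  obtain ⟨h5, h6, h7⟩ := h3 t ht hn
  obtain ⟨h8, h9⟩ := h1b _ _ h5 hp h7 h6 m hm
  obtain ⟨k1, k2, k3⟩ := h2 t ht hn hp m
  have hα := q.1.pos hp
  have hH0 : 0 < q.2 := by linarith
  have hk0 : 0 < q.1 (t.val (algebraMap A L (kap b1 b2 d m))) :=
    q.1.pos ((t.val_ne_zero_iff hL k1.le).mpr k1)
  have hval : (fun i => (t.hom hL ht) (f.W m i)) =
      t.val (algebraMap A L (kap b1 b2 d m)) • fun i => t.val ((pmap F)^[m] P i) := by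
    funext i
    rw [Place.hom_apply, hW m i, t.val_mul hL k1.le (hint m i)]
    rfl
  rw [hval, vn_smul] at h8 h9
  set κ := q.1 (t.val (algebraMap A L (kap b1 b2 d m))) with hκ
  set V := vn q.1 (fun i => t.val ((pmap F)^[m] P i)) with hV
  set α := q.1 (U.par t) with hαdef
  set Q := vn q.1 (fun i => (U.chart hL hs hft).s ((f.orbit U hL hs hft).Q m i)) with hQ
  have hV0 : 0 ≤ V := vn_nonneg _
  have hQ0 : 0 ≤ Q := vn_nonneg _
  have hz : 0 < α ^ (s.ord (algebraMap A L (kap b1 b2 d m))) := zpow_pos hα _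
  have hz' : 0 < α ^ (s.ordv ((pmap F)^[m] P)) := zpow_pos hα _
  have hEz : α ^ ((f.orbit U hL hs hft).E m) =
      α ^ (s.ord (algebraMap A L (kap b1 b2 d m))) * α ^ (s.ordv ((pmap F)^[m] P)) := by
    rw [← zpow_natCast, hord m, zpow_add₀ hα.ne']
  have hpw : q.2 ^ (n * d ^ m) * q.2 ^ (6 * d ^ m - 3) ≤ q.2 ^ ((n + 6) * d ^ m) := by
    rw [← pow_add]
    refine pow_le_pow_right₀ h4 ?_
    rw [add_mul]
    omega
  constructor
  · have e1 : α ^ (s.ord (algebraMap A L (kap b1 b2 d m))) * V ≤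
        α ^ (s.ord (algebraMap A L (kap b1 b2 d m))) *
          (q.2 ^ ((n + 6) * d ^ m) * α ^ (s.ordv ((pmap F)^[m] P))) := by
      calc α ^ (s.ord (algebraMap A L (kap b1 b2 d m))) * V
          ≤ (q.2 ^ (6 * d ^ m - 3) * κ) * V := by gcongr
        _ = q.2 ^ (6 * d ^ m - 3) * (κ * V) := by ring
        _ ≤ q.2 ^ (6 * d ^ m - 3) * (q.2 ^ (n * d ^ m) *
            α ^ ((f.orbit U hL hs hft).E m)) := by gcongr
        _ = (q.2 ^ (n * d ^ m) * q.2 ^ (6 * d ^ m - 3)) *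
            (α ^ (s.ord (algebraMap A L (kap b1 b2 d m))) *
              α ^ (s.ordv ((pmap F)^[m] P))) := by rw [hEz]; ring
        _ ≤ q.2 ^ ((n + 6) * d ^ m) *
            (α ^ (s.ord (algebraMap A L (kap b1 b2 d m))) *
              α ^ (s.ordv ((pmap F)^[m] P))) := by gcongr
        _ = _ := by ring
    exact le_of_mul_le_mul_left e1 hz
  · have e1 : α ^ (s.ord (algebraMap A L (kap b1 b2 d m))) *
        (Q ^ C1 * α ^ C2 * α ^ (s.ordv ((pmap F)^[m] P))) ≤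
        α ^ (s.ord (algebraMap A L (kap b1 b2 d m))) *
          (q.2 ^ ((n + 6) * d ^ m) * V) := by
      calc α ^ (s.ord (algebraMap A L (kap b1 b2 d m))) *
          (Q ^ C1 * α ^ C2 * α ^ (s.ordv ((pmap F)^[m] P)))
          = Q ^ C1 * α ^ (C2 + (f.orbit U hL hs hft).E m) := by rw [pow_add, hEz]; ring
        _ ≤ q.2 ^ (n * d ^ m) * (κ * V) := h9
        _ ≤ q.2 ^ (n * d ^ m) * ((q.2 ^ (6 * d ^ m - 3) *
            α ^ (s.ord (algebraMap A L (kap b1 b2 d m)))) * V) := by gcongr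
        _ = (q.2 ^ (n * d ^ m) * q.2 ^ (6 * d ^ m - 3)) *
            (α ^ (s.ord (algebraMap A L (kap b1 b2 d m))) * V) := by ring
        _ ≤ q.2 ^ ((n + 6) * d ^ m) *
            (α ^ (s.ord (algebraMap A L (kap b1 b2 d m))) * V) := by gcongr
        _ = _ := by ring
    exact le_of_mul_le_mul_left e1 hz

end site

end Pool.Agent.VCH
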