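import Pool.Agent.Lib.MP_30aac3_nt.CanHt

/-!
Values of points at places, and their behaviour under good specialisations.
-/

set_option linter.unusedSectionVars false

open Filter WithZero Topology

namespace Pool.Agent.VCH

section value

variable {k L : Type*} [Field k] [IsAlgClosed k] [Field L] [Algebra k L]
  (hL : IsFunField k L) (t : Place k L)

omit [IsAlgClosed k] in
lemma v_le_one_of_close {t : Place k L} {x : L} {a : k} (h : t.v (x - algebraMap k L a) < 1) :
    t.v x ≤ 1 := by
  have : x = (x - algebraMap k L a) + algebraMap k L a := by ring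
  rw [this]
  exact (t.v.map_add _ _).trans (max_le h.le (t.v_algebraMap_le a))

include hL in
/-- Two specialisations of the same family of functions are proportional. -/
lemma scale_unique {α : Type*} {x : α → L} {a b : α → k} {c c' : L} (hc : c ≠ 0) (hc' : c' ≠ 0)
    (ha : ∀ i, t.v (c * x i - algebraMap k L (a i)) < 1)
    (hb : ∀ i, t.v (c' * x i - algebraMap k L (b i)) < 1)
    (ha0 : a ≠ 0) (hb0 : b ≠ 0) : ∃ γ : k, γ ≠ 0 ∧ b = γ • a := by
  have aux : ∀ {a b : α → k} {c c' : L}, c ≠ 0 → c' ≠ 0 →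
      (∀ i, t.v (c * x i - algebraMap k L (a i)) < 1) →
      (∀ i, t.v (c' * x i - algebraMap k L (b i)) < 1) → a ≠ 0 → t.v (c' / c) ≤ 1 := by
    intro a b c c' hc hc' ha hb ha0
    obtain ⟨i, hi⟩ := Function.ne_iff.mp ha0
    have h1 := v_le_one_of_close (ha i)
    have h2 : t.v (c * x i) = 1 := by
      rw [← t.val_ne_zero_iff hL h1, t.val_eq (ha i)]
      exact hi
    have h3 := v_le_one_of_close (hb i)
    have h4 : c' * x i = (c' / c) * (c * x i) := by field_simp
    rw [h4, map_mul, h2, mul_one] at h3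
    exact h3
  have h1 := aux hc hc' ha hb ha0
  have h2 := aux hc' hc hb ha hb0
  have h3 : t.v (c' / c) = 1 := by
    apply le_antisymm h1
    have h4 : c / c' = (c' / c)⁻¹ := by rw [inv_div]
    rw [h4, map_inv₀] at h2
    exact (inv_le_one₀ (zero_lt_iff.mpr (Place.v_ne_zero (div_ne_zero hc' hc)))).mp h2
  refine ⟨t.val (c' / c), (t.val_ne_zero_iff hL h3.le).mpr h3, ?_⟩
  funext i
  have h4 : c' * x i = (c' / c) * (c * x i) := by field_simp
  have h5 := t.val_mul hL h3.le (v_le_one_of_close (ha i))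
  rw [← h4, t.val_eq (hb i), t.val_eq (ha i)] at h5
  exact h5

include hL in
lemma IsValue.unique {ι : Type*} {x : ι → L} {a b : ι → k} (ha : IsValue t x a)
    (hb : IsValue t x b) : ∃ γ : k, γ ≠ 0 ∧ b = γ • a := by
  obtain ⟨ha0, c, hc, h1⟩ := ha
  obtain ⟨hb0, c', hc', h2⟩ := hb
  exact scale_unique hL t hc hc' h1 h2 ha0 hb0

include hL in
lemma exists_isValue {ι : Type*} [Fintype ι] {x : ι → L} (hx : x ≠ 0) :
    ∃ a, IsValue t x a := by
  have hne : Nonempty ι := by
    obtain ⟨i, -⟩ := Function.ne_iff.mp hx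
    exact ⟨i⟩
  obtain ⟨i, hi0, hi⟩ := t.exists_ord_eq hx
  have hle : ∀ j, t.v ((x i)⁻¹ * x j) ≤ 1 := by
    intro j
    by_cases hj : x j = 0
    · rw [hj, mul_zero, map_zero]; exact zero_le
    · rw [Place.v_le_one_iff (mul_ne_zero (inv_ne_zero hi0) hj),
        Place.ord_mul (inv_ne_zero hi0) hj, Place.ord_inv, hi]
      have := t.ordv_le_ord hj
      linarith
  refine ⟨fun j => t.val ((x i)⁻¹ * x j), ?_, (x i)⁻¹, inv_ne_zero hi0, fun j =>
    t.val_spec hL (hle j)⟩
  intro h0
  have := congrFun h0 i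
  rw [inv_mul_cancel₀ hi0, t.val_one] at this
  exact one_ne_zero this

include hL in
lemma isValue_val {ι : Type*} [Fintype ι] {x : ι → L} (h : t.vsup x = 1) :
    IsValue t x (fun i => t.val (x i)) := by
  refine ⟨val_ne_zero_of_vsup hL t h, 1, one_ne_zero, fun i => ?_⟩
  rw [one_mul]
  exact t.val_spec hL (h ▸ t.le_vsup x i)

omit [IsAlgClosed k] in
lemma IsGoodSpec.isHomogeneous {t : Place k L} {ι : Type*} {F : ι → MvPolynomial ι L}
    {G : ι → MvPolynomial ι k} (h : IsGoodSpec t F G) {d : ℕ}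
    (hF : ∀ i, (F i).IsHomogeneous d) (i : ι) : (G i).IsHomogeneous d := by
  obtain ⟨⟨c, -, hc⟩, -⟩ := h
  intro m hm
  apply hF i
  intro h0
  have h1 := hc i m
  rw [h0, mul_zero, zero_sub, Valuation.map_neg, t.v_algebraMap_lt_iff] at h1
  exact hm h1

include hL in
/-- Good specialisations are compatible with evaluation. -/
lemma IsValue.pmap {ι : Type*} [Fintype ι] {F : ι → MvPolynomial ι L}
    {G : ι → MvPolynomial ι k} {d : ℕ} (hF : ∀ i, (F i).IsHomogeneous d)
    (hG : IsGoodSpec t F G) {x : ι → L} {a : ι → k} (h : IsValue t x a) :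
    IsValue t (VCH.pmap F x) (VCH.pmap G a) := by
  obtain ⟨⟨c0, hc0, h0⟩, hgood⟩ := hG
  obtain ⟨ha0, c, hc, h1⟩ := h
  refine ⟨fun hz => ha0 (hgood a fun i => congrFun hz i), c0 * c ^ d,
    mul_ne_zero hc0 (pow_ne_zero _ hc), fun i => ?_⟩
  have e1 : c0 * c ^ d * VCH.pmap F x i = MvPolynomial.eval (c • x)
      (MvPolynomial.C c0 * F i) := by
    have := congrFun (pmap_smul hF c x) i
    rw [Pi.smul_apply, smul_eq_mul] at this
    rw [map_mul, MvPolynomial.eval_C, mul_assoc, ← this]
    rfl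
  obtain ⟨F', hF'⟩ := exists_lift_map (algebraMap t.ring L) (MvPolynomial.C c0 * F i)
    (fun m _ => ⟨⟨_, v_le_one_of_close (h0 i m)⟩, by
      rw [MvPolynomial.coeff_C_mul]; rfl⟩)
  let x' : ι → t.ring := fun j => ⟨c * x j, v_le_one_of_close (h1 j)⟩
  have e2 : MvPolynomial.eval (c • x) (MvPolynomial.C c0 * F i) =
      algebraMap t.ring L (MvPolynomial.eval x' F') := by
    rw [← hF', MvPolynomial.map_eval]
    rfl
  let tR : t.ring →ₐ[k] k := t.hom hL (fun φ => φ.2)
  have e3 : tR (MvPolynomial.eval x' F') = VCH.pmap G a i := by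
    have e4 := MvPolynomial.map_eval (tR : t.ring →+* k) x' F'
    refine Eq.trans e4 ?_
    have e5 : (fun j => (tR : t.ring →+* k) (x' j)) = a := by
      funext j
      exact t.val_eq (h1 j)
    have e6 : MvPolynomial.map (tR : t.ring →+* k) F' = G i := by
      ext m
      rw [MvPolynomial.coeff_map]
      have e7 : (tR : t.ring →+* k) (MvPolynomial.coeff m F') =
          t.val (algebraMap t.ring L (MvPolynomial.coeff m F')) := rfl
      rw [e7, ← MvPolynomial.coeff_map, hF', MvPolynomial.coeff_C_mul]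
      exact t.val_eq (h0 i m)
    rw [e6]
    unfold VCH.pmap
    congr 1
    exact congrArg _ e5
  rw [e1, e2]
  have h8 := t.val_spec hL (φ := algebraMap t.ring L (MvPolynomial.eval x' F'))
    (MvPolynomial.eval x' F').2
  rw [← e3]
  exact h8

end value

end Pool.Agent.VCH
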