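import Pool.Agent.Lib.MP_30aac3_nt.Value

/-!
Weil heights for real divisors.
-/

set_option linter.unusedSectionVars false

open Filter WithZero Topology

namespace Pool.Agent.VCH

section weil

variable {L : Type} [Field L] [Algebra Qb L] (hL : IsFunField Qb L)

include hL in
lemma absHt_value_eq {ι : Type} [Finite ι] {t : Place Qb L} {x : ι → L} {a b : ι → Qb}
    (ha : IsValue t x a) (hb : IsValue t x b) : absHt a = absHt b := by
  obtain ⟨γ, hγ, rfl⟩ := ha.unique hL t hb
  exact (absHt_smul hγ a).symm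

open Classical in
/-- height of the value. -/
noncomputable def htVal {ι : Type} [Finite ι] (x : ι → L) (t : Place Qb L) : ℝ :=
  if h : ∃ a, IsValue t x a then absHt h.choose else 0

include hL in
lemma htVal_eq {ι : Type} [Finite ι] {t : Place Qb L} {x : ι → L} {a : ι → Qb}
    (ha : IsValue t x a) : htVal x t = absHt a := by
  have h : ∃ a, IsValue t x a := ⟨a, ha⟩
  unfold htVal
  rw [dif_pos h]
  exact absHt_value_eq hL h.choose_spec ha

include hL in
lemma isWeil_base {n : ℕ} (φ : Fin (n + 1) → L) (ℓ : Fin (n + 1) → Qb)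
    (h : ∑ i, algebraMap Qb L (ℓ i) * φ i ≠ 0) :
    IsWeilHeight (fun s => (pullDiv s φ ℓ : ℝ)) (htVal φ) := by
  refine ⟨Unit, inferInstance, fun _ => n, fun _ => 1, fun _ => φ, fun _ => ℓ, 0,
    fun _ => h, fun s => by simp, fun t a ha => ?_⟩
  rw [htVal_eq hL (ha ())]
  simp

lemma isWeil_zero : IsWeilHeight (L := L) (fun _ => 0) (fun _ => 0) := by
  refine ⟨Empty, inferInstance, fun e => e.elim, fun e => e.elim, fun e => e.elim,
    fun e => e.elim, 0, fun e => e.elim, fun s => by simp, fun t a _ => by simp⟩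

lemma isWeil_smul (r : ℝ) {D g : Place Qb L → ℝ} (h : IsWeilHeight D g) :
    IsWeilHeight (fun s => r * D s) (fun t => r * g t) := by
  obtain ⟨J, hJ, n, c, φ, ℓ, C, h1, h2, h3⟩ := h
  refine ⟨J, hJ, n, fun j => r * c j, φ, ℓ, |r| * C, h1, fun s => ?_, fun t a ha => ?_⟩
  · show r * D s = _
    rw [h2 s, Finset.mul_sum]
    refine Finset.sum_congr rfl fun j _ => by ring
  · have e : r * g t - ∑ j, r * c j * absHt (a j) = r * (g t - ∑ j, c j * absHt (a j)) := by
      rw [mul_sub, Finset.mul_sum]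
      congr 1
      refine Finset.sum_congr rfl fun j _ => by ring
    show |r * g t - ∑ j, r * c j * absHt (a j)| ≤ _
    rw [e, abs_mul]
    exact mul_le_mul_of_nonneg_left (h3 t a ha) (abs_nonneg r)

lemma isWeil_add {D g D' g' : Place Qb L → ℝ} (h : IsWeilHeight D g)
    (h' : IsWeilHeight D' g') : IsWeilHeight (fun s => D s + D' s) (fun t => g t + g' t) := by
  obtain ⟨J, hJ, n, c, φ, ℓ, C, h1, h2, h3⟩ := h
  obtain ⟨J', hJ', n', c', φ', ℓ', C', h1', h2', h3'⟩ := h'
  refine ⟨J ⊕ J', inferInstance, Sum.elim n n', Sum.elim c c',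
    fun j => match j with
      | Sum.inl j => φ j
      | Sum.inr j => φ' j,
    fun j => match j with
      | Sum.inl j => ℓ j
      | Sum.inr j => ℓ' j, C + C', ?_, fun s => ?_, fun t a ha => ?_⟩
  · rintro (j | j)
    · exact h1 j
    · exact h1' j
  · show D s + D' s = _
    rw [h2 s, h2' s, Fintype.sum_sum_type]
    rfl
  · have e1 := h3 t (fun j => a (Sum.inl j)) fun j => ha (Sum.inl j)
    have e2 := h3' t (fun j => a (Sum.inr j)) fun j => ha (Sum.inr j)
    show |g t + g' t - _| ≤ _
    rw [Fintype.sum_sum_type]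
    have e : g t + g' t - (∑ j, Sum.elim c c' (Sum.inl j) * absHt (a (Sum.inl j)) +
        ∑ j, Sum.elim c c' (Sum.inr j) * absHt (a (Sum.inr j))) =
        (g t - ∑ j, c j * absHt (a (Sum.inl j))) +
          (g' t - ∑ j, c' j * absHt (a (Sum.inr j))) := by
      simp only [Sum.elim_inl, Sum.elim_inr]
      ring
    rw [e]
    exact (abs_add_le _ _).trans (add_le_add e1 e2)

lemma isWeil_sum {α : Type*} (S : Finset α) {D g : α → Place Qb L → ℝ}
    (h : ∀ i ∈ S, IsWeilHeight (D i) (g i)) :
    IsWeilHeight (fun s => ∑ i ∈ S, D i s) (fun t => ∑ i ∈ S, g i t) := by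
  classical
  induction S using Finset.induction with
  | empty => simpa using isWeil_zero
  | insert i S hi ih =>
    simp only [Finset.sum_insert hi]
    exact isWeil_add (h i (Finset.mem_insert_self _ _))
      (ih fun j hj => h j (Finset.mem_insert_of_mem hj))

include hL in
/-- principal divisors have bounded heights. -/
lemma isWeil_principal {z : L} (hz : z ≠ 0) :
    IsWeilHeight (fun s => (s.ord z : ℝ)) (fun _ => 0) := by
  have h1 := isWeil_base hL ![1, z] ![0, 1] (by simpa using hz)
  have h2 := isWeil_base hL ![1, z] ![1, 0] (by simp)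
  have h3 := isWeil_add h1 (isWeil_smul (-1) h2)
  have e1 : (fun s : Place Qb L => (pullDiv s ![1, z] ![0, 1] : ℝ) +
      -1 * (pullDiv s ![1, z] ![1, 0] : ℝ)) = fun s => (s.ord z : ℝ) := by
    funext s
    simp [pullDiv]
  have e2 : (fun t : Place Qb L => htVal ![1, z] t + -1 * htVal ![1, z] t) = fun _ => 0 := by
    funext t
    ring
  rw [e1, e2] at h3
  exact h3

include hL in
/-- the divisor `-min ord`. -/
lemma isWeil_ordv {n : ℕ} {φ : Fin (n + 1) → L} (hφ : φ ≠ 0) :
    IsWeilHeight (fun s => -(s.ordv φ : ℝ)) (htVal φ) := by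
  obtain ⟨i, hi⟩ := Function.ne_iff.mp hφ
  have hsum : ∑ j, algebraMap Qb L ((Pi.single i 1 : Fin (n + 1) → Qb) j) * φ j = φ i := by
    rw [Finset.sum_eq_single i]
    · simp
    · intro j _ hj
      rw [Pi.single_eq_of_ne hj, map_zero, zero_mul]
    · intro h; exact absurd (Finset.mem_univ _) h
  have h1 := isWeil_base hL φ (Pi.single i 1) (by rw [hsum]; exact hi)
  have h2 := isWeil_add h1 (isWeil_smul (-1) (isWeil_principal hL hi))
  have e1 : (fun s : Place Qb L => (pullDiv s φ (Pi.single i 1) : ℝ) +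
      -1 * (s.ord (φ i) : ℝ)) = fun s => -(s.ordv φ : ℝ) := by
    funext s
    unfold pullDiv
    rw [hsum]
    push_cast
    ring
  have e2 : (fun t : Place Qb L => htVal φ t + -1 * 0) = htVal φ := by
    funext t
    ring
  rw [e1, e2] at h2
  exact h2

end weil

section span

/-- A limit of vectors in a finite-dimensional space is a finite combination of them. -/
lemma exists_finsupp_of_tendsto {S : Type*} [Finite S] (e : ℕ → S → ℝ) {l : S → ℝ}
    (h : Tendsto e atTop (𝓝 l)) : ∃ c : ℕ →₀ ℝ, ∀ s, l s = ∑ m ∈ c.support, c m * e m s := by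
  have := Fintype.ofFinite S
  have hcl : IsClosed ((Submodule.span ℝ (Set.range e) : Submodule ℝ (S → ℝ)) : Set (S → ℝ)) :=
    Submodule.closed_of_finiteDimensional _
  have hmem : l ∈ Submodule.span ℝ (Set.range e) :=
    hcl.mem_of_tendsto h (Filter.Eventually.of_forall fun m =>
      Submodule.subset_span ⟨m, rfl⟩)
  rw [Finsupp.mem_span_range_iff_exists_finsupp] at hmem
  obtain ⟨c, hc⟩ := hmem
  refine ⟨c, fun s => ?_⟩
  rw [← hc, Finsupp.sum, Finset.sum_apply]
  refine Finset.sum_congr rfl fun m _ => ?_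
  simp

end span

end Pool.Agent.VCH
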